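import Mathlib

/-!
# Truncated Toeplitz operators: definitions

The circle is `UnitAddCircle = ℝ/ℤ` with coordinate `z = fourier 1`, that is
`z(t) = exp(2πit)`, and with normalised Haar measure.
-/

open MeasureTheory AddCircle

namespace Pool.Agent.X23.TTO

/-- `L²` of the unit circle with normalised arc length measure. -/
def L2 : Type := Lp ℂ 2 (haarAddCircle : Measure UnitAddCircle)

noncomputable instance lN : NormedAddCommGroup L2 :=
  (inferInstance : NormedAddCommGroup (Lp ℂ 2 (haarAddCircle : Measure UnitAddCircle)))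

noncomputable instance lI : InnerProductSpace ℂ L2 :=
  (inferInstance : InnerProductSpace ℂ (Lp ℂ 2 (haarAddCircle : Measure UnitAddCircle)))

/-- A member of `L²` as a member of Mathlib's `Lp`. -/
def asLp (f : L2) : Lp ℂ 2 (haarAddCircle : Measure UnitAddCircle) := f

/-- The value of a function in `L²` at a point (well defined almost everywhere). -/
noncomputable def val (f : L2) (t : UnitAddCircle) : ℂ := (asLp f : UnitAddCircle → ℂ) t

/-- `f` belongs to the Hardy space `H²`: its Fourier coefficients of negative index vanish. -/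
def InH2 (f : L2) : Prop := ∀ k : ℤ, k < 0 → fourierCoeff (val f) k = 0

/-- `Θ` is a nonconstant inner function. -/
def IsInner (Θ : L2) : Prop :=
  InH2 Θ ∧ (∀ᵐ t ∂haarAddCircle, ‖val Θ t‖ = 1) ∧
    ¬ ∃ c : ℂ, ∀ᵐ t ∂haarAddCircle, val Θ t = c

/-- `f` belongs to the model space `K_Θ = H² ⊖ Θ H²`. -/
def InModel (Θ f : L2) : Prop :=
  InH2 f ∧ ∀ h : L2, InH2 h →
    ∫ t, val f t * star (val Θ t * val h t) ∂haarAddCircle = 0

/-- `f` is essentially bounded. -/
def IsBdd (f : L2) : Prop := ∃ C : ℝ, ∀ᵐ t ∂haarAddCircle, ‖val f t‖ ≤ C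

/-- The bounded operator `T` is unitarily equivalent to the truncated Toeplitz operator
`A_φ^Θ`: there is a unitary `U` from `H` onto `K_Θ` with `⟨U T x, U y⟩ = ⟨φ (U x), U y⟩` for all
`x` such that `U x` is bounded and all `y`. -/
def IsTTO {H : Type} [NormedAddCommGroup H] [InnerProductSpace ℂ H] (T : H →L[ℂ] H)
    (Θ φ : L2) : Prop :=
  ∃ U : H →ₗᵢ[ℂ] L2, (∀ f : L2, (∃ x, U x = f) ↔ InModel Θ f) ∧
    ∀ x y : H, IsBdd (U x) →
      ∫ t, val (U (T x)) t * star (val (U y) t) ∂haarAddCircle =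
        ∫ t, (val φ t * val (U x) t) * star (val (U y) t) ∂haarAddCircle

/-- `T` is unitarily equivalent to a truncated Toeplitz operator. -/
def IsUETTO {H : Type} [NormedAddCommGroup H] [InnerProductSpace ℂ H] (T : H →L[ℂ] H) : Prop :=
  ∃ Θ φ : L2, IsInner Θ ∧ IsTTO T Θ φ

/-- The Hilbert space `ℂⁿ`. -/
def Cn (n : ℕ) : Type := EuclideanSpace ℂ (Fin n)

noncomputable instance iN (n : ℕ) : NormedAddCommGroup (Cn n) :=
  (inferInstance : NormedAddCommGroup (EuclideanSpace ℂ (Fin n)))

noncomputable instance iI (n : ℕ) : InnerProductSpace ℂ (Cn n) :=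
  (inferInstance : InnerProductSpace ℂ (EuclideanSpace ℂ (Fin n)))

/-- The Hilbert space direct sum `H ⊕ ℂ`. -/
def Plus (H : Type) : Type := WithLp 2 (H × ℂ)

noncomputable instance pN (H : Type) [NormedAddCommGroup H] : NormedAddCommGroup (Plus H) :=
  (inferInstance : NormedAddCommGroup (WithLp 2 (H × ℂ)))

noncomputable instance pI (H : Type) [NormedAddCommGroup H] [InnerProductSpace ℂ H] :
    InnerProductSpace ℂ (Plus H) :=
  (inferInstance : InnerProductSpace ℂ (WithLp 2 (H × ℂ)))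

/-- The vector `x ⊕ c` of `H ⊕ ℂ`. -/
def pair {H : Type} (x : H) (c : ℂ) : Plus H := WithLp.toLp 2 (x, c)

/-- `S = T ⊕ 0`. -/
def IsSumZero {H : Type} [NormedAddCommGroup H] [InnerProductSpace ℂ H] (T : H →L[ℂ] H)
    (S : Plus H →L[ℂ] Plus H) : Prop :=
  ∀ (x : H) (c : ℂ), S (pair x c) = pair (T x) 0

end Pool.Agent.X23.TTO
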