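import Mathlib
import Pool.Agent.X23.TTODefs

/-!
# Truncated Toeplitz operators: Fourier coefficients and shifts
-/

open MeasureTheory AddCircle
open scoped ComplexConjugate ENNReal

namespace Pool.Agent.X23.TTO

/-- normalised Lebesgue measure on the circle. -/
noncomputable abbrev mu : Measure UnitAddCircle := haarAddCircle

theorem ext_ae {f g : L2} (h : val f =ᵐ[mu] val g) : f = g := by
  have : asLp f = asLp g := Lp.ext h
  exact this

theorem memLp_val (f : L2) : MemLp (val f) 2 mu := Lp.memLp (asLp f)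

theorem add_ae (f g : L2) : val (f + g) =ᵐ[mu] fun t => val f t + val g t :=
  Lp.coeFn_add (asLp f) (asLp g)

theorem smul_ae (c : ℂ) (f : L2) : val (c • f) =ᵐ[mu] fun t => c * val f t := by
  have := Lp.coeFn_smul c (asLp f)
  filter_upwards [this] with t ht
  change (c • asLp f : Lp ℂ 2 mu) t = _
  rw [ht]
  rfl

theorem zero_ae : val (0 : L2) =ᵐ[mu] fun _ => 0 := Lp.coeFn_zero ℂ 2 mu

theorem inner_eq (f g : L2) : inner ℂ f g = ∫ t, val g t * star (val f t) ∂mu := by
  have : inner ℂ f g = inner ℂ (asLp f) (asLp g) := rfl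
  rw [this, L2.inner_def]
  rfl

/-- the element of `L²` given by a square integrable function -/
noncomputable def mk (F : UnitAddCircle → ℂ) (hF : MemLp F 2 mu) : L2 := hF.toLp F

theorem mk_ae (F : UnitAddCircle → ℂ) (hF : MemLp F 2 mu) : val (mk F hF) =ᵐ[mu] F :=
  hF.coeFn_toLp

theorem exists_mul (g : UnitAddCircle → ℂ) (hg : AEStronglyMeasurable g mu) (C : ℝ)
    (hC : ∀ᵐ t ∂mu, ‖g t‖ ≤ C) (f : L2) : ∃ h : L2, val h =ᵐ[mu] fun t => g t * val f t := by
  have h1 : MemLp g ∞ mu := memLp_top_of_bound hg C hC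
  have h2 : MemLp (fun t => g t * val f t) 2 mu := (memLp_val f).mul' h1
  exact ⟨mk _ h2, mk_ae _ h2⟩

theorem norm_fourier_apply (m : ℤ) (t : UnitAddCircle) : ‖fourier m t‖ = 1 := by
  rw [fourier_apply]
  exact Circle.norm_coe _

theorem fourier_mul_star (m : ℤ) (t : UnitAddCircle) :
    (fourier m t : ℂ) * star (fourier m t : ℂ) = 1 := by
  have := Complex.mul_conj (fourier m t : ℂ)
  rw [Complex.normSq_eq_norm_sq, norm_fourier_apply] at this
  simpa using this

theorem exists_shift (m : ℤ) (f : L2) :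
    ∃ h : L2, val h =ᵐ[mu] fun t => (fourier m t : ℂ) * val f t :=
  exists_mul _ (fourier m).continuous.aestronglyMeasurable 1
    (Filter.Eventually.of_forall fun t => (norm_fourier_apply m t).le) f

/-- multiplication by `z ^ m` -/
noncomputable def sh (m : ℤ) (f : L2) : L2 := (exists_shift m f).choose

theorem sh_ae (m : ℤ) (f : L2) : val (sh m f) =ᵐ[mu] fun t => (fourier m t : ℂ) * val f t :=
  (exists_shift m f).choose_spec

/-- the function `z ^ m` -/
noncomputable def e (m : ℤ) : L2 := fourierLp 2 m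

theorem e_ae (m : ℤ) : val (e m) =ᵐ[mu] fourier m := coeFn_fourierLp 2 m

theorem inner_e (m : ℤ) (f : L2) : inner ℂ (e m) f = fourierCoeff (val f) m := by
  rw [inner_eq]
  unfold fourierCoeff
  apply integral_congr_ae
  filter_upwards [e_ae m] with t ht
  rw [ht, fourier_neg, smul_eq_mul, mul_comm]
  rfl

theorem orthonormal_e : Orthonormal ℂ e := by
  have h : Orthonormal ℂ (fourierLp (T := (1 : ℝ)) 2) := orthonormal_fourier
  exact h

theorem coeff_e (m k : ℤ) : fourierCoeff (val (e m)) k = if k = m then 1 else 0 := by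
  rw [← inner_e]
  exact orthonormal_iff_ite.mp orthonormal_e k m

theorem eq_zero_of_coeff (f : L2) (h : ∀ k, fourierCoeff (val f) k = 0) : f = 0 := by
  have : fourierBasis.repr (asLp f) = 0 := by
    ext k
    rw [fourierBasis_repr]
    exact h k
  have h2 : asLp f = 0 := by
    rwa [LinearIsometryEquiv.map_eq_zero_iff] at this
  exact h2

theorem orth_of_coeff (f h : L2)
    (hk : ∀ k, fourierCoeff (val f) k = 0 ∨ fourierCoeff (val h) k = 0) :
    ∫ t, val f t * star (val h t) ∂mu = 0 := by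
  rw [← inner_eq]
  have h1 := (fourierBasis (T := (1 : ℝ))).tsum_inner_mul_inner (asLp h) (asLp f)
  have h2 : inner ℂ h f = inner ℂ (asLp h) (asLp f) := rfl
  rw [h2, ← h1]
  have h3 : ∀ i : ℤ, inner ℂ (asLp h) (fourierBasis i) * inner ℂ (fourierBasis i) (asLp f) = 0 := by
    intro i
    rw [← HilbertBasis.repr_apply_apply, fourierBasis_repr]
    have h4 : inner ℂ (asLp h) (fourierBasis i) =
        conj (fourierCoeff (val h) i) := by
      rw [← inner_conj_symm, ← HilbertBasis.repr_apply_apply, fourierBasis_repr]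
      rfl
    rcases hk i with hi | hi
    · have : fourierCoeff (asLp f : UnitAddCircle → ℂ) i = 0 := hi
      rw [this, mul_zero]
    · rw [h4, hi, map_zero, zero_mul]
  simp only [h3, tsum_zero]

theorem coeff_sh (m k : ℤ) (f : L2) :
    fourierCoeff (val (sh m f)) k = fourierCoeff (val f) (k - m) := by
  unfold fourierCoeff
  apply integral_congr_ae
  filter_upwards [sh_ae m f] with t ht
  rw [ht, smul_eq_mul, smul_eq_mul, ← mul_assoc, ← fourier_add]
  congr 3
  ring

/-- the Fourier coefficients of `conj Θ · f` -/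
noncomputable def dk (Θ : L2) (k : ℤ) (f : L2) : ℂ := inner ℂ (sh k Θ) f

theorem dk_eq (Θ : L2) (k : ℤ) (f : L2) :
    dk Θ k f = fourierCoeff (fun t => star (val Θ t) * val f t) k := by
  rw [dk, inner_eq]
  unfold fourierCoeff
  apply integral_congr_ae
  filter_upwards [sh_ae k Θ] with t ht
  rw [ht, fourier_neg, smul_eq_mul, star_mul']
  change _ * (conj _ * _) = _
  ring

theorem dk_sh (Θ : L2) (m k : ℤ) (f : L2) : dk Θ k (sh m f) = dk Θ (k - m) f := by
  rw [dk_eq, dk_eq]
  unfold fourierCoeff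
  apply integral_congr_ae
  filter_upwards [sh_ae m f] with t ht
  rw [ht]
  have : (fourier (-(k - m)) t : ℂ) = fourier (-k) t * fourier m t := by
    rw [← fourier_add]
    congr 2
    ring
  rw [this, smul_eq_mul, smul_eq_mul]
  ring

theorem dk_e (Θ : L2) (m k : ℤ) : dk Θ k (e m) = conj (fourierCoeff (val Θ) (m - k)) := by
  have h : inner ℂ (sh k Θ) (e m) = conj (inner ℂ (e m) (sh k Θ)) :=
    (inner_conj_symm (𝕜 := ℂ) (sh k Θ) (e m)).symm
  rw [dk, h, inner_e, coeff_sh]

theorem bdd_sh {f : L2} (hf : IsBdd f) (m : ℤ) : IsBdd (sh m f) := by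
  obtain ⟨C, hC⟩ := hf
  refine ⟨C, ?_⟩
  filter_upwards [hC, sh_ae m f] with t h1 h2
  rw [h2, norm_mul, norm_fourier_apply, one_mul]
  exact h1

/-- the subspace of bounded functions -/
def bddSub : Submodule ℂ L2 where
  carrier := {f | IsBdd f}
  add_mem' := by
    rintro f g ⟨C, hC⟩ ⟨D, hD⟩
    refine ⟨C + D, ?_⟩
    filter_upwards [hC, hD, add_ae f g] with t h1 h2 h3
    rw [h3]
    exact (norm_add_le _ _).trans (add_le_add h1 h2)
  zero_mem' := ⟨0, by filter_upwards [zero_ae] with t ht; rw [ht, norm_zero]⟩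
  smul_mem' := by
    rintro c f ⟨C, hC⟩
    refine ⟨‖c‖ * C, ?_⟩
    filter_upwards [hC, smul_ae c f] with t h1 h2
    rw [h2, norm_mul]
    exact mul_le_mul_of_nonneg_left h1 (norm_nonneg _)

theorem bdd_e (m : ℤ) : IsBdd (e m) :=
  ⟨1, by filter_upwards [e_ae m] with t ht; rw [ht, norm_fourier_apply]⟩

/-- `conj Θ f` as an element of `L²` -/
theorem exists_conj_mul (Θ f : L2) (hΘ : IsInner Θ) :
    ∃ h : L2, val h =ᵐ[mu] fun t => star (val Θ t) * val f t := by
  refine exists_mul _ ?_ 1 ?_ f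
  · exact (memLp_val Θ).1.star
  · filter_upwards [hΘ.2.1] with t ht
    rw [norm_star, ht]

theorem eq_zero_of_dk (Θ f : L2) (hΘ : IsInner Θ) (h : ∀ k, dk Θ k f = 0) : f = 0 := by
  obtain ⟨g, hg⟩ := exists_conj_mul Θ f hΘ
  have hg0 : g = 0 := by
    apply eq_zero_of_coeff
    intro k
    rw [fourierCoeff_congr_ae hg, ← dk_eq]
    exact h k
  apply ext_ae
  filter_upwards [hg, hΘ.2.1, zero_ae] with t h1 h2 h3
  rw [hg0, h3] at h1
  rw [h3]
  have h4 : star (val Θ t) ≠ 0 := by
    intro h5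
    have : ‖star (val Θ t)‖ = 0 := by rw [h5, norm_zero]
    rw [norm_star, h2] at this
    exact one_ne_zero this
  exact (mul_eq_zero.mp h1.symm).resolve_left h4

theorem model_iff (Θ f : L2) (hΘ : IsInner Θ) :
    InModel Θ f ↔ (∀ k : ℤ, k < 0 → fourierCoeff (val f) k = 0) ∧
      ∀ k : ℤ, 0 ≤ k → dk Θ k f = 0 := by
  constructor
  · rintro ⟨h1, h2⟩
    refine ⟨h1, fun k hk => ?_⟩
    have h3 : InH2 (e k) := by
      intro m hm
      rw [coeff_e, if_neg (by omega)]
    rw [← h2 (e k) h3, dk, inner_eq]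
    apply integral_congr_ae
    filter_upwards [sh_ae k Θ, e_ae k] with t ht1 ht2
    rw [ht1, ht2, mul_comm (val Θ t)]
  · rintro ⟨h1, h2⟩
    refine ⟨h1, fun h hh => ?_⟩
    obtain ⟨g, hg⟩ := exists_conj_mul Θ f hΘ
    have h3 : ∫ t, val f t * star (val Θ t * val h t) ∂mu =
        ∫ t, val g t * star (val h t) ∂mu := by
      apply integral_congr_ae
      filter_upwards [hg] with t ht
      rw [ht, star_mul']
      ring
    rw [h3]
    apply orth_of_coeff
    intro k
    rcases lt_or_ge k 0 with hk | hk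
    · right
      exact hh k hk
    · left
      rw [fourierCoeff_congr_ae hg, ← dk_eq]
      exact h2 k hk

end Pool.Agent.X23.TTO
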