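import Mathlib
import Pool.Agent.X23.TTO1

/-!
# Truncated Toeplitz operators on finite dimensional spaces: the Toeplitz structure
-/

open MeasureTheory AddCircle
open scoped ComplexConjugate ENNReal

namespace Pool.Agent.X23.TTO

/-- the bounded functions `z^(-j-1) (Θ - Σ_{i ≤ j} Θ̂(i) z^i)` -/
noncomputable def G (Θ : L2) (j : ℕ) : L2 :=
  sh (-(j + 1 : ℤ)) Θ - ∑ i ∈ Finset.range (j + 1),
    fourierCoeff (val Θ) i • e (i - j - 1)

/-- the linear functional `f ↦ ⟨g, f⟩` -/
noncomputable def fn (g : L2) : L2 →ₗ[ℂ] ℂ where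
  toFun f := inner ℂ g f
  map_add' := fun x y => inner_add_right g x y
  map_smul' := fun c x => inner_smul_right g x c

theorem fn_apply (g f : L2) : fn g f = inner ℂ g f := rfl

theorem fn_e (k : ℤ) (f : L2) : fn (e k) f = fourierCoeff (val f) k := inner_e k f

theorem fn_dk (Θ : L2) (k : ℤ) (f : L2) : fn (sh k Θ) f = dk Θ k f := rfl

theorem G_coeff (Θ : L2) (hΘ : IsInner Θ) (j : ℕ) (k : ℤ) (hk : k < 0) :
    fourierCoeff (val (G Θ j)) k = 0 := by
  rw [← fn_e, G, map_sub, map_sum]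
  simp only [map_smul, fn_e, coeff_sh, coeff_e, smul_eq_mul, mul_ite, mul_one, mul_zero]
  rcases lt_or_ge (k + j + 1) 0 with h | h
  · have h1 : fourierCoeff (val Θ) (k - -(j + 1 : ℤ)) = 0 := hΘ.1 _ (by omega)
    rw [h1, Finset.sum_eq_zero, sub_zero]
    intro i _
    rw [if_neg (by omega)]
  · obtain ⟨n, hn⟩ := Int.eq_ofNat_of_zero_le h
    have hnj : n ∈ Finset.range (j + 1) := by
      rw [Finset.mem_range]
      omega
    rw [Finset.sum_eq_single_of_mem n hnj, if_pos (by omega)]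
    · have : k - -(j + 1 : ℤ) = (n : ℤ) := by omega
      rw [this, sub_self]
    · intro i _ hi
      rw [if_neg (by omega)]

theorem dk_self (Θ : L2) (hΘ : IsInner Θ) (k : ℤ) (hk : k ≠ 0) : dk Θ k Θ = 0 := by
  have h1 : dk Θ k Θ = inner ℂ (e k) (e 0) := by
    rw [dk, inner_eq, inner_eq]
    apply integral_congr_ae
    filter_upwards [sh_ae k Θ, e_ae k, e_ae 0, hΘ.2.1] with t h1 h2 h3 h4
    have h5 : val Θ t * star (val Θ t) = 1 := by
      have := Complex.mul_conj (val Θ t)
      rw [Complex.normSq_eq_norm_sq, h4] at this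
      simpa using this
    rw [h1, h2, h3, fourier_zero, star_mul', one_mul]
    calc val Θ t * (star (fourier k t : ℂ) * star (val Θ t))
        = (val Θ t * star (val Θ t)) * star (fourier k t : ℂ) := by ring
      _ = _ := by rw [h5, one_mul]
  rw [h1, inner_e, coeff_e, if_neg hk]

theorem G_dk (Θ : L2) (hΘ : IsInner Θ) (j : ℕ) (k : ℤ) (hk : 0 ≤ k) :
    dk Θ k (G Θ j) = 0 := by
  rw [← fn_dk, G, map_sub, map_sum]
  simp only [map_smul, fn_dk, dk_sh, dk_e, smul_eq_mul]
  rw [dk_self Θ hΘ _ (by omega), Finset.sum_eq_zero, sub_zero]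
  intro i hi
  rw [Finset.mem_range] at hi
  rw [hΘ.1 (i - j - 1 - k) (by omega), map_zero, mul_zero]

theorem G_model (Θ : L2) (hΘ : IsInner Θ) (j : ℕ) : InModel Θ (G Θ j) := by
  rw [model_iff Θ _ hΘ]
  exact ⟨G_coeff Θ hΘ j, G_dk Θ hΘ j⟩

theorem G_bdd (Θ : L2) (hΘ : IsInner Θ) (j : ℕ) : IsBdd (G Θ j) := by
  have h1 : IsBdd Θ := ⟨1, by filter_upwards [hΘ.2.1] with t ht; rw [ht]⟩
  have h2 : G Θ j ∈ bddSub := by
    refine bddSub.sub_mem (bdd_sh h1 _) (bddSub.sum_mem fun i _ => bddSub.smul_mem _ (bdd_e _))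
  exact h2

theorem G_inner (Θ : L2) (j : ℕ) (f : L2) (hf : ∀ k : ℤ, k < 0 → fourierCoeff (val f) k = 0) :
    inner ℂ (G Θ j) f = dk Θ (-(j + 1 : ℤ)) f := by
  have h1 : inner ℂ (G Θ j) f = inner ℂ (sh (-(j + 1 : ℤ)) Θ) f -
      ∑ i ∈ Finset.range (j + 1), conj (fourierCoeff (val Θ) i) * inner ℂ (e (i - j - 1)) f := by
    rw [G]
    have h2 := inner_sub_left (𝕜 := ℂ) (sh (-(j + 1 : ℤ)) Θ) (∑ i ∈ Finset.range (j + 1),
      fourierCoeff (val Θ) i • e (i - j - 1)) f
    refine h2.trans ?_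
    congr 1
    refine (sum_inner (𝕜 := ℂ) _ _ _).trans ?_
    refine Finset.sum_congr rfl fun i _ => ?_
    exact inner_smul_left _ _ _
  rw [h1, Finset.sum_eq_zero, sub_zero]
  · rfl
  · intro i hi
    rw [Finset.mem_range] at hi
    rw [inner_e, hf _ (by omega), mul_zero]

theorem all_bdd {H : Type} [NormedAddCommGroup H] [InnerProductSpace ℂ H] [FiniteDimensional ℂ H]
    (Θ : L2) (hΘ : IsInner Θ) (U : H →ₗᵢ[ℂ] L2) (hU : ∀ f : L2, (∃ x, U x = f) ↔ InModel Θ f)
    (x : H) : IsBdd (U x) := by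
  set B : Submodule ℂ H := bddSub.comap U.toLinearMap with hB
  have hmem : ∀ y : H, y ∈ B ↔ IsBdd (U y) := fun y => Iff.rfl
  have hBtop : Bᗮ = ⊥ := by
    rw [Submodule.eq_bot_iff]
    intro y hy
    have hy1 : InModel Θ (U y) := (hU _).mp ⟨y, rfl⟩
    have hy2 := (model_iff Θ _ hΘ).mp hy1
    have hUy : U y = 0 := by
      apply eq_zero_of_dk Θ _ hΘ
      intro k
      rcases lt_or_ge k 0 with hk | hk
      · obtain ⟨n, hn⟩ := Int.eq_ofNat_of_zero_le (show 0 ≤ -k - 1 by omega)
        have hkn : k = -(n + 1 : ℤ) := by omega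
        obtain ⟨g, hg⟩ := (hU _).mpr (G_model Θ hΘ n)
        have hgB : g ∈ B := by
          rw [hmem, hg]
          exact G_bdd Θ hΘ n
        have h3 : inner ℂ g y = 0 := hy g hgB
        have h4 : inner ℂ (U g) (U y) = 0 := by
          have := U.inner_map_map g y
          exact this.trans h3
        rw [hg] at h4
        rw [hkn, ← G_inner Θ n (U y) hy2.1]
        exact h4
      · exact hy2.2 k hk
    have := U.injective
    apply this
    rw [hUy, map_zero]
  have hBt : B = ⊤ := by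
    rw [← Submodule.orthogonal_eq_bot_iff]
    exact hBtop
  have : x ∈ B := by rw [hBt]; trivial
  exact this

theorem structure4 {H : Type} [NormedAddCommGroup H] [InnerProductSpace ℂ H]
    [FiniteDimensional ℂ H] (hdim : 3 < Module.finrank ℂ H) (T : H →L[ℂ] H) (Θ φ : L2)
    (hΘ : IsInner Θ) (hT : IsTTO T Θ φ) :
    ∃ w : Fin 4 → H, (∀ q : Fin 4 → ℂ, ∑ j, q j • w j = 0 → q = 0) ∧
      (∀ i j : Fin 3, inner ℂ (w i.succ) (w j.succ) = inner ℂ (w i.castSucc) (w j.castSucc)) ∧
      ∀ i j : Fin 3, inner ℂ (w i.succ) (T (w j.succ)) =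
        inner ℂ (w i.castSucc) (T (w j.castSucc)) := by
  obtain ⟨U, hU, hTU⟩ := hT
  -- a vector annihilated by three functionals
  set L : H →ₗ[ℂ] (Fin 3 → ℂ) :=
    LinearMap.pi (fun k : Fin 3 => (fn (sh (-(k + 1 : ℤ)) Θ)).comp U.toLinearMap) with hL
  have hker : LinearMap.ker L ≠ ⊥ := by
    apply LinearMap.ker_ne_bot_of_finrank_lt
    rw [Module.finrank_fin_fun]
    exact hdim
  obtain ⟨x0, hx0, hx0ne⟩ := Submodule.exists_mem_ne_zero_of_ne_bot hker
  have hx0' : ∀ k : Fin 3, dk Θ (-(k + 1 : ℤ)) (U x0) = 0 := by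
    intro k
    have := congrFun (LinearMap.mem_ker.mp hx0) k
    exact this
  set v : L2 := U x0 with hv
  have hvne : v ≠ 0 := by
    intro h
    apply hx0ne
    apply U.injective
    rw [← hv, h, map_zero]
  have hv1 : InModel Θ v := (hU _).mp ⟨x0, rfl⟩
  have hv2 := (model_iff Θ _ hΘ).mp hv1
  have hshift : ∀ j : Fin 4, InModel Θ (sh (j : ℤ) v) := by
    intro j
    rw [model_iff Θ _ hΘ]
    constructor
    · intro k hk
      rw [coeff_sh]
      exact hv2.1 _ (by omega)
    · intro k hk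
      rw [dk_sh]
      rcases lt_or_ge (k - (j : ℤ)) 0 with h | h
      · have hj : (j : ℕ) < 4 := j.2
        obtain ⟨n, hn⟩ := Int.eq_ofNat_of_zero_le (show 0 ≤ -(k - (j : ℤ)) - 1 by omega)
        have hn3 : n < 3 := by omega
        have := hx0' ⟨n, hn3⟩
        have h2 : k - (j : ℤ) = -(((⟨n, hn3⟩ : Fin 3) : ℕ) + 1 : ℤ) := by
          simp only
          omega
        rw [h2]
        exact this
      · exact hv2.2 _ h
  choose w hw using fun j : Fin 4 => (hU _).mpr (hshift j)
  refine ⟨w, ?_, ?_, ?_⟩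
  · -- linear independence
    intro q hq
    have h1 : ∀ k : ℤ, ∑ j : Fin 4, q j * fourierCoeff (val v) (k - (j : ℤ)) = 0 := by
      intro k
      have h2 := congrArg (fun y => fn (e k) (U y)) hq
      simp only [map_sum, map_smul, map_zero, hw, fn_e, coeff_sh, smul_eq_mul] at h2
      exact h2
    have hex : ∃ n : ℕ, fourierCoeff (val v) (n : ℤ) ≠ 0 := by
      by_contra hcon
      push Not at hcon
      apply hvne
      apply eq_zero_of_coeff
      intro k
      rcases lt_or_ge k 0 with hk | hk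
      · exact hv2.1 k hk
      · obtain ⟨n, hn⟩ := Int.eq_ofNat_of_zero_le hk
        rw [hn]
        exact hcon n
    classical
    set m := Nat.find hex with hm
    have hm0 : fourierCoeff (val v) (m : ℤ) ≠ 0 := Nat.find_spec hex
    have hmlt : ∀ k : ℤ, k < m → fourierCoeff (val v) k = 0 := by
      intro k hk
      rcases lt_or_ge k 0 with hk0 | hk0
      · exact hv2.1 k hk0
      · obtain ⟨n, hn⟩ := Int.eq_ofNat_of_zero_le hk0
        have hnm : n < m := by omega
        have := Nat.find_min hex hnm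
        rw [hn]
        exact not_not.mp this
    have e0 := h1 m
    have e1 := h1 (m + 1)
    have e2 := h1 (m + 2)
    have e3 := h1 (m + 3)
    have c0 : ((0 : Fin 4) : ℕ) = 0 := rfl
    have c1 : ((1 : Fin 4) : ℕ) = 1 := rfl
    have c2 : ((2 : Fin 4) : ℕ) = 2 := rfl
    have c3 : ((3 : Fin 4) : ℕ) = 3 := rfl
    rw [Fin.sum_univ_four, c0, c1, c2, c3] at e0 e1 e2 e3
    push_cast at e0 e1 e2 e3
    have z0 : q 0 = 0 := by
      rw [hmlt (m - 1) (by omega), hmlt (m - 2) (by omega), hmlt (m - 3) (by omega), mul_zero,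
        mul_zero, mul_zero, add_zero, add_zero, add_zero, sub_zero] at e0
      exact (mul_eq_zero.mp e0).resolve_right hm0
    have z1 : q 1 = 0 := by
      rw [z0, hmlt (m + 1 - 2) (by omega), hmlt (m + 1 - 3) (by omega), mul_zero,
        mul_zero, zero_mul, add_zero, add_zero, zero_add, add_sub_cancel_right] at e1
      exact (mul_eq_zero.mp e1).resolve_right hm0
    have z2 : q 2 = 0 := by
      rw [z0, z1, hmlt (m + 2 - 3) (by omega), mul_zero,
        zero_mul, zero_mul, add_zero, zero_add, zero_add, add_sub_cancel_right] at e2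
      exact (mul_eq_zero.mp e2).resolve_right hm0
    have z3 : q 3 = 0 := by
      rw [z0, z1, z2, zero_mul, zero_mul, zero_mul, zero_add, zero_add, zero_add,
        add_sub_cancel_right] at e3
      exact (mul_eq_zero.mp e3).resolve_right hm0
    funext i
    fin_cases i <;> simp [z0, z1, z2, z3]
  · intro i j
    have h1 : ∀ a b : Fin 4, inner ℂ (w a) (w b) =
        ∫ t, ((fourier (b : ℤ) t : ℂ) * val v t) * star ((fourier (a : ℤ) t : ℂ) * val v t) ∂mu := by
      intro a b
      have h2 : inner ℂ (U (w a)) (U (w b)) = inner ℂ (w a) (w b) := U.inner_map_map _ _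
      rw [← h2, inner_eq]
      apply integral_congr_ae
      rw [hw, hw]
      filter_upwards [sh_ae (a : ℤ) v, sh_ae (b : ℤ) v] with t ha hb
      rw [ha, hb]
    rw [h1, h1]
    apply integral_congr_ae
    refine Filter.Eventually.of_forall fun t => ?_
    have hi : ((i.succ : Fin 4) : ℤ) = ((i.castSucc : Fin 4) : ℤ) + 1 := by simp
    have hj : ((j.succ : Fin 4) : ℤ) = ((j.castSucc : Fin 4) : ℤ) + 1 := by simp
    simp only [hi, hj, fourier_add, star_mul']
    have := fourier_mul_star 1 t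
    linear_combination ((fourier ((j.castSucc : Fin 4) : ℤ) t : ℂ) * val v t *
      (star (fourier ((i.castSucc : Fin 4) : ℤ) t : ℂ) * star (val v t))) * this
  · intro i j
    have h1 : ∀ a b : Fin 4, inner ℂ (w a) (T (w b)) =
        ∫ t, (val φ t * ((fourier (b : ℤ) t : ℂ) * val v t)) *
          star ((fourier (a : ℤ) t : ℂ) * val v t) ∂mu := by
      intro a b
      have h2 : inner ℂ (U (w a)) (U (T (w b))) = inner ℂ (w a) (T (w b)) := U.inner_map_map _ _
      rw [← h2, inner_eq]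
      refine (hTU (w b) (w a) (all_bdd Θ hΘ U hU _)).trans ?_
      apply integral_congr_ae
      rw [hw, hw]
      filter_upwards [sh_ae (a : ℤ) v, sh_ae (b : ℤ) v] with t ha hb
      rw [ha, hb]
    rw [h1, h1]
    apply integral_congr_ae
    refine Filter.Eventually.of_forall fun t => ?_
    have hi : ((i.succ : Fin 4) : ℤ) = ((i.castSucc : Fin 4) : ℤ) + 1 := by simp
    have hj : ((j.succ : Fin 4) : ℤ) = ((j.castSucc : Fin 4) : ℤ) + 1 := by simp
    simp only [hi, hj, fourier_add, star_mul']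
    have := fourier_mul_star 1 t
    linear_combination (val φ t * (fourier ((j.castSucc : Fin 4) : ℤ) t : ℂ) * val v t *
      (star (fourier ((i.castSucc : Fin 4) : ℤ) t : ℂ) * star (val v t))) * this

end Pool.Agent.X23.TTO
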