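import Mathlib

/-!
# The linear algebra behind `T ⊕ 0`
-/

open scoped ComplexConjugate

namespace Pool.Agent.X23.TTOCore

/-- the functional `p ↦ x((z - b) p)` -/
noncomputable def fA (b : ℝ) (x : Fin 4 → ℂ) : (Fin 3 → ℂ) →ₗ[ℂ] ℂ :=
  ∑ i : Fin 3, (x i.succ - b * x i.castSucc) • LinearMap.proj i

/-- the functional `p ↦ x((1 - b z) p)` -/
noncomputable def fB (b : ℝ) (x : Fin 4 → ℂ) : (Fin 3 → ℂ) →ₗ[ℂ] ℂ :=
  ∑ i : Fin 3, (x i.castSucc - b * x i.succ) • LinearMap.proj i

theorem fA_apply (b : ℝ) (x : Fin 4 → ℂ) (p : Fin 3 → ℂ) :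
    fA b x p = (x 1 - b * x 0) * p 0 + (x 2 - b * x 1) * p 1 + (x 3 - b * x 2) * p 2 := by
  simp [fA, Fin.sum_univ_three]

theorem fB_apply (b : ℝ) (x : Fin 4 → ℂ) (p : Fin 3 → ℂ) :
    fB b x p = (x 0 - b * x 1) * p 0 + (x 1 - b * x 2) * p 1 + (x 2 - b * x 3) * p 2 := by
  simp [fB, Fin.sum_univ_three]

theorem key (b : ℝ) (u v : Fin 4 → ℂ) (p r : Fin 3 → ℂ) :
    conj (fA b u p) * fA b v r - conj (fB b u p) * fB b v r =
      (1 - (b : ℂ) ^ 2) * ∑ i : Fin 3, ∑ j : Fin 3, conj (p i) * r j *
        (conj (u i.succ) * v j.succ - conj (u i.castSucc) * v j.castSucc) := by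
  rw [fA_apply, fA_apply, fB_apply, fB_apply]
  simp only [map_add, map_mul, map_sub, Complex.conj_ofReal, Fin.sum_univ_three]
  have e0 : (0 : Fin 3).succ = 1 := rfl
  have e1 : (1 : Fin 3).succ = 2 := rfl
  have e2 : (2 : Fin 3).succ = 3 := rfl
  have c0 : (0 : Fin 3).castSucc = 0 := rfl
  have c1 : (1 : Fin 3).castSucc = 1 := rfl
  have c2 : (2 : Fin 3).castSucc = 2 := rfl
  rw [e0, e1, e2, c0, c1, c2]
  ring

/-- pairing with a coefficient vector -/
def dot (q x : Fin 4 → ℂ) : ℂ := q 0 * x 0 + q 1 * x 1 + q 2 * x 2 + q 3 * x 3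

/-- the coefficient vector of `(z - b) p - c (1 - b z) p` -/
noncomputable def lc (b : ℝ) (c : ℂ) (p : Fin 3 → ℂ) : Fin 4 → ℂ :=
  ![-b * p 0 - c * p 0, p 0 - b * p 1 - c * (p 1 - b * p 0),
    p 1 - b * p 2 - c * (p 2 - b * p 1), p 2 + c * b * p 2]

theorem dot_lc (b : ℝ) (c : ℂ) (p : Fin 3 → ℂ) (x : Fin 4 → ℂ) :
    dot (lc b c p) x = fA b x p - c * fB b x p := by
  rw [fA_apply, fB_apply]
  simp only [dot, lc, Matrix.cons_val]
  ring

/-- the coefficient vector of `(1 - b z) p` -/
noncomputable def lb (b : ℝ) (p : Fin 3 → ℂ) : Fin 4 → ℂ :=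
  ![p 0, p 1 - b * p 0, p 2 - b * p 1, -b * p 2]

theorem dot_lb (b : ℝ) (p : Fin 3 → ℂ) (x : Fin 4 → ℂ) :
    dot (lb b p) x = fB b x p := by
  rw [fB_apply]
  simp only [dot, lb, Matrix.cons_val]
  ring

/-- `(z - b) p = c (1 - b z) p` forces `p = 0` when `b² ≠ 1`. -/
theorem lc_zero (b : ℝ) (hb : b ^ 2 ≠ 1) (c : ℂ) (p : Fin 3 → ℂ) (h : lc b c p = 0) : p = 0 := by
  have hb' : (1 : ℂ) - (b : ℂ) ^ 2 ≠ 0 := by
    intro h0
    apply hb
    have : ((1 - b ^ 2 : ℝ) : ℂ) = 0 := by push_cast; exact h0
    have := Complex.ofReal_eq_zero.mp this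
    linarith
  have h0 := congrFun h 0
  have h1 := congrFun h 1
  have h2 := congrFun h 2
  have h3 := congrFun h 3
  simp only [lc, Matrix.cons_val, Pi.zero_apply] at h0 h1 h2 h3
  by_cases hc : (1 : ℂ) + c * b = 0
  · -- then `c ≠ -b`
    have hcb : (b : ℂ) + c ≠ 0 := by
      intro h4
      apply hb'
      have : c = -b := by linear_combination h4
      rw [this] at hc
      linear_combination hc
    have p0 : p 0 = 0 := by
      have : ((b : ℂ) + c) * p 0 = 0 := by linear_combination -h0
      exact (mul_eq_zero.mp this).resolve_left hcb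
    have p1 : p 1 = 0 := by
      rw [p0] at h1
      have : ((b : ℂ) + c) * p 1 = 0 := by linear_combination -h1
      exact (mul_eq_zero.mp this).resolve_left hcb
    have p2 : p 2 = 0 := by
      rw [p1] at h2
      have : ((b : ℂ) + c) * p 2 = 0 := by linear_combination -h2
      exact (mul_eq_zero.mp this).resolve_left hcb
    funext i
    fin_cases i <;> simp [p0, p1, p2]
  · have p2 : p 2 = 0 := by
      have : ((1 : ℂ) + c * b) * p 2 = 0 := by linear_combination h3
      exact (mul_eq_zero.mp this).resolve_left hc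
    have p1 : p 1 = 0 := by
      rw [p2] at h2
      have : ((1 : ℂ) + c * b) * p 1 = 0 := by linear_combination h2
      exact (mul_eq_zero.mp this).resolve_left hc
    have p0 : p 0 = 0 := by
      rw [p1] at h1
      have : ((1 : ℂ) + c * b) * p 0 = 0 := by linear_combination h1
      exact (mul_eq_zero.mp this).resolve_left hc
    funext i
    fin_cases i <;> simp [p0, p1, p2]

/-- If `(1 - b z) p_b` is the same nonzero vector for four values of `b`, contradiction. -/
theorem exists_b (x y t s : Fin 4 → ℂ)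
    (hM : ∀ q : Fin 4 → ℂ, dot q x = 0 → dot q s = 0 → dot q y = 0 → dot q t = 0 → q = 0) :
    ∃ b : ℝ, b ^ 2 ≠ 1 ∧ ∀ p : Fin 3 → ℂ, fB b x p = 0 → fB b y p = 0 → fB b t p = 0 → p = 0 := by
  by_contra hcon
  push Not at hcon
  -- normalised kernel vectors
  have hq : ∀ b : ℝ, b ^ 2 ≠ 1 → ∃ q : Fin 4 → ℂ, dot q x = 0 ∧ dot q y = 0 ∧ dot q t = 0 ∧
      dot q s = 1 ∧ q 3 + b * q 2 + b ^ 2 * q 1 + b ^ 3 * q 0 = 0 := by
    intro b hb
    obtain ⟨p, hx, hy, ht, hp⟩ := hcon b hb
    have hs : dot (lb b p) s ≠ 0 := by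
      intro hs
      apply hp
      have h0 := hM (lb b p) (by rw [dot_lb, hx]) hs (by rw [dot_lb, hy]) (by rw [dot_lb, ht])
      have e0 := congrFun h0 0
      have e1 := congrFun h0 1
      have e2 := congrFun h0 2
      simp only [lb, Matrix.cons_val, Pi.zero_apply] at e0 e1 e2
      have p1 : p 1 = 0 := by linear_combination e1 + b * e0
      have p2 : p 2 = 0 := by linear_combination e2 + b * p1
      funext i
      fin_cases i <;> simp [e0, p1, p2]
    refine ⟨fun i => (dot (lb b p) s)⁻¹ * lb b p i, ?_, ?_, ?_, ?_, ?_⟩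
    · have : dot (fun i => (dot (lb b p) s)⁻¹ * lb b p i) x =
          (dot (lb b p) s)⁻¹ * dot (lb b p) x := by simp only [dot]; ring
      rw [this, dot_lb b p x, hx, mul_zero]
    · have : dot (fun i => (dot (lb b p) s)⁻¹ * lb b p i) y =
          (dot (lb b p) s)⁻¹ * dot (lb b p) y := by simp only [dot]; ring
      rw [this, dot_lb b p y, hy, mul_zero]
    · have : dot (fun i => (dot (lb b p) s)⁻¹ * lb b p i) t =
          (dot (lb b p) s)⁻¹ * dot (lb b p) t := by simp only [dot]; ring
      rw [this, dot_lb b p t, ht, mul_zero]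
    · have : dot (fun i => (dot (lb b p) s)⁻¹ * lb b p i) s =
          (dot (lb b p) s)⁻¹ * dot (lb b p) s := by simp only [dot]; ring
      rw [this, inv_mul_cancel₀ hs]
    · simp only [lb, Matrix.cons_val]
      ring
  have huniq : ∀ q q' : Fin 4 → ℂ, dot q x = 0 → dot q y = 0 → dot q t = 0 → dot q s = 1 →
      dot q' x = 0 → dot q' y = 0 → dot q' t = 0 → dot q' s = 1 → q = q' := by
    intro q q' h1 h2 h3 h4 h5 h6 h7 h8
    have hsub : ∀ u, dot (q - q') u = dot q u - dot q' u := by
      intro u
      simp only [dot, Pi.sub_apply]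
      ring
    have := hM (q - q') (by rw [hsub, h1, h5, sub_zero]) (by rw [hsub, h4, h8, sub_self])
      (by rw [hsub, h2, h6, sub_zero]) (by rw [hsub, h3, h7, sub_zero])
    exact sub_eq_zero.mp this
  obtain ⟨q, a1, a2, a3, a4, r0⟩ := hq 0 (by norm_num)
  obtain ⟨q1, b1, b2, b3, b4, r1⟩ := hq (1 / 2) (by norm_num)
  obtain ⟨q2, c1, c2, c3, c4, r2⟩ := hq (1 / 3) (by norm_num)
  obtain ⟨q3, d1, d2, d3, d4, r3⟩ := hq (1 / 4) (by norm_num)
  rw [← huniq q q1 a1 a2 a3 a4 b1 b2 b3 b4] at r1
  rw [← huniq q q2 a1 a2 a3 a4 c1 c2 c3 c4] at r2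
  rw [← huniq q q3 a1 a2 a3 a4 d1 d2 d3 d4] at r3
  push_cast at r0 r1 r2 r3
  have z3 : q 3 = 0 := by linear_combination r0
  have s1 : 4 * q 2 + 2 * q 1 + q 0 = 0 := by linear_combination 8 * r1 - 8 * z3
  have s2 : 9 * q 2 + 3 * q 1 + q 0 = 0 := by linear_combination 27 * r2 - 27 * z3
  have s3 : 16 * q 2 + 4 * q 1 + q 0 = 0 := by linear_combination 64 * r3 - 64 * z3
  have z2 : q 2 = 0 := by linear_combination (s3 - 2 * s2 + s1) / 2
  have z1 : q 1 = 0 := by linear_combination s2 - s1 - 5 * z2
  have z0 : q 0 = 0 := by linear_combination s1 - 4 * z2 - 2 * z1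
  have : dot q s = 0 := by simp only [dot, z0, z1, z2, z3]; ring
  rw [this] at a4
  exact zero_ne_one a4

theorem core (x s y t : Fin 4 → ℂ)
    (hM : ∀ q : Fin 4 → ℂ, dot q x = 0 → dot q s = 0 → dot q y = 0 → dot q t = 0 → q = 0)
    (hG : ∀ i j : Fin 3, conj (x i.succ) * x j.succ + conj (s i.succ) * s j.succ +
      conj (y i.succ) * y j.succ + conj (t i.succ) * t j.succ =
      conj (x i.castSucc) * x j.castSucc + conj (s i.castSucc) * s j.castSucc +
      conj (y i.castSucc) * y j.castSucc + conj (t i.castSucc) * t j.castSucc)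
    (hA : ∀ i j : Fin 3, conj (t i.succ) * t j.succ - conj (x i.succ) * y j.succ =
      conj (t i.castSucc) * t j.castSucc - conj (x i.castSucc) * y j.castSucc) : False := by
  obtain ⟨b, hb, hinj⟩ := exists_b x y t s hM
  -- sesquilinear identities
  have HA : ∀ p r : Fin 3 → ℂ, conj (fA b t p) * fA b t r - conj (fA b x p) * fA b y r =
      conj (fB b t p) * fB b t r - conj (fB b x p) * fB b y r := by
    intro p r
    have k1 := key b t t p r
    have k2 := key b x y p r
    have k3 : ∑ i : Fin 3, ∑ j : Fin 3, conj (p i) * r j *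
        (conj (t i.succ) * t j.succ - conj (t i.castSucc) * t j.castSucc) =
        ∑ i : Fin 3, ∑ j : Fin 3, conj (p i) * r j *
        (conj (x i.succ) * y j.succ - conj (x i.castSucc) * y j.castSucc) := by
      refine Finset.sum_congr rfl fun i _ => Finset.sum_congr rfl fun j _ => ?_
      linear_combination (conj (p i) * r j) * hA i j
    rw [k3] at k1
    linear_combination k1 - k2
  have HG : ∀ p r : Fin 3 → ℂ, conj (fA b x p) * fA b x r + conj (fA b s p) * fA b s r +
      conj (fA b y p) * fA b y r + conj (fA b t p) * fA b t r =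
      conj (fB b x p) * fB b x r + conj (fB b s p) * fB b s r +
      conj (fB b y p) * fB b y r + conj (fB b t p) * fB b t r := by
    intro p r
    have k1 := key b x x p r
    have k2 := key b s s p r
    have k3 := key b y y p r
    have k4 := key b t t p r
    have k5 : (∑ i : Fin 3, ∑ j : Fin 3, conj (p i) * r j *
        (conj (x i.succ) * x j.succ - conj (x i.castSucc) * x j.castSucc)) +
        (∑ i : Fin 3, ∑ j : Fin 3, conj (p i) * r j *
        (conj (s i.succ) * s j.succ - conj (s i.castSucc) * s j.castSucc)) +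
        (∑ i : Fin 3, ∑ j : Fin 3, conj (p i) * r j *
        (conj (y i.succ) * y j.succ - conj (y i.castSucc) * y j.castSucc)) +
        (∑ i : Fin 3, ∑ j : Fin 3, conj (p i) * r j *
        (conj (t i.succ) * t j.succ - conj (t i.castSucc) * t j.castSucc)) = 0 := by
      simp only [← Finset.sum_add_distrib]
      refine Finset.sum_eq_zero fun i _ => Finset.sum_eq_zero fun j _ => ?_
      linear_combination (conj (p i) * r j) * hG i j
    linear_combination k1 + k2 + k3 + k4 + (1 - (b : ℂ) ^ 2) * k5
  -- the dual basis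
  set L : (Fin 3 → ℂ) →ₗ[ℂ] (Fin 3 → ℂ) := LinearMap.pi ![fB b x, fB b y, fB b t] with hL
  have hLinj : Function.Injective L := by
    rw [← LinearMap.ker_eq_bot, LinearMap.ker_eq_bot']
    intro p hp
    have h0 := congrFun hp 0
    have h1 := congrFun hp 1
    have h2 := congrFun hp 2
    simp only [hL, LinearMap.pi_apply, Matrix.cons_val, Pi.zero_apply] at h0 h1 h2
    exact hinj p h0 h1 h2
  have hLsurj : Function.Surjective L := LinearMap.surjective_of_injective hLinj
  obtain ⟨px, hpx⟩ := hLsurj ![1, 0, 0]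
  obtain ⟨py, hpy⟩ := hLsurj ![0, 1, 0]
  obtain ⟨pt, hpt⟩ := hLsurj ![0, 0, 1]
  have xx : fB b x px = 1 := by simpa [hL] using congrFun hpx 0
  have yx : fB b y px = 0 := by simpa [hL] using congrFun hpx 1
  have tx : fB b t px = 0 := by simpa [hL] using congrFun hpx 2
  have xy : fB b x py = 0 := by simpa [hL] using congrFun hpy 0
  have yy : fB b y py = 1 := by simpa [hL] using congrFun hpy 1
  have ty : fB b t py = 0 := by simpa [hL] using congrFun hpy 2
  have xt : fB b x pt = 0 := by simpa [hL] using congrFun hpt 0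
  have yt : fB b y pt = 0 := by simpa [hL] using congrFun hpt 1
  have tt : fB b t pt = 1 := by simpa [hL] using congrFun hpt 2
  -- matrix entries of the form A
  have A_tt := HA pt pt
  have A_ty := HA pt py
  have A_xt := HA px pt
  have A_xy := HA px py
  have A_yt := HA py pt
  have A_yy := HA py py
  have A_tx := HA pt px
  have A_xx := HA px px
  simp only [xx, yx, tx, xy, yy, ty, xt, yt, tt, map_one, map_zero, mul_one, mul_zero, one_mul,
    zero_mul, sub_zero, zero_sub, sub_self] at A_tt A_ty A_xt A_xy A_yt A_yy A_tx A_xx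
  set TAt := fA b t pt
  set TAx := fA b t px
  set TAy := fA b t py
  set XAt := fA b x pt
  set XAx := fA b x px
  set XAy := fA b x py
  set YAt := fA b y pt
  set YAx := fA b y px
  set YAy := fA b y py
  -- determinants
  have hdet : (conj TAt * conj XAx - conj XAt * conj TAx) * (TAt * YAy - TAy * YAt) = 1 := by
    linear_combination (-A_xy) * (conj TAt * TAt - conj XAt * YAt) + (-1 : ℂ) * (-1 : ℂ) * A_tt +
      (conj TAx * TAt - conj XAx * YAt) * A_ty
  have hd1 : (conj TAt * conj XAx - conj XAt * conj TAx) ≠ 0 := left_ne_zero_of_mul_eq_one hdet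
  have hd2 : (TAt * YAy - TAy * YAt) ≠ 0 := right_ne_zero_of_mul_eq_one hdet
  have hTAy : conj TAy = 0 := by
    have : conj TAy * (TAt * YAy - TAy * YAt) = 0 := by
      linear_combination YAy * A_yt - YAt * A_yy
    exact (mul_eq_zero.mp this).resolve_right hd2
  have hXAy : conj XAy = 0 := by
    have : conj XAy * (TAt * YAy - TAy * YAt) = 0 := by
      linear_combination TAy * A_yt - TAt * A_yy
    exact (mul_eq_zero.mp this).resolve_right hd2
  have hTAx : TAx = 0 := by
    have : TAx * (conj TAt * conj XAx - conj XAt * conj TAx) = 0 := by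
      linear_combination conj XAx * A_tx - conj XAt * A_xx
    exact (mul_eq_zero.mp this).resolve_right hd1
  have hYAx : YAx = 0 := by
    have : YAx * (conj TAt * conj XAx - conj XAt * conj TAx) = 0 := by
      linear_combination conj TAx * A_tx - conj TAt * A_xx
    exact (mul_eq_zero.mp this).resolve_right hd1
  have hTAy' : TAy = 0 := by simpa using hTAy
  have hXAy' : XAy = 0 := by simpa using hXAy
  rw [hTAx, map_zero, zero_mul, zero_sub] at A_xy A_xt
  rw [hTAy', mul_zero, zero_sub] at A_ty
  have hcc : conj XAx * YAy = 1 := by linear_combination -A_xy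
  have hXAx0 : conj XAx ≠ 0 := left_ne_zero_of_mul_eq_one hcc
  have hYAy0 : YAy ≠ 0 := right_ne_zero_of_mul_eq_one hcc
  have hYAt : YAt = 0 := by
    have : conj XAx * YAt = 0 := by linear_combination -A_xt
    exact (mul_eq_zero.mp this).resolve_left hXAx0
  have hXAt : conj XAt = 0 := by
    have : conj XAt * YAy = 0 := by linear_combination -A_ty
    exact (mul_eq_zero.mp this).resolve_right hYAy0
  have hXAt' : XAt = 0 := by simpa using hXAt
  rw [hYAt, mul_zero, sub_zero] at A_tt
  -- the gram relations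
  have G_xx := HG px px
  have G_tt := HG pt pt
  have G_xt := HG px pt
  simp only [xx, yx, tx, xy, yy, ty, xt, yt, tt, map_one, map_zero, mul_one, mul_zero, one_mul,
    zero_mul, add_zero, zero_add] at G_xx G_tt G_xt
  change conj XAx * XAx + conj (fA b s px) * fA b s px + conj YAx * YAx + conj TAx * TAx =
    _ at G_xx
  change conj XAt * XAt + conj (fA b s pt) * fA b s pt + conj YAt * YAt + conj TAt * TAt =
    _ at G_tt
  change conj XAx * XAt + conj (fA b s px) * fA b s pt + conj YAx * YAt + conj TAx * TAt =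
    _ at G_xt
  rw [hYAx, hTAx, map_zero, zero_mul, add_zero, add_zero] at G_xx
  rw [hXAt', hYAt, A_tt, map_zero, zero_mul, zero_add, add_zero] at G_tt
  rw [hXAt', hYAt, hTAx, map_zero, zero_mul, mul_zero, mul_zero, zero_add, add_zero,
    add_zero] at G_xt
  have G_tt' : conj (fA b s pt) * fA b s pt = conj (fB b s pt) * fB b s pt := by
    linear_combination G_tt
  by_cases hσ : fB b s pt = 0
  · -- then all functionals of `(A - u B) pt` vanish
    have hσA : fA b s pt = 0 := by
      rw [hσ, mul_zero] at G_tt'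
      have := mul_eq_zero.mp G_tt'
      rcases this with h | h
      · simpa using h
      · exact h
    have h0 := hM (lc b TAt pt) (by rw [dot_lc, xt]; change XAt - _ = 0; rw [hXAt']; ring)
      (by rw [dot_lc, hσ, hσA]; ring)
      (by rw [dot_lc, yt]; change YAt - _ = 0; rw [hYAt]; ring)
      (by rw [dot_lc, tt]; change TAt - _ = 0; ring)
    have h1 := lc_zero b hb _ _ h0
    rw [h1, map_zero] at tt
    exact zero_ne_one tt
  · -- the modulus of `X_A(px)` is one
    have hmod : conj (fA b s px) * fA b s px = conj (fB b s px) * fB b s px := by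
      have hσA : fA b s pt ≠ 0 := by
        intro h
        rw [h, mul_zero] at G_tt'
        rcases mul_eq_zero.mp G_tt'.symm with h' | h'
        · exact hσ (by simpa using h')
        · exact hσ h'
      have G' := congrArg conj G_xt
      simp only [map_mul, Complex.conj_conj] at G'
      have h1 : (conj (fA b s px) * fA b s px) * (conj (fA b s pt) * fA b s pt) =
          (conj (fB b s px) * fB b s px) * (conj (fA b s pt) * fA b s pt) := by
        calc (conj (fA b s px) * fA b s px) * (conj (fA b s pt) * fA b s pt)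
            = (conj (fA b s px) * fA b s pt) * (fA b s px * conj (fA b s pt)) := by ring
          _ = (conj (fB b s px) * fB b s pt) * (fB b s px * conj (fB b s pt)) := by
              rw [G_xt, G']
          _ = (conj (fB b s px) * fB b s px) * (conj (fB b s pt) * fB b s pt) := by ring
          _ = _ := by rw [G_tt']
      refine mul_right_cancel₀ ?_ h1
      exact mul_ne_zero ((map_ne_zero _).mpr hσA) hσA
    have hXX : conj XAx * XAx = 1 := by linear_combination G_xx - hmod
    have hXY : XAx = YAy := by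
      have : conj XAx * XAx = conj XAx * YAy := by rw [hXX, hcc]
      exact mul_left_cancel₀ hXAx0 this
    -- choose a combination of `px` and `py`
    obtain ⟨α, β, hαβ, hlin⟩ : ∃ α β : ℂ, (α ≠ 0 ∨ β ≠ 0) ∧
        α * (fA b s px - XAx * fB b s px) + β * (fA b s py - XAx * fB b s py) = 0 := by
      by_cases h1 : fA b s py - XAx * fB b s py = 0
      · exact ⟨0, 1, Or.inr one_ne_zero, by rw [h1]; ring⟩
      · exact ⟨fA b s py - XAx * fB b s py, -(fA b s px - XAx * fB b s px), Or.inl h1, by ring⟩
    have h0 := hM (lc b XAx (α • px + β • py))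
      (by
        rw [dot_lc]
        simp only [map_add, map_smul, smul_eq_mul]
        rw [xx, xy]
        change α * XAx + β * XAy - _ = 0
        rw [hXAy']; ring)
      (by
        rw [dot_lc]
        simp only [map_add, map_smul, smul_eq_mul]
        linear_combination hlin)
      (by
        rw [dot_lc]
        simp only [map_add, map_smul, smul_eq_mul]
        rw [yx, yy]
        change α * YAx + β * YAy - _ = 0
        rw [hYAx, hXY]; ring)
      (by
        rw [dot_lc]
        simp only [map_add, map_smul, smul_eq_mul]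
        rw [tx, ty]
        change α * TAx + β * TAy - _ = 0
        rw [hTAx, hTAy']; ring)
    have h1 := lc_zero b hb _ _ h0
    have e1 := congrArg (fB b x) h1
    have e2 := congrArg (fB b y) h1
    simp only [map_add, map_smul, smul_eq_mul, map_zero] at e1 e2
    rw [xx, xy] at e1
    rw [yx, yy] at e2
    rcases hαβ with h | h
    · apply h
      linear_combination e1
    · apply h
      linear_combination e2

end Pool.Agent.X23.TTOCore
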