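import Mathlib
import Pool.Agent.X23.TTOCore
import Pool.Agent.X23.TTO2

/-!
# The operator `I + E₁₃` on `ℂ³`
-/

open MeasureTheory AddCircle
open scoped ComplexConjugate ENNReal

namespace Pool.Agent.X23.TTO

/-- a vector as a member of Mathlib's space -/
def asE {n : ℕ} (x : Cn n) : EuclideanSpace ℂ (Fin n) := x

/-- coordinates -/
def cd {n : ℕ} (x : Cn n) (i : Fin n) : ℂ := (asE x).ofLp i

/-- vector with given coordinates -/
def vc {n : ℕ} (x : Fin n → ℂ) : Cn n := (WithLp.toLp 2 x : EuclideanSpace ℂ (Fin n))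

theorem cd_vc {n : ℕ} (x : Fin n → ℂ) (i : Fin n) : cd (vc x) i = x i := rfl

theorem cd_add {n : ℕ} (x y : Cn n) (i : Fin n) : cd (x + y) i = cd x i + cd y i := rfl

theorem cd_smul {n : ℕ} (c : ℂ) (x : Cn n) (i : Fin n) : cd (c • x) i = c * cd x i := rfl

theorem cd_zero {n : ℕ} (i : Fin n) : cd (0 : Cn n) i = 0 := rfl

theorem cd_ext {n : ℕ} {x y : Cn n} (h : ∀ i, cd x i = cd y i) : x = y := by
  have : asE x = asE y := by
    apply PiLp.ext
    exact h
  exact this

theorem inner_cn {n : ℕ} (x y : Cn n) : inner ℂ x y = ∑ i, conj (cd x i) * cd y i := by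
  have h : inner ℂ x y = inner ℂ (asE x) (asE y) := rfl
  rw [h, PiLp.inner_apply]
  refine Finset.sum_congr rfl fun i _ => ?_
  rw [RCLike.inner_apply, mul_comm]
  rfl

noncomputable instance : FiniteDimensional ℂ (Cn 3) :=
  (inferInstance : FiniteDimensional ℂ (EuclideanSpace ℂ (Fin 3)))

noncomputable instance : FiniteDimensional ℂ (Plus (Cn 3)) :=
  (inferInstance : FiniteDimensional ℂ (WithLp 2 (EuclideanSpace ℂ (Fin 3) × ℂ)))

theorem finrank_plus : Module.finrank ℂ (Plus (Cn 3)) = 4 := by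
  have h1 : Module.finrank ℂ (Plus (Cn 3)) =
      Module.finrank ℂ (WithLp 2 (EuclideanSpace ℂ (Fin 3) × ℂ)) := rfl
  rw [h1, (WithLp.linearEquiv 2 ℂ (EuclideanSpace ℂ (Fin 3) × ℂ)).finrank_eq,
    Module.finrank_prod, finrank_euclideanSpace_fin, Module.finrank_self]

/-- a vector as a member of Mathlib's space -/
def asW {H : Type} (x : Plus H) : WithLp 2 (H × ℂ) := x

/-- components -/
def p1 {H : Type} (x : Plus H) : H := (asW x).ofLp.1
/-- components -/
def p2 {H : Type} (x : Plus H) : ℂ := (asW x).ofLp.2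

theorem pair_p (x : Plus (Cn 3)) : pair (p1 x) (p2 x) = x := rfl
theorem p1_pair (x : Cn 3) (c : ℂ) : p1 (pair x c) = x := rfl
theorem p2_pair (x : Cn 3) (c : ℂ) : p2 (pair x c) = c := rfl
theorem p1_add (x y : Plus (Cn 3)) : p1 (x + y) = p1 x + p1 y := rfl
theorem p2_add (x y : Plus (Cn 3)) : p2 (x + y) = p2 x + p2 y := rfl
theorem p1_smul (c : ℂ) (x : Plus (Cn 3)) : p1 (c • x) = c • p1 x := rfl
theorem p2_smul (c : ℂ) (x : Plus (Cn 3)) : p2 (c • x) = c * p2 x := rfl
theorem p1_zero : p1 (0 : Plus (Cn 3)) = 0 := rfl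
theorem p2_zero : p2 (0 : Plus (Cn 3)) = 0 := rfl

theorem p_ext {x y : Plus (Cn 3)} (h1 : p1 x = p1 y) (h2 : p2 x = p2 y) : x = y := by
  rw [← pair_p x, ← pair_p y, h1, h2]

theorem inner_plus (x y : Plus (Cn 3)) :
    inner ℂ x y = ∑ i, conj (cd (p1 x) i) * cd (p1 y) i + conj (p2 x) * p2 y := by
  have h : inner ℂ x y = inner ℂ (asW x) (asW y) := rfl
  rw [h, WithLp.prod_inner_apply]
  have h2 : inner ℂ (p1 x) (p1 y) = ∑ i, conj (cd (p1 x) i) * cd (p1 y) i := inner_cn _ _
  have h3 : inner ℂ (p2 x) (p2 y) = conj (p2 x) * p2 y := by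
    rw [RCLike.inner_apply, mul_comm]
  rw [← h2, ← h3]
  rfl

/-- the operator `I + E₁₃` -/
noncomputable def T0 : Cn 3 →ₗ[ℂ] Cn 3 where
  toFun x := vc ![cd x 0 + cd x 2, cd x 1, cd x 2]
  map_add' := by
    intro x y
    apply cd_ext
    intro i
    simp only [cd_vc, cd_add]
    fin_cases i <;> simp <;> ring
  map_smul' := by
    intro c x
    apply cd_ext
    intro i
    simp only [cd_vc, RingHom.id_apply, cd_smul]
    fin_cases i <;> simp [mul_add]

noncomputable def T : Cn 3 →L[ℂ] Cn 3 := LinearMap.toContinuousLinearMap T0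

theorem T_apply (x : Cn 3) : T x = vc ![cd x 0 + cd x 2, cd x 1, cd x 2] := rfl

noncomputable def S0 : Plus (Cn 3) →ₗ[ℂ] Plus (Cn 3) where
  toFun x := pair (T (p1 x)) 0
  map_add' := by
    intro x y
    apply p_ext
    · simp only [p1_add, p1_pair, map_add]
    · simp only [p2_add, p2_pair, add_zero]
  map_smul' := by
    intro c x
    apply p_ext
    · simp only [RingHom.id_apply, p1_smul, p1_pair, map_smul]
    · simp only [RingHom.id_apply, p2_smul, p2_pair, mul_zero]

noncomputable def S : Plus (Cn 3) →L[ℂ] Plus (Cn 3) := LinearMap.toContinuousLinearMap S0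

theorem S_apply (x : Plus (Cn 3)) : S x = pair (T (p1 x)) 0 := rfl

theorem isSumZero : IsSumZero T S := fun _ _ => rfl

theorem neg : ¬ IsUETTO S := by
  rintro ⟨Θ, φ, hΘ, hT⟩
  obtain ⟨w, hw1, hw2, hw3⟩ := structure4 (by rw [finrank_plus]; norm_num) S Θ φ hΘ hT
  have hS : ∀ a b : Fin 4, inner ℂ (w a) (S (w b)) =
      conj (cd (p1 (w a)) 0) * (cd (p1 (w b)) 0 + cd (p1 (w b)) 2) +
      conj (cd (p1 (w a)) 1) * cd (p1 (w b)) 1 + conj (cd (p1 (w a)) 2) * cd (p1 (w b)) 2 := by
    intro a b
    rw [inner_plus, S_apply, p1_pair, p2_pair, mul_zero, add_zero, T_apply]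
    simp only [cd_vc, Fin.sum_univ_three, Matrix.cons_val]
  have hG : ∀ a b : Fin 4, inner ℂ (w a) (w b) =
      conj (cd (p1 (w a)) 0) * cd (p1 (w b)) 0 +
      conj (cd (p1 (w a)) 1) * cd (p1 (w b)) 1 + conj (cd (p1 (w a)) 2) * cd (p1 (w b)) 2 +
      conj (p2 (w a)) * p2 (w b) := by
    intro a b
    rw [inner_plus]
    simp only [Fin.sum_univ_three]
  refine TTOCore.core (fun j => cd (p1 (w j)) 0) (fun j => cd (p1 (w j)) 1)
    (fun j => cd (p1 (w j)) 2) (fun j => p2 (w j)) ?_ ?_ ?_
  · intro q h0 h1 h2 h3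
    apply hw1
    simp only [TTOCore.dot] at h0 h1 h2 h3
    rw [Fin.sum_univ_four]
    apply p_ext
    · simp only [p1_add, p1_smul, p1_zero]
      apply cd_ext
      intro i
      simp only [cd_add, cd_smul, cd_zero]
      fin_cases i
      · exact h0
      · exact h1
      · exact h2
    · simp only [p2_add, p2_smul, p2_zero]
      exact h3
  · intro i j
    have h := hw2 i j
    rw [hG, hG] at h
    exact h
  · intro i j
    have h := hw2 i j
    have h' := hw3 i j
    rw [hG, hG] at h
    rw [hS, hS] at h'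
    linear_combination h - h'

theorem sh_e (k m : ℤ) : sh k (e m) = e (k + m) := by
  apply ext_ae
  filter_upwards [sh_ae k (e m), e_ae m, e_ae (k + m)] with t h1 h2 h3
  rw [h1, h2, h3, fourier_add]

theorem inner_e3 : IsInner (e 3) := by
  refine ⟨?_, ?_, ?_⟩
  · intro k hk
    rw [coeff_e, if_neg (by omega)]
  · filter_upwards [e_ae 3] with t ht
    rw [ht, norm_fourier_apply]
  · rintro ⟨c, hc⟩
    have h1 : e 3 = c • e 0 := by
      apply ext_ae
      filter_upwards [hc, smul_ae c (e 0), e_ae 0] with t h1 h2 h3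
      rw [h1, h2, h3, fourier_zero, mul_one]
    have h2 := congrArg (fun f => fn (e 3) f) h1
    simp only [map_smul, fn_e, coeff_e] at h2
    norm_num at h2

theorem pos : IsUETTO T := by
  refine ⟨e 3, e 0 + e (-2), inner_e3, ?_⟩
  -- the unitary
  set U0 : Cn 3 →ₗ[ℂ] L2 :=
    { toFun := fun x => ∑ i : Fin 3, cd x i • e (i : ℤ)
      map_add' := by
        intro x y
        rw [← Finset.sum_add_distrib]
        refine Finset.sum_congr rfl fun i _ => ?_
        rw [cd_add, add_smul]
      map_smul' := by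
        intro c x
        rw [RingHom.id_apply, Finset.smul_sum]
        refine Finset.sum_congr rfl fun i _ => ?_
        rw [cd_smul, mul_smul] } with hU0
  have hU0a : ∀ x, U0 x = ∑ i : Fin 3, cd x i • e (i : ℤ) := fun x => rfl
  have horth : Orthonormal ℂ (fun i : Fin 3 => e (i : ℤ)) := by
    refine orthonormal_e.comp _ ?_
    intro i j hij
    have h : ((i : ℕ) : ℤ) = ((j : ℕ) : ℤ) := hij
    exact Fin.ext (by exact_mod_cast h)
  have hinn : ∀ x y, inner ℂ (U0 x) (U0 y) = inner ℂ x y := by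
    intro x y
    rw [inner_cn, hU0a, hU0a]
    exact horth.inner_sum (cd x) (cd y) Finset.univ
  set U : Cn 3 →ₗᵢ[ℂ] L2 := LinearMap.isometryOfInner U0 hinn with hU
  have hUa : ∀ x, U x = ∑ i : Fin 3, cd x i • e (i : ℤ) := fun x => rfl
  have hcoeff : ∀ (x : Cn 3) (k : ℤ), fourierCoeff (val (U x)) k =
      ∑ i : Fin 3, if k = (i : ℤ) then cd x i else 0 := by
    intro x k
    rw [hUa, ← fn_e, map_sum]
    refine Finset.sum_congr rfl fun i _ => ?_
    rw [map_smul, fn_e, coeff_e, smul_eq_mul, mul_ite, mul_one, mul_zero]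
  have hdk : ∀ (f : L2) (k : ℤ), dk (e 3) k f = fourierCoeff (val f) (k + 3) := by
    intro f k
    rw [dk, sh_e, inner_e]
  refine ⟨U, ?_, ?_⟩
  · intro f
    rw [model_iff _ _ inner_e3]
    constructor
    · rintro ⟨x, rfl⟩
      constructor
      · intro k hk
        rw [hcoeff]
        exact Finset.sum_eq_zero fun i _ => if_neg (by omega)
      · intro k hk
        rw [hdk, hcoeff]
        refine Finset.sum_eq_zero fun i _ => if_neg ?_
        have := i.2
        omega
    · rintro ⟨h1, h2⟩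
      refine ⟨vc fun i => fourierCoeff (val f) (i : ℤ), ?_⟩
      have h3 : U (vc fun i => fourierCoeff (val f) (i : ℤ)) - f = 0 := by
        apply eq_zero_of_coeff
        intro k
        rw [← fn_e, map_sub, fn_e, fn_e, hcoeff]
        simp only [cd_vc]
        rcases lt_or_ge k 0 with hk | hk
        · rw [h1 k hk, sub_zero]
          exact Finset.sum_eq_zero fun i _ => if_neg (by omega)
        · rcases lt_or_ge k 3 with hk3 | hk3
          · obtain ⟨n, hn⟩ := Int.eq_ofNat_of_zero_le hk
            have hn3 : n < 3 := by omega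
            rw [Finset.sum_eq_single_of_mem (⟨n, hn3⟩ : Fin 3) (Finset.mem_univ _), if_pos hn]
            · rw [hn, sub_self]
            · intro i _ hi
              apply if_neg
              intro h
              apply hi
              apply Fin.ext
              simp only
              omega
          · have h4 := h2 (k - 3) (by omega)
            rw [hdk, sub_add_cancel] at h4
            rw [h4, sub_zero]
            refine Finset.sum_eq_zero fun i _ => if_neg ?_
            have := i.2
            omega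
      exact sub_eq_zero.mp h3
  · intro x y _
    have h1 : ∫ t, (val (e 0 + e (-2)) t * val (U x) t) * star (val (U y) t) ∂mu =
        inner ℂ (U y) (U x + sh (-2) (U x)) := by
      rw [inner_eq]
      apply integral_congr_ae
      filter_upwards [add_ae (e 0) (e (-2)), e_ae 0, e_ae (-2), add_ae (U x) (sh (-2) (U x)),
        sh_ae (-2) (U x)] with t h1 h2 h3 h4 h5
      rw [h1, h2, h3, h4, h5, fourier_zero]
      ring
    have h2 : ∀ f : L2, inner ℂ (U y) f =
        ∑ i : Fin 3, conj (cd y i) * fourierCoeff (val f) (i : ℤ) := by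
      intro f
      rw [hUa]
      refine (sum_inner (𝕜 := ℂ) _ _ _).trans ?_
      refine Finset.sum_congr rfl fun i _ => ?_
      rw [← inner_e]
      exact inner_smul_left _ _ _
    refine Eq.trans ?_ h1.symm
    rw [← inner_eq, h2, h2]
    refine Finset.sum_congr rfl fun i _ => ?_
    rw [← fn_e, ← fn_e, map_add, fn_e, fn_e, fn_e, coeff_sh, hcoeff, hcoeff, hcoeff, T_apply]
    simp only [cd_vc, Fin.sum_univ_three]
    fin_cases i <;> simp

end Pool.Agent.X23.TTO
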