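import Mathlib

/-!
# A random colouring of differences
-/

open Finset
open scoped symmDiff

namespace Pool.Agent.X23.DM

variable {k : ℕ}

/-- allowed colours of a difference -/
def A (d : Finset (Fin k)) : Finset (Fin k) := if d = ∅ then univ else d

/-- the colourings of differences -/
def Om (k : ℕ) : Finset (Finset (Fin k) → Fin k) := Fintype.piFinset A

theorem sum_prod (g : Finset (Fin k) → Fin k → ℝ) :
    ∑ γ ∈ Om k, ∏ d, g d (γ d) = ∏ d, ∑ a ∈ A d, g d a :=
  (Finset.prod_univ_sum A g).symm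

theorem card_Om : ((Om k).card : ℝ) = ∏ d : Finset (Fin k), ((A d).card : ℝ) := by
  rw [Om, Fintype.card_piFinset]
  push_cast
  rfl

/-- sets of size at most three containing `j` -/
def R (j : Fin k) : Finset (Finset (Fin k)) := univ.filter fun F => F.card ≤ 3 ∧ j ∈ F

/-- sets of size three not containing `j` -/
def R' (j : Fin k) : Finset (Finset (Fin k)) := univ.filter fun F => F.card = 3 ∧ j ∉ F

def Yc (j : Fin k) (u : Finset (Fin k)) (γ : Finset (Fin k) → Fin k) : ℕ :=
  (univ.filter fun d => u ∆ d ∈ R j ∧ γ d = j).card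

def Xc (j : Fin k) (u : Finset (Fin k)) (γ : Finset (Fin k) → Fin k) : ℕ :=
  (univ.filter fun d => u ∆ d ∈ R' j ∧ γ d = j).card

theorem pow_card {α : Type*} [Fintype α] (P : α → Prop) [DecidablePred P] (a : ℝ) :
    a ^ (univ.filter P).card = ∏ d, if P d then a else 1 := by
  rw [Finset.prod_ite, Finset.prod_const, Finset.prod_const_one, mul_one]

theorem sum_symm (u : Finset (Fin k)) (f : Finset (Fin k) → ℝ) :
    ∑ d, f d = ∑ F, f (u ∆ F) := by
  have h : Function.Involutive (fun d : Finset (Fin k) => u ∆ d) := symmDiff_right_involutive u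
  exact (Equiv.sum_comp (h.toPerm _) f).symm

theorem sumY (j : Fin k) (u : Finset (Fin k)) (hu : 4 ≤ u.card) :
    ∑ γ ∈ Om k, (2 : ℝ) ^ Yc j u γ ≤
      (Om k).card * Real.exp (∑ F ∈ R j, 1 / ((u ∆ F).card : ℝ)) := by
  have h1 : ∀ γ : Finset (Fin k) → Fin k, (2 : ℝ) ^ Yc j u γ =
      ∏ d, if u ∆ d ∈ R j ∧ γ d = j then (2 : ℝ) else 1 := fun γ => pow_card _ _
  have h2 : ∑ γ ∈ Om k, (2 : ℝ) ^ Yc j u γ =
      ∏ d : Finset (Fin k), ∑ a ∈ A d, if u ∆ d ∈ R j ∧ a = j then (2 : ℝ) else 1 := by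
    rw [← sum_prod (fun d a => if u ∆ d ∈ R j ∧ a = j then (2 : ℝ) else 1)]
    exact Finset.sum_congr rfl fun γ _ => h1 γ
  rw [h2, card_Om]
  have h3 : ∑ F ∈ R j, 1 / ((u ∆ F).card : ℝ) =
      ∑ d : Finset (Fin k), if u ∆ d ∈ R j then 1 / (d.card : ℝ) else 0 := by
    rw [sum_symm u (fun d => if u ∆ d ∈ R j then 1 / (d.card : ℝ) else 0)]
    simp only [symmDiff_symmDiff_cancel_left]
    rw [Finset.sum_ite_mem, univ_inter]
  rw [h3, Real.exp_sum, ← Finset.prod_mul_distrib]
  apply Finset.prod_le_prod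
  · intro d _
    exact Finset.sum_nonneg fun a _ => by split_ifs <;> norm_num
  · intro d _
    by_cases hd : u ∆ d ∈ R j
    · have hne : d ≠ ∅ := by
        rintro rfl
        have h5 : u ∆ (∅ : Finset (Fin k)) = u := symmDiff_bot u
        rw [h5, R, mem_filter] at hd
        omega
      have hA : A d = d := by rw [A, if_neg hne]
      have hpos : (0 : ℝ) < d.card := by
        exact_mod_cast Finset.card_pos.mpr (Finset.nonempty_iff_ne_empty.mpr hne)
      rw [if_pos hd, hA]
      have h4 : ∑ a ∈ d, (if u ∆ d ∈ R j ∧ a = j then (2 : ℝ) else 1) ≤ d.card + 1 := by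
        have h5 : ∀ a ∈ d, (if u ∆ d ∈ R j ∧ a = j then (2 : ℝ) else 1) =
            1 + if a = j then 1 else 0 := by
          intro a _
          by_cases ha : a = j
          · rw [if_pos ⟨hd, ha⟩, if_pos ha]; norm_num
          · rw [if_neg (fun h => ha h.2), if_neg ha, add_zero]
        rw [Finset.sum_congr rfl h5, Finset.sum_add_distrib, Finset.sum_const, nsmul_eq_mul,
          mul_one, Finset.sum_ite_eq']
        split_ifs <;> norm_num
      refine h4.trans ?_
      have h6 := Real.add_one_le_exp (1 / (d.card : ℝ))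
      calc (d.card : ℝ) + 1 = d.card * (1 / (d.card : ℝ) + 1) := by field_simp; ring
        _ ≤ _ := mul_le_mul_of_nonneg_left h6 hpos.le
    · rw [if_neg hd, Real.exp_zero, mul_one]
      have h5 : ∀ a ∈ A d, (if u ∆ d ∈ R j ∧ a = j then (2 : ℝ) else 1) = 1 := by
        intro a _
        rw [if_neg (fun h => hd h.1)]
      rw [Finset.sum_congr rfl h5, Finset.sum_const, nsmul_eq_mul, mul_one]

theorem sumX (j : Fin k) (u : Finset (Fin k)) (hu : 4 ≤ u.card) (hj : j ∈ u) :
    ∑ γ ∈ Om k, (1 / 2 : ℝ) ^ Xc j u γ ≤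
      (Om k).card * Real.exp (-(((R' j).card : ℝ) / (2 * k))) := by
  have h1 : ∀ γ : Finset (Fin k) → Fin k, (1 / 2 : ℝ) ^ Xc j u γ =
      ∏ d, if u ∆ d ∈ R' j ∧ γ d = j then (1 / 2 : ℝ) else 1 := fun γ => pow_card _ _
  have h2 : ∑ γ ∈ Om k, (1 / 2 : ℝ) ^ Xc j u γ =
      ∏ d : Finset (Fin k), ∑ a ∈ A d, if u ∆ d ∈ R' j ∧ a = j then (1 / 2 : ℝ) else 1 := by
    rw [← sum_prod (fun d a => if u ∆ d ∈ R' j ∧ a = j then (1 / 2 : ℝ) else 1)]
    exact Finset.sum_congr rfl fun γ _ => h1 γ
  have hk : 0 < k := by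
    rcases Nat.eq_zero_or_pos k with h | h
    · subst h; exact j.elim0
    · exact h
  have hk' : (0 : ℝ) < k := by exact_mod_cast hk
  rw [h2, card_Om]
  have h3 : -(((R' j).card : ℝ) / (2 * k)) =
      ∑ d : Finset (Fin k), if u ∆ d ∈ R' j then -(1 / (2 * k) : ℝ) else 0 := by
    rw [sum_symm u (fun d => if u ∆ d ∈ R' j then -(1 / (2 * k) : ℝ) else 0)]
    simp only [symmDiff_symmDiff_cancel_left]
    rw [Finset.sum_ite_mem, univ_inter, Finset.sum_const, nsmul_eq_mul]
    ring
  rw [h3, Real.exp_sum, ← Finset.prod_mul_distrib]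
  apply Finset.prod_le_prod
  · intro d _
    exact Finset.sum_nonneg fun a _ => by split_ifs <;> norm_num
  · intro d _
    by_cases hd : u ∆ d ∈ R' j
    · have hd' := hd
      rw [R', mem_filter] at hd'
      have hjd : j ∈ d := by
        by_contra hjd
        exact hd'.2.2 (Finset.mem_symmDiff.mpr (Or.inl ⟨hj, hjd⟩))
      have hne : d ≠ ∅ := by
        rintro rfl
        exact absurd hjd (Finset.notMem_empty j)
      have hA : A d = d := by rw [A, if_neg hne]
      have hpos : (0 : ℝ) < d.card := by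
        exact_mod_cast Finset.card_pos.mpr (Finset.nonempty_iff_ne_empty.mpr hne)
      have hle : (d.card : ℝ) ≤ k := by
        have := Finset.card_le_univ d
        rw [Fintype.card_fin] at this
        exact_mod_cast this
      rw [if_pos hd, hA]
      have h4 : ∑ a ∈ d, (if u ∆ d ∈ R' j ∧ a = j then (1 / 2 : ℝ) else 1) = d.card - 1 / 2 := by
        have h5 : ∀ a ∈ d, (if u ∆ d ∈ R' j ∧ a = j then (1 / 2 : ℝ) else 1) =
            1 - if a = j then 1 / 2 else 0 := by
          intro a _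
          by_cases ha : a = j
          · rw [if_pos ⟨hd, ha⟩, if_pos ha]; norm_num
          · rw [if_neg (fun h => ha h.2), if_neg ha, sub_zero]
        rw [Finset.sum_congr rfl h5, Finset.sum_sub_distrib, Finset.sum_const, nsmul_eq_mul,
          mul_one, Finset.sum_ite_eq', if_pos hjd]
      rw [h4]
      have h6 := Real.add_one_le_exp (-(1 / (2 * k)) : ℝ)
      calc (d.card : ℝ) - 1 / 2 ≤ d.card * (-(1 / (2 * k)) + 1) := by
            have : (d.card : ℝ) * (1 / (2 * k)) ≤ 1 / 2 := by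
              rw [mul_one_div, div_le_iff₀ (by positivity)]
              linarith
            linarith
        _ ≤ _ := mul_le_mul_of_nonneg_left h6 hpos.le
    · rw [if_neg hd, Real.exp_zero, mul_one]
      have h5 : ∀ a ∈ A d, (if u ∆ d ∈ R' j ∧ a = j then (1 / 2 : ℝ) else 1) = 1 := by
        intro a _
        rw [if_neg (fun h => hd h.1)]
      rw [Finset.sum_congr rfl h5, Finset.sum_const, nsmul_eq_mul, mul_one]

theorem card_R' (j : Fin k) : (R' j).card = (k - 1).choose 3 := by
  have : R' j = powersetCard 3 (univ.erase j) := by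
    ext F
    rw [R', mem_filter, mem_powersetCard, subset_erase]
    constructor
    · rintro ⟨_, h1, h2⟩
      exact ⟨⟨subset_univ _, h2⟩, h1⟩
    · rintro ⟨⟨_, h2⟩, h1⟩
      exact ⟨mem_univ _, h1, h2⟩
  rw [this, card_powersetCard, card_erase_of_mem (mem_univ j), card_univ, Fintype.card_fin]

end Pool.Agent.X23.DM
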