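import Mathlib
import Pool.Agent.X23.DM1

/-!
# A random colouring of differences: the good colouring exists
-/

open Finset
open scoped symmDiff

namespace Pool.Agent.X23.DM

variable {k : ℕ}

theorem card_symm (u F : Finset (Fin k)) :
    (u ∆ F).card + 2 * (u ∩ F).card = u.card + F.card := by
  have h1 : (u ∆ F) = (u \ F) ∪ (F \ u) := rfl
  have h2 : (u ∆ F).card = (u \ F).card + (F \ u).card := by
    rw [h1, card_union_of_disjoint]
    exact disjoint_sdiff_sdiff
  have h3 := card_sdiff_add_card_inter u F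
  have h4 := card_sdiff_add_card_inter F u
  rw [inter_comm F u] at h4
  omega

theorem muY (j : Fin k) (u : Finset (Fin k)) (hu : 4 ≤ u.card) (hj : j ∉ u) :
    ∑ F ∈ R j, 1 / ((u ∆ F).card : ℝ) ≤ (k : ℝ) ^ 2 / 14 + 7 / 3 * k := by
  set P1 := (R j).filter fun F => F.card ≤ 2
  set P2 := (R j).filter fun F => ¬ F.card ≤ 2
  have hsplit : ∑ F ∈ R j, 1 / ((u ∆ F).card : ℝ) =
      ∑ F ∈ P1, 1 / ((u ∆ F).card : ℝ) + ∑ F ∈ P2, 1 / ((u ∆ F).card : ℝ) :=
    (Finset.sum_filter_add_sum_filter_not _ _ _).symm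
  set P3 := P2.filter fun F => u ∩ F = ∅
  set P4 := P2.filter fun F => ¬ u ∩ F = ∅
  have hsplit2 : ∑ F ∈ P2, 1 / ((u ∆ F).card : ℝ) =
      ∑ F ∈ P3, 1 / ((u ∆ F).card : ℝ) + ∑ F ∈ P4, 1 / ((u ∆ F).card : ℝ) :=
    (Finset.sum_filter_add_sum_filter_not _ _ _).symm
  -- the first part
  have hP1 : ∑ F ∈ P1, 1 / ((u ∆ F).card : ℝ) ≤ k := by
    have h1 : P1 ⊆ univ.image fun a : Fin k => ({j, a} : Finset (Fin k)) := by
      intro F hF
      simp only [P1, R, mem_filter, mem_univ, true_and] at hF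
      obtain ⟨⟨-, hjF⟩, hF2⟩ := hF
      rw [mem_image]
      have h2 : (F.erase j).card ≤ 1 := by rw [card_erase_of_mem hjF]; omega
      rcases (F.erase j).eq_empty_or_nonempty with h3 | ⟨a, ha⟩
      · refine ⟨j, mem_univ _, ?_⟩
        rw [← insert_erase hjF, h3]
        simp
      · refine ⟨a, mem_univ _, ?_⟩
        have h4 : F.erase j = {a} := by
          haveI : Nonempty (Fin k) := ⟨j⟩
          rw [card_le_one_iff_subset_singleton] at h2
          obtain ⟨b, hb⟩ := h2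
          have := hb ha
          rw [mem_singleton] at this
          subst this
          exact Subset.antisymm hb (singleton_subset_iff.mpr ha)
        rw [← insert_erase hjF, h4]
    have h2 : P1.card ≤ k := by
      refine (card_le_card h1).trans (card_image_le.trans ?_)
      rw [card_univ, Fintype.card_fin]
    have h3 : ∀ F ∈ P1, 1 / ((u ∆ F).card : ℝ) ≤ 1 := by
      intro F hF
      simp only [P1, R, mem_filter, mem_univ, true_and] at hF
      have h4 := card_symm u F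
      have h5 : (u ∩ F).card ≤ F.card := card_le_card inter_subset_right
      have h6 : 1 ≤ (u ∆ F).card := by omega
      have h7 : (1 : ℝ) ≤ (u ∆ F).card := by exact_mod_cast h6
      rw [div_le_one (by linarith)]
      exact h7
    calc ∑ F ∈ P1, 1 / ((u ∆ F).card : ℝ) ≤ ∑ F ∈ P1, (1 : ℝ) := Finset.sum_le_sum h3
      _ = P1.card := by simp
      _ ≤ k := by exact_mod_cast h2
  -- the main part
  have hP3 : ∑ F ∈ P3, 1 / ((u ∆ F).card : ℝ) ≤ (k : ℝ) ^ 2 / 14 := by
    have h1 : P3 ⊆ (powersetCard 2 univ).image fun G : Finset (Fin k) => insert j G := by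
      intro F hF
      simp only [P3, P2, R, mem_filter, mem_univ, true_and] at hF
      obtain ⟨⟨⟨hF3, hjF⟩, hF2⟩, -⟩ := hF
      rw [mem_image]
      refine ⟨F.erase j, ?_, insert_erase hjF⟩
      rw [mem_powersetCard]
      refine ⟨subset_univ _, ?_⟩
      rw [card_erase_of_mem hjF]
      omega
    have h2 : (P3.card : ℝ) ≤ (k : ℝ) ^ 2 / 2 := by
      have h3 : P3.card ≤ k.choose 2 := by
        refine (card_le_card h1).trans (card_image_le.trans ?_)
        rw [card_powersetCard, card_univ, Fintype.card_fin]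
      have h4 : ((k.choose 2 : ℕ) : ℝ) = k * (k - 1) / 2 := Nat.cast_choose_two ℝ k
      have h5 : (P3.card : ℝ) ≤ (k.choose 2 : ℕ) := by exact_mod_cast h3
      rw [h4] at h5
      have : (0 : ℝ) ≤ k := Nat.cast_nonneg k
      nlinarith
    have h3 : ∀ F ∈ P3, 1 / ((u ∆ F).card : ℝ) ≤ 1 / 7 := by
      intro F hF
      simp only [P3, P2, R, mem_filter, mem_univ, true_and] at hF
      obtain ⟨⟨⟨hF3, hjF⟩, hF2⟩, h0⟩ := hF
      have h4 := card_symm u F
      rw [h0, card_empty] at h4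
      have h6 : 7 ≤ (u ∆ F).card := by omega
      have h7 : (7 : ℝ) ≤ (u ∆ F).card := by exact_mod_cast h6
      exact one_div_le_one_div_of_le (by norm_num) h7
    calc ∑ F ∈ P3, 1 / ((u ∆ F).card : ℝ) ≤ ∑ F ∈ P3, (1 / 7 : ℝ) := Finset.sum_le_sum h3
      _ = P3.card * (1 / 7) := by rw [Finset.sum_const, nsmul_eq_mul]
      _ ≤ (k : ℝ) ^ 2 / 14 := by linarith
  -- the intersecting part
  have hP4 : ∑ F ∈ P4, 1 / ((u ∆ F).card : ℝ) ≤ 4 / 3 * k := by
    have h1 : P4 ⊆ (u ×ˢ univ).image fun q : Fin k × Fin k => ({j, q.1, q.2} : Finset (Fin k)) := by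
      intro F hF
      simp only [P4, P2, R, mem_filter, mem_univ, true_and] at hF
      obtain ⟨⟨⟨hF3, hjF⟩, hF2⟩, h0⟩ := hF
      obtain ⟨a, ha⟩ := Finset.nonempty_iff_ne_empty.mpr h0
      rw [mem_inter] at ha
      have haj : a ≠ j := by
        rintro rfl
        exact hj ha.1
      have haF : a ∈ F.erase j := mem_erase.mpr ⟨haj, ha.2⟩
      have h2 : ((F.erase j).erase a).card = 1 := by
        rw [card_erase_of_mem haF, card_erase_of_mem hjF]
        omega
      obtain ⟨b, hb⟩ := card_eq_one.mp h2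
      rw [mem_image]
      refine ⟨(a, b), mem_product.mpr ⟨ha.1, mem_univ _⟩, ?_⟩
      rw [← insert_erase hjF, ← insert_erase haF, hb]
    have h2 : P4.card ≤ u.card * k := by
      refine (card_le_card h1).trans (card_image_le.trans ?_)
      rw [card_product, card_univ, Fintype.card_fin]
    have hu' : (4 : ℝ) ≤ u.card := by exact_mod_cast hu
    have h3 : ∀ F ∈ P4, 1 / ((u ∆ F).card : ℝ) ≤ 1 / ((u.card : ℝ) - 1) := by
      intro F hF
      simp only [P4, P2, R, mem_filter, mem_univ, true_and] at hF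
      obtain ⟨⟨⟨hF3, hjF⟩, hF2⟩, h0⟩ := hF
      have h4 := card_symm u F
      have h5 : (u ∩ F).card ≤ 2 := by
        have h6 : u ∩ F ⊆ F.erase j := by
          intro a ha
          rw [mem_inter] at ha
          refine mem_erase.mpr ⟨?_, ha.2⟩
          rintro rfl
          exact hj ha.1
        have := card_le_card h6
        rw [card_erase_of_mem hjF] at this
        omega
      have h6 : u.card ≤ (u ∆ F).card + 1 := by omega
      have h7 : (u.card : ℝ) ≤ (u ∆ F).card + 1 := by exact_mod_cast h6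
      exact one_div_le_one_div_of_le (by linarith) (by linarith)
    have h2' : (P4.card : ℝ) ≤ u.card * k := by exact_mod_cast h2
    have hk0 : (0 : ℝ) ≤ k := Nat.cast_nonneg k
    calc ∑ F ∈ P4, 1 / ((u ∆ F).card : ℝ) ≤ ∑ F ∈ P4, (1 / ((u.card : ℝ) - 1)) :=
          Finset.sum_le_sum h3
      _ = P4.card * (1 / ((u.card : ℝ) - 1)) := by rw [Finset.sum_const, nsmul_eq_mul]
      _ ≤ (u.card * k) * (1 / ((u.card : ℝ) - 1)) := by
          apply mul_le_mul_of_nonneg_right h2'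
          apply one_div_nonneg.mpr
          linarith
      _ ≤ 4 / 3 * k := by
          rw [mul_one_div, div_le_iff₀ (by linarith)]
          nlinarith
  rw [hsplit, hsplit2]
  linarith

/-- the pairs that matter -/
def PY (k : ℕ) : Finset (Finset (Fin k) × Fin k) :=
  univ.filter fun q => 4 ≤ q.1.card ∧ q.2 ∉ q.1

def PX (k : ℕ) : Finset (Finset (Fin k) × Fin k) :=
  univ.filter fun q => 4 ≤ q.1.card ∧ q.2 ∈ q.1

theorem card_pairs (P : Finset (Finset (Fin k) × Fin k)) : (P.card : ℝ) ≤ 2 ^ k * k := by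
  have h := card_le_univ P
  rw [Fintype.card_prod, Fintype.card_finset, Fintype.card_fin] at h
  exact_mod_cast h

theorem numeric (hk : 1000 ≤ k) :
    (2 ^ k * k : ℝ) * (Real.exp (-((k : ℝ) ^ 2 / 9 * Real.log 2)) *
      Real.exp ((k : ℝ) ^ 2 / 14 + 7 / 3 * k)) < 1 / 2 ∧
    (2 ^ k * k : ℝ) * (Real.exp ((k : ℝ) ^ 2 / 9 * Real.log 2) *
      Real.exp (-((((k - 1).choose 3 : ℕ) : ℝ) / (2 * k)))) < 1 / 2 := by
  have hk' : (1000 : ℝ) ≤ k := by exact_mod_cast hk
  have hl1 := Real.log_two_gt_d9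
  have hl2 := Real.log_two_lt_d9
  have h2k : (2 ^ k : ℝ) = Real.exp (k * Real.log 2) := by
    rw [mul_comm, Real.exp_mul, Real.exp_log (by norm_num)]
    exact (Real.rpow_natCast 2 k).symm
  have hkk : (k : ℝ) ≤ Real.exp k := by
    have := Real.add_one_le_exp (k : ℝ)
    linarith
  have hhalf : Real.exp (-1) < 1 / 2 := by
    have := Real.exp_neg_one_lt_d9
    linarith
  have hfac : (2 ^ k * k : ℝ) ≤ Real.exp (k * Real.log 2 + k) := by
    rw [Real.exp_add, ← h2k]
    exact mul_le_mul_of_nonneg_left hkk (by positivity)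
  have hch : (((k - 1).choose 3 : ℕ) : ℝ) / (2 * k) ≥ (k : ℝ) ^ 2 / 12 - k / 2 := by
    have h1 : (((k - 1).choose 3 : ℕ) : ℝ) = ((k : ℝ) - 1) * (k - 2) * (k - 3) / 6 := by
      obtain ⟨m, rfl⟩ : ∃ m, k = m + 3 := ⟨k - 3, by omega⟩
      have h3 : m + 3 - 1 = m + 2 := by omega
      rw [h3]
      have h4 := Nat.add_one_mul_choose_eq (m + 1) 2
      have h5 := Nat.add_one_mul_choose_eq m 1
      rw [Nat.choose_one_right] at h5
      have h4' : ((m + 1 + 1 : ℕ) : ℝ) * ((m + 1).choose 2 : ℕ) = ((m + 1 + 1).choose 3 : ℕ) * 3 := by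
        exact_mod_cast h4
      have h5' : ((m + 1 : ℕ) : ℝ) * (m : ℕ) = ((m + 1).choose 2 : ℕ) * 2 := by
        exact_mod_cast h5
      push_cast at h4' h5' ⊢
      have : ((m + 2).choose 3 : ℝ) = ((m + 1 + 1).choose 3 : ℝ) := rfl
      rw [this]
      linear_combination (-1 / 3 : ℝ) * h4' - (m + 2) / 6 * h5'
    rw [h1, ge_iff_le, le_div_iff₀ (by linarith)]
    nlinarith
  constructor
  · calc (2 ^ k * k : ℝ) * (Real.exp (-((k : ℝ) ^ 2 / 9 * Real.log 2)) *
          Real.exp ((k : ℝ) ^ 2 / 14 + 7 / 3 * k))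
        ≤ Real.exp (k * Real.log 2 + k) * (Real.exp (-((k : ℝ) ^ 2 / 9 * Real.log 2)) *
          Real.exp ((k : ℝ) ^ 2 / 14 + 7 / 3 * k)) :=
          mul_le_mul_of_nonneg_right hfac (by positivity)
      _ = Real.exp (k * Real.log 2 + k + (-((k : ℝ) ^ 2 / 9 * Real.log 2) +
          ((k : ℝ) ^ 2 / 14 + 7 / 3 * k))) := by
          simp only [Real.exp_add]
      _ ≤ Real.exp (-1) := by
          apply Real.exp_le_exp.mpr
          nlinarith
      _ < 1 / 2 := hhalf
  · calc (2 ^ k * k : ℝ) * (Real.exp ((k : ℝ) ^ 2 / 9 * Real.log 2) *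
          Real.exp (-((((k - 1).choose 3 : ℕ) : ℝ) / (2 * k))))
        ≤ Real.exp (k * Real.log 2 + k) * (Real.exp ((k : ℝ) ^ 2 / 9 * Real.log 2) *
          Real.exp (-((((k - 1).choose 3 : ℕ) : ℝ) / (2 * k)))) :=
          mul_le_mul_of_nonneg_right hfac (by positivity)
      _ = Real.exp (k * Real.log 2 + k + ((k : ℝ) ^ 2 / 9 * Real.log 2 +
          -((((k - 1).choose 3 : ℕ) : ℝ) / (2 * k)))) := by
          simp only [Real.exp_add]
      _ ≤ Real.exp (-1) := by
          apply Real.exp_le_exp.mpr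
          nlinarith
      _ < 1 / 2 := hhalf

theorem exists_good (hk : 1000 ≤ k) : ∃ γ : Finset (Fin k) → Fin k,
    (∀ d, d ≠ ∅ → γ d ∈ d) ∧
    ∀ (j : Fin k) (u v : Finset (Fin k)), 4 ≤ u.card → 4 ≤ v.card → j ∉ u → j ∈ v →
      Yc j u γ < Xc j v γ := by
  set τ : ℝ := (k : ℝ) ^ 2 / 9 * Real.log 2 with hτ
  set Φ : (Finset (Fin k) → Fin k) → ℝ := fun γ =>
    ∑ q ∈ PY k, (2 : ℝ) ^ Yc q.2 q.1 γ * Real.exp (-τ) +
      ∑ q ∈ PX k, (1 / 2 : ℝ) ^ Xc q.2 q.1 γ * Real.exp τ with hΦ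
  have hOm : 0 < ((Om k).card : ℝ) := by
    rw [card_Om]
    apply Finset.prod_pos
    intro d _
    have : (A d).Nonempty := by
      rw [A]
      split_ifs with h
      · exact ⟨⟨0, by omega⟩, mem_univ _⟩
      · exact Finset.nonempty_iff_ne_empty.mpr h
    exact_mod_cast Finset.card_pos.mpr this
  have hnum := numeric hk
  have hsum : ∑ γ ∈ Om k, Φ γ < (Om k).card := by
    have h1 : ∑ γ ∈ Om k, Φ γ = ∑ q ∈ PY k, (∑ γ ∈ Om k, (2 : ℝ) ^ Yc q.2 q.1 γ) * Real.exp (-τ) +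
        ∑ q ∈ PX k, (∑ γ ∈ Om k, (1 / 2 : ℝ) ^ Xc q.2 q.1 γ) * Real.exp τ := by
      simp only [hΦ]
      rw [Finset.sum_add_distrib, Finset.sum_comm, Finset.sum_comm (s := Om k) (t := PX k)]
      simp only [Finset.sum_mul]
    rw [h1]
    have h2 : ∑ q ∈ PY k, (∑ γ ∈ Om k, (2 : ℝ) ^ Yc q.2 q.1 γ) * Real.exp (-τ) ≤
        (PY k).card * ((Om k).card * Real.exp ((k : ℝ) ^ 2 / 14 + 7 / 3 * k) * Real.exp (-τ)) := by
      rw [← nsmul_eq_mul, ← Finset.sum_const]
      apply Finset.sum_le_sum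
      intro q hq
      rw [PY, mem_filter] at hq
      apply mul_le_mul_of_nonneg_right _ (Real.exp_nonneg _)
      refine (sumY q.2 q.1 hq.2.1).trans ?_
      apply mul_le_mul_of_nonneg_left _ hOm.le
      exact Real.exp_le_exp.mpr (muY q.2 q.1 hq.2.1 hq.2.2)
    have h3 : ∑ q ∈ PX k, (∑ γ ∈ Om k, (1 / 2 : ℝ) ^ Xc q.2 q.1 γ) * Real.exp τ ≤
        (PX k).card * ((Om k).card * Real.exp (-((((k - 1).choose 3 : ℕ) : ℝ) / (2 * k))) *
          Real.exp τ) := by
      rw [← nsmul_eq_mul, ← Finset.sum_const]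
      apply Finset.sum_le_sum
      intro q hq
      rw [PX, mem_filter] at hq
      apply mul_le_mul_of_nonneg_right _ (Real.exp_nonneg _)
      refine (sumX q.2 q.1 hq.2.1 hq.2.2).trans ?_
      rw [card_R']
    have h4 : ((PY k).card : ℝ) * ((Om k).card * Real.exp ((k : ℝ) ^ 2 / 14 + 7 / 3 * k) *
        Real.exp (-τ)) ≤ (Om k).card * ((2 ^ k * k : ℝ) * (Real.exp (-τ) *
          Real.exp ((k : ℝ) ^ 2 / 14 + 7 / 3 * k))) := by
      have h5 := card_pairs (PY k)
      have h6 : 0 ≤ (Om k).card * Real.exp ((k : ℝ) ^ 2 / 14 + 7 / 3 * k) * Real.exp (-τ) := by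
        positivity
      calc _ ≤ (2 ^ k * k : ℝ) * ((Om k).card * Real.exp ((k : ℝ) ^ 2 / 14 + 7 / 3 * k) *
            Real.exp (-τ)) := mul_le_mul_of_nonneg_right h5 h6
        _ = _ := by ring
    have h7 : ((PX k).card : ℝ) * ((Om k).card *
        Real.exp (-((((k - 1).choose 3 : ℕ) : ℝ) / (2 * k))) * Real.exp τ) ≤
        (Om k).card * ((2 ^ k * k : ℝ) * (Real.exp τ *
          Real.exp (-((((k - 1).choose 3 : ℕ) : ℝ) / (2 * k))))) := by
      have h5 := card_pairs (PX k)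
      have h6 : 0 ≤ (Om k).card * Real.exp (-((((k - 1).choose 3 : ℕ) : ℝ) / (2 * k))) *
          Real.exp τ := by positivity
      calc _ ≤ (2 ^ k * k : ℝ) * ((Om k).card *
            Real.exp (-((((k - 1).choose 3 : ℕ) : ℝ) / (2 * k))) * Real.exp τ) :=
            mul_le_mul_of_nonneg_right h5 h6
        _ = _ := by ring
    have h8 := mul_lt_mul_of_pos_left hnum.1 hOm
    have h9 := mul_lt_mul_of_pos_left hnum.2 hOm
    linarith
  obtain ⟨γ, hγ, hγ1⟩ : ∃ γ ∈ Om k, Φ γ < 1 := by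
    by_contra hcon
    push Not at hcon
    have : ((Om k).card : ℝ) ≤ ∑ γ ∈ Om k, Φ γ := by
      calc ((Om k).card : ℝ) = ∑ γ ∈ Om k, (1 : ℝ) := by simp
        _ ≤ _ := Finset.sum_le_sum hcon
    linarith
  refine ⟨γ, ?_, ?_⟩
  · intro d hd
    rw [Om, Fintype.mem_piFinset] at hγ
    have := hγ d
    rwa [A, if_neg hd] at this
  · intro j u v hu hv hju hjv
    have hlog : 0 < Real.log 2 := Real.log_pos (by norm_num)
    have hnn1 : 0 ≤ ∑ q ∈ PY k, (2 : ℝ) ^ Yc q.2 q.1 γ * Real.exp (-τ) :=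
      Finset.sum_nonneg fun q _ => by positivity
    have hnn2 : 0 ≤ ∑ q ∈ PX k, (1 / 2 : ℝ) ^ Xc q.2 q.1 γ * Real.exp τ :=
      Finset.sum_nonneg fun q _ => by positivity
    have hY : (2 : ℝ) ^ Yc j u γ * Real.exp (-τ) < 1 := by
      have h1 : (2 : ℝ) ^ Yc j u γ * Real.exp (-τ) ≤
          ∑ q ∈ PY k, (2 : ℝ) ^ Yc q.2 q.1 γ * Real.exp (-τ) := by
        refine Finset.single_le_sum (f := fun q : Finset (Fin k) × Fin k =>
          (2 : ℝ) ^ Yc q.2 q.1 γ * Real.exp (-τ)) (fun q _ => by positivity)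
          (a := (u, j)) ?_
        rw [PY, mem_filter]
        exact ⟨mem_univ _, hu, hju⟩
      simp only [hΦ] at hγ1
      linarith
    have hX : (1 / 2 : ℝ) ^ Xc j v γ * Real.exp τ < 1 := by
      have h1 : (1 / 2 : ℝ) ^ Xc j v γ * Real.exp τ ≤
          ∑ q ∈ PX k, (1 / 2 : ℝ) ^ Xc q.2 q.1 γ * Real.exp τ := by
        refine Finset.single_le_sum (f := fun q : Finset (Fin k) × Fin k =>
          (1 / 2 : ℝ) ^ Xc q.2 q.1 γ * Real.exp τ) (fun q _ => by positivity)
          (a := (v, j)) ?_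
        rw [PX, mem_filter]
        exact ⟨mem_univ _, hv, hjv⟩
      simp only [hΦ] at hγ1
      linarith
    have h1 : (2 : ℝ) ^ Yc j u γ < Real.exp τ := by
      rw [Real.exp_neg, ← div_eq_mul_inv, div_lt_one (Real.exp_pos _)] at hY
      exact hY
    have h2 : Real.exp τ < (2 : ℝ) ^ Xc j v γ := by
      rw [one_div, inv_pow, inv_mul_eq_div, div_lt_one (by positivity)] at hX
      exact hX
    have h3 : (2 : ℝ) ^ Yc j u γ < (2 : ℝ) ^ Xc j v γ := h1.trans h2
    exact (pow_lt_pow_iff_right₀ (by norm_num)).mp h3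

end Pool.Agent.X23.DM
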