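import Mathlib

/-!
# Scalar positive semidefinite Toeplitz matrices: one-step extension
-/

open Matrix
open scoped ComplexOrder ComplexConjugate

namespace Pool.Agent.X23.PTC

/-- The Toeplitz matrix `[a_{i-j}]` of size `n`. -/
def toep {A : Type*} (n : ℕ) (a : ℤ → A) : Matrix (Fin n) (Fin n) A :=
  Matrix.of fun i j => a ((i : ℤ) - (j : ℤ))

/-- the sequence `a` with the entries of index `±(m+1)` replaced -/
noncomputable def ext (a : ℤ → ℂ) (m : ℕ) (α : ℂ) : ℤ → ℂ :=
  fun l => if l = m + 1 then α else if l = -(m + 1) then conj α else a l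

/-- border columns -/
def bd (m : ℕ) (a : ℤ → ℂ) : Matrix (Fin m) (Fin 2) ℂ :=
  Matrix.of fun i s => if s = 0 then a (i + 1) else a (i - m)

/-- the matrix `Bᴴ M⁻¹ B` -/
noncomputable def G (m : ℕ) (a : ℤ → ℂ) : Matrix (Fin 2) (Fin 2) ℂ :=
  (bd m a)ᴴ * (toep m a)⁻¹ * (bd m a)

/-- the index equivalence -/
def ef (m : ℕ) : Fin m ⊕ Fin 2 → Fin (m + 2) :=
  Sum.elim (fun i => i.castSucc.succ) (fun s => if s = 0 then 0 else Fin.last (m + 1))

theorem ef_bij (m : ℕ) : Function.Bijective (ef m) := by
  rw [Fintype.bijective_iff_injective_and_card]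
  refine ⟨?_, by simp⟩
  rintro (i | s) (j | t) h
  · have h1 := congrArg Fin.val h
    simp only [ef, Sum.elim_inl, Fin.val_succ, Fin.val_castSucc] at h1
    have : i = j := Fin.ext (by omega)
    rw [this]
  · have h1 := congrArg Fin.val h
    fin_cases t
    · simp [ef] at h1
    · simp [ef] at h1
      omega
  · have h1 := congrArg Fin.val h
    fin_cases s
    · simp [ef] at h1
    · simp [ef] at h1
      omega
  · fin_cases s <;> fin_cases t
    · rfl
    · have h1 := congrArg Fin.val h
      simp [ef] at h1
    · have h1 := congrArg Fin.val h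
      simp [ef] at h1
    · rfl

/-- Hermitian symmetry of the coefficients of a positive semidefinite Toeplitz matrix. -/
theorem herm {a : ℤ → ℂ} {m : ℕ} (h : (toep (m + 1) a).PosSemidef) (l : ℕ) (hl : l ≤ m) :
    a (-(l : ℤ)) = conj (a l) := by
  have h1 := h.isHermitian
  have h2 := congrFun (congrFun h1 0) (⟨l, by omega⟩ : Fin (m + 1))
  simp only [toep, conjTranspose_apply, of_apply, Fin.val_zero, Nat.cast_zero, sub_zero,
    zero_sub] at h2
  exact h2.symm

theorem zero_nonneg {a : ℤ → ℂ} {m : ℕ} (h : (toep (m + 1) a).PosSemidef) : 0 ≤ a 0 := by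
  have := h.diag_nonneg (i := 0)
  simpa [toep] using this

theorem diag0 {a : ℤ → ℂ} {m : ℕ} (h : (toep (m + 1) a).PosSemidef)
    (hM : (toep m a).PosDef) : 0 ≤ a 0 - G m a 0 0 := by
  have h1 := h.submatrix (Sum.elim (fun i : Fin m => i.succ) (fun _ : Fin 1 => (0 : Fin (m + 1))))
  have h2 : (toep (m + 1) a).submatrix
      (Sum.elim (fun i : Fin m => i.succ) (fun _ : Fin 1 => (0 : Fin (m + 1))))
      (Sum.elim (fun i : Fin m => i.succ) (fun _ : Fin 1 => (0 : Fin (m + 1)))) =
      fromBlocks (toep m a) ((bd m a).submatrix id (fun _ : Fin 1 => (0 : Fin 2)))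
        ((bd m a).submatrix id (fun _ : Fin 1 => (0 : Fin 2)))ᴴ (of fun _ _ => a 0) := by
    ext i j
    rcases i with i | i <;> rcases j with j | j
    · simp [toep]
    · simp [toep, bd]
    · have := herm h (j + 1) (by omega)
      simp only [toep, bd, submatrix_apply, Sum.elim_inr, Sum.elim_inl, of_apply, Fin.val_zero,
        Nat.cast_zero, Fin.val_succ, fromBlocks_apply₂₁, conjTranspose_apply, id_eq, if_true,
        zero_sub]
      push_cast at this ⊢
      exact this
    · simp [toep]
  rw [h2] at h1
  letI := hM.isUnit.invertible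
  have h3 := (PosDef.fromBlocks₁₁ _ _ hM).mp h1
  have h4 := h3.diag_nonneg (i := 0)
  have h5 : (((bd m a).submatrix id (fun _ : Fin 1 => (0 : Fin 2)))ᴴ * (toep m a)⁻¹ *
      ((bd m a).submatrix id (fun _ : Fin 1 => (0 : Fin 2)))) 0 0 = G m a 0 0 := by
    simp [G, Matrix.mul_apply]
  rw [Matrix.sub_apply, h5] at h4
  simpa using h4

theorem diag1 {a : ℤ → ℂ} {m : ℕ} (h : (toep (m + 1) a).PosSemidef)
    (hM : (toep m a).PosDef) : 0 ≤ a 0 - G m a 1 1 := by
  have h1 := h.submatrix
    (Sum.elim (fun i : Fin m => i.castSucc) (fun _ : Fin 1 => Fin.last m))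
  have h2 : (toep (m + 1) a).submatrix
      (Sum.elim (fun i : Fin m => i.castSucc) (fun _ : Fin 1 => Fin.last m))
      (Sum.elim (fun i : Fin m => i.castSucc) (fun _ : Fin 1 => Fin.last m)) =
      fromBlocks (toep m a) ((bd m a).submatrix id (fun _ : Fin 1 => (1 : Fin 2)))
        ((bd m a).submatrix id (fun _ : Fin 1 => (1 : Fin 2)))ᴴ (of fun _ _ => a 0) := by
    ext i j
    rcases i with i | i <;> rcases j with j | j
    · simp [toep]
    · simp [toep, bd]
    · have := herm h (m - j) (by omega)
      have hj : ((m - j : ℕ) : ℤ) = (m : ℤ) - j := by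
        have := j.2
        omega
      rw [hj] at this
      simp only [toep, bd, submatrix_apply, Sum.elim_inr, Sum.elim_inl, of_apply,
        Fin.val_last, Fin.val_castSucc, fromBlocks_apply₂₁, conjTranspose_apply, id_eq]
      have h3 : ((j : ℤ) - m) = -((m : ℤ) - j) := by ring
      rw [if_neg (by decide), h3, this]
      simp
    · simp [toep]
  rw [h2] at h1
  letI := hM.isUnit.invertible
  have h3 := (PosDef.fromBlocks₁₁ _ _ hM).mp h1
  have h4 := h3.diag_nonneg (i := 0)
  have h5 : (((bd m a).submatrix id (fun _ : Fin 1 => (1 : Fin 2)))ᴴ * (toep m a)⁻¹ *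
      ((bd m a).submatrix id (fun _ : Fin 1 => (1 : Fin 2)))) 0 0 = G m a 1 1 := by
    simp [G, Matrix.mul_apply]
  rw [Matrix.sub_apply, h5] at h4
  simpa using h4

/-- The central one-step extension, when the inner block is positive definite. -/
theorem central {a : ℤ → ℂ} {m : ℕ} (h : (toep (m + 1) a).PosSemidef)
    (hM : (toep m a).PosDef) : (toep (m + 2) (ext a m (G m a 1 0))).PosSemidef := by
  set α := G m a 1 0 with hα
  rw [← posSemidef_submatrix_equiv (Equiv.ofBijective _ (ef_bij m))]
  have h2 : (toep (m + 2) (ext a m α)).submatrix (Equiv.ofBijective _ (ef_bij m))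
      (Equiv.ofBijective _ (ef_bij m)) =
      fromBlocks (toep m a) (bd m a) (bd m a)ᴴ !![a 0, conj α; α, a 0] := by
    ext i j
    rcases i with i | i <;> rcases j with j | j
    · have hi := i.2
      have hj := j.2
      simp only [toep, ext, submatrix_apply, Equiv.ofBijective_apply, ef, Sum.elim_inl, of_apply,
        Fin.val_succ, Fin.val_castSucc, fromBlocks_apply₁₁]
      push_cast
      rw [if_neg (by omega), if_neg (by omega)]
      congr 1
      ring
    · have hi := i.2
      simp only [toep, ext, submatrix_apply, Equiv.ofBijective_apply, ef, Sum.elim_inl,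
        Sum.elim_inr, of_apply, Fin.val_succ, Fin.val_castSucc, fromBlocks_apply₁₂, bd]
      fin_cases j
      · simp only [Fin.zero_eta, if_true, Fin.val_zero]
        push_cast
        rw [if_neg (by omega), if_neg (by omega)]
        congr 1
      · simp only [Fin.mk_one, if_neg (show ¬ ((1 : Fin 2) = 0) by decide), Fin.val_last]
        push_cast
        rw [if_neg (by omega), if_neg (by omega)]
        congr 1
        ring
    · have hj := j.2
      simp only [toep, ext, submatrix_apply, Equiv.ofBijective_apply, ef, Sum.elim_inl,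
        Sum.elim_inr, of_apply, Fin.val_succ, Fin.val_castSucc, fromBlocks_apply₂₁, bd,
        conjTranspose_apply]
      fin_cases i
      · simp only [Fin.zero_eta, if_true, Fin.val_zero]
        push_cast
        rw [if_neg (by omega), if_neg (by omega)]
        have := herm h (j + 1) (by omega)
        push_cast at this
        rw [zero_sub]
        exact this
      · simp only [Fin.mk_one, if_neg (show ¬ ((1 : Fin 2) = 0) by decide), Fin.val_last]
        push_cast
        rw [if_neg (by omega), if_neg (by omega)]
        have := herm h (m - j) (by omega)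
        have hj' : ((m - j : ℕ) : ℤ) = (m : ℤ) - j := by omega
        rw [hj'] at this
        have h3 : ((j : ℤ) - m) = -((m : ℤ) - j) := by ring
        have h4 : ((m : ℤ) + 1 - (j + 1)) = (m : ℤ) - j := by ring
        rw [h3, this, h4]
        simp
    · fin_cases i <;> fin_cases j
      · simp only [toep, ext, submatrix_apply, Equiv.ofBijective_apply, ef, Sum.elim_inr, of_apply,
          fromBlocks_apply₂₂]
        simp
        try (intro h1; omega)
        try (rw [if_neg (by omega), if_neg (by omega)])
      · simp only [toep, ext, submatrix_apply, Equiv.ofBijective_apply, ef, Sum.elim_inr, of_apply,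
          fromBlocks_apply₂₂]
        simp
        try (intro h1; omega)
        try (rw [if_neg (by omega), if_neg (by omega)])
      · simp only [toep, ext, submatrix_apply, Equiv.ofBijective_apply, ef, Sum.elim_inr, of_apply,
          fromBlocks_apply₂₂]
        simp
      · simp only [toep, ext, submatrix_apply, Equiv.ofBijective_apply, ef, Sum.elim_inr, of_apply,
          fromBlocks_apply₂₂]
        simp
        try (intro h1; omega)
        try (rw [if_neg (by omega), if_neg (by omega)])
  rw [h2]
  letI := hM.isUnit.invertible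
  rw [PosDef.fromBlocks₁₁ _ _ hM]
  have hG : (G m a).IsHermitian := by
    unfold G
    have := isHermitian_conjTranspose_mul_mul (bd m a) hM.inv.isHermitian
    exact this
  have h3 : !![a 0, conj α; α, a 0] - (bd m a)ᴴ * (toep m a)⁻¹ * (bd m a) =
      diagonal ![a 0 - G m a 0 0, a 0 - G m a 1 1] := by
    have h01 : G m a 0 1 = conj α := by
      have := congrFun (congrFun hG 0) 1
      rw [conjTranspose_apply] at this
      exact this.symm
    change !![a 0, conj α; α, a 0] - G m a = _
    ext i j
    fin_cases i <;> fin_cases j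
    · simp
    · simp [h01]
    · simp [hα]
    · simp
  rw [h3]
  apply PosSemidef.diagonal
  intro i
  fin_cases i
  · exact diag0 h hM
  · exact diag1 h hM

end Pool.Agent.X23.PTC
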