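import Mathlib
import Pool.Agent.X23.PTC1

/-!
# Scalar positive semidefinite Toeplitz matrices: uniqueness, existence and continuity
-/

open Matrix Filter Topology
open scoped ComplexOrder ComplexConjugate

namespace Pool.Agent.X23.PTC

theorem psd_of_tendsto {ι n : Type*} [Fintype n] {F : Filter ι} [F.NeBot] {T : ι → Matrix n n ℂ}
    {S : Matrix n n ℂ} (hT : Tendsto T F (𝓝 S)) (h : ∀ᶠ i in F, (T i).PosSemidef) :
    S.PosSemidef := by
  have h1 : IsClosed {M : Matrix n n ℂ | M.IsHermitian} := by
    have : Continuous (fun M : Matrix n n ℂ => Mᴴ) := by fun_prop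
    exact isClosed_eq this continuous_id
  have h2 : ∀ x : n → ℂ, IsClosed {M : Matrix n n ℂ | 0 ≤ star x ⬝ᵥ (M *ᵥ x)} := by
    intro x
    refine isClosed_le continuous_const ?_
    fun_prop
  rw [posSemidef_iff_dotProduct_mulVec]
  constructor
  · exact h1.mem_of_tendsto hT (h.mono fun i hi => hi.isHermitian)
  · intro x
    exact (h2 x).mem_of_tendsto hT (h.mono fun i hi => hi.dotProduct_mulVec_nonneg x)

theorem sub_psd {a : ℤ → ℂ} {m : ℕ} {α : ℂ} (h : (toep (m + 2) (ext a m α)).PosSemidef) :
    (toep (m + 1) a).PosSemidef := by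
  have h1 := h.submatrix (fun i : Fin (m + 1) => i.castSucc)
  have h2 : (toep (m + 2) (ext a m α)).submatrix (fun i : Fin (m + 1) => i.castSucc)
      (fun i : Fin (m + 1) => i.castSucc) = toep (m + 1) a := by
    ext i j
    have hi := i.2
    have hj := j.2
    simp only [toep, ext, submatrix_apply, of_apply, Fin.val_castSucc]
    rw [if_neg (by omega), if_neg (by omega)]
  rwa [h2] at h1

theorem sub_psd' {a : ℤ → ℂ} {m : ℕ} (h : (toep (m + 1) a).PosSemidef) :
    (toep m a).PosSemidef := by
  have h1 := h.submatrix (fun i : Fin m => i.castSucc)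
  have h2 : (toep (m + 1) a).submatrix (fun i : Fin m => i.castSucc)
      (fun i : Fin m => i.castSucc) = toep m a := by
    ext i j
    simp [toep]
  rwa [h2] at h1

theorem ext_top (a : ℤ → ℂ) (m : ℕ) (α : ℂ) : ext a m α (m + 1) = α := by
  simp [ext]

theorem norm_le {a : ℤ → ℂ} {m : ℕ} {α : ℂ} (h : (toep (m + 2) (ext a m α)).PosSemidef) :
    ‖α‖ ≤ (a 0).re := by
  have h0 : 0 ≤ a 0 := zero_nonneg (sub_psd h)
  have h1 := (h.submatrix ![0, Fin.last (m + 1)]).det_nonneg
  have h2 : ext a m α 0 = a 0 := by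
    simp only [ext]
    rw [if_neg (by omega), if_neg (by omega)]
  have h3 : ext a m α (-((m : ℤ) + 1)) = conj α := by
    simp only [ext]
    rw [if_neg (by omega)]
    simp
  have h4 : ((toep (m + 2) (ext a m α)).submatrix ![0, Fin.last (m + 1)]
      ![0, Fin.last (m + 1)]).det = a 0 * a 0 - conj α * α := by
    rw [det_fin_two]
    simp only [toep, submatrix_apply, of_apply, Matrix.cons_val_zero, Matrix.cons_val_one,
      Fin.val_zero, Fin.val_last, Nat.cast_zero, sub_self, zero_sub, sub_zero]
    push_cast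
    rw [h2, h3, ext_top]
  rw [h4] at h1
  have h5 : a 0 = ((a 0).re : ℂ) := by
    apply Complex.ext
    · simp
    · simpa using (Complex.nonneg_iff.mp h0).2.symm
  rw [h5, Complex.conj_mul', ← Complex.ofReal_mul] at h1
  have h6 : (0 : ℝ) ≤ (a 0).re * (a 0).re - ‖α‖ ^ 2 := by exact_mod_cast h1
  have h7 : 0 ≤ (a 0).re := (Complex.nonneg_iff.mp h0).1
  nlinarith [norm_nonneg α]

/-- Uniqueness of the one-step extension when the inner block is singular. -/
theorem uniq {a : ℤ → ℂ} {m : ℕ} {α β : ℂ} (hα : (toep (m + 2) (ext a m α)).PosSemidef)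
    (hβ : (toep (m + 2) (ext a m β)).PosSemidef) (hM : ¬ (toep m a).PosDef) : α = β := by
  have hMs : (toep m a).PosSemidef := sub_psd' (sub_psd hα)
  have hv : ∃ v : Fin m → ℂ, v ≠ 0 ∧ star v ⬝ᵥ (toep m a *ᵥ v) = 0 := by
    by_contra hcon
    push Not at hcon
    apply hM
    refine PosDef.of_dotProduct_mulVec_pos hMs.isHermitian ?_
    intro x hx
    exact lt_of_le_of_ne (hMs.dotProduct_mulVec_nonneg x) (hcon x hx).symm
  obtain ⟨v, hv0, hvq⟩ := hv
  set w : ℕ → ℂ := fun i => if h : i < m then v ⟨i, h⟩ else 0 with hw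
  have hwv : ∀ i : Fin m, w i = v i := by
    intro i
    simp [hw]
  have hwm : ∀ i, m ≤ i → w i = 0 := by
    intro i hi
    simp [hw, not_lt.mpr hi]
  have hex : ∃ j, w j ≠ 0 := by
    by_contra hcon
    push Not at hcon
    apply hv0
    funext i
    rw [← hwv]
    exact hcon i
  classical
  set j := Nat.find hex with hj
  have hj0 : w j ≠ 0 := Nat.find_spec hex
  have hjlt : ∀ i < j, w i = 0 := fun i hi => not_not.mp (Nat.find_min hex hi)
  have hq0 : ∑ i ∈ Finset.range m, ∑ l ∈ Finset.range m, conj (w i) * (a ((i : ℤ) - l) * w l) = 0 := by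
    rw [← hvq, dotProduct, Finset.sum_range]
    refine Finset.sum_congr rfl ?_
    intro i _
    rw [mulVec, dotProduct, Finset.sum_range, Pi.star_apply, Finset.mul_sum]
    refine Finset.sum_congr rfl ?_
    intro l _
    rw [hwv, hwv]
    rfl
  have key : ∀ γ : ℂ, (toep (m + 2) (ext a m γ)).PosSemidef →
      (toep (m + 2) (ext a m γ)) *ᵥ (fun i : Fin (m + 2) => w (j + i)) = 0 := by
    intro γ hγ
    rw [← hγ.dotProduct_mulVec_zero_iff]
    have h1 : star (fun i : Fin (m + 2) => w (j + i)) ⬝ᵥ
        ((toep (m + 2) (ext a m γ)) *ᵥ (fun i : Fin (m + 2) => w (j + i))) =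
        ∑ i ∈ Finset.range (m + 2), ∑ l ∈ Finset.range (m + 2),
          conj (w (j + i)) * (ext a m γ ((i : ℤ) - l) * w (j + l)) := by
      rw [dotProduct, Finset.sum_range]
      refine Finset.sum_congr rfl ?_
      intro i _
      rw [mulVec, dotProduct, Finset.sum_range, Pi.star_apply, Finset.mul_sum]
      rfl
    rw [h1]
    -- shift the sums
    set F : ℕ → ℕ → ℂ := fun i l => conj (w i) * (ext a m γ ((i : ℤ) - l) * w l) with hF
    have h2 : ∀ i l : ℕ, conj (w (j + i)) * (ext a m γ ((i : ℤ) - l) * w (j + l)) =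
        F (j + i) (j + l) := by
      intro i l
      simp only [hF]
      push_cast
      congr 3
      ring
    simp only [h2]
    have h3 : ∀ f : ℕ → ℂ, (∀ i < j, f i = 0) →
        ∑ l ∈ Finset.range (m + 2), f (j + l) = ∑ l ∈ Finset.range (j + (m + 2)), f l := by
      intro f hf
      rw [Finset.sum_range_add f j (m + 2)]
      rw [Finset.sum_eq_zero (s := Finset.range j) (fun i hi => hf i (Finset.mem_range.mp hi)),
        zero_add]
    have h4 : ∀ i, ∑ l ∈ Finset.range (m + 2), F i (j + l) =
        ∑ l ∈ Finset.range (j + (m + 2)), F i l := by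
      intro i
      apply h3 (fun l => F i l)
      intro l hl
      simp only [hF]
      rw [hjlt l hl, mul_zero, mul_zero]
    simp only [h4]
    rw [h3 (fun i => ∑ l ∈ Finset.range (j + (m + 2)), F i l) (by
      intro i hi
      refine Finset.sum_eq_zero ?_
      intro l _
      simp only [hF]
      rw [hjlt i hi, map_zero, zero_mul])]
    rw [← hq0]
    have h5 : Finset.range m ⊆ Finset.range (j + (m + 2)) := by
      intro x hx
      rw [Finset.mem_range] at hx ⊢
      omega
    rw [← Finset.sum_subset h5 (by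
      intro i _ hi
      rw [Finset.mem_range, not_lt] at hi
      refine Finset.sum_eq_zero ?_
      intro l _
      simp only [hF]
      rw [hwm i hi, map_zero, zero_mul])]
    refine Finset.sum_congr rfl ?_
    intro i hi
    rw [← Finset.sum_subset h5 (by
      intro l _ hl
      rw [Finset.mem_range, not_lt] at hl
      simp only [hF]
      rw [hwm l hl, mul_zero, mul_zero])]
    refine Finset.sum_congr rfl ?_
    intro l hl
    rw [Finset.mem_range] at hi hl
    simp only [hF, ext]
    rw [if_neg (by omega), if_neg (by omega)]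
  have hA := congrFun (key α hα) (Fin.last (m + 1))
  have hB := congrFun (key β hβ) (Fin.last (m + 1))
  rw [mulVec, dotProduct] at hA hB
  have hAB : ∑ l : Fin (m + 2), (toep (m + 2) (ext a m α) (Fin.last (m + 1)) l -
      toep (m + 2) (ext a m β) (Fin.last (m + 1)) l) * w (j + l) = 0 := by
    simp only [sub_mul, Finset.sum_sub_distrib]
    rw [hA, hB]
    simp
  rw [Finset.sum_eq_single (0 : Fin (m + 2))] at hAB
  · simp only [toep, of_apply, Fin.val_last, Fin.val_zero, Nat.cast_zero, sub_zero,
      add_zero] at hAB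
    push_cast at hAB
    rw [ext_top, ext_top] at hAB
    rcases mul_eq_zero.mp hAB with h | h
    · exact sub_eq_zero.mp h
    · exact absurd h hj0
  · intro l _ hl
    have hl' : 0 < (l : ℕ) := Nat.pos_of_ne_zero (fun h => hl (Fin.ext h))
    have hl2 := l.2
    have : toep (m + 2) (ext a m α) (Fin.last (m + 1)) l -
      toep (m + 2) (ext a m β) (Fin.last (m + 1)) l = 0 := by
      simp only [toep, of_apply, Fin.val_last, ext]
      push_cast
      rw [if_neg (by omega), if_neg (by omega), if_neg (by omega), if_neg (by omega), sub_self]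
    rw [this, zero_mul]
  · intro h
    exact absurd (Finset.mem_univ _) h

theorem tendsto_ext {ι : Type*} {F : Filter ι} {a : ι → ℤ → ℂ} {b : ℤ → ℂ} {α : ι → ℂ} {β : ℂ}
    (m : ℕ) (ha : ∀ l, Tendsto (fun i => a i l) F (𝓝 (b l))) (hα : Tendsto α F (𝓝 β)) :
    Tendsto (fun i => toep (m + 2) (ext (a i) m (α i))) F (𝓝 (toep (m + 2) (ext b m β))) := by
  refine tendsto_pi_nhds.mpr ?_
  intro i
  refine tendsto_pi_nhds.mpr ?_
  intro j
  simp only [toep, of_apply, ext]
  split_ifs
  · exact hα
  · exact (Complex.continuous_conj.tendsto _).comp hα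
  · exact ha _

/-- Existence of a one-step extension. -/
theorem exists_ext {a : ℤ → ℂ} {m : ℕ} (h : (toep (m + 1) a).PosSemidef) :
    ∃ α, (toep (m + 2) (ext a m α)).PosSemidef := by
  set ε : ℕ → ℝ := fun n => 1 / ((n : ℝ) + 1) with hε
  have hεpos : ∀ n, 0 < ε n := fun n => Nat.one_div_pos_of_nat
  set b : ℕ → ℤ → ℂ := fun n l => a l + if l = 0 then (ε n : ℂ) else 0 with hb
  have hbt : ∀ k n, toep k (b n) = toep k a + (ε n : ℂ) • (1 : Matrix (Fin k) (Fin k) ℂ) := by
    intro k n
    ext i j
    simp only [toep, hb, of_apply, Matrix.add_apply, Matrix.smul_apply, Matrix.one_apply,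
      smul_eq_mul, mul_ite, mul_one, mul_zero]
    congr 1
    by_cases hij : i = j
    · subst hij; simp
    · rw [if_neg hij, if_neg]
      intro h
      apply hij
      apply Fin.ext
      omega
  have hpd : ∀ k n, (toep k a).PosSemidef → (toep k (b n)).PosDef := by
    intro k n hk
    rw [hbt]
    refine PosDef.posSemidef_add hk ?_
    refine PosDef.smul PosDef.one ?_
    exact_mod_cast hεpos n
  have hc : ∀ n, (toep (m + 2) (ext (b n) m (G m (b n) 1 0))).PosSemidef := by
    intro n
    exact central (hpd _ n h).posSemidef (hpd _ n (sub_psd' h))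
  have hbd : ∀ n, G m (b n) 1 0 ∈ Metric.closedBall (0 : ℂ) ((a 0).re + 1) := by
    intro n
    rw [mem_closedBall_zero_iff]
    refine (norm_le (hc n)).trans ?_
    simp only [hb, if_true, Complex.add_re, Complex.ofReal_re]
    have : ε n ≤ 1 := by
      rw [hε]
      simp only
      rw [div_le_one (by positivity)]
      have : (0 : ℝ) ≤ n := by positivity
      linarith
    linarith
  obtain ⟨α, -, φ, hφ, hlim⟩ := (isCompact_closedBall (0 : ℂ) ((a 0).re + 1)).tendsto_subseq hbd
  refine ⟨α, ?_⟩
  have hb' : ∀ l, Tendsto (fun n => b (φ n) l) atTop (𝓝 (a l)) := by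
    intro l
    have h1 : Tendsto (fun n => b n l) atTop (𝓝 (a l)) := by
      simp only [hb]
      by_cases hl : l = 0
      · simp only [hl, if_true]
        have h2 : Tendsto (fun n : ℕ => (ε n : ℂ)) atTop (𝓝 ((0 : ℝ) : ℂ)) :=
          (Complex.continuous_ofReal.tendsto _).comp tendsto_one_div_add_atTop_nhds_zero_nat
        simpa using h2.const_add (a 0)
      · simp [hl]
    exact h1.comp hφ.tendsto_atTop
  exact psd_of_tendsto (tendsto_ext m hb' hlim) (Eventually.of_forall fun n => hc (φ n))

end Pool.Agent.X23.PTC
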