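import Mathlib
import Pool.Agent.X23.PTC2

/-!
# Continuous selection of Toeplitz extensions and the class PTC
-/

open Matrix Filter Topology
open scoped ComplexOrder ComplexConjugate

namespace Pool.Agent.X23.PTC

/-- The positive Toeplitz completion class, for a star ring `A`. For a C*-algebra `A` the matrix
rings over `A` are C*-algebras, in which the positive elements are those of the form `y* y`. -/
def PTC (A : Type) [Ring A] [StarRing A] : Prop :=
  ∀ k n : ℕ, 0 < k → k < n → ∀ a : ℤ → A,
    (∃ B : Matrix (Fin k) (Fin k) A, toep k a = Bᴴ * B) →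
    ∃ y : ℤ → A, (∀ l : ℤ, |l| ≤ k - 1 → y l = a l) ∧
      ∃ C : Matrix (Fin n) (Fin n) A, toep n y = Cᴴ * C

section Cont

variable {X : Type*} [TopologicalSpace X]

open Classical in
/-- the chosen extension coefficient -/
noncomputable def sel (m : ℕ) (a : ℤ → X → ℂ)
    (h : ∀ x, (toep (m + 1) (fun l => a l x)).PosSemidef) (x : X) : ℂ :=
  if (toep m (fun l => a l x)).PosDef then G m (fun l => a l x) 1 0
  else (exists_ext (h x)).choose

theorem sel_psd (m : ℕ) (a : ℤ → X → ℂ)
    (h : ∀ x, (toep (m + 1) (fun l => a l x)).PosSemidef) (x : X) :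
    (toep (m + 2) (ext (fun l => a l x) m (sel m a h x))).PosSemidef := by
  unfold sel
  split_ifs with hM
  · exact central (h x) hM
  · exact (exists_ext (h x)).choose_spec

theorem toep_cont (m : ℕ) {a : ℤ → X → ℂ} (ha : ∀ l, Continuous (a l)) :
    Continuous (fun x => toep m (fun l => a l x)) := by
  refine continuous_pi fun i => continuous_pi fun j => ?_
  exact ha _

theorem bd_cont (m : ℕ) {a : ℤ → X → ℂ} (ha : ∀ l, Continuous (a l)) :
    Continuous (fun x => bd m (fun l => a l x)) := by
  refine continuous_pi fun i => continuous_pi fun s => ?_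
  simp only [bd, of_apply]
  split_ifs
  · exact ha _
  · exact ha _

theorem sel_cont (m : ℕ) {a : ℤ → X → ℂ} (ha : ∀ l, Continuous (a l))
    (h : ∀ x, (toep (m + 1) (fun l => a l x)).PosSemidef) : Continuous (sel m a h) := by
  rw [continuous_iff_continuousAt]
  intro x0
  by_cases hM : (toep m (fun l => a l x0)).PosDef
  · have hdet : (toep m (fun l => a l x0)).det ≠ 0 := hM.det_pos.ne'
    have hdc : Continuous (fun x => (toep m (fun l => a l x)).det) :=
      (toep_cont m ha).matrix_det
    have hev : ∀ᶠ x in 𝓝 x0, (toep m (fun l => a l x)).det ≠ 0 :=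
      hdc.continuousAt.eventually_ne hdet
    have hev2 : ∀ᶠ x in 𝓝 x0, G m (fun l => a l x) 1 0 = sel m a h x := by
      filter_upwards [hev] with x hx
      have hps : (toep m (fun l => a l x)).PosSemidef := sub_psd' (h x)
      have : (toep m (fun l => a l x)).PosDef := by
        refine PosDef.of_dotProduct_mulVec_pos hps.isHermitian ?_
        intro v hv
        refine lt_of_le_of_ne (hps.dotProduct_mulVec_nonneg v) ?_
        intro h0
        have h1 := (hps.dotProduct_mulVec_zero_iff v).mp h0.symm
        exact hx (exists_mulVec_eq_zero_iff.mp ⟨v, hv, h1⟩)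
      rw [sel, if_pos this]
    have hinv : ∀ i j, Tendsto (fun x => (toep m (fun l => a l x))⁻¹ i j) (𝓝 x0)
        (𝓝 ((toep m (fun l => a l x0))⁻¹ i j)) := by
      intro i j
      have h1 : (fun x => (toep m (fun l => a l x))⁻¹ i j) =
          fun x => ((toep m (fun l => a l x)).det)⁻¹ * (toep m (fun l => a l x)).adjugate i j := by
        funext x
        rw [Matrix.inv_def, Ring.inverse_eq_inv']
        rfl
      have h2 : Continuous (fun x => (toep m (fun l => a l x)).adjugate i j) := by
        have h3 := (toep_cont m ha).matrix_adjugate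
        exact (continuous_apply j).comp ((continuous_apply i).comp h3)
      have h4 := (hdc.continuousAt.inv₀ hdet).mul h2.continuousAt
      rw [ContinuousAt] at h4
      rw [h1, Matrix.inv_def, Ring.inverse_eq_inv']
      exact h4
    have hbd : ∀ i s, Tendsto (fun x => bd m (fun l => a l x) i s) (𝓝 x0)
        (𝓝 (bd m (fun l => a l x0) i s)) := by
      intro i s
      have h3 := bd_cont m ha
      exact ((continuous_apply s).comp ((continuous_apply i).comp h3)).tendsto x0
    have h10 : ContinuousAt (fun x => G m (fun l => a l x) 1 0) x0 := by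
      rw [ContinuousAt]
      simp only [G, Matrix.mul_apply, conjTranspose_apply]
      refine tendsto_finset_sum _ fun j _ => ?_
      refine Tendsto.mul (tendsto_finset_sum _ fun i _ => ?_) (hbd j 0)
      refine Tendsto.mul ?_ (hinv i j)
      exact (Complex.continuous_conj.tendsto _).comp (hbd i 1)
    exact h10.congr hev2
  · rw [ContinuousAt, tendsto_iff_ultrafilter]
    intro U hU
    have hsp := sel_psd m a h
    have hbd : ∀ᶠ x in 𝓝 x0, sel m a h x ∈ Metric.closedBall (0 : ℂ) ((a 0 x0).re + 1) := by
      have h1 : Continuous (fun x => (a 0 x).re) := Complex.continuous_re.comp (ha 0)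
      have h2 : ∀ᶠ x in 𝓝 x0, (a 0 x).re < (a 0 x0).re + 1 :=
        h1.continuousAt.eventually_lt continuousAt_const (by simp)
      filter_upwards [h2] with x hx
      rw [mem_closedBall_zero_iff]
      exact (norm_le (hsp x)).trans hx.le
    have hcpt := isCompact_closedBall (0 : ℂ) ((a 0 x0).re + 1)
    have hU2 : Metric.closedBall (0 : ℂ) ((a 0 x0).re + 1) ∈ U.map (sel m a h) := hU hbd
    obtain ⟨β, -, hβ⟩ := hcpt.ultrafilter_le_nhds' _ hU2
    have hβ' : Tendsto (sel m a h) U (𝓝 β) := hβ
    have h3 : (toep (m + 2) (ext (fun l => a l x0) m β)).PosSemidef := by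
      refine psd_of_tendsto (F := (U : Filter X))
        (tendsto_ext m (fun l => ((ha l).tendsto x0).mono_left hU) hβ') ?_
      exact Eventually.of_forall hsp
    have h4 := uniq h3 (hsp x0) hM
    rw [← h4]
    exact hβ'

end Cont

section Sqrt

open scoped Matrix.Norms.L2Operator MatrixOrder

theorem sqrt_cont {X : Type*} [TopologicalSpace X] {n : ℕ} {T : X → Matrix (Fin n) (Fin n) ℂ}
    (hT : Continuous T) (hp : ∀ x, (T x).PosSemidef) :
    ∃ S : X → Matrix (Fin n) (Fin n) ℂ, Continuous S ∧ ∀ x, T x = (S x)ᴴ * S x := by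
  refine ⟨fun x => CFC.sqrt (T x), ?_, ?_⟩
  · have h1 : ContinuousOn (CFC.sqrt : Matrix (Fin n) (Fin n) ℂ → Matrix (Fin n) (Fin n) ℂ)
        {a | 0 ≤ a} := CFC.continuousOn_sqrt
    exact h1.comp_continuous hT (fun x => (hp x).nonneg)
  · intro x
    have h0 : 0 ≤ T x := (hp x).nonneg
    have h1 : CFC.sqrt (T x) * CFC.sqrt (T x) = T x := CFC.sqrt_mul_sqrt_self (T x) h0
    have h2 : (CFC.sqrt (T x))ᴴ = CFC.sqrt (T x) := by
      have : IsSelfAdjoint (CFC.sqrt (T x)) := IsSelfAdjoint.of_nonneg (CFC.sqrt_nonneg _)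
      exact this
    rw [h2, h1]

end Sqrt

end Pool.Agent.X23.PTC
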