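import Mathlib
import Pool.Agent.X23.PTC3

/-!
# `C(X)` belongs to the class PTC
-/

open Matrix Filter Topology
open scoped ComplexOrder ComplexConjugate

namespace Pool.Agent.X23.PTC

section CX

variable {X : Type} [TopologicalSpace X]

theorem pt_psd {k : ℕ} {a : ℤ → C(X, ℂ)} {B : Matrix (Fin k) (Fin k) C(X, ℂ)}
    (h : toep k a = Bᴴ * B) (x : X) : (toep k (fun l => a l x)).PosSemidef := by
  have h1 : toep k (fun l => a l x) = (B.map (fun f => f x))ᴴ * (B.map (fun f => f x)) := by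
    ext i j
    have h2 := congrArg (fun f : C(X, ℂ) => f x) (congrFun (congrFun h i) j)
    simp only [toep, of_apply, Matrix.mul_apply, conjTranspose_apply] at h2
    simp only [toep, of_apply, Matrix.mul_apply, conjTranspose_apply, Matrix.map_apply]
    rw [h2]
    simp
  rw [h1]
  exact posSemidef_conjTranspose_mul_self _

theorem fact_of_psd {n : ℕ} {y : ℤ → C(X, ℂ)}
    (h : ∀ x, (toep n (fun l => y l x)).PosSemidef) :
    ∃ C : Matrix (Fin n) (Fin n) C(X, ℂ), toep n y = Cᴴ * C := by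
  obtain ⟨S, hS, hS2⟩ := sqrt_cont (toep_cont n (a := fun l x => y l x)
    (fun l => (y l).continuous)) h
  refine ⟨of fun i j => ⟨fun x => S x i j, ?_⟩, ?_⟩
  · exact (continuous_apply j).comp ((continuous_apply i).comp hS)
  · ext i j x
    have h2 := congrFun (congrFun (hS2 x) i) j
    simp only [toep, of_apply, Matrix.mul_apply, conjTranspose_apply] at h2 ⊢
    rw [h2]
    simp

theorem step {m : ℕ} {a : ℤ → C(X, ℂ)}
    (h : ∃ B : Matrix (Fin (m + 1)) (Fin (m + 1)) C(X, ℂ), toep (m + 1) a = Bᴴ * B) :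
    ∃ y : ℤ → C(X, ℂ), (∀ l : ℤ, |l| ≤ m → y l = a l) ∧
      ∃ C : Matrix (Fin (m + 2)) (Fin (m + 2)) C(X, ℂ), toep (m + 2) y = Cᴴ * C := by
  obtain ⟨B, hB⟩ := h
  have hps := pt_psd hB
  have hc : Continuous (sel m (fun l x => a l x) hps) :=
    sel_cont m (fun l => (a l).continuous) hps
  set σ : C(X, ℂ) := ⟨sel m (fun l x => a l x) hps, hc⟩ with hσ
  set y : ℤ → C(X, ℂ) := fun l => if l = m + 1 then σ else if l = -(m + 1) then star σ else a l
    with hy
  refine ⟨y, ?_, ?_⟩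
  · intro l hl
    have := abs_le.mp hl
    simp only [hy]
    rw [if_neg (by omega), if_neg (by omega)]
  · apply fact_of_psd
    intro x
    have h1 : (fun l => y l x) = ext (fun l => a l x) m (sel m (fun l x => a l x) hps x) := by
      funext l
      simp only [hy, ext]
      split_ifs
      · rfl
      · rfl
      · rfl
    rw [h1]
    exact sel_psd m _ hps x

theorem ptc_CX : PTC C(X, ℂ) := by
  have main : ∀ d m : ℕ, ∀ a : ℤ → C(X, ℂ),
      (∃ B : Matrix (Fin (m + 1)) (Fin (m + 1)) C(X, ℂ), toep (m + 1) a = Bᴴ * B) →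
      ∃ y : ℤ → C(X, ℂ), (∀ l : ℤ, |l| ≤ m → y l = a l) ∧
        ∃ C : Matrix (Fin (m + 1 + d)) (Fin (m + 1 + d)) C(X, ℂ),
          toep (m + 1 + d) y = Cᴴ * C := by
    intro d
    induction d with
    | zero =>
      intro m a h
      exact ⟨a, fun _ _ => rfl, h⟩
    | succ d ih =>
      intro m a h
      obtain ⟨y, hy, hC⟩ := step h
      obtain ⟨z, hz, hD⟩ := ih (m + 1) y hC
      refine ⟨z, ?_, ?_⟩
      · intro l hl
        rw [hz l (by push_cast; linarith), hy l hl]
      · have : m + 1 + 1 + d = m + 1 + (d + 1) := by ring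
        rwa [this] at hD
  intro k n hk hkn a h
  obtain ⟨m, rfl⟩ : ∃ m, k = m + 1 := ⟨k - 1, by omega⟩
  obtain ⟨d, rfl⟩ : ∃ d, n = m + 1 + d := ⟨n - (m + 1), by omega⟩
  obtain ⟨y, hy, hC⟩ := main d m a h
  refine ⟨y, ?_, hC⟩
  intro l hl
  apply hy
  push_cast at hl
  linarith

end CX

end Pool.Agent.X23.PTC
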