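import Pool.Agent.X23.EM3

/-!
# The non-Fano matroid is not in the class; its minors are none of the four matroids
-/

open scoped ENNReal

namespace Pool.Agent.X23.EM

theorem third {V : Type*} [AddCommGroup V] [Module (ZMod 2) V] [FiniteDimensional (ZMod 2) V]
    (u v w : V) (h1 : Module.finrank (ZMod 2) (Submodule.span (ZMod 2) {u, v}) = 2)
    (h2 : Module.finrank (ZMod 2) (Submodule.span (ZMod 2) {u, w}) = 2)
    (h3 : Module.finrank (ZMod 2) (Submodule.span (ZMod 2) {v, w}) = 2)
    (h4 : Module.finrank (ZMod 2) (Submodule.span (ZMod 2) {u, v, w}) = 2) : w = u + v := by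
  have hle : Submodule.span (ZMod 2) {u, v} ≤ Submodule.span (ZMod 2) {u, v, w} := by
    apply Submodule.span_mono
    intro x hx
    simp only [Set.mem_insert_iff, Set.mem_singleton_iff] at hx ⊢
    tauto
  have heq := Submodule.eq_of_le_of_finrank_eq hle (h1.trans h4.symm)
  have hw : w ∈ Submodule.span (ZMod 2) {u, v} := by
    rw [heq]
    apply Submodule.subset_span
    simp
  obtain ⟨a, b, hab⟩ := Submodule.mem_span_pair.mp hw
  have h2' : ∀ a : ZMod 2, a = 0 ∨ a = 1 := by decide
  have hone : ∀ x y : V, ∀ c : ZMod 2, c • x = y →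
      Module.finrank (ZMod 2) (Submodule.span (ZMod 2) {x, y}) ≤ 1 := by
    intro x y c hc
    have h5 : Submodule.span (ZMod 2) {x, y} ≤ Submodule.span (ZMod 2) {x} := by
      rw [Submodule.span_le]
      intro t ht
      simp only [Set.mem_insert_iff, Set.mem_singleton_iff] at ht
      rcases ht with rfl | rfl
      · exact Submodule.subset_span rfl
      · rw [← hc]
        exact Submodule.smul_mem _ _ (Submodule.subset_span rfl)
    refine le_trans (Submodule.finrank_mono h5) ?_
    exact (finrank_span_le_card ({x} : Set V)).trans (by simp)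
  rcases h2' a with rfl | rfl
  · rw [zero_smul, zero_add] at hab
    have := hone v w b hab
    omega
  · rcases h2' b with rfl | rfl
    · rw [zero_smul, add_zero] at hab
      have := hone u w 1 hab
      omega
    · rw [one_smul, one_smul] at hab
      exact hab.symm

theorem nonFano_not_regular : ¬ Regular nonFano := by
  intro h
  have : Fact (Nat.Prime 2) := ⟨Nat.prime_two⟩
  obtain ⟨w, hw⟩ := h (ZMod 2)
  have I2 : ∀ i j : Fin 7, w '' (({i, j} : Finset (Fin 7)) : Set (Fin 7)) = {w i, w j} := by
    intro i j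
    simp only [Finset.coe_insert, Finset.coe_singleton, Set.image_insert_eq, Set.image_singleton]
  have I3 : ∀ i j k : Fin 7, w '' (({i, j, k} : Finset (Fin 7)) : Set (Fin 7)) =
      {w i, w j, w k} := by
    intro i j k
    simp only [Finset.coe_insert, Finset.coe_singleton, Set.image_insert_eq, Set.image_singleton]
  have K : ∀ i j k : Fin 7, nonFano.r {i, j} = 2 → nonFano.r {i, k} = 2 → nonFano.r {j, k} = 2 →
      nonFano.r {i, j, k} = 2 → w k = w i + w j := by
    intro i j k h1 h2 h3 h4
    rw [hw, I2] at h1 h2 h3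
    rw [hw, I3] at h4
    exact third _ _ _ h1 h2 h3 h4
  have e3 := K 0 1 3 (by decide) (by decide) (by decide) (by decide)
  have e4 := K 0 2 4 (by decide) (by decide) (by decide) (by decide)
  have e5 := K 1 2 5 (by decide) (by decide) (by decide) (by decide)
  have h5 : w 5 = w 3 + w 4 := by
    rw [e3, e4, e5]
    have : w 0 + w 0 = 0 := by
      funext i
      exact CharTwo.add_self_eq_zero _
    calc w 1 + w 2 = (w 0 + w 0) + (w 1 + w 2) := by rw [this, zero_add]
      _ = w 0 + w 1 + (w 0 + w 2) := by abel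
  have h6 : nonFano.r {3, 4, 5} = 3 := by decide
  rw [hw, I3] at h6
  have h7 : Submodule.span (ZMod 2) {w 3, w 4, w 5} ≤
      Submodule.span (ZMod 2) (({w 3, w 4} : Finset (Fin 7 → ZMod 2)) : Set (Fin 7 → ZMod 2)) := by
    rw [Submodule.span_le]
    have m3 : w 3 ∈ Submodule.span (ZMod 2)
        (({w 3, w 4} : Finset (Fin 7 → ZMod 2)) : Set (Fin 7 → ZMod 2)) :=
      Submodule.subset_span (by simp)
    have m4 : w 4 ∈ Submodule.span (ZMod 2)
        (({w 3, w 4} : Finset (Fin 7 → ZMod 2)) : Set (Fin 7 → ZMod 2)) :=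
      Submodule.subset_span (by simp)
    intro t ht
    simp only [Set.mem_insert_iff, Set.mem_singleton_iff] at ht
    rcases ht with rfl | rfl | rfl
    · exact m3
    · exact m4
    · rw [h5]
      exact Submodule.add_mem _ m3 m4
  have h8 := Submodule.finrank_mono h7
  have h9 := finrank_span_finset_le_card (R := ZMod 2) ({w 3, w 4} : Finset (Fin 7 → ZMod 2))
  have h10 : ({w 3, w 4} : Finset (Fin 7 → ZMod 2)).card ≤ 2 := Finset.card_le_two
  have h11 := le_trans h8 h9
  omega

theorem nonFano_notMem : ¬ InClass nonFano := by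
  rintro (h | h)
  · exact nonFano_not_regular h
  · apply four_notMem
    rw [h]
    exact ⟨by norm_num, by norm_num⟩

/-! ### Ranks in the non-Fano matroid -/

theorem nf_card : ∀ l ∈ nfLines, l.card = 3 := by
  set_option maxRecDepth 100000 in decide

theorem fano_card : ∀ l ∈ fanoLines, l.card = 3 := by
  set_option maxRecDepth 100000 in decide

theorem nf_r (A : Finset (Fin 7)) : nonFano.r A = if A ∈ nfLines then 2 else min A.card 3 := rfl

theorem fano_r (A : Finset (Fin 7)) : fano.r A = if A ∈ fanoLines then 2 else min A.card 3 := rfl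

theorem nf_r_le (A : Finset (Fin 7)) : nonFano.r A ≤ 3 := by
  rw [nf_r]
  split_ifs
  · norm_num
  · exact min_le_right _ _

theorem nf_r_big {A : Finset (Fin 7)} (h : 4 ≤ A.card) : nonFano.r A = 3 := by
  rw [nf_r, if_neg (fun hA => by have := nf_card A hA; omega)]
  omega

theorem nf_r_zero {A : Finset (Fin 7)} (h : nonFano.r A = 0) : A = ∅ := by
  rw [nf_r] at h
  split_ifs at h
  rw [← Finset.card_eq_zero]
  omega

theorem nf_r_one {A : Finset (Fin 7)} (h : nonFano.r A = 1) : A.card = 1 := by
  rw [nf_r] at h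
  split_ifs at h <;> omega

theorem nf_r_line {A : Finset (Fin 7)} (h : A ∈ nfLines) : nonFano.r A = 2 := by
  rw [nf_r, if_pos h]

theorem nf_lines2 : ∀ c d : Fin 7, ∃ l ∈ nfLines, c ∉ l ∧ d ∉ l := by
  set_option maxRecDepth 100000 in decide

theorem nf_lines1 : ∀ c d : Fin 7, c ≠ d → ∃ l ∈ nfLines, c ∈ l ∧ d ∉ l := by
  set_option maxRecDepth 100000 in decide

theorem iso_univ {m n : ℕ} {N : Mat m} {M : Mat n} (h : Iso N M) :
    m = n ∧ N.r Finset.univ = M.r Finset.univ := by
  obtain ⟨e, he⟩ := h
  refine ⟨by simpa using Fintype.card_congr e, ?_⟩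
  rw [he, Finset.map_univ_equiv]

theorem minor_rank {m : ℕ} {N : Mat m} (h : IsMinor N nonFano) (A : Finset (Fin m)) :
    N.r A ≤ 3 := by
  obtain ⟨f, C, -, hr⟩ := h
  rw [hr]
  have := nf_r_le (A.map f ∪ C)
  omega

theorem not_dual {m : ℕ} {N : Mat m} (h : IsMinor N nonFano) : ¬ Iso N (dual fano) := by
  intro hi
  have h1 := (iso_univ hi).2
  have h2 : (dual fano).r Finset.univ = 4 := by decide
  have h3 := minor_rank h Finset.univ
  omega

theorem not_fano {m : ℕ} {N : Mat m} (h : IsMinor N nonFano) : ¬ Iso N fano := by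
  classical
  intro hi
  obtain ⟨rfl, -⟩ := iso_univ hi
  obtain ⟨e, he⟩ := hi
  obtain ⟨f, C, hd, hr⟩ := h
  have hC : C = ∅ := by
    have h1 : Finset.univ.map f = Finset.univ := by
      apply Finset.eq_univ_of_card
      rw [Finset.card_map, Finset.card_univ]
    rw [h1] at hd
    exact Finset.disjoint_self_iff_empty _ |>.mp (Finset.disjoint_of_subset_left
      (Finset.subset_univ C) hd)
  subst hC
  have h0 : nonFano.r ∅ = 0 := by decide
  have h1 : ∀ l ∈ fanoLines, ((l.map e.symm.toEmbedding).map f) ∈ nfLines := by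
    intro l hl
    by_contra hcon
    have h2 := hr (l.map e.symm.toEmbedding)
    rw [Finset.union_empty, h0, Nat.sub_zero, he, Finset.map_map] at h2
    have h3 : (l.map (e.symm.toEmbedding.trans e.toEmbedding)) = l := by
      have : e.symm.toEmbedding.trans e.toEmbedding = Function.Embedding.refl _ := by
        ext i
        simp
      rw [this, Finset.map_refl]
    rw [h3, fano_r, if_pos hl, nf_r, if_neg hcon, Finset.card_map, Finset.card_map,
      fano_card l hl] at h2
    omega
  have h4 : fanoLines.card ≤ nfLines.card := by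
    refine Finset.card_le_card_of_injOn (fun l => (l.map e.symm.toEmbedding).map f) h1 ?_
    intro l _ l' _ h
    exact Finset.map_injective _ (Finset.map_injective _ h)
  exact absurd h4 (by decide)

theorem not_unif25 {m : ℕ} {N : Mat m} (h : IsMinor N nonFano) : ¬ Iso N (unif 2 5) := by
  classical
  intro hi
  obtain ⟨rfl, hu⟩ := iso_univ hi
  obtain ⟨e, he⟩ := hi
  obtain ⟨f, C, hd, hr⟩ := h
  have hc5 : (Finset.univ.map f).card = 5 := by rw [Finset.card_map]; rfl
  have hbig : nonFano.r (Finset.univ.map f ∪ C) = 3 := by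
    apply nf_r_big
    have := Finset.card_le_card (Finset.subset_union_left (s₁ := Finset.univ.map f) (s₂ := C))
    omega
  have h1 := hr Finset.univ
  have h2 : (unif 2 5).r Finset.univ = 2 := by decide
  rw [hu, h2, hbig] at h1
  have hC := nf_r_one (show nonFano.r C = 1 by omega)
  obtain ⟨c, rfl⟩ := Finset.card_eq_one.mp hC
  have hcT : c ∉ Finset.univ.map f := by
    rw [Finset.disjoint_singleton_right] at hd
    exact hd
  have hcard : (Finset.univ.map f ∪ {c}).card = 6 := by
    rw [Finset.card_union_of_disjoint hd, hc5]; rfl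
  have hcompl : (Finset.univ.map f ∪ {c})ᶜ.card = 1 := by
    rw [Finset.card_compl, hcard]; rfl
  obtain ⟨d, hd'⟩ := Finset.card_eq_one.mp hcompl
  have hcd : c ≠ d := by
    rintro rfl
    have : c ∈ (Finset.univ.map f ∪ {c})ᶜ := by rw [hd']; exact Finset.mem_singleton_self c
    rw [Finset.mem_compl] at this
    exact this (Finset.mem_union_right _ (Finset.mem_singleton_self c))
  obtain ⟨l, hl, hcl, hdl⟩ := nf_lines1 c d hcd
  have hsub : l.erase c ⊆ Finset.univ.map f := by
    intro i hi
    obtain ⟨hic, hil⟩ := Finset.mem_erase.mp hi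
    by_contra hcon
    have : i ∈ (Finset.univ.map f ∪ {c})ᶜ := by
      rw [Finset.mem_compl, Finset.mem_union, Finset.mem_singleton]
      tauto
    rw [hd', Finset.mem_singleton] at this
    exact hdl (this ▸ hil)
  obtain ⟨A, -, hA⟩ := Finset.subset_map_iff.mp hsub
  have h3 := hr A
  have h4 : A.card = 2 := by
    rw [← Finset.card_map f, ← hA, Finset.card_erase_of_mem hcl, nf_card l hl]
  have h5 : A.map f ∪ {c} = l := by
    rw [← hA]
    ext i
    simp only [Finset.mem_union, Finset.mem_erase, Finset.mem_singleton]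
    constructor
    · rintro (h | rfl)
      · exact h.2
      · exact hcl
    · intro h
      by_cases hic : i = c
      · exact Or.inr hic
      · exact Or.inl ⟨hic, h⟩
  rw [h5, nf_r_line hl, he] at h3
  have h6 : (unif 2 5).r (A.map e.toEmbedding) = min (A.map e.toEmbedding).card 2 := rfl
  rw [h6, Finset.card_map, h4] at h3
  omega

theorem not_unif35 {m : ℕ} {N : Mat m} (h : IsMinor N nonFano) : ¬ Iso N (unif 3 5) := by
  classical
  intro hi
  obtain ⟨rfl, hu⟩ := iso_univ hi
  obtain ⟨e, he⟩ := hi
  obtain ⟨f, C, hd, hr⟩ := h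
  have hc5 : (Finset.univ.map f).card = 5 := by rw [Finset.card_map]; rfl
  have hbig : nonFano.r (Finset.univ.map f ∪ C) = 3 := by
    apply nf_r_big
    have := Finset.card_le_card (Finset.subset_union_left (s₁ := Finset.univ.map f) (s₂ := C))
    omega
  have h1 := hr Finset.univ
  have h2 : (unif 3 5).r Finset.univ = 3 := by decide
  rw [hu, h2, hbig] at h1
  have hC := nf_r_zero (show nonFano.r C = 0 by omega)
  subst hC
  have hcompl : (Finset.univ.map f)ᶜ.card = 2 := by
    rw [Finset.card_compl, hc5]; rfl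
  obtain ⟨c, d, -, hcd⟩ := Finset.card_eq_two.mp hcompl
  obtain ⟨l, hl, hcl, hdl⟩ := nf_lines2 c d
  have hsub : l ⊆ Finset.univ.map f := by
    intro i hil
    by_contra hcon
    have : i ∈ (Finset.univ.map f)ᶜ := Finset.mem_compl.mpr hcon
    rw [hcd, Finset.mem_insert, Finset.mem_singleton] at this
    rcases this with rfl | rfl
    · exact hcl hil
    · exact hdl hil
  obtain ⟨A, -, hA⟩ := Finset.subset_map_iff.mp hsub
  have h3 := hr A
  have h4 : A.card = 3 := by
    rw [← Finset.card_map f, ← hA, nf_card l hl]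
  have h0 : nonFano.r ∅ = 0 := by decide
  rw [Finset.union_empty, ← hA, nf_r_line hl, h0, he] at h3
  have h6 : (unif 3 5).r (A.map e.toEmbedding) = min (A.map e.toEmbedding).card 3 := rfl
  rw [h6, Finset.card_map, h4] at h3
  omega

theorem main : ∃ (m : ℕ) (N : Mat m), IsExcludedMinor N ∧ IsMinor N nonFano ∧
    ¬ Iso N (unif 2 5) ∧ ¬ Iso N (unif 3 5) ∧ ¬ Iso N fano ∧ ¬ Iso N (dual fano) := by
  obtain ⟨m, N, hm, hN⟩ := exists_excluded nonFano_notMem
  exact ⟨m, N, hN, hm, not_unif25 hm, not_unif35 hm, not_fano hm, not_dual hm⟩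

end Pool.Agent.X23.EM
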