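import Mathlib

/-!
# Block Toeplitz operators: definitions

The circle is `UnitAddCircle` with coordinate `z = fourier 1` and normalised Haar measure. The
coefficient space `W` will be `EuclideanSpace ℂ (Fin n)`, that is `ℂⁿ`.
-/

open MeasureTheory AddCircle
open scoped InnerProductSpace ENNReal

namespace Pool.Agent.X23.BT

variable (W : Type) [NormedAddCommGroup W] [InnerProductSpace ℂ W] [CompleteSpace W]

/-- The matrices `M_n(ℂ)`, as the operators on `W = ℂⁿ` with the operator norm. -/
abbrev Mat : Type := W →L[ℂ] W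

/-- normalised Lebesgue measure on the circle. -/
noncomputable abbrev μ : Measure UnitAddCircle := haarAddCircle

/-- `L²` of `W`-valued functions on the circle. -/
abbrev L2 : Type := Lp W 2 μ

/-- `L^∞` of matrix valued functions on the circle. -/
abbrev Linf : Type := Lp (Mat W) ∞ μ

/-- `H²` of `W`-valued functions: the closed linear span in `L²` of the functions `z ^ k v`,
`k ≥ 0`, `v ∈ W`. -/
noncomputable def H2 : Submodule ℂ (L2 W) :=
  (Submodule.span ℂ {g : L2 W | ∃ (k : ℕ) (v : W),
    g =ᵐ[μ] fun t => (fourier (k : ℤ) t : ℂ) • v}).topologicalClosure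

noncomputable instance : CompleteSpace (H2 W) := by
  unfold H2
  infer_instance

variable {W}

/-- The operator `f ↦ Φ f` on `L²`; almost everywhere `(mul Φ f)(t) = Φ(t) (f t)`. -/
noncomputable def mul (Φ : Linf W) : L2 W →L[ℂ] L2 W :=
  (ContinuousLinearMap.id ℂ (Mat W)).holderL μ ∞ 2 2 Φ

/-- The block Toeplitz operator `T_Φ f = P (Φ f)` on `H²`. -/
noncomputable def toeplitz (Φ : Linf W) : H2 W →L[ℂ] H2 W :=
  (H2 W).orthogonalProjectionOnto ∘L mul Φ ∘L (H2 W).subtypeL

/-- `Φ` belongs to `H^∞`: all Fourier coefficients of negative index vanish. -/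
def IsAnalytic (Φ : Linf W) : Prop :=
  ∀ k : ℤ, k < 0 → fourierCoeff (Φ : UnitAddCircle → Mat W) k = 0

/-- `T` is subnormal: the restriction of a normal operator to an invariant subspace (up to the
isometric identification `J` of the space with that subspace). -/
def Subnormal {H : Type*} [NormedAddCommGroup H] [InnerProductSpace ℂ H]
    (T : H →L[ℂ] H) : Prop :=
  ∃ (K : Type) (_ : NormedAddCommGroup K) (_ : InnerProductSpace ℂ K) (_ : CompleteSpace K)
    (N : K →L[ℂ] K) (J : H →ₗᵢ[ℂ] K), IsStarNormal N ∧ ∀ x, N (J x) = J (T x)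

/-- The Blaschke factor `(z - α) / (1 - conj α z)`. -/
noncomputable def bl (α z : ℂ) : ℂ := (z - α) / (1 - (starRingEnd ℂ) α * z)

/-- `B` is a finite Blaschke–Potapov product: a constant unitary times a finite product of
factors `b_α(z) P + (I - P)` with `|α| < 1` and `P` a nonzero orthogonal projection. -/
def IsBP (B : ℂ → Mat W) : Prop :=
  ∃ (U : Mat W) (l : List (ℂ × Mat W)), U ∈ unitary (Mat W) ∧
    (∀ p ∈ l, ‖p.1‖ < 1 ∧ IsStarProjection p.2 ∧ p.2 ≠ 0) ∧
    ∀ z, B z = U * (l.map (fun p => bl p.1 z • p.2 + (1 - p.2))).prod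

end Pool.Agent.X23.BT
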