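import Mathlib
import Pool.Agent.X23.BTDefs

/-!
# Block Toeplitz operators: the symbol `diag(z + 1/z, z)`
-/

open MeasureTheory AddCircle
open scoped InnerProductSpace ENNReal

namespace Pool.Agent.X23.BT

variable {W : Type} [NormedAddCommGroup W] [InnerProductSpace ℂ W] [CompleteSpace W]

/-- continuous symbols -/
noncomputable def sym (c : C(UnitAddCircle, Mat W)) : Linf W := ContinuousMap.toLp ∞ μ ℂ c

theorem sym_ae (c : C(UnitAddCircle, Mat W)) : sym c =ᵐ[μ] c :=
  ContinuousMap.coeFn_toLp (p := ∞) (𝕜 := ℂ) μ c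

theorem mul_ae (Φ : Linf W) (f : L2 W) : mul Φ f =ᵐ[μ] fun t => Φ t (f t) :=
  (ContinuousLinearMap.id ℂ (Mat W)).coeFn_holder Φ f

noncomputable def mc (c : C(UnitAddCircle, Mat W)) : L2 W →L[ℂ] L2 W := mul (sym c)

theorem mc_ae (c : C(UnitAddCircle, Mat W)) (f : L2 W) : mc c f =ᵐ[μ] fun t => c t (f t) := by
  filter_upwards [mul_ae (sym c) f, sym_ae c] with t h1 h2
  rw [mc, h1, h2]

theorem mc_mul (c d : C(UnitAddCircle, Mat W)) : mc (c * d) = mc c * mc d := by
  apply ContinuousLinearMap.ext
  intro f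
  apply Lp.ext
  change mc (c * d) f =ᵐ[μ] mc c (mc d f)
  filter_upwards [mc_ae (c * d) f, mc_ae c (mc d f), mc_ae d f] with t h1 h2 h3
  rw [h1, h2, h3]
  rfl

theorem mc_add (c d : C(UnitAddCircle, Mat W)) : mc (c + d) = mc c + mc d := by
  apply ContinuousLinearMap.ext
  intro f
  apply Lp.ext
  change mc (c + d) f =ᵐ[μ] (mc c f + mc d f : L2 W)
  filter_upwards [mc_ae (c + d) f, mc_ae c f, mc_ae d f, Lp.coeFn_add (mc c f) (mc d f)]
    with t h1 h2 h3 h4
  rw [h1, h4, Pi.add_apply, h2, h3]
  rfl

theorem mc_zero : mc (0 : C(UnitAddCircle, Mat W)) = 0 := by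
  have := mc_add (0 : C(UnitAddCircle, Mat W)) 0
  rw [add_zero] at this
  exact left_eq_add.mp this

theorem mc_star (c : C(UnitAddCircle, Mat W)) : star (mc c) = mc (star c) := by
  symm
  rw [ContinuousLinearMap.star_eq_adjoint, ContinuousLinearMap.eq_adjoint_iff]
  intro f g
  rw [L2.inner_def, L2.inner_def]
  apply integral_congr_ae
  filter_upwards [mc_ae (star c) f, mc_ae c g] with t h1 h2
  rw [h1, h2]
  change inner ℂ ((star (c t)) (f t)) (g t) = inner ℂ (f t) (c t (g t))
  rw [ContinuousLinearMap.star_eq_adjoint, ContinuousLinearMap.adjoint_inner_left]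

/-- the generating functions of `H²` -/
def gens (W : Type) [NormedAddCommGroup W] [InnerProductSpace ℂ W] [CompleteSpace W] : Set (L2 W) := {g : L2 W | ∃ (k : ℕ) (v : W),
    g =ᵐ[μ] fun t => (fourier (k : ℤ) t : ℂ) • v}

variable (W) in
theorem H2_eq : H2 W = (Submodule.span ℂ (gens W)).topologicalClosure := rfl

theorem gens_le : gens W ⊆ H2 W := fun _ hg =>
  Submodule.le_topologicalClosure _ (Submodule.subset_span hg)

/-- an operator mapping the generators into `H²` maps `H²` into itself -/
theorem inv_of_gens (C : L2 W →L[ℂ] L2 W) (h : ∀ g ∈ gens W, C g ∈ H2 W) :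
    ∀ f ∈ H2 W, C f ∈ H2 W := by
  have h1 : H2 W ≤ (H2 W).comap (C : L2 W →ₗ[ℂ] L2 W) := by
    conv_lhs => rw [H2_eq]
    apply Submodule.topologicalClosure_minimal
    · rw [Submodule.span_le]
      intro g hg
      exact h g hg
    · have hcl : IsClosed (H2 W : Set (L2 W)) := by
        rw [H2_eq]
        exact Submodule.isClosed_topologicalClosure _
      exact hcl.preimage C.continuous
  intro f hf
  exact h1 hf

/-- functions orthogonal to the generators are orthogonal to `H²` -/
theorem orth_of_gens (u : L2 W) (h : ∀ g ∈ gens W, (inner ℂ g u : ℂ) = 0) :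
    ∀ f ∈ H2 W, (inner ℂ f u : ℂ) = 0 := by
  have h1 : H2 W ≤ (Submodule.span ℂ {u})ᗮ := by
    rw [H2_eq]
    apply Submodule.topologicalClosure_minimal
    · rw [Submodule.span_le]
      intro g hg
      change g ∈ (Submodule.span ℂ {u})ᗮ
      rw [Submodule.mem_orthogonal_singleton_iff_inner_left]
      exact h g hg
    · exact Submodule.isClosed_orthogonal _
  intro f hf
  exact Submodule.mem_orthogonal_singleton_iff_inner_left.mp (h1 hf)

/-- constants as continuous symbols -/
noncomputable def cst (A : Mat W) : C(UnitAddCircle, Mat W) := ContinuousMap.const _ A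

/-- `z ^ k A` as continuous symbols -/
noncomputable def zk (k : ℤ) (A : Mat W) : C(UnitAddCircle, Mat W) :=
  ⟨fun t => (fourier k t : ℂ) • A, by fun_prop⟩

theorem zk_inv (k : ℕ) (A : Mat W) : ∀ f ∈ H2 W, mc (zk k A) f ∈ H2 W := by
  apply inv_of_gens
  rintro g ⟨j, v, hg⟩
  apply gens_le
  refine ⟨k + j, A v, ?_⟩
  filter_upwards [mc_ae (zk k A) g, hg] with t h1 h2
  rw [h1, h2]
  change (fourier (k : ℤ) t : ℂ) • A ((fourier (j : ℤ) t : ℂ) • v) = _
  rw [map_smul, smul_smul]
  congr 1
  rw [Nat.cast_add, fourier_add]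

theorem cst_eq (A : Mat W) : cst A = zk 0 A := by
  ext t : 1
  change A = (fourier (0 : ℤ) t : ℂ) • A
  rw [fourier_zero, one_smul]

theorem cst_inv (A : Mat W) : ∀ f ∈ H2 W, mc (cst A) f ∈ H2 W := by
  rw [cst_eq]
  exact zk_inv 0 A

variable (W) in
/-- the projection onto `H²`, as an operator of `L²` -/
noncomputable def P : L2 W →L[ℂ] L2 W := (H2 W).starProjection

theorem P_star : star (P W) = P W := (isStarProjection_starProjection (U := H2 W)).isSelfAdjoint

theorem P_mul_self : P W * P W = P W := (isStarProjection_starProjection (U := H2 W)).isIdempotentElem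

/-- Constant self-adjoint matrices commute with `P`. -/
theorem P_comm (E : Mat W) (hE : star E = E) : P W * mc (cst E) = mc (cst E) * P W := by
  apply ContinuousLinearMap.ext
  intro f
  change (H2 W).starProjection (mc (cst E) f) = mc (cst E) ((H2 W).starProjection f)
  refine Submodule.eq_starProjection_of_mem_of_inner_eq_zero ?_ ?_
  · exact cst_inv E _ (Submodule.coe_mem _)
  · intro w hw
    have h1 : mc (cst E) f - mc (cst E) ((H2 W).starProjection f) =
        mc (cst E) (f - (H2 W).starProjection f) := by rw [map_sub]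
    rw [h1]
    have h2 : star (mc (cst E)) = mc (cst E) := by
      rw [mc_star]
      congr 1
      ext t : 1
      exact hE
    have h3 : (inner ℂ (mc (cst E) (f - (H2 W).starProjection f)) w : ℂ) =
        inner ℂ (f - (H2 W).starProjection f) (mc (cst E) w) := by
      conv_lhs => rw [← h2]
      rw [ContinuousLinearMap.star_eq_adjoint, ContinuousLinearMap.adjoint_inner_left]
    rw [h3]
    exact Submodule.starProjection_inner_eq_zero _ _ (cst_inv E w hw)

end Pool.Agent.X23.BT
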