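import Mathlib
import Pool.Agent.X23.BTProof

/-!
# A subnormal block Toeplitz operator, neither normal nor analytic, with `Φ = B Φ*`
-/

open MeasureTheory AddCircle
open scoped InnerProductSpace ENNReal

namespace Pool.Agent.X23.BT

variable {W : Type} [NormedAddCommGroup W] [InnerProductSpace ℂ W] [CompleteSpace W]

/-- A projection with a complementary pair of vectors. -/
structure Dat (E : Mat W) (e0 e1 : W) : Prop where
  st : star E = E
  idem : E * E = E
  h0 : E e0 = e0
  h1 : E e1 = 0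
  n0 : e0 ≠ 0
  n1 : e1 ≠ 0

variable {E : Mat W} {e0 e1 : W}

/-- The symbol `(z + 1/z) E + z (1 - E)`. -/
noncomputable def c (E : Mat W) : C(UnitAddCircle, Mat W) := (zk 1 E + zk (-1) E) + zk 1 (1 - E)

/-- The product `E + z² (1 - E)`. -/
noncomputable def B (E : Mat W) (z : ℂ) : Mat W := E + z ^ 2 • (1 - E)

theorem F_idem (h : Dat E e0 e1) : (1 - E) * (1 - E) = 1 - E := by
  have := h.idem
  rw [mul_sub, sub_mul, sub_mul, this]; noncomm_ring

theorem EF (h : Dat E e0 e1) : E * (1 - E) = 0 := by rw [mul_sub, h.idem, mul_one, sub_self]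

theorem FE (h : Dat E e0 e1) : (1 - E) * E = 0 := by rw [sub_mul, h.idem, one_mul, sub_self]

theorem F_star (h : Dat E e0 e1) : star (1 - E) = 1 - E := by rw [star_sub, star_one, h.st]

theorem B_bp (h : Dat E e0 e1) : IsBP (B E) := by
  refine ⟨1, [(0, 1 - E), (0, 1 - E)], one_mem _, ?_, ?_⟩
  · intro p hp
    have hp' : p = (0, 1 - E) := by simpa using hp
    subst hp'
    refine ⟨by simp, ⟨F_idem h, F_star h⟩, ?_⟩
    intro h'
    have h1 : (1 - E : Mat W) e1 = 0 := by
      change (1 - E : Mat W) = 0 at h'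
      rw [h']; rfl
    change e1 - E e1 = 0 at h1
    rw [h.h1, sub_zero] at h1
    exact h.n1 h1
  · intro z
    simp only [List.map_cons, List.map_nil, List.prod_cons, List.prod_nil, mul_one, one_mul]
    have hb : bl 0 z = z := by simp [bl]
    rw [hb, sub_sub_cancel, mul_add, add_mul, add_mul, smul_mul_assoc, mul_smul_comm, F_idem h,
      mul_smul_comm, EF h, smul_mul_assoc, FE h, h.idem, B, smul_smul, ← pow_two]
    simp [add_comm]

theorem zk_mul (j k : ℤ) (A A' : Mat W) : zk j A * zk k A' = zk (j + k) (A * A') := by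
  ext t : 1
  change ((fourier j t : ℂ) • A) * ((fourier k t : ℂ) • A') = (fourier (j + k) t : ℂ) • (A * A')
  rw [smul_mul_assoc, mul_smul_comm, smul_smul, fourier_add]

theorem zk_star (j : ℤ) (A : Mat W) : star (zk j A) = zk (-j) (star A) := by
  ext t : 1
  change star ((fourier j t : ℂ) • A) = (fourier (-j) t : ℂ) • star A
  rw [star_smul, fourier_neg]
  rfl

theorem zk_zero (j : ℤ) : zk j (0 : Mat W) = 0 := by
  ext t : 1
  change (fourier j t : ℂ) • (0 : Mat W) = 0
  rw [smul_zero]

theorem star_f1 (t : UnitAddCircle) : star (fourier 1 t : ℂ) = fourier (-1) t :=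
  (fourier_neg (n := 1)).symm

theorem star_f2 (t : UnitAddCircle) : star (fourier (-1) t : ℂ) = fourier 1 t := by
  rw [← star_f1, star_star]

theorem c_star_apply (h : Dat E e0 e1) (t : UnitAddCircle) :
    star (c E t) = (fourier (-1) t : ℂ) • E + (fourier 1 t : ℂ) • E
      + (fourier (-1) t : ℂ) • (1 - E) := by
  have hc : c E t = (fourier 1 t : ℂ) • E + (fourier (-1) t : ℂ) • E
    + (fourier 1 t : ℂ) • (1 - E) := rfl
  rw [hc, star_add, star_add, star_smul, star_smul, star_smul, h.st, F_star h, star_f1, star_f2]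

theorem relation (h : Dat E e0 e1) :
    ∀ᵐ t ∂μ, sym (c E) t = B E (fourier 1 t) * star (sym (c E) t) := by
  filter_upwards [sym_ae (c E)] with t ht
  rw [ht, c_star_apply h]
  have hc : c E t = (fourier 1 t : ℂ) • E + (fourier (-1) t : ℂ) • E
    + (fourier 1 t : ℂ) • (1 - E) := rfl
  rw [hc, B]
  have hz : (fourier 1 t : ℂ) * fourier (-1) t = 1 := by
    rw [← fourier_add, add_neg_cancel, fourier_zero]
  simp only [add_mul, mul_add, mul_smul_comm, smul_mul_assoc, h.idem, EF h, FE h, F_idem h,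
    smul_zero, add_zero, zero_add, smul_smul]
  have h3 : (fourier (-1) t : ℂ) * (fourier 1 t : ℂ) ^ 2 = fourier 1 t := by
    rw [pow_two, ← mul_assoc, mul_comm (fourier (-1) t : ℂ), hz, one_mul]
  rw [h3]
  abel

/-- the self-adjoint part `(z + 1/z) E` -/
noncomputable def s (E : Mat W) : C(UnitAddCircle, Mat W) := zk 1 E + zk (-1) E

/-- the analytic part `z (1 - E)` -/
noncomputable def a (E : Mat W) : C(UnitAddCircle, Mat W) := zk 1 (1 - E)

theorem s_star (h : Dat E e0 e1) : star (s E) = s E := by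
  rw [s, star_add, zk_star, zk_star, h.st, neg_neg, add_comm]

theorem s_E (h : Dat E e0 e1) : s E * cst E = s E := by
  rw [s, cst_eq, add_mul, zk_mul, zk_mul, h.idem, add_zero, add_zero]

theorem E_s (h : Dat E e0 e1) : cst E * s E = s E := by
  rw [s, cst_eq, mul_add, zk_mul, zk_mul, h.idem, zero_add, zero_add]

theorem a_E (h : Dat E e0 e1) : a E * cst E = 0 := by
  rw [a, cst_eq, zk_mul, FE h, zk_zero]

theorem E_a (h : Dat E e0 e1) : cst E * a E = 0 := by
  rw [a, cst_eq, zk_mul, EF h, zk_zero]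

theorem a_star_mul (h : Dat E e0 e1) : star (a E) * a E = cst (1 - E) := by
  rw [a, zk_star, zk_mul, F_star h, F_idem h, cst_eq, neg_add_cancel]

theorem mul_a_star (h : Dat E e0 e1) : a E * star (a E) = cst (1 - E) := by
  rw [a, zk_star, zk_mul, F_star h, F_idem h, cst_eq, add_neg_cancel]

theorem cst_star (h : Dat E e0 e1) : star (cst E) = cst E := by
  rw [cst_eq, zk_star, h.st, neg_zero]

theorem star_a_E (h : Dat E e0 e1) : star (a E) * cst E = 0 := by
  rw [a, zk_star, F_star h, cst_eq, zk_mul, FE h, zk_zero]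

theorem E_star_a (h : Dat E e0 e1) : cst E * star (a E) = 0 := by
  rw [a, zk_star, F_star h, cst_eq, zk_mul, EF h, zk_zero]

/-- the self-adjoint summand of the normal extension -/
noncomputable def S (E : Mat W) : L2 W →L[ℂ] L2 W := P W * mc (s E) * P W

theorem S_star (h : Dat E e0 e1) : star (S E) = S E := by
  rw [S, star_mul, star_mul, P_star, mc_star, s_star h, mul_assoc]

theorem S_E (h : Dat E e0 e1) : S E * mc (cst E) = S E := by
  have h1 : mc (s E) * mc (cst E) = mc (s E) := by rw [← mc_mul, s_E h]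
  rw [S, mul_assoc, P_comm E h.st, ← mul_assoc, mul_assoc (P W) (mc (s E)), h1]

theorem E_S (h : Dat E e0 e1) : mc (cst E) * S E = S E := by
  have h1 : mc (cst E) * mc (s E) = mc (s E) := by rw [← mc_mul, E_s h]
  rw [S, ← mul_assoc, ← mul_assoc, ← P_comm E h.st, mul_assoc (P W), h1]

/-- the normal extension -/
noncomputable def N (E : Mat W) : L2 W →L[ℂ] L2 W := mc (a E) + S E

theorem a_S (h : Dat E e0 e1) : mc (a E) * S E = 0 := by
  rw [← E_S h, ← mul_assoc, ← mc_mul, a_E h, mc_zero, zero_mul]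

theorem S_a (h : Dat E e0 e1) : S E * mc (a E) = 0 := by
  rw [← S_E h, mul_assoc, ← mc_mul, E_a h, mc_zero, mul_zero]

theorem sa_S (h : Dat E e0 e1) : mc (star (a E)) * S E = 0 := by
  rw [← E_S h, ← mul_assoc, ← mc_mul, star_a_E h, mc_zero, zero_mul]

theorem S_sa (h : Dat E e0 e1) : S E * mc (star (a E)) = 0 := by
  rw [← S_E h, mul_assoc, ← mc_mul, E_star_a h, mc_zero, mul_zero]

theorem N_normal (h : Dat E e0 e1) : IsStarNormal (N E) := by
  refine ⟨?_⟩
  change star (N E) * N E = N E * star (N E)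
  rw [N, star_add, S_star h, mc_star, add_mul, mul_add, mul_add, add_mul, mul_add, mul_add,
    a_S h, S_a h, sa_S h, S_sa h, ← mc_mul, ← mc_mul, a_star_mul h, mul_a_star h]

theorem c_eq : c E = s E + a E := rfl

theorem a_inv : ∀ f ∈ H2 W, mc (a E) f ∈ H2 W := by
  have := zk_inv 1 (1 - E)
  simpa [a] using this

theorem subn (h : Dat E e0 e1) : Subnormal (toeplitz (sym (c E))) := by
  refine ⟨L2 W, inferInstance, inferInstance, inferInstance, N E, (H2 W).subtypeₗᵢ,
    N_normal h, ?_⟩
  intro x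
  change mc (a E) x + (H2 W).starProjection (mc (s E) ((H2 W).starProjection (x : L2 W))) =
    (H2 W).starProjection (mc (c E) x)
  have h1 : (H2 W).starProjection (x : L2 W) = x := Submodule.starProjection_eq_self_iff.mpr x.2
  have h2 : (H2 W).starProjection (mc (a E) x) = mc (a E) x :=
    Submodule.starProjection_eq_self_iff.mpr (a_inv _ x.2)
  rw [h1, c_eq, mc_add]
  change _ = (H2 W).starProjection (mc (s E) x + mc (a E) x)
  rw [map_add, h2, add_comm]

/-- the constant function `e1` -/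
noncomputable def g1 (e1 : W) : L2 W := ContinuousMap.toLp 2 μ ℂ (ContinuousMap.const _ e1)

theorem g1_ae : g1 e1 =ᵐ[μ] fun _ => e1 :=
  ContinuousMap.coeFn_toLp (p := 2) (𝕜 := ℂ) μ (ContinuousMap.const _ e1)

theorem g1_mem : g1 e1 ∈ H2 W := by
  apply gens_le
  refine ⟨0, e1, ?_⟩
  filter_upwards [g1_ae (e1 := e1)] with t h
  rw [h]
  simp

theorem int_fourier (k : ℤ) (hk : k ≠ 0) : ∫ t, (fourier k t : ℂ) ∂μ = 0 := by
  have h : (inner ℂ (fourierLp (T := 1) 2 0) (fourierLp (T := 1) 2 k) : ℂ) = 0 :=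
    (orthonormal_fourier (T := 1)).2 hk.symm
  rw [ContinuousMap.inner_toLp] at h
  simpa using h

/-- `mc (star c) g1` is orthogonal to `H²` -/
theorem star_orth (h : Dat E e0 e1) :
    ∀ f ∈ H2 W, (inner ℂ f (mc (star (c E)) (g1 e1)) : ℂ) = 0 := by
  apply orth_of_gens
  rintro g ⟨k, v, hg⟩
  rw [L2.inner_def]
  have h1 : ∀ᵐ t ∂μ, (inner ℂ (g t) (mc (star (c E)) (g1 e1) t) : ℂ) =
      (fourier (-((k : ℤ) + 1)) t : ℂ) * inner ℂ v e1 := by
    filter_upwards [hg, mc_ae (star (c E)) (g1 e1), g1_ae (e1 := e1)] with t h1 h2 h3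
    rw [h1, h2, h3]
    change (inner ℂ ((fourier (k : ℤ) t : ℂ) • v) ((star (c E t)) e1) : ℂ) = _
    rw [c_star_apply h]
    have h5 : ((fourier (-1) t : ℂ) • E + (fourier 1 t : ℂ) • E
        + (fourier (-1) t : ℂ) • (1 - E) : Mat W) e1 = (fourier (-1) t : ℂ) • e1 := by
      change (fourier (-1) t : ℂ) • E e1 + (fourier 1 t : ℂ) • E e1
        + (fourier (-1) t : ℂ) • (e1 - E e1) = _
      rw [h.h1, smul_zero, smul_zero, sub_zero, zero_add, zero_add]
    rw [h5, inner_smul_left, inner_smul_right, ← mul_assoc, neg_add, fourier_add,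
      fourier_neg (n := (k : ℤ))]
  rw [integral_congr_ae h1, integral_mul_const, int_fourier _ (by omega), zero_mul]

/-- norms of a normal operator and its adjoint agree -/
theorem normal_zero {H : Type*} [NormedAddCommGroup H] [InnerProductSpace ℂ H] [CompleteSpace H]
    {T : H →L[ℂ] H} (hN : IsStarNormal T) {x : H} (h0 : (star T) x = 0) : T x = 0 := by
  have h4 : (star T * T) x = (T * star T) x := by rw [hN.star_comm_self.eq]
  have h6 : (inner ℂ (T x) (T x) : ℂ) = inner ℂ ((star T * T) x) x := by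
    change _ = (inner ℂ ((star T) (T x)) x : ℂ)
    rw [ContinuousLinearMap.star_eq_adjoint, ContinuousLinearMap.adjoint_inner_left]
  have h7 : (T * star T) x = 0 := by
    change T ((star T) x) = 0
    rw [h0, map_zero]
  rw [h4, h7, inner_zero_left] at h6
  exact inner_self_eq_zero.mp h6

theorem not_normal (h : Dat E e0 e1) : ¬ IsStarNormal (toeplitz (sym (c E))) := by
  intro hN
  have h0 : (star (toeplitz (sym (c E)))) (⟨g1 e1, g1_mem⟩ : H2 W) = 0 := by
    refine ext_inner_left ℂ ?_
    intro y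
    rw [inner_zero_right, ContinuousLinearMap.star_eq_adjoint,
      ContinuousLinearMap.adjoint_inner_right]
    have h1 : (inner ℂ (toeplitz (sym (c E)) y) (⟨g1 e1, g1_mem⟩ : H2 W) : ℂ) =
        inner ℂ (mc (c E) y) (g1 e1) := by
      rw [Submodule.coe_inner]
      change (inner ℂ ((H2 W).starProjection (mc (c E) y)) (g1 e1) : ℂ) = _
      rw [Submodule.inner_starProjection_left_eq_right,
        Submodule.starProjection_eq_self_iff.mpr g1_mem]
    rw [h1]
    have h2 : star (mc (star (c E))) = mc (c E) := by rw [mc_star, star_star]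
    rw [← h2, ContinuousLinearMap.star_eq_adjoint, ContinuousLinearMap.adjoint_inner_left]
    exact star_orth h _ y.2
  have h2 := normal_zero hN h0
  -- but the image is the function `z e1`
  have h3 : (H2 W).starProjection (mc (c E) (g1 e1)) = 0 := congrArg Subtype.val h2
  have h4 : mc (c E) (g1 e1) = mc (a E) (g1 e1) := by
    apply Lp.ext
    filter_upwards [mc_ae (c E) (g1 e1), mc_ae (a E) (g1 e1), g1_ae (e1 := e1)] with t h1 h2 h3
    rw [h1, h2, h3]
    change (fourier 1 t : ℂ) • E e1 + (fourier (-1) t : ℂ) • E e1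
        + (fourier 1 t : ℂ) • ((1 - E : Mat W) e1) = (fourier 1 t : ℂ) • ((1 - E : Mat W) e1)
    rw [h.h1, smul_zero, smul_zero, zero_add, zero_add]
  rw [h4, Submodule.starProjection_eq_self_iff.mpr (a_inv _ g1_mem)] at h3
  have h5 : ∀ᵐ t ∂μ, (fourier 1 t : ℂ) • e1 = 0 := by
    have h6 : mc (a E) (g1 e1) =ᵐ[μ] 0 := by
      rw [h3]
      exact Lp.coeFn_zero _ _ _
    filter_upwards [h6, mc_ae (a E) (g1 e1), g1_ae (e1 := e1)] with t h1 h2 h3
    rw [h2, h3] at h1
    change (fourier 1 t : ℂ) • (e1 - E e1) = 0 at h1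
    rwa [h.h1, sub_zero] at h1
  obtain ⟨t, ht⟩ := h5.exists
  rcases smul_eq_zero.mp ht with h' | h'
  · have : (fourier 1 t : ℂ) * fourier (-1) t = 1 := by
      rw [← fourier_add, add_neg_cancel, fourier_zero]
    rw [h', zero_mul] at this
    exact zero_ne_one this
  · exact h.n1 h'

theorem not_analytic (h : Dat E e0 e1) : ¬ IsAnalytic (sym (c E)) := by
  intro h'
  have h1 := h' (-1) (by norm_num)
  have hi : ∀ (k : ℤ) (A : Mat W), Integrable (fun t => (fourier k t : ℂ) • A) μ := by
    intro k A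
    exact (zk k A).continuous.integrable_of_hasCompactSupport
      (HasCompactSupport.of_compactSpace _)
  have h2 : fourierCoeff (sym (c E) : UnitAddCircle → Mat W) (-1) = E := by
    unfold fourierCoeff
    have h3 : ∀ᵐ t ∂μ, (fourier (-(-1)) t : ℂ) • (sym (c E) : UnitAddCircle → Mat W) t =
        (fourier 2 t : ℂ) • E + ((fourier 0 t : ℂ) • E + (fourier 2 t : ℂ) • (1 - E)) := by
      filter_upwards [sym_ae (c E)] with t ht
      rw [ht]
      change (fourier (-(-1)) t : ℂ) • ((fourier 1 t : ℂ) • E + (fourier (-1) t : ℂ) • E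
        + (fourier 1 t : ℂ) • (1 - E)) = _
      rw [smul_add, smul_add, smul_smul, smul_smul, smul_smul, ← fourier_add, ← fourier_add,
        add_assoc]
      norm_num
    rw [integral_congr_ae h3]
    have e1 : ∫ t, ((fourier 2 t : ℂ) • E + ((fourier 0 t : ℂ) • E + (fourier 2 t : ℂ) • (1 - E))) ∂μ
        = ∫ t, (fourier 2 t : ℂ) • E ∂μ + (∫ t, (fourier 0 t : ℂ) • E ∂μ +
          ∫ t, (fourier 2 t : ℂ) • (1 - E) ∂μ) := by
      refine (integral_add (hi 2 E) ((hi 0 E).add (hi 2 (1 - E)))).trans ?_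
      exact congrArg (fun x => ∫ t, (fourier 2 t : ℂ) • E ∂μ + x)
        (integral_add (hi 0 E) (hi 2 (1 - E)))
    rw [e1, integral_smul_const, integral_smul_const, integral_smul_const,
      int_fourier 2 (by norm_num)]
    simp
  rw [h2] at h1
  have h3 : E e0 = 0 := by rw [h1]; rfl
  rw [h.h0] at h3
  exact h.n0 h3

end Pool.Agent.X23.BT
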