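import Mathlib

/-!
# Block Toeplitz operators with matrix symbols: the definitions of the statement

The circle is `UnitAddCircle` with coordinate `z = fourier 1` and normalised Haar measure.
-/

open MeasureTheory AddCircle

namespace Pool.Agent.X23.BTS

/-- The Hilbert space `ℂⁿ`. -/
def Cn (n : ℕ) : Type := EuclideanSpace ℂ (Fin n)

noncomputable instance iN (n : ℕ) : NormedAddCommGroup (Cn n) :=
  (inferInstance : NormedAddCommGroup (EuclideanSpace ℂ (Fin n)))

noncomputable instance iI (n : ℕ) : InnerProductSpace ℂ (Cn n) :=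
  (inferInstance : InnerProductSpace ℂ (EuclideanSpace ℂ (Fin n)))

instance iC (n : ℕ) : CompleteSpace (Cn n) :=
  (inferInstance : CompleteSpace (EuclideanSpace ℂ (Fin n)))

/-- A vector as a member of Mathlib's Euclidean space. -/
def asE {n : ℕ} (v : Cn n) : EuclideanSpace ℂ (Fin n) := v

/-- The coordinates of a vector. -/
def coord {n : ℕ} (v : Cn n) : Fin n → ℂ := WithLp.ofLp (asE v)

/-- `L²_{ℂⁿ}`: square integrable functions from the circle to `ℂⁿ`. -/
def L2 (n : ℕ) : Type := Lp (Cn n) 2 (haarAddCircle : Measure UnitAddCircle)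

noncomputable instance lN (n : ℕ) : NormedAddCommGroup (L2 n) :=
  (inferInstance : NormedAddCommGroup (Lp (Cn n) 2 (haarAddCircle : Measure UnitAddCircle)))

noncomputable instance lI (n : ℕ) : InnerProductSpace ℂ (L2 n) :=
  (inferInstance : InnerProductSpace ℂ (Lp (Cn n) 2 (haarAddCircle : Measure UnitAddCircle)))

instance lC (n : ℕ) : CompleteSpace (L2 n) :=
  (inferInstance : CompleteSpace (Lp (Cn n) 2 (haarAddCircle : Measure UnitAddCircle)))

/-- A member of `L²_{ℂⁿ}` as a member of Mathlib's `Lp`. -/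
def asLp {n : ℕ} (f : L2 n) : Lp (Cn n) 2 (haarAddCircle : Measure UnitAddCircle) := f

/-- The value of a function in `L²_{ℂⁿ}` at a point of the circle (well defined almost
everywhere). -/
noncomputable def val {n : ℕ} (f : L2 n) (t : UnitAddCircle) : Fin n → ℂ :=
  coord ((asLp f : UnitAddCircle → Cn n) t)

/-- `H²_{ℂⁿ}`: the closed linear span in `L²_{ℂⁿ}` of the functions `z ^ k v`, `k ≥ 0`,
`v ∈ ℂⁿ`. -/
noncomputable def H2 (n : ℕ) : Submodule ℂ (L2 n) :=
  (Submodule.span ℂ {g : L2 n | ∃ (k : ℕ) (v : Fin n → ℂ),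
    ∀ᵐ t ∂haarAddCircle, val g t = (fourier (k : ℤ) t : ℂ) • v}).topologicalClosure

instance hC (n : ℕ) : CompleteSpace (H2 n) :=
  Submodule.topologicalClosure.completeSpace _

/-- `H²_{ℂⁿ}` as a Hilbert space. -/
def Hd (n : ℕ) : Type := H2 n

noncomputable instance dN (n : ℕ) : NormedAddCommGroup (Hd n) :=
  (inferInstance : NormedAddCommGroup (H2 n))

noncomputable instance dI (n : ℕ) : InnerProductSpace ℂ (Hd n) :=
  (inferInstance : InnerProductSpace ℂ (H2 n))

instance dC (n : ℕ) : CompleteSpace (Hd n) := hC n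

/-- A member of the Hilbert space `Hd n` as a member of the submodule `H2 n`. -/
def asH {n : ℕ} (f : Hd n) : H2 n := f

/-- A member of `H²_{ℂⁿ}` as a function in `L²_{ℂⁿ}`. -/
def incl {n : ℕ} (f : Hd n) : L2 n := (asH f : L2 n)

/-- The orthogonal projection of `L²_{ℂⁿ}` onto `H²_{ℂⁿ}`. -/
noncomputable def proj {n : ℕ} (g : L2 n) : Hd n := (H2 n).orthogonalProjectionOnto g

/-- `Φ ∈ L^∞_{M_n}`: the entries are measurable and essentially bounded. -/
def IsBdd {n : ℕ} (Φ : UnitAddCircle → Matrix (Fin n) (Fin n) ℂ) : Prop :=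
  ∀ i j, MemLp (fun t => Φ t i j) ⊤ haarAddCircle

/-- `T` is the block Toeplitz operator `T_Φ` on `H²_{ℂⁿ}`: `T f = P g` whenever `g ∈ L²_{ℂⁿ}`
is the function `Φ f`, where `P` is the orthogonal projection onto `H²_{ℂⁿ}`. -/
def IsToeplitz {n : ℕ} (Φ : UnitAddCircle → Matrix (Fin n) (Fin n) ℂ)
    (T : Hd n →L[ℂ] Hd n) : Prop :=
  ∀ (f : Hd n) (g : L2 n),
    (∀ᵐ t ∂haarAddCircle, val g t = Matrix.mulVec (Φ t) (val (incl f) t)) → T f = proj g

/-- `Φ` belongs to `H^∞_{M_n}`: all Fourier coefficients of negative index vanish. -/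
def IsAnalytic {n : ℕ} (Φ : UnitAddCircle → Matrix (Fin n) (Fin n) ℂ) : Prop :=
  ∀ k : ℤ, k < 0 → ∀ i j, fourierCoeff (fun t => Φ t i j) k = 0

/-- `T` is subnormal: the restriction of a normal operator to an invariant subspace (up to the
isometric identification `J` of the space with that subspace). -/
def Subnormal {H : Type*} [NormedAddCommGroup H] [InnerProductSpace ℂ H]
    (T : H →L[ℂ] H) : Prop :=
  ∃ (K : Type) (_ : NormedAddCommGroup K) (_ : InnerProductSpace ℂ K) (_ : CompleteSpace K)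
    (N : K →L[ℂ] K) (J : H →ₗᵢ[ℂ] K), IsStarNormal N ∧ ∀ x, N (J x) = J (T x)

/-- The Blaschke factor `(z - α) / (1 - conj α z)`. -/
noncomputable def bl (α z : ℂ) : ℂ := (z - α) / (1 - (starRingEnd ℂ) α * z)

/-- `B` is a finite Blaschke–Potapov product: a constant unitary matrix times a finite product of
factors `b_α(z) P + (I - P)` with `|α| < 1` and `P` a nonzero orthogonal projection. -/
def IsBP {n : ℕ} (B : ℂ → Matrix (Fin n) (Fin n) ℂ) : Prop :=
  ∃ (U : Matrix (Fin n) (Fin n) ℂ) (l : List (ℂ × Matrix (Fin n) (Fin n) ℂ)),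
    U ∈ Matrix.unitaryGroup (Fin n) ℂ ∧
    (∀ p ∈ l, ‖p.1‖ < 1 ∧ p.2 * p.2 = p.2 ∧ p.2.conjTranspose = p.2 ∧ p.2 ≠ 0) ∧
    ∀ z, B z = U * (l.map (fun p => bl p.1 z • p.2 + (1 - p.2))).prod

end Pool.Agent.X23.BTS
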