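import Mathlib

/-!
# Asymptotic limits of power bounded operators: shared definitions and lemmas
-/

open scoped InnerProductSpace ComplexOrder BoundedContinuousFunction

namespace Pool.Agent.X23.AsLim

/-- A Banach limit: a linear functional on the bounded complex sequences that is positive,
shift-invariant and takes the constant sequence one to one. -/
structure IsBanachLimit (L : (ℕ →ᵇ ℂ) →ₗ[ℂ] ℂ) : Prop where
  pos : ∀ s : ℕ →ᵇ ℂ, (∀ n, 0 ≤ s n) → 0 ≤ L s
  shift : ∀ s t : ℕ →ᵇ ℂ, (∀ n, t n = s (n + 1)) → L t = L s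
  one : ∀ s : ℕ →ᵇ ℂ, (∀ n, s n = 1) → L s = 1

variable {H : Type*} [NormedAddCommGroup H] [InnerProductSpace ℂ H] [CompleteSpace H]

/-- `T` is power bounded. -/
def PowerBounded (T : H →L[ℂ] H) : Prop := ∃ M : ℝ, ∀ n : ℕ, ‖T ^ n‖ ≤ M

/-- `A` is the asymptotic limit of `T` for `L`: the (mathematicians') inner product
`⟨A x, y⟩`, which is `inner ℂ y (A x)` in Mathlib, is the `L`-limit of
`⟨T ^ n x, T ^ n y⟩`. -/
def IsAsymptoticLimit (L : (ℕ →ᵇ ℂ) →ₗ[ℂ] ℂ) (T A : H →L[ℂ] H) : Prop :=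
  ∀ x y : H, ∀ s : ℕ →ᵇ ℂ, (∀ n, s n = inner ℂ ((T ^ n) y) ((T ^ n) x)) →
    inner ℂ y (A x) = L s

/-- The sequence as a bounded function. -/
noncomputable def mk (f : ℕ → ℂ) (C : ℝ) (h : ∀ n, ‖f n‖ ≤ C) : ℕ →ᵇ ℂ :=
  BoundedContinuousFunction.ofNormedAddCommGroup f continuous_of_discreteTopology C h

@[simp] theorem mk_apply (f : ℕ → ℂ) (C : ℝ) (h : ∀ n, ‖f n‖ ≤ C) (n : ℕ) :
    mk f C h n = f n := rfl

theorem const_val {L : (ℕ →ᵇ ℂ) →ₗ[ℂ] ℂ} (hL : IsBanachLimit L) (c : ℂ) (s : ℕ →ᵇ ℂ)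
    (hs : ∀ n, s n = c) : L s = c := by
  have h1 : s = c • (mk (fun _ => 1) 1 (by intro n; simp)) := by
    ext n
    simp [hs]
  rw [h1, map_smul, hL.one _ (by intro n; simp)]
  simp

theorem mono {L : (ℕ →ᵇ ℂ) →ₗ[ℂ] ℂ} (hL : IsBanachLimit L) (s t : ℕ →ᵇ ℂ)
    (h : ∀ n, s n ≤ t n) : L s ≤ L t := by
  have := hL.pos (t - s) (by intro n; simpa using h n)
  rw [map_sub] at this
  simpa using this

/-- If all terms are at most `c`, so is the limit. -/
theorem le_of_le {L : (ℕ →ᵇ ℂ) →ₗ[ℂ] ℂ} (hL : IsBanachLimit L) (s : ℕ →ᵇ ℂ) (c : ℝ)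
    (h : ∀ n, s n ≤ (c : ℂ)) : L s ≤ (c : ℂ) := by
  have h2 := mono hL s (mk (fun _ => (c : ℂ)) ‖(c : ℂ)‖ (fun _ => le_rfl)) (by simpa using h)
  exact h2.trans_eq (const_val hL (c : ℂ) _ (fun _ => rfl))

theorem ge_of_ge {L : (ℕ →ᵇ ℂ) →ₗ[ℂ] ℂ} (hL : IsBanachLimit L) (s : ℕ →ᵇ ℂ) (c : ℝ)
    (h : ∀ n, (c : ℂ) ≤ s n) : (c : ℂ) ≤ L s := by
  have h2 := mono hL (mk (fun _ => (c : ℂ)) ‖(c : ℂ)‖ (fun _ => le_rfl)) s (by simpa using h)
  exact (const_val hL (c : ℂ) _ (fun _ => rfl)).symm.trans_le h2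

section Basic

variable {L : (ℕ →ᵇ ℂ) →ₗ[ℂ] ℂ} {T A : H →L[ℂ] H}

omit [CompleteSpace H] in
theorem nonneg_M {M : ℝ} (hM : ∀ n : ℕ, ‖T ^ n‖ ≤ M) : 0 ≤ M :=
  le_trans (norm_nonneg _) (hM 0)

omit [CompleteSpace H] in
theorem norm_pow_apply {M : ℝ} (hM : ∀ n : ℕ, ‖T ^ n‖ ≤ M) (n : ℕ) (x : H) :
    ‖(T ^ n) x‖ ≤ M * ‖x‖ :=
  le_trans ((T ^ n).le_opNorm x) (mul_le_mul_of_nonneg_right (hM n) (norm_nonneg x))

/-- The sequence of inner products, as a bounded sequence. -/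
noncomputable def ips {M : ℝ} (hM : ∀ n : ℕ, ‖T ^ n‖ ≤ M) (x y : H) : ℕ →ᵇ ℂ :=
  mk (fun n => inner ℂ ((T ^ n) y) ((T ^ n) x)) ((M * ‖y‖) * (M * ‖x‖)) (by
    intro n
    refine le_trans (norm_inner_le_norm _ _) ?_
    exact mul_le_mul (norm_pow_apply hM n y) (norm_pow_apply hM n x) (norm_nonneg _)
      (mul_nonneg (nonneg_M hM) (norm_nonneg _)))

omit [CompleteSpace H] in
theorem ips_apply {M : ℝ} (hM : ∀ n : ℕ, ‖T ^ n‖ ≤ M) (x y : H) (n : ℕ) :
    ips hM x y n = inner ℂ ((T ^ n) y) ((T ^ n) x) := rfl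

omit [CompleteSpace H] in
theorem val {M : ℝ} (hM : ∀ n : ℕ, ‖T ^ n‖ ≤ M) (hA : IsAsymptoticLimit L T A) (x y : H) :
    inner ℂ y (A x) = L (ips hM x y) := hA x y _ (fun n => ips_apply hM x y n)

/-- Invariance `T* A T = A`, in weak form. -/
theorem invariant {M : ℝ} (hM : ∀ n : ℕ, ‖T ^ n‖ ≤ M) (hL : IsBanachLimit L)
    (hA : IsAsymptoticLimit L T A) (x y : H) :
    (inner ℂ (T y) (A (T x)) : ℂ) = inner ℂ y (A x) := by
  rw [val hM hA, val hM hA]
  refine hL.shift _ _ ?_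
  intro n
  rw [ips_apply, ips_apply, pow_succ]
  rfl

theorem invariant_pow {M : ℝ} (hM : ∀ n : ℕ, ‖T ^ n‖ ≤ M) (hL : IsBanachLimit L)
    (hA : IsAsymptoticLimit L T A) (n : ℕ) (x y : H) :
    (inner ℂ ((T ^ n) y) (A ((T ^ n) x)) : ℂ) = inner ℂ y (A x) := by
  induction n generalizing x y with
  | zero => simp
  | succ n ih =>
    rw [pow_succ]
    change inner ℂ ((T ^ n) (T y)) (A ((T ^ n) (T x))) = _
    rw [ih, invariant hM hL hA]

/-- The asymptotic limit is positive. -/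
theorem isPositive {M : ℝ} (hM : ∀ n : ℕ, ‖T ^ n‖ ≤ M) (hL : IsBanachLimit L)
    (hA : IsAsymptoticLimit L T A) : A.IsPositive := by
  rw [ContinuousLinearMap.isPositive_iff_complex]
  intro x
  have h0 : (0 : ℂ) ≤ inner ℂ x (A x) := by
    rw [val hM hA]
    apply hL.pos
    intro n
    rw [ips_apply, inner_self_eq_norm_sq_to_K]
    positivity
  have h1 : (inner ℂ (A x) x : ℂ) = inner ℂ x (A x) := by
    rw [← inner_conj_symm]
    have := Complex.conj_eq_iff_im.mpr (show (inner ℂ x (A x) : ℂ).im = 0 from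
      (Complex.nonneg_iff.mp h0).2.symm)
    exact this
  rw [h1]
  refine ⟨?_, ?_⟩
  · apply Complex.ext
    · simp
    · simp only [RCLike.re_to_complex, Complex.ofReal_im]
      exact (Complex.nonneg_iff.mp h0).2
  · exact (Complex.nonneg_iff.mp h0).1

end Basic

omit [CompleteSpace H] in
/-- Norm approximation of a compact operator by its compression to a finite family. -/
theorem compact_approx {K : H →L[ℂ] H} (hK : IsCompactOperator K) {ε : ℝ} (hε : 0 < ε) :
    ∃ (m : ℕ) (q : Fin m → H), Orthonormal ℂ q ∧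
      ∀ x, ‖K x - ∑ i, (inner ℂ (q i) (K x) : ℂ) • q i‖ ≤ ε * ‖x‖ := by
  have hc : IsCompact (closure (K '' Metric.closedBall 0 1)) :=
    IsCompactOperator.isCompact_closure_image_closedBall hK 1
  have htb : TotallyBounded (K '' Metric.closedBall (0 : H) 1) :=
    hc.totallyBounded.subset subset_closure
  obtain ⟨t, htf, ht⟩ := Metric.totallyBounded_iff.mp htb ε hε
  set S : Submodule ℂ H := Submodule.span ℂ t with hS
  have : FiniteDimensional ℂ S := FiniteDimensional.span_of_finite ℂ htf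
  let b := stdOrthonormalBasis ℂ S
  refine ⟨Module.finrank ℂ S, fun i => (b i : H), ?_, ?_⟩
  · have := b.orthonormal
    exact this.comp_linearIsometry S.subtypeₗᵢ
  · have key : ∀ x : H, ‖x‖ ≤ 1 → ‖K x - ∑ i, (inner ℂ (b i : H) (K x) : ℂ) • (b i : H)‖ ≤ ε := by
      intro x hx
      have hmem : K x ∈ ⋃ y ∈ t, Metric.ball y ε := ht ⟨x, by simpa using hx, rfl⟩
      simp only [Set.mem_iUnion] at hmem
      obtain ⟨y, hy, hyb⟩ := hmem
      have hyS : y ∈ S := Submodule.subset_span hy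
      have hproj : (S.starProjection (K x) : H) = ∑ i, (inner ℂ (b i : H) (K x) : ℂ) • (b i : H) := by
        have h1 := b.sum_repr (S.orthogonalProjectionOnto (K x))
        have h2 : (∑ i, (b.repr (S.orthogonalProjectionOnto (K x)) i) • (b i : H))
            = S.starProjection (K x) := by
          have := congrArg (fun z : S => (z : H)) h1
          simpa using this
        rw [← h2]
        refine Finset.sum_congr rfl ?_
        intro i _
        congr 1
        rw [b.repr_apply_apply]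
        rw [Submodule.coe_inner, Submodule.coe_orthogonalProjectionOnto_apply]
        exact (Submodule.inner_starProjection_left_eq_right S (b i : H) (K x)).symm.trans (by
          rw [Submodule.starProjection_eq_self_iff.mpr (b i).2])
      rw [← hproj]
      have hmin : ‖K x - S.starProjection (K x)‖ = ⨅ z : S, ‖K x - z‖ := by
        exact S.starProjection_minimal (K x)
      rw [hmin]
      have hle : (⨅ z : S, ‖K x - z‖) ≤ ‖K x - (⟨y, hyS⟩ : S)‖ := by
        apply ciInf_le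
        exact ⟨0, by rintro _ ⟨z, rfl⟩; exact norm_nonneg _⟩
      refine le_trans hle ?_
      have : dist (K x) y < ε := Metric.mem_ball.mp hyb
      rw [dist_eq_norm] at this
      exact this.le
    intro x
    by_cases hx : x = 0
    · subst hx; simp
    have hxn : 0 < ‖x‖ := norm_pos_iff.mpr hx
    have h := key ((‖x‖⁻¹ : ℂ) • x) (by
      rw [norm_smul]
      simp [hxn.ne'])
    have hlin : K ((‖x‖⁻¹ : ℂ) • x) - ∑ i, (inner ℂ (b i : H) (K ((‖x‖⁻¹ : ℂ) • x)) : ℂ) • (b i : H)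
        = (‖x‖⁻¹ : ℂ) • (K x - ∑ i, (inner ℂ (b i : H) (K x) : ℂ) • (b i : H)) := by
      rw [smul_sub, Finset.smul_sum, map_smul]
      congr 1
      refine Finset.sum_congr rfl ?_
      intro i _
      rw [inner_smul_right, smul_smul]
    rw [hlin, norm_smul] at h
    have h3 : ‖(‖x‖⁻¹ : ℂ)‖ = ‖x‖⁻¹ := by simp
    rw [h3] at h
    rw [inv_mul_le_iff₀ hxn] at h
    linarith

omit [CompleteSpace H] in
/-- In an infinite-dimensional space, an injective linear map sends some `N` vectors to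
orthonormal ones. -/
theorem exists_orthonormal_image (hinf : ¬ FiniteDimensional ℂ H) (R : H →L[ℂ] H)
    (hR : Function.Injective R) (N : ℕ) : ∃ u : Fin N → H, Orthonormal ℂ (fun k => R (u k)) := by
  have hrank : (N : Cardinal) ≤ Module.rank ℂ H := by
    have : Cardinal.aleph0 ≤ Module.rank ℂ H := by
      by_contra hlt
      exact hinf (Module.rank_lt_aleph0_iff.mp (not_le.mp hlt))
    exact (Cardinal.natCast_lt_aleph0).le.trans this
  obtain ⟨v, hv⟩ := Module.le_rank_iff.mp hrank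
  have hRv : LinearIndependent ℂ (fun k => R (v k)) := by
    have := hv.map' (R : H →ₗ[ℂ] H) (LinearMap.ker_eq_bot.mpr hR)
    exact this
  have ho := InnerProductSpace.gramSchmidtNormed_orthonormal hRv
  have hspan := (InnerProductSpace.span_gramSchmidtNormed_range (𝕜 := ℂ) (fun k => R (v k))).trans
    (InnerProductSpace.span_gramSchmidt ℂ (fun k => R (v k)))
  have hmem : ∀ k, ∃ u, R u = InnerProductSpace.gramSchmidtNormed ℂ (fun k => R (v k)) k := by
    intro k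
    have h1 : InnerProductSpace.gramSchmidtNormed ℂ (fun k => R (v k)) k ∈
        Submodule.span ℂ (Set.range (fun k => R (v k))) := by
      rw [← hspan]
      exact Submodule.subset_span ⟨k, rfl⟩
    have h2 : Submodule.span ℂ (Set.range (fun k => R (v k))) ≤ LinearMap.range (R : H →ₗ[ℂ] H) := by
      rw [Submodule.span_le]
      rintro _ ⟨k, rfl⟩
      exact ⟨v k, rfl⟩
    obtain ⟨u, hu⟩ := h2 h1
    exact ⟨u, hu⟩
  choose u hu using hmem
  exact ⟨u, by simpa [hu] using ho⟩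

omit [CompleteSpace H] in
theorem est {K : H →L[ℂ] H} {ε : ℝ} {m : ℕ} {q : Fin m → H}
    (hq : ∀ x, ‖K x - ∑ i, (inner ℂ (q i) (K x) : ℂ) • q i‖ ≤ ε * ‖x‖) {N : ℕ} (z : Fin N → H) :
    ‖∑ k, (inner ℂ (z k) (K (z k)) : ℂ)‖ ≤ ε * ∑ k, ‖z k‖ ^ 2 +
      ∑ i, ∑ k, ‖(inner ℂ (z k) (q i) : ℂ)‖ * ‖(inner ℂ (q i) (K (z k)) : ℂ)‖ := by
  refine le_trans (norm_sum_le _ _) ?_
  rw [Finset.sum_comm, Finset.mul_sum, ← Finset.sum_add_distrib]
  refine Finset.sum_le_sum ?_
  intro k _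
  have h1 : (inner ℂ (z k) (K (z k)) : ℂ) =
      inner ℂ (z k) (K (z k) - ∑ i, (inner ℂ (q i) (K (z k)) : ℂ) • q i) +
      ∑ i, (inner ℂ (z k) (q i) : ℂ) * (inner ℂ (q i) (K (z k)) : ℂ) := by
    rw [inner_sub_right, inner_sum]
    simp only [inner_smul_right]
    rw [sub_add_eq_add_sub, add_sub_assoc]
    rw [left_eq_add, sub_eq_zero]
    refine Finset.sum_congr rfl ?_
    intro i _
    ring
  rw [h1]
  refine le_trans (norm_add_le _ _) ?_
  refine add_le_add ?_ ?_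
  · refine le_trans (norm_inner_le_norm _ _) ?_
    have := mul_le_mul_of_nonneg_left (hq (z k)) (norm_nonneg (z k))
    refine le_trans this (le_of_eq ?_)
    ring
  · refine le_trans (norm_sum_le _ _) ?_
    refine Finset.sum_le_sum ?_
    intro i _
    rw [norm_mul]

/-- There is an index at which the (real) sum of squared norms is at most its limit plus one. -/
theorem exists_index {L : (ℕ →ᵇ ℂ) →ₗ[ℂ] ℂ} {T A : H →L[ℂ] H} {M : ℝ}
    (hM : ∀ n : ℕ, ‖T ^ n‖ ≤ M) (hL : IsBanachLimit L) (hA : IsAsymptoticLimit L T A)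
    {N : ℕ} (u : Fin N → H) {c : ℝ} (hc : (∑ k, (inner ℂ (u k) (A (u k)) : ℂ)).re < c) :
    ∃ n, ∑ k, ‖(T ^ n) (u k)‖ ^ 2 ≤ c := by
  by_contra hcon
  push Not at hcon
  have h1 : (∑ k, (inner ℂ (u k) (A (u k)) : ℂ)) = L (∑ k, ips hM (u k) (u k)) := by
    rw [map_sum]
    refine Finset.sum_congr rfl ?_
    intro k _
    exact val hM hA _ _
  have h2 : ∀ n, (∑ k, ips hM (u k) (u k)) n = ((∑ k, ‖(T ^ n) (u k)‖ ^ 2 : ℝ) : ℂ) := by
    intro n
    rw [BoundedContinuousFunction.coe_sum, Finset.sum_apply, Complex.ofReal_sum]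
    refine Finset.sum_congr rfl ?_
    intro k _
    rw [ips_apply, inner_self_eq_norm_sq_to_K, Complex.ofReal_pow]
    rfl
  have h3 := ge_of_ge hL (∑ k, ips hM (u k) (u k)) c (by
    intro n
    rw [h2]
    exact_mod_cast (hcon n).le)
  rw [← h1] at h3
  have := (Complex.le_def.mp h3).1
  simp only [Complex.ofReal_re] at this
  linarith

end Pool.Agent.X23.AsLim
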