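import Mathlib

/-!
# A `p`-Banach space which is its own Lipschitz free `p`-space: the construction

Internally a `p`-norm is replaced by its `p`-th power, which is the norm of a
`NormedAddCommGroup`.
-/

open UniformSpace

namespace Pool.Agent.X23.LF

/-- models: `p`-normed spaces with a fixed-point-preserving nonexpansive map and a point fixed by
it -/
structure Model (p : ℝ) : Type 1 where
  A : Type
  [g : NormedAddCommGroup A]
  [m : Module ℝ A]
  hs : ∀ (t : ℝ) (x : A), ‖t • x‖ = |t| ^ p * ‖x‖
  δ : A → A
  hδ : ∀ x y, ‖δ x - δ y‖ ≤ ‖x - y‖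
  hδ0 : δ 0 = 0
  a : A
  ha : δ a = a
  hna : ‖a‖ ≤ 1

attribute [instance] Model.g Model.m

/-- terms -/
inductive Tm : Type
  | zero : Tm
  | e : Tm
  | add : Tm → Tm → Tm
  | smul : ℝ → Tm → Tm
  | d : Tm → Tm

variable {p : ℝ}

def ev (M : Model p) : Tm → M.A
  | Tm.zero => 0
  | Tm.e => M.a
  | Tm.add s t => ev M s + ev M t
  | Tm.smul r t => r • ev M t
  | Tm.d t => M.δ (ev M t)

noncomputable def bd (p : ℝ) : Tm → ℝ
  | Tm.zero => 0
  | Tm.e => 1
  | Tm.add s t => bd p s + bd p t
  | Tm.smul r t => |r| ^ p * bd p t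
  | Tm.d t => bd p t

theorem norm_ev_le (M : Model p) (t : Tm) : ‖ev M t‖ ≤ bd p t := by
  induction t with
  | zero => simp [ev, bd]
  | e => exact M.hna
  | add s t hs ht => exact (norm_add_le _ _).trans (add_le_add hs ht)
  | smul r t ht =>
    rw [ev, bd, M.hs]
    exact mul_le_mul_of_nonneg_left ht (Real.rpow_nonneg (abs_nonneg r) p)
  | d t ht =>
    have h := M.hδ (ev M t) 0
    rw [M.hδ0, sub_zero, sub_zero] at h
    exact h.trans ht

/-- equality in all models -/
def St (p : ℝ) : Setoid Tm where
  r s t := ∀ M : Model p, ev M s = ev M t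
  iseqv := ⟨fun _ _ => rfl, fun h M => (h M).symm, fun h h' M => (h M).trans (h' M)⟩

/-- the term space -/
def Q (p : ℝ) : Type := Quotient (St p)

def cl (p : ℝ) (t : Tm) : Q p := Quotient.mk (St p) t

def evQ (M : Model p) : Q p → M.A := Quotient.lift (ev M) fun _ _ h => h M

theorem evQ_cl (M : Model p) (t : Tm) : evQ M (cl p t) = ev M t := rfl

theorem Q_ext {x y : Q p} (h : ∀ M : Model p, evQ M x = evQ M y) : x = y := by
  induction x using Quotient.ind with
  | _ s =>
  induction y using Quotient.ind with
  | _ t => exact Quotient.sound h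

instance : Zero (Q p) := ⟨cl p Tm.zero⟩

instance : Add (Q p) := ⟨Quotient.map₂ Tm.add (by
  intro s s' h t t' h' M
  simp only [ev]
  rw [h M, h' M])⟩

instance : SMul ℝ (Q p) := ⟨fun r => Quotient.map (Tm.smul r) (by
  intro s s' h M
  simp only [ev]
  rw [h M])⟩

instance : Neg (Q p) := ⟨fun x => (-1 : ℝ) • x⟩

def dQ : Q p → Q p := Quotient.map Tm.d (by
  intro s s' h M
  simp only [ev]
  rw [h M])

theorem evQ_zero (M : Model p) : evQ M (0 : Q p) = 0 := rfl

theorem evQ_add (M : Model p) (x y : Q p) : evQ M (x + y) = evQ M x + evQ M y := by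
  induction x using Quotient.ind with
  | _ s =>
  induction y using Quotient.ind with
  | _ t => rfl

theorem evQ_smul (M : Model p) (r : ℝ) (x : Q p) : evQ M (r • x) = r • evQ M x := by
  induction x using Quotient.ind with
  | _ s => rfl

theorem evQ_neg (M : Model p) (x : Q p) : evQ M (-x) = -evQ M x := by
  have : -x = (-1 : ℝ) • x := rfl
  rw [this, evQ_smul, neg_one_smul]

theorem evQ_dQ (M : Model p) (x : Q p) : evQ M (dQ x) = M.δ (evQ M x) := by
  induction x using Quotient.ind with
  | _ s => rfl

instance : AddCommGroup (Q p) where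
  add_assoc x y z := Q_ext fun M => by simp only [evQ_add, add_assoc]
  zero_add x := Q_ext fun M => by simp only [evQ_add, evQ_zero, zero_add]
  add_zero x := Q_ext fun M => by simp only [evQ_add, evQ_zero, add_zero]
  add_comm x y := Q_ext fun M => by simp only [evQ_add, add_comm]
  neg_add_cancel x := Q_ext fun M => by simp only [evQ_add, evQ_neg, evQ_zero, neg_add_cancel]
  nsmul := nsmulRec
  zsmul := zsmulRec

instance : Module ℝ (Q p) where
  one_smul x := Q_ext fun M => by simp only [evQ_smul, one_smul]
  mul_smul r s x := Q_ext fun M => by simp only [evQ_smul, mul_smul]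
  smul_zero r := Q_ext fun M => by simp only [evQ_smul, evQ_zero, smul_zero]
  smul_add r x y := Q_ext fun M => by simp only [evQ_smul, evQ_add, smul_add]
  add_smul r s x := Q_ext fun M => by simp only [evQ_smul, evQ_add, add_smul]
  zero_smul x := Q_ext fun M => by simp only [evQ_smul, evQ_zero, zero_smul]

theorem evQ_sub (M : Model p) (x y : Q p) : evQ M (x - y) = evQ M x - evQ M y := by
  rw [sub_eq_add_neg, evQ_add, evQ_neg, ← sub_eq_add_neg]

/-! ### The base model -/

/-- the real line with the norm `|t| ^ p` -/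
def Rp (_ : ℝ) : Type := ℝ

noncomputable instance (p : ℝ) : AddCommGroup (Rp p) := inferInstanceAs (AddCommGroup ℝ)
noncomputable instance (p : ℝ) : Module ℝ (Rp p) := inferInstanceAs (Module ℝ ℝ)

def toR (x : Rp p) : ℝ := x

theorem abs_rpow_add_le (hp0 : 0 < p) (hp1 : p ≤ 1) (x y : ℝ) :
    |x + y| ^ p ≤ |x| ^ p + |y| ^ p := by
  have h1 : |x + y| ^ p ≤ (|x| + |y|) ^ p :=
    Real.rpow_le_rpow (abs_nonneg _) (abs_add_le x y) hp0.le
  refine h1.trans ?_
  have h2 := NNReal.rpow_add_le_add_rpow ⟨|x|, abs_nonneg x⟩ ⟨|y|, abs_nonneg y⟩ hp0.le hp1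
  exact_mod_cast h2

noncomputable def grpNorm (hp0 : 0 < p) (hp1 : p ≤ 1) : AddGroupNorm (Rp p) where
  toFun x := |toR x| ^ p
  map_zero' := by
    have : toR (0 : Rp p) = 0 := rfl
    rw [this, abs_zero, Real.zero_rpow hp0.ne']
  add_le' x y := abs_rpow_add_le hp0 hp1 (toR x) (toR y)
  neg' x := by
    have : toR (-x) = -toR x := rfl
    rw [this, abs_neg]
  eq_zero_of_map_eq_zero' x hx := by
    have h : |toR x| = 0 := (Real.rpow_eq_zero (abs_nonneg (toR x)) hp0.ne').mp hx
    have h' : toR x = 0 := abs_eq_zero.mp h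
    exact h'

noncomputable def base (hp0 : 0 < p) (hp1 : p ≤ 1) : Model p :=
  letI : NormedAddCommGroup (Rp p) := (grpNorm hp0 hp1).toNormedAddCommGroup
  { A := Rp p
    hs := by
      intro t x
      change |t * toR x| ^ p = |t| ^ p * |toR x| ^ p
      rw [abs_mul, Real.mul_rpow (abs_nonneg _) (abs_nonneg _)]
    δ := id
    hδ := fun x y => le_refl _
    hδ0 := rfl
    a := (1 : ℝ)
    ha := rfl
    hna := by
      change |(1 : ℝ)| ^ p ≤ 1
      rw [abs_one, Real.one_rpow] }

theorem base_norm (hp0 : 0 < p) (hp1 : p ≤ 1) : ‖(base hp0 hp1).a‖ = 1 := by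
  change |(1 : ℝ)| ^ p = 1
  rw [abs_one, Real.one_rpow]

/-! ### The norm -/

noncomputable def N (x : Q p) : ℝ := ⨆ M : Model p, ‖evQ M x‖

theorem bdd (x : Q p) : BddAbove (Set.range fun M : Model p => ‖evQ M x‖) := by
  induction x using Quotient.ind with
  | _ t =>
    refine ⟨bd p t, ?_⟩
    rintro _ ⟨M, rfl⟩
    exact norm_ev_le M t

theorem le_N (M : Model p) (x : Q p) : ‖evQ M x‖ ≤ N x := le_ciSup (bdd x) M

theorem N_le [Nonempty (Model p)] (x : Q p) (c : ℝ) (h : ∀ M : Model p, ‖evQ M x‖ ≤ c) :
    N x ≤ c := ciSup_le h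

noncomputable def grpN [Nonempty (Model p)] : AddGroupNorm (Q p) where
  toFun := N
  map_zero' := by
    apply le_antisymm
    · exact N_le _ _ fun M => by rw [evQ_zero, norm_zero]
    · exact (norm_nonneg _).trans (le_N (Classical.arbitrary _) _)
  add_le' x y := N_le _ _ fun M => by
    rw [evQ_add]
    exact (norm_add_le _ _).trans (add_le_add (le_N M x) (le_N M y))
  neg' x := by
    apply le_antisymm
    · exact N_le _ _ fun M => by rw [evQ_neg, norm_neg]; exact le_N M x
    · exact N_le _ _ fun M => by rw [← norm_neg, ← evQ_neg]; exact le_N M (-x)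
  eq_zero_of_map_eq_zero' x hx := Q_ext fun M => by
    have := le_N M x
    rw [hx] at this
    rw [evQ_zero]
    exact norm_le_zero_iff.mp this

noncomputable instance [Nonempty (Model p)] : NormedAddCommGroup (Q p) :=
  grpN.toNormedAddCommGroup

variable [Nonempty (Model p)]

theorem norm_Q (x : Q p) : ‖x‖ = N x := rfl

theorem norm_smul_Q (r : ℝ) (x : Q p) : ‖r • x‖ = |r| ^ p * ‖x‖ := by
  have hle : ∀ (r : ℝ) (x : Q p), ‖r • x‖ ≤ |r| ^ p * ‖x‖ := by
    intro r x
    refine N_le _ _ fun M => ?_
    rw [evQ_smul, M.hs]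
    exact mul_le_mul_of_nonneg_left (le_N M x) (Real.rpow_nonneg (abs_nonneg r) p)
  apply le_antisymm (hle r x)
  by_cases hr : r = 0
  · subst hr
    by_cases hp : p = 0
    · -- degenerate, excluded by the base model below
      have h1 : ∀ M : Model p, ‖evQ M x‖ = 0 := by
        intro M
        have h0 : |(0 : ℝ)| ^ p = 1 := by rw [hp, Real.rpow_zero]
        have := M.hs 0 (evQ M x)
        rw [h0, zero_smul, norm_zero, one_mul] at this
        exact this.symm
      have h2 : ‖x‖ ≤ 0 := N_le _ _ fun M => (h1 M).le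
      have h3 : ‖x‖ = 0 := le_antisymm h2 (norm_nonneg _)
      rw [h3, mul_zero]
      exact norm_nonneg _
    · rw [abs_zero, Real.zero_rpow hp, zero_mul]
      exact norm_nonneg _
  · have h := hle r⁻¹ (r • x)
    rw [smul_smul, inv_mul_cancel₀ hr, one_smul, abs_inv, Real.inv_rpow (abs_nonneg r)] at h
    have hpos : 0 < |r| ^ p := Real.rpow_pos_of_pos (abs_pos.mpr hr) p
    rwa [inv_mul_eq_div, le_div_iff₀ hpos, mul_comm] at h

theorem dQ_lip (x y : Q p) : ‖dQ x - dQ y‖ ≤ ‖x - y‖ := by
  refine N_le _ _ fun M => ?_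
  rw [evQ_sub, evQ_dQ, evQ_dQ]
  refine (M.hδ _ _).trans ?_
  rw [← evQ_sub]
  exact le_N M _

theorem uc_smul (r : ℝ) : UniformContinuous (fun x : Q p => r • x) := by
  have : LipschitzWith ⟨|r| ^ p, Real.rpow_nonneg (abs_nonneg r) p⟩ (fun x : Q p => r • x) := by
    apply LipschitzWith.of_dist_le_mul
    intro x y
    rw [dist_eq_norm, dist_eq_norm, ← smul_sub, norm_smul_Q]
    exact le_refl _
  exact this.uniformContinuous

instance : UniformContinuousConstSMul ℝ (Q p) := ⟨uc_smul⟩

theorem uc_dQ : UniformContinuous (dQ : Q p → Q p) := by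
  have : LipschitzWith 1 (dQ : Q p → Q p) := by
    apply LipschitzWith.of_dist_le_mul
    intro x y
    rw [dist_eq_norm, dist_eq_norm]
    simpa using dQ_lip x y
  exact this.uniformContinuous

/-! ### The completion -/

/-- the space -/
abbrev X (p : ℝ) [Nonempty (Model p)] : Type := Completion (Q p)

theorem norm_smul_X (r : ℝ) (x : X p) : ‖r • x‖ = |r| ^ p * ‖x‖ := by
  induction x using Completion.induction_on with
  | hp =>
    refine isClosed_eq ?_ ?_
    · exact (continuous_const_smul r).norm
    · exact continuous_const.mul continuous_norm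
  | ih x => rw [← Completion.coe_smul, Completion.norm_coe, Completion.norm_coe, norm_smul_Q]

noncomputable def δX : X p → X p := Completion.map dQ

theorem δX_coe (x : Q p) : δX (x : X p) = (dQ x : Q p) := Completion.map_coe uc_dQ x

theorem cont_δX : Continuous (δX : X p → X p) := Completion.continuous_map

theorem δX_lip (x y : X p) : ‖δX x - δX y‖ ≤ ‖x - y‖ := by
  induction x, y using Completion.induction_on₂ with
  | hp =>
    refine isClosed_le ?_ ?_
    · exact ((cont_δX.comp continuous_fst).sub (cont_δX.comp continuous_snd)).norm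
    · exact (continuous_fst.sub continuous_snd).norm
  | ih x y =>
    rw [δX_coe, δX_coe, ← Completion.coe_sub, ← Completion.coe_sub, Completion.norm_coe,
      Completion.norm_coe]
    exact dQ_lip x y

/-- the fixed point -/
noncomputable def eX : X p := ((cl p Tm.e : Q p) : X p)

theorem δX_e : δX (eX : X p) = eX := by
  rw [eX, δX_coe]
  congr 1
  refine Q_ext fun M => ?_
  rw [evQ_dQ, evQ_cl, ev, M.ha]

theorem δX_zero : δX (0 : X p) = 0 := by
  rw [← Completion.coe_zero, δX_coe]
  congr 1
  refine Q_ext fun M => ?_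
  rw [evQ_dQ, evQ_zero, M.hδ0]

theorem norm_e_le : ‖(eX : X p)‖ ≤ 1 := by
  rw [eX, Completion.norm_coe]
  exact N_le _ _ fun M => M.hna

/-- evaluation in complete models -/
theorem exists_hom (M : Model p) [CompleteSpace M.A] : ∃ h : X p →ₗ[ℝ] M.A,
    (∀ v, ‖h v‖ ≤ ‖v‖) ∧ (∀ x, h (δX x) = M.δ (h x)) ∧ h eX = M.a := by
  have huc : UniformContinuous (evQ M) := by
    have : LipschitzWith 1 (evQ M) := by
      apply LipschitzWith.of_dist_le_mul
      intro x y
      rw [dist_eq_norm, dist_eq_norm, ← evQ_sub, NNReal.coe_one, one_mul]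
      exact le_N M (x - y)
    exact this.uniformContinuous
  set h0 : X p → M.A := Completion.extension (evQ M) with hh0
  have hc : Continuous h0 := Completion.continuous_extension
  have hcoe : ∀ x : Q p, h0 (x : X p) = evQ M x := fun x => Completion.extension_coe huc x
  have hsm : ∀ r : ℝ, Continuous (fun x : M.A => r • x) := by
    intro r
    have : LipschitzWith ⟨|r| ^ p, Real.rpow_nonneg (abs_nonneg r) p⟩ (fun x : M.A => r • x) := by
      apply LipschitzWith.of_dist_le_mul
      intro x y
      rw [dist_eq_norm, dist_eq_norm, ← smul_sub, M.hs]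
      exact le_refl _
    exact this.continuous
  have hδc : Continuous M.δ := by
    have : LipschitzWith 1 M.δ := by
      apply LipschitzWith.of_dist_le_mul
      intro x y
      rw [dist_eq_norm, dist_eq_norm]
      simpa using M.hδ x y
    exact this.continuous
  refine ⟨⟨⟨h0, ?_⟩, ?_⟩, ?_, ?_, ?_⟩
  · intro x y
    induction x, y using Completion.induction_on₂ with
    | hp =>
      refine isClosed_eq ?_ ?_
      · exact hc.comp (continuous_fst.add continuous_snd)
      · exact (hc.comp continuous_fst).add (hc.comp continuous_snd)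
    | ih x y => rw [← Completion.coe_add, hcoe, hcoe, hcoe, evQ_add]
  · intro r x
    change h0 (r • x) = r • h0 x
    induction x using Completion.induction_on with
    | hp =>
      refine isClosed_eq ?_ ?_
      · exact hc.comp (continuous_const_smul r)
      · exact (hsm r).comp hc
    | ih x => rw [← Completion.coe_smul, hcoe, hcoe, evQ_smul]
  · intro x
    change ‖h0 x‖ ≤ ‖x‖
    induction x using Completion.induction_on with
    | hp => exact isClosed_le hc.norm continuous_norm
    | ih x => rw [hcoe, Completion.norm_coe]; exact le_N M x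
  · intro x
    change h0 (δX x) = M.δ (h0 x)
    induction x using Completion.induction_on with
    | hp => exact isClosed_eq (hc.comp cont_δX) (hδc.comp hc)
    | ih x => rw [δX_coe, hcoe, hcoe, evQ_dQ]
  · change h0 eX = M.a
    rw [eX, hcoe, evQ_cl, ev]

/-- two continuous linear maps that agree on the range of `δX` agree -/
theorem ext_δ {Y : Type} [NormedAddCommGroup Y] [Module ℝ Y] (T T' : X p →ₗ[ℝ] Y)
    (hT : Continuous T) (hT' : Continuous T') (h : ∀ x, T (δX x) = T' (δX x)) : T = T' := by
  have h1 : ∀ t : Tm, T ((cl p t : Q p) : X p) = T' ((cl p t : Q p) : X p) := by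
    intro t
    induction t with
    | zero =>
      have : ((cl p Tm.zero : Q p) : X p) = 0 := Completion.coe_zero
      rw [this, map_zero, map_zero]
    | e =>
      have := h eX
      rw [δX_e] at this
      exact this
    | add s t hs ht =>
      have : ((cl p (Tm.add s t) : Q p) : X p) = (cl p s : Q p) + (cl p t : Q p) := by
        rw [← Completion.coe_add]
        rfl
      rw [this, map_add, map_add, hs, ht]
    | smul r t ht =>
      have : ((cl p (Tm.smul r t) : Q p) : X p) = r • ((cl p t : Q p) : X p) := by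
        rw [← Completion.coe_smul]
        rfl
      rw [this, map_smul, map_smul, ht]
    | d t _ =>
      have : ((cl p (Tm.d t) : Q p) : X p) = δX ((cl p t : Q p) : X p) := by
        rw [δX_coe]
        rfl
      rw [this]
      exact h _
  apply LinearMap.ext
  intro x
  induction x using Completion.induction_on with
  | hp => exact isClosed_eq hT hT'
  | ih x =>
    induction x using Quotient.ind with
    | _ t => exact h1 t

/-- an endomorphism which commutes with `δX` and fixes `eX` is the identity -/
theorem endo_id (T : X p →ₗ[ℝ] X p) (hT : Continuous T) (h : ∀ x, T (δX x) = δX (T x))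
    (he : T eX = eX) : T = LinearMap.id := by
  have h1 : ∀ t : Tm, T ((cl p t : Q p) : X p) = ((cl p t : Q p) : X p) := by
    intro t
    induction t with
    | zero =>
      have : ((cl p Tm.zero : Q p) : X p) = 0 := Completion.coe_zero
      rw [this, map_zero]
    | e => exact he
    | add s t hs ht =>
      have : ((cl p (Tm.add s t) : Q p) : X p) = (cl p s : Q p) + (cl p t : Q p) := by
        rw [← Completion.coe_add]
        rfl
      rw [this, map_add, hs, ht]
    | smul r t ht =>
      have : ((cl p (Tm.smul r t) : Q p) : X p) = r • ((cl p t : Q p) : X p) := by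
        rw [← Completion.coe_smul]
        rfl
      rw [this, map_smul, ht]
    | d t ht =>
      have : ((cl p (Tm.d t) : Q p) : X p) = δX ((cl p t : Q p) : X p) := by
        rw [δX_coe]
        rfl
      rw [this, h, ht]
  apply LinearMap.ext
  intro x
  induction x using Completion.induction_on with
  | hp => exact isClosed_eq hT continuous_id
  | ih x =>
    induction x using Quotient.ind with
    | _ t => exact h1 t

/-- the universal property for nonexpansive maps -/
theorem universal {Y : Type} [NormedAddCommGroup Y] [Module ℝ Y] [CompleteSpace Y]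
    (hsY : ∀ (t : ℝ) (x : Y), ‖t • x‖ = |t| ^ p * ‖x‖) (f : X p → Y) (hf0 : f 0 = 0)
    (hf : ∀ x y, ‖f x - f y‖ ≤ ‖x - y‖) :
    ∃ T : X p →ₗ[ℝ] Y, (∀ v, ‖T v‖ ≤ ‖v‖) ∧ ∀ x, T (δX x) = f x := by
  let M : Model p :=
    { A := X p × Y
      hs := by
        intro t x
        rw [Prod.norm_def, Prod.norm_def, Prod.smul_fst, Prod.smul_snd, norm_smul_X, hsY,
          mul_max_of_nonneg _ _ (Real.rpow_nonneg (abs_nonneg t) p)]
      δ := fun x => (δX x.1, f x.1)
      hδ := by
        intro x y
        rw [Prod.norm_def, Prod.norm_def]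
        refine max_le ?_ ?_
        · exact (δX_lip _ _).trans (le_max_left _ _)
        · exact (hf _ _).trans (le_max_left _ _)
      hδ0 := by
        change (δX 0, f 0) = 0
        rw [δX_zero, hf0]
        rfl
      a := (eX, f eX)
      ha := by
        change (δX eX, f eX) = (eX, f eX)
        rw [δX_e]
      hna := by
        rw [Prod.norm_def]
        refine max_le norm_e_le ?_
        have := hf eX 0
        rw [hf0, sub_zero, sub_zero] at this
        exact this.trans norm_e_le }
  have : CompleteSpace M.A := inferInstanceAs (CompleteSpace (X p × Y))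
  obtain ⟨h, h1, h2, h3⟩ := exists_hom M
  let F1 : X p →ₗ[ℝ] X p := (LinearMap.fst ℝ (X p) Y).comp h
  let F2 : X p →ₗ[ℝ] Y := (LinearMap.snd ℝ (X p) Y).comp h
  have hF1 : F1 = LinearMap.id := by
    apply endo_id
    · have : LipschitzWith 1 F1 := by
        apply LipschitzWith.of_dist_le_mul
        intro x y
        rw [dist_eq_norm, dist_eq_norm, ← map_sub, NNReal.coe_one, one_mul]
        have h4 : ‖(h (x - y)).1‖ ≤ ‖h (x - y)‖ := norm_fst_le (h (x - y))
        exact h4.trans (h1 _)
      exact this.continuous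
    · intro x
      exact congrArg Prod.fst (h2 x)
    · exact congrArg Prod.fst h3
  refine ⟨F2, ?_, ?_⟩
  · intro v
    exact (norm_snd_le (h v)).trans (h1 v)
  · intro x
    have h5 : (h (δX x)).2 = f (h x).1 := congrArg Prod.snd (h2 x)
    have h6 : (h x).1 = x := by
      have := LinearMap.congr_fun hF1 x
      exact this
    change (h (δX x)).2 = f x
    rw [h5, h6]

end Pool.Agent.X23.LF
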