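import Mathlib
import Pool.Agent.X23.AsLim

/-!
# Essential spectrum via parametrices; a self-adjoint operator whose essential spectrum is a
single point is a compact perturbation of a scalar
-/

open scoped InnerProductSpace ComplexOrder BoundedContinuousFunction

namespace Pool.Agent.X23.EssOne

variable {H : Type*} [NormedAddCommGroup H] [InnerProductSpace ℂ H] [CompleteSpace H]

/-- The essential spectrum of `A`: the spectrum of the image of `A` in the Calkin algebra. The
image of `A - μ` is invertible there iff `A - μ` has a two-sided inverse modulo the compact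
operators. -/
def essSpectrum (A : H →L[ℂ] H) : Set ℂ :=
  {μ | ¬ ∃ B : H →L[ℂ] H,
    IsCompactOperator (B * (A - μ • (1 : H →L[ℂ] H)) - 1 : H →L[ℂ] H) ∧
    IsCompactOperator ((A - μ • (1 : H →L[ℂ] H)) * B - 1 : H →L[ℂ] H)}

omit [CompleteSpace H] in
theorem comp_left {F : H →L[ℂ] H} (hF : IsCompactOperator F) (G : H →L[ℂ] H) :
    IsCompactOperator (G * F : H →L[ℂ] H) := hF.clm_comp G

omit [CompleteSpace H] in
theorem comp_right {F : H →L[ℂ] H} (hF : IsCompactOperator F) (G : H →L[ℂ] H) :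
    IsCompactOperator (F * G : H →L[ℂ] H) := hF.comp_clm G

omit [CompleteSpace H] in
theorem c_add {F G : H →L[ℂ] H} (hF : IsCompactOperator F) (hG : IsCompactOperator G) :
    IsCompactOperator (F + G : H →L[ℂ] H) := hF.add hG

omit [CompleteSpace H] in
theorem c_sub {F G : H →L[ℂ] H} (hF : IsCompactOperator F) (hG : IsCompactOperator G) :
    IsCompactOperator (F - G : H →L[ℂ] H) := hF.sub hG

omit [CompleteSpace H] in
theorem c_neg {F : H →L[ℂ] H} (hF : IsCompactOperator F) :
    IsCompactOperator (-F : H →L[ℂ] H) := hF.neg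

/-- If `F = G F` modulo compacts with `‖G‖ ≤ 1/2` then `F` is compact. -/
theorem compact_of_contr {F G : H →L[ℂ] H} (hG : ‖G‖ ≤ 1 / 2)
    (h : IsCompactOperator (F - G * F : H →L[ℂ] H)) : IsCompactOperator F := by
  have hn : ∀ n : ℕ, IsCompactOperator (F - G ^ n * F : H →L[ℂ] H) := by
    intro n
    induction n with
    | zero =>
      rw [pow_zero, one_mul, sub_self]
      exact isCompactOperator_zero
    | succ n ih =>
      have : F - G ^ (n + 1) * F = (F - G * F) + G * (F - G ^ n * F) := by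
        rw [pow_succ']
        noncomm_ring
      rw [this]
      exact c_add h (comp_left ih G)
  have hlim : Filter.Tendsto (fun n : ℕ => F - G ^ n * F) Filter.atTop (nhds (F - 0 * F)) := by
    refine tendsto_const_nhds.sub ?_
    refine Filter.Tendsto.mul_const F ?_
    apply tendsto_pow_atTop_nhds_zero_of_norm_lt_one
    linarith
  rw [zero_mul, sub_zero] at hlim
  exact isCompactOperator_of_tendsto hlim (Filter.Eventually.of_forall hn)

/-- Functions whose functional calculus is compact form an ideal. -/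
noncomputable def cIdeal (A : H →L[ℂ] H) (hA : IsSelfAdjoint A) : Ideal C(spectrum ℝ A, ℝ) where
  carrier := {f | IsCompactOperator (cfcHom (R := ℝ) hA f : H →L[ℂ] H)}
  add_mem' := by
    intro f g hf hg
    change IsCompactOperator (cfcHom (R := ℝ) hA (f + g) : H →L[ℂ] H)
    rw [map_add]
    exact c_add hf hg
  zero_mem' := by
    change IsCompactOperator (cfcHom (R := ℝ) hA 0 : H →L[ℂ] H)
    rw [map_zero]
    exact isCompactOperator_zero
  smul_mem' := by
    intro c f hf
    change IsCompactOperator (cfcHom (R := ℝ) hA (c * f) : H →L[ℂ] H)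
    rw [map_mul]
    exact comp_left hf _

theorem mem_cIdeal {A : H →L[ℂ] H} {hA : IsSelfAdjoint A} {f : C(spectrum ℝ A, ℝ)} :
    f ∈ cIdeal A hA ↔ IsCompactOperator (cfcHom (R := ℝ) hA f : H →L[ℂ] H) := Iff.rfl

theorem cIdeal_closed (A : H →L[ℂ] H) (hA : IsSelfAdjoint A) :
    IsClosed (cIdeal A hA : Set C(spectrum ℝ A, ℝ)) := by
  have h1 : IsClosed {f : H →L[ℂ] H | IsCompactOperator f} := isClosed_setOfPred_isCompactOperator
  exact h1.preimage (cfcHom_continuous (R := ℝ) hA)

/-- If every real `μ ≠ t` has a left parametrix, `A - t` is compact. -/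
theorem compact_sub_of_parametrix (A : H →L[ℂ] H) (hA : IsSelfAdjoint A) (t : ℝ)
    (h : ∀ μ : ℝ, μ ≠ t → ∃ B : H →L[ℂ] H,
      IsCompactOperator (B * (A - (μ : ℂ) • (1 : H →L[ℂ] H)) - 1 : H →L[ℂ] H)) :
    IsCompactOperator (A - (t : ℂ) • (1 : H →L[ℂ] H) : H →L[ℂ] H) := by
  have hsc : ∀ μ : ℝ, ((μ : ℂ) • (1 : H →L[ℂ] H)) = algebraMap ℝ (H →L[ℂ] H) μ := by
    intro μ
    rw [Algebra.algebraMap_eq_smul_one]
    exact Complex.coe_smul μ (1 : H →L[ℂ] H)
  have hid : ∀ μ : ℝ, cfcHom (R := ℝ) hA ((ContinuousMap.id ℝ).restrict (spectrum ℝ A)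
      - algebraMap ℝ C(spectrum ℝ A, ℝ) μ) = A - (μ : ℂ) • (1 : H →L[ℂ] H) := by
    intro μ
    rw [map_sub, cfcHom_id hA, AlgHomClass.commutes, hsc]
  rw [← hid t, ← mem_cIdeal (hA := hA)]
  rw [← ContinuousMap.idealOfSet_ofIdeal_isClosed (cIdeal_closed A hA)]
  rw [ContinuousMap.mem_idealOfSet]
  intro x hx
  by_contra hne
  have hxt : (x : ℝ) ≠ t := by
    intro hxt
    apply hne
    simp [hxt]
  apply hx
  rw [ContinuousMap.mem_setOfIdeal]
  set μ : ℝ := (x : ℝ) with hμ
  obtain ⟨B, hB⟩ := h μ hxt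
  set δ : ℝ := 1 / (2 * (‖B‖ + 1)) with hδ
  have hBpos : 0 < ‖B‖ + 1 := by positivity
  have hδpos : 0 < δ := by positivity
  let f : C(spectrum ℝ A, ℝ) := ⟨fun y => max 0 (δ - |(y : ℝ) - μ|), by fun_prop⟩
  let g : C(spectrum ℝ A, ℝ) := ⟨fun y => max (-δ) (min δ ((y : ℝ) - μ)), by fun_prop⟩
  have hfg : ((ContinuousMap.id ℝ).restrict (spectrum ℝ A)
      - algebraMap ℝ C(spectrum ℝ A, ℝ) μ) * f = g * f := by
    ext y
    change ((y : ℝ) - μ) * max 0 (δ - |(y : ℝ) - μ|) =
      max (-δ) (min δ ((y : ℝ) - μ)) * max 0 (δ - |(y : ℝ) - μ|)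
    by_cases hy : |(y : ℝ) - μ| ≤ δ
    · have h1 := abs_le.mp hy
      rw [min_eq_right h1.2, max_eq_right h1.1]
    · push Not at hy
      have : max 0 (δ - |(y : ℝ) - μ|) = 0 := max_eq_left (by linarith)
      rw [this, mul_zero, mul_zero]
  refine ⟨f, ?_, ?_⟩
  · rw [mem_cIdeal]
    set F : H →L[ℂ] H := cfcHom (R := ℝ) hA f with hF
    set G : H →L[ℂ] H := cfcHom (R := ℝ) hA g with hG
    have hGF : (A - (μ : ℂ) • (1 : H →L[ℂ] H)) * F = G * F := by
      rw [← hid μ, hF, hG, ← map_mul, ← map_mul, hfg]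
    have hGn : ‖G‖ ≤ δ := by
      rw [hG, norm_cfcHom (𝕜 := ℝ) A g hA]
      rw [ContinuousMap.norm_le _ hδpos.le]
      intro y
      change ‖max (-δ) (min δ ((y : ℝ) - μ))‖ ≤ δ
      rw [Real.norm_eq_abs, abs_le]
      exact ⟨le_max_left _ _, max_le (by linarith) (min_le_left _ _)⟩
    refine compact_of_contr (G := B * G) ?_ ?_
    · refine le_trans (norm_mul_le _ _) ?_
      refine le_trans (mul_le_mul_of_nonneg_left hGn (norm_nonneg B)) ?_
      rw [hδ]
      have : ‖B‖ * (1 / (2 * (‖B‖ + 1))) = (‖B‖ / (‖B‖ + 1)) * (1 / 2) := by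
        field_simp
      rw [this]
      have h7 : ‖B‖ / (‖B‖ + 1) ≤ 1 := by
        rw [div_le_one hBpos]
        linarith
      nlinarith
    · have : F - B * G * F = -((B * (A - (μ : ℂ) • (1 : H →L[ℂ] H)) - 1) * F) := by
        rw [mul_assoc, ← hGF]
        noncomm_ring
      rw [this]
      exact c_neg (comp_right hB F)
  · change max 0 (δ - |(x : ℝ) - μ|) ≠ 0
    rw [← hμ, sub_self, abs_zero, sub_zero, max_eq_right hδpos.le]
    exact hδpos.ne'

end Pool.Agent.X23.EssOne
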