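import Pool.Agent.X23.SS5
import Pool.Agent.W658.States

/-!
States of unital C*-algebras: norming states, Cauchy-Schwarz, invariant states with singular spectral
measure (helper23).
-/

set_option autoImplicit false

open Finset Filter Topology MeasureTheory AddCircle
open scoped ComplexOrder InnerProductSpace ComplexConjugate

namespace Pool.Agent.X23.CA

universe u

variable {A : Type u} [CStarAlgebra A]

/-- `φ` is a state -/
structure IsSt (φ : A → ℂ) : Prop where
  add : ∀ a b, φ (a + b) = φ a + φ b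
  smul : ∀ (c : ℂ) a, φ (c • a) = c * φ a
  pos : ∀ a, 0 ≤ φ (star a * a)
  one : φ 1 = 1

namespace IsSt

variable {φ : A → ℂ}

lemma zero (h : IsSt φ) : φ 0 = 0 := by
  have := h.smul 0 0
  rwa [zero_smul, zero_mul] at this

lemma sum (h : IsSt φ) {ι : Type*} (s : Finset ι) (g : ι → A) : φ (∑ i ∈ s, g i) = ∑ i ∈ s, φ (g i) := by
  classical
  induction s using Finset.induction_on with
  | empty => simp [h.zero]
  | insert a s ha ih => rw [sum_insert ha, sum_insert ha, h.add, ih]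

lemma norm_le (h : IsSt φ) (a : A) : ‖φ a‖ ≤ ‖a‖ :=
  Pool.Agent.W658.Irrep.norm_bound φ h.add h.smul h.pos h.one a

lemma herm (h : IsSt φ) (a : A) : φ (star a) = conj (φ a) :=
  Pool.Agent.W658.Irrep.herm φ h.add h.smul h.pos h.one a

/-- Cauchy-Schwarz -/
lemma cs (h : IsSt φ) (y a : A) : ‖φ (star y * a)‖ ^ 2 ≤ (φ (star y * y)).re * (φ (star a * a)).re := by
  let _ := CStarAlgebra.spectralOrder A
  have _ := CStarAlgebra.spectralOrderedRing A
  let f : A →ₚ[ℂ] ℂ := PositiveLinearMap.mk₀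
    ({ toFun := φ, map_add' := h.add, map_smul' := fun c a => h.smul c a } : A →ₗ[ℂ] ℂ) (by
      intro x hx
      obtain ⟨y, rfl⟩ := CStarAlgebra.nonneg_iff_eq_star_mul_self.1 hx
      exact h.pos y)
  have hin : ∀ a b : A, ⟪f.toPreGNS a, f.toPreGNS b⟫_ℂ = φ (star a * b) := by
    intro a b
    rw [PositiveLinearMap.preGNS_inner_def]
    rfl
  have hn : ∀ a : A, ‖f.toPreGNS a‖ ^ 2 = (φ (star a * a)).re := by
    intro a
    rw [← hin a a, inner_self_eq_norm_sq_to_K]
    norm_cast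
  have h1 := norm_inner_le_norm (𝕜 := ℂ) (f.toPreGNS y) (f.toPreGNS a)
  rw [hin] at h1
  rw [← hn, ← hn, ← mul_pow]
  exact pow_le_pow_left₀ (norm_nonneg _) h1 2

lemma comp (h : IsSt φ) (α : A →⋆ₐ[ℂ] A) : IsSt (fun a => φ (α a)) where
  add a b := by rw [map_add, h.add]
  smul c a := by rw [map_smul, h.smul]
  pos a := by rw [map_mul, map_star]; exact h.pos _
  one := by rw [map_one, h.one]

end IsSt

/-- norming states -/
lemma norming [Nontrivial A] (y : A) : ∃ φ : A → ℂ, IsSt φ ∧ (φ (star y * y)).re = ‖y‖ ^ 2 := by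
  set p : A := star y * y with hp
  have hpn : ‖p‖ = ‖y‖ ^ 2 := by rw [hp, CStarRing.norm_star_mul_self, sq]
  -- the norm of `1 + p`
  have h1 : ‖(1 : A) + p‖ = 1 + ‖p‖ := by
    apply le_antisymm
    · refine (norm_add_le _ _).trans ?_
      rw [CStarRing.norm_one]
    · letI := CStarAlgebra.spectralOrder A
      haveI := CStarAlgebra.spectralOrderedRing A
      have hp0 : 0 ≤ p := star_mul_self_nonneg y
      have hsa : IsSelfAdjoint ((1 : A) + p) := (IsSelfAdjoint.one A).add (IsSelfAdjoint.star_mul_self y)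
      have h2 : (1 : A) + p ≤ algebraMap ℝ A ‖(1 : A) + p‖ := hsa.le_algebraMap_norm_self
      have h3 : ‖(1 : A)‖ ≤ ‖(1 : A) + p‖ :=
        CStarAlgebra.norm_le_norm_of_nonneg_of_le zero_le_one (le_add_of_nonneg_right hp0)
      rw [CStarRing.norm_one] at h3
      have h4 : p ≤ algebraMap ℝ A (‖(1 : A) + p‖ - 1) := by
        rw [map_sub, map_one, le_sub_iff_add_le, add_comm]
        exact h2
      have h5 := CStarAlgebra.norm_le_norm_of_nonneg_of_le hp0 h4
      rw [Algebra.algebraMap_eq_smul_one, norm_smul, CStarRing.norm_one, mul_one, Real.norm_eq_abs,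
        abs_of_nonneg (by linarith)] at h5
      linarith
  obtain ⟨g, hg, hg1⟩ := exists_dual_vector'' ℂ ((1 : A) + p)
  have hn : ∀ a, ‖g a‖ ≤ ‖a‖ := fun a => by
    calc ‖g a‖ ≤ ‖g‖ * ‖a‖ := g.le_opNorm a
      _ ≤ 1 * ‖a‖ := mul_le_mul_of_nonneg_right hg (norm_nonneg _)
      _ = ‖a‖ := one_mul _
  rw [h1, map_add] at hg1
  have h2 : (g 1).re + (g p).re = 1 + ‖p‖ := by
    have := congrArg Complex.re hg1
    simpa using this
  have h3 : (g 1).re ≤ 1 := by
    have := hn 1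
    rw [CStarRing.norm_one] at this
    exact (Complex.re_le_norm _).trans this
  have h4 : (g p).re ≤ ‖p‖ := (Complex.re_le_norm _).trans (hn p)
  have h5 : (g 1).re = 1 := by linarith
  have h6 : (g p).re = ‖p‖ := by linarith
  have h7 : g 1 = 1 := by
    have h8 := hn 1
    rw [CStarRing.norm_one] at h8
    have h9 : Complex.normSq (g 1) ≤ 1 := by
      rw [Complex.normSq_eq_norm_sq]
      exact pow_le_one₀ (norm_nonneg _) h8
    rw [Complex.normSq_apply, h5] at h9
    have h10 : (g 1).im = 0 := by nlinarith [mul_self_nonneg (g 1).im]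
    exact Complex.ext (by simpa using h5) (by simpa using h10)
  have h8 : ‖g‖ = 1 := by
    apply le_antisymm hg
    have := g.le_opNorm 1
    rwa [h7, norm_one, CStarRing.norm_one, mul_one] at this
  exact ⟨g, ⟨fun a b => map_add g a b, fun c a => by rw [map_smul, smul_eq_mul],
    fun a => Pool.Agent.W658.Irrep.pos_of_norm g h8 h7 a, h7⟩, by rw [h6, hpn]⟩

/-- the spectral measure of `b` in the state `φ` is singular -/
def Sg (α : A →⋆ₐ[ℂ] A) (b : A) (φ : A → ℂ) : Prop :=
  ∃ σ : Measure UnitAddCircle, IsFiniteMeasure σ ∧ σ ⟂ₘ (haarAddCircle : Measure UnitAddCircle) ∧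
    ∀ n : ℕ, φ (star b * (α^[n]) b) = ∫ t, fourier (n : ℤ) t ∂σ

/-- the difference of `α ^ K b` and the combination with the coefficients `c` -/
noncomputable def Dc (α : A →⋆ₐ[ℂ] A) (b : A) (K : ℕ) (c : ℕ → ℂ) : A :=
  (α^[K]) b - ∑ h ∈ range (2 * K + 1), c h • (α^[h]) b

lemma it_mul (α : A →⋆ₐ[ℂ] A) (n : ℕ) (a b : A) : (α^[n]) (a * b) = (α^[n]) a * (α^[n]) b := by
  induction n generalizing a b with
  | zero => rfl
  | succ n ih => simp only [Function.iterate_succ_apply, map_mul, ih]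

lemma it_star (α : A →⋆ₐ[ℂ] A) (n : ℕ) (a : A) : (α^[n]) (star a) = star ((α^[n]) a) := by
  induction n generalizing a with
  | zero => rfl
  | succ n ih => simp only [Function.iterate_succ_apply, map_star, ih]

lemma it_add (α : A →⋆ₐ[ℂ] A) (n : ℕ) (a b : A) : (α^[n]) (a + b) = (α^[n]) a + (α^[n]) b := by
  induction n generalizing a b with
  | zero => rfl
  | succ n ih => simp only [Function.iterate_succ_apply, map_add, ih]

lemma it_smul (α : A →⋆ₐ[ℂ] A) (n : ℕ) (c : ℂ) (a : A) : (α^[n]) (c • a) = c • (α^[n]) a := by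
  induction n generalizing a with
  | zero => rfl
  | succ n ih => simp only [Function.iterate_succ_apply, map_smul, ih]

lemma it_one (α : A →⋆ₐ[ℂ] A) (n : ℕ) : (α^[n]) 1 = 1 := by
  induction n with
  | zero => rfl
  | succ n ih => simp only [Function.iterate_succ_apply, map_one, ih]

lemma it_norm (α : A →⋆ₐ[ℂ] A) (n : ℕ) (a : A) : ‖(α^[n]) a‖ ≤ ‖a‖ := by
  induction n generalizing a with
  | zero => exact le_rfl
  | succ n ih =>
    rw [Function.iterate_succ_apply]
    exact (ih _).trans (NonUnitalStarAlgHom.norm_apply_le α a)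

lemma it_sum (α : A →⋆ₐ[ℂ] A) (n : ℕ) {ι : Type*} (s : Finset ι) (g : ι → A) :
    (α^[n]) (∑ i ∈ s, g i) = ∑ i ∈ s, (α^[n]) (g i) := by
  induction n generalizing g with
  | zero => rfl
  | succ n ih => simp only [Function.iterate_succ_apply, map_sum, ih]

lemma inv_it {α : A →⋆ₐ[ℂ] A} {φ : A → ℂ} (hinv : ∀ a, φ (α a) = φ a) (n : ℕ) (a : A) :
    φ ((α^[n]) a) = φ a := by
  induction n generalizing a with
  | zero => rfl
  | succ n ih => rw [Function.iterate_succ_apply, ih, hinv]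

lemma corr {α : A →⋆ₐ[ℂ] A} {b : A} {φ : A → ℂ} (h : IsSt φ) (hinv : ∀ a, φ (α a) = φ a)
    (σ : Measure UnitAddCircle) [IsFiniteMeasure σ]
    (hσ : ∀ n : ℕ, φ (star b * (α^[n]) b) = ∫ t, fourier (n : ℤ) t ∂σ) (i j : ℕ) :
    φ (star ((α^[j]) b) * (α^[i]) b) = ∫ t, fourier ((i : ℤ) - j) t ∂σ := by
  have key : ∀ a c : ℕ, φ (star ((α^[c]) b) * (α^[a + c]) b) = ∫ t, fourier (a : ℤ) t ∂σ := by
    intro a c
    rw [← hσ a, ← inv_it hinv c (star b * (α^[a]) b), it_mul, it_star, ← Function.iterate_add_apply,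
      add_comm c a]
  rcases le_total j i with hij | hij
  · obtain ⟨a, rfl⟩ := Nat.exists_eq_add_of_le' hij
    rw [key a j]
    congr 1
    funext t
    congr 2
    push_cast
    ring
  · obtain ⟨a, rfl⟩ := Nat.exists_eq_add_of_le' hij
    have h1 := congrArg (starRingEnd ℂ) (key a i)
    rw [← h.herm, star_mul, star_star, ← integral_conj] at h1
    rw [h1]
    congr 1
    funext t
    rw [← fourier_neg]
    congr 2
    push_cast
    ring

theorem approx {α : A →⋆ₐ[ℂ] A} {b : A} {φ : A → ℂ} (h : IsSt φ) (hinv : ∀ a, φ (α a) = φ a)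
    (hs : Sg α b φ) (ε : ℝ) (hε : 0 < ε) :
    ∃ (K : ℕ) (c : ℕ → ℂ), ∑ h ∈ range (2 * K + 1), ‖c h‖ ^ 2 ≤ ε ∧
      (φ (star (Dc α b K c) * Dc α b K c)).re ≤ ε := by
  obtain ⟨σ, hσf, hσs, hσ⟩ := hs
  obtain ⟨K, c, h1, h2⟩ := Pool.Agent.X23.SS.approx_one σ hσs ε hε
  refine ⟨K, c, h1, ?_⟩
  set d : ℕ → ℂ := fun i => (if i = K then 1 else 0) - c i with hd
  have hK : K ∈ range (2 * K + 1) := mem_range.2 (by omega)
  have e1 : Dc α b K c = ∑ i ∈ range (2 * K + 1), d i • (α^[i]) b := by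
    unfold Dc
    simp only [hd, sub_smul, ite_smul, one_smul, zero_smul, sum_sub_distrib, sum_ite_eq', if_pos hK]
  have e2 : ∀ t, fourier (K : ℤ) t - Pool.Agent.X23.SS.tp c (2 * K + 1) t =
      Pool.Agent.X23.SS.tp d (2 * K + 1) t := by
    intro t
    unfold Pool.Agent.X23.SS.tp
    simp only [hd, sub_mul, ite_mul, one_mul, zero_mul, sum_sub_distrib, sum_ite_eq', if_pos hK]
  simp only [e2] at h2
  have h4 := Pool.Agent.X23.SS.tp_sq σ d (2 * K + 1)
  have h5 : φ (star (Dc α b K c) * Dc α b K c) =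
      ((∫ t, ‖Pool.Agent.X23.SS.tp d (2 * K + 1) t‖ ^ 2 ∂σ : ℝ) : ℂ) := by
    rw [h4, e1, star_sum, sum_mul_sum, sum_comm, h.sum]
    refine sum_congr rfl fun i _ => ?_
    rw [h.sum]
    refine sum_congr rfl fun j _ => ?_
    rw [star_smul, smul_mul_smul_comm, h.smul, corr h hinv σ hσ i j]
    rw [mul_comm (star (d j))]
    rfl
  rw [h5, Complex.ofReal_re]
  exact h2

end Pool.Agent.X23.CA
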