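import Pool.Agent.X23.CA1

/-!
Windows in C*-algebras: the limit state (helper23).
-/

set_option autoImplicit false

open Finset Filter Topology MeasureTheory AddCircle
open scoped ComplexOrder InnerProductSpace ComplexConjugate

namespace Pool.Agent.X23.CA

open Pool.Agent.Y842.CX (Wt L cr Fam)
open Pool.Agent.X23.SS (Df Qw av main_bound)

universe u

variable {A : Type u} [CStarAlgebra A]

/-- the mean size of the windows -/
noncomputable def Qc (α : A →⋆ₐ[ℂ] A) (b : A) (v : ℕ → ℂ) (w : ℕ → ℝ) (M H : ℕ) : ℝ :=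
  (∑ n ∈ range M, w n * ‖∑ m ∈ range H, v (n + m) • (α^[m]) b‖) / H

/-- the averaged state -/
noncomputable def Phi (α : A →⋆ₐ[ℂ] A) (w : ℕ → ℝ) (M H : ℕ) (φ : ℕ → A → ℂ) (a : A) : ℂ :=
  ∑ n ∈ range M, ∑ m ∈ range H, ((w n / H : ℝ) : ℂ) * φ n ((α^[m]) a)

lemma Phi_st (α : A →⋆ₐ[ℂ] A) {w : ℕ → ℝ} {M H : ℕ} {φ : ℕ → A → ℂ} {τ : ℝ} (hw : Wt w M 1 τ)
    (h1 : ∑ n ∈ range M, w n = 1) (hH : 1 ≤ H) (hφ : ∀ n, IsSt (φ n)) : IsSt (Phi α w M H φ) where
  add a b := by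
    unfold Phi
    rw [← sum_add_distrib]
    refine sum_congr rfl fun n _ => ?_
    rw [← sum_add_distrib]
    refine sum_congr rfl fun m _ => ?_
    rw [it_add, (hφ n).add, mul_add]
  smul c a := by
    unfold Phi
    rw [mul_sum]
    refine sum_congr rfl fun n _ => ?_
    rw [mul_sum]
    refine sum_congr rfl fun m _ => ?_
    rw [it_smul, (hφ n).smul]
    ring
  pos a := by
    unfold Phi
    refine sum_nonneg fun n _ => sum_nonneg fun m _ => ?_
    rw [it_mul, it_star]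
    refine mul_nonneg ?_ ((hφ n).pos _)
    rw [Complex.zero_le_real]
    exact div_nonneg (hw.nn n) (Nat.cast_nonneg _)
  one := by
    have hH0 : (H : ℂ) ≠ 0 := by exact_mod_cast (by omega : H ≠ 0)
    unfold Phi
    have e1 : ∀ n ∈ range M, ∑ m ∈ range H, ((w n / H : ℝ) : ℂ) * φ n ((α^[m]) 1) = ((w n : ℝ) : ℂ) := by
      intro n _
      have e2 : ∀ m ∈ range H, ((w n / H : ℝ) : ℂ) * φ n ((α^[m]) 1) = ((w n : ℝ) : ℂ) / H := by
        intro m _
        rw [it_one, (hφ n).one, mul_one]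
        push_cast
        ring
      rw [sum_congr rfl e2, sum_const, card_range, nsmul_eq_mul]
      field_simp
    rw [sum_congr rfl e1, ← Complex.ofReal_sum, h1, Complex.ofReal_one]

lemma Phi_inv (α : A →⋆ₐ[ℂ] A) {w : ℕ → ℝ} {M H : ℕ} {φ : ℕ → A → ℂ} {τ : ℝ} (hw : Wt w M 1 τ)
    (hH : 1 ≤ H) (hφ : ∀ n, IsSt (φ n)) (a : A) :
    ‖Phi α w M H φ (α a) - Phi α w M H φ a‖ ≤ 2 * ‖a‖ / H := by
  have hH0 : (0 : ℝ) < H := by exact_mod_cast hH
  unfold Phi
  rw [← sum_sub_distrib]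
  have e1 : ∀ n, ∑ m ∈ range H, ((w n / H : ℝ) : ℂ) * φ n ((α^[m]) (α a)) -
      ∑ m ∈ range H, ((w n / H : ℝ) : ℂ) * φ n ((α^[m]) a) =
      ((w n / H : ℝ) : ℂ) * (φ n ((α^[H]) a) - φ n a) := by
    intro n
    rw [← mul_sum, ← mul_sum, ← mul_sub]
    congr 1
    have e2 : ∀ m, φ n ((α^[m]) (α a)) = φ n ((α^[m + 1]) a) := fun m => by
      rw [Function.iterate_succ_apply]
    simp only [e2]
    rw [← sum_sub_distrib, sum_range_sub (fun m => φ n ((α^[m]) a))]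
    rfl
  simp only [e1]
  refine (norm_sum_le _ _).trans ?_
  calc ∑ n ∈ range M, ‖((w n / H : ℝ) : ℂ) * (φ n ((α^[H]) a) - φ n a)‖ ≤
      ∑ n ∈ range M, w n * (2 * ‖a‖ / H) := by
        refine sum_le_sum fun n _ => ?_
        rw [norm_mul, Complex.norm_real, Real.norm_of_nonneg (div_nonneg (hw.nn n) hH0.le)]
        have h2 : ‖φ n ((α^[H]) a) - φ n a‖ ≤ ‖a‖ + ‖a‖ :=
          (norm_sub_le _ _).trans (add_le_add (((hφ n).norm_le _).trans (it_norm α H a)) ((hφ n).norm_le a))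
        calc w n / H * ‖φ n ((α^[H]) a) - φ n a‖ ≤ w n / H * (‖a‖ + ‖a‖) :=
              mul_le_mul_of_nonneg_left h2 (div_nonneg (hw.nn n) hH0.le)
          _ = w n * (2 * ‖a‖ / H) := by ring
    _ = (∑ n ∈ range M, w n) * (2 * ‖a‖ / H) := by rw [sum_mul]
    _ ≤ 1 * (2 * ‖a‖ / H) := mul_le_mul_of_nonneg_right hw.tot (by positivity)
    _ = _ := one_mul _

lemma T_it (n m k : ℕ) : (fun p : ℕ × ℕ => (p.1, p.2 + 1))^[k] (n, m) = (n, m + k) := by
  induction k generalizing m with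
  | zero => rfl
  | succ k ih =>
    rw [Function.iterate_succ_apply, ih]
    congr 1
    omega

/-- **the bound for the windows** -/
theorem bound (α : A →⋆ₐ[ℂ] A) (b : A) (v : ℕ → ℂ) (hv : ∀ n, ‖v n‖ ≤ 1) {w : ℕ → ℝ} {M H : ℕ} {τ : ℝ}
    (hw : Wt w M 1 τ) (h1 : ∑ n ∈ range M, w n = 1) (hH : 1 ≤ H) [Nontrivial A] :
    ∃ Φ : A → ℂ, IsSt Φ ∧ (∀ a, ‖Φ (α a) - Φ a‖ ≤ 2 * ‖a‖ / H) ∧
      ∀ (K : ℕ) (c : ℕ → ℂ) (η : ℝ), 0 ≤ η → (∀ k ∈ Ico 1 (2 * K + 1), ‖L w M (cr v k)‖ ≤ η) →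
        Qc α b v w M H ≤ Real.sqrt (Φ (star (Dc α b K c) * Dc α b K c)).re +
          ‖b‖ * Real.sqrt (∑ h ∈ range (2 * K + 1), ‖c h‖ ^ 2 +
            (∑ h ∈ range (2 * K + 1), ‖c h‖) ^ 2 * (η + (3 * K + H : ℕ) * τ)) +
          (2 * K * ‖b‖ + 4 * K * ‖b‖ * ∑ h ∈ range (2 * K + 1), ‖c h‖) / H := by
  have hH0 : (0 : ℝ) < H := by exact_mod_cast hH
  set y : ℕ → A := fun n => ∑ m ∈ range H, v (n + m) • (α^[m]) b with hy
  choose φ hφ hφy using fun n => norming (y n)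
  refine ⟨Phi α w M H φ, Phi_st α hw h1 hH hφ, Phi_inv α hw hH hφ, ?_⟩
  intro K c η hη0 hη
  -- the functionals
  set ψ : ℕ → A → ℂ := fun n a => φ n (star (y n) * a) / ‖y n‖ with hψ
  have hψ2 : ∀ n a, ‖ψ n a‖ ^ 2 ≤ (φ n (star a * a)).re := by
    intro n a
    have h3 := (hφ n).cs (y n) a
    rw [hφy n] at h3
    have h0 : 0 ≤ (φ n (star a * a)).re := (Complex.le_def.1 ((hφ n).pos a)).1
    rw [hψ]
    simp only
    rw [norm_div, Complex.norm_real, norm_norm, div_pow]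
    rcases eq_or_lt_of_le (norm_nonneg (y n)) with h4 | h4
    · rw [← h4]
      simpa using h0
    · rw [div_le_iff₀ (by positivity), mul_comm]
      exact h3
  have hψn : ∀ n a, ‖ψ n a‖ ≤ ‖a‖ := by
    intro n a
    apply le_of_sq_le_sq _ (norm_nonneg a)
    refine (hψ2 n a).trans ?_
    refine (Complex.re_le_norm _).trans (((hφ n).norm_le _).trans ?_)
    rw [CStarRing.norm_star_mul_self, sq]
  have hψadd : ∀ n a a', ψ n (a + a') = ψ n a + ψ n a' := by
    intro n a a'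
    rw [hψ]
    simp only
    rw [mul_add, (hφ n).add, add_div]
  have hψsmul : ∀ n (z : ℂ) a, ψ n (z • a) = z * ψ n a := by
    intro n z a
    rw [hψ]
    simp only
    rw [mul_smul_comm, (hφ n).smul, mul_div_assoc]
  have hψ0 : ∀ n, ψ n 0 = 0 := by
    intro n
    have := hψsmul n 0 0
    rwa [zero_smul, zero_mul] at this
  have hψsum : ∀ n {ι : Type} (s : Finset ι) (g : ι → A), ψ n (∑ i ∈ s, g i) = ∑ i ∈ s, ψ n (g i) := by
    intro n ι s g
    classical
    induction s using Finset.induction_on with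
    | empty => simp [hψ0]
    | insert a s ha ih => rw [sum_insert ha, sum_insert ha, hψadd, ih]
  have hψy : ∀ n, ψ n (y n) = ‖y n‖ := by
    intro n
    have h3 : φ n (star (y n) * y n) = ((‖y n‖ ^ 2 : ℝ) : ℂ) := by
      have h4 := Complex.le_def.1 ((hφ n).pos (y n))
      refine Complex.ext ?_ ?_
      · rw [hφy n, Complex.ofReal_re]
      · rw [Complex.ofReal_im]
        exact h4.2.symm
    rw [hψ]
    simp only
    rw [h3]
    push_cast
    rcases eq_or_lt_of_le (norm_nonneg (y n)) with h4 | h4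
    · rw [← h4]
      simp
    · have : (‖y n‖ : ℂ) ≠ 0 := by exact_mod_cast h4.ne'
      field_simp
  -- the auxiliary system
  set T : ℕ × ℕ → ℕ × ℕ := fun p => (p.1, p.2 + 1) with hT
  set f : ℕ × ℕ → ℂ := fun p => ψ p.1 ((α^[p.2]) b) with hf
  set x : ℕ → ℕ × ℕ := fun n => (n, 0) with hx
  have hfB : ∀ p, ‖f p‖ ≤ ‖b‖ := fun p => (hψn _ _).trans (it_norm α _ b)
  have hTit : ∀ n m, T^[m] (x n) = (n, m) := by
    intro n m
    rw [hT, hx]
    simp only
    rw [T_it, zero_add]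
  have hmain := main_bound T f ‖b‖ hfB v hv hw K c η hη0 hη x H hH
  have hQ : Qc α b v w M H = Qw T f v w M H x := by
    unfold Qc Qw
    congr 1
    refine sum_congr rfl fun n _ => ?_
    congr 1
    have h3 : ∑ m ∈ range H, f (T^[m] (x n)) • v (n + m) = ψ n (y n) := by
      rw [hy]
      simp only
      rw [hψsum]
      refine sum_congr rfl fun m _ => ?_
      rw [hTit, hψsmul, smul_eq_mul, mul_comm]
    rw [h3, hψy, Complex.norm_real, norm_norm]
  have hav : av T w M H x (fun p => ‖Df T f K c p‖ ^ 2) ≤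
      (Phi α w M H φ (star (Dc α b K c) * Dc α b K c)).re := by
    unfold av Phi
    rw [Complex.re_sum]
    refine sum_le_sum fun n _ => ?_
    rw [Complex.re_sum]
    refine sum_le_sum fun m _ => ?_
    rw [Complex.re_ofReal_mul]
    refine mul_le_mul_of_nonneg_left ?_ (div_nonneg (hw.nn n) hH0.le)
    have h3 : Df T f K c (T^[m] (x n)) = ψ n ((α^[m]) (Dc α b K c)) := by
      unfold Df Dc
      rw [hTit]
      have e1 : ∀ k, f (T^[k] (n, m)) = ψ n ((α^[m]) ((α^[k]) b)) := by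
        intro k
        rw [hT, T_it, hf]
        simp only
        rw [Function.iterate_add_apply]
      simp only [e1]
      rw [sub_eq_add_neg, sub_eq_add_neg, it_add, hψadd, ← neg_one_smul ℂ (∑ h ∈ range (2 * K + 1), c h • (α^[h]) b),
        it_smul, hψsmul, it_sum, hψsum, neg_one_mul]
      congr 2
      refine sum_congr rfl fun h _ => ?_
      rw [it_smul, hψsmul]
    show ‖Df T f K c (T^[m] (x n))‖ ^ 2 ≤ _
    rw [h3, it_mul, it_star]
    exact hψ2 n _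
  rw [hQ]
  refine hmain.trans ?_
  have := Real.sqrt_le_sqrt hav
  linarith

end Pool.Agent.X23.CA
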