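import Pool.Agent.X23.CA2

/-!
Windows in C*-algebras: the limit state and the uniform statement (helper23).
-/

set_option autoImplicit false

open Finset Filter Topology MeasureTheory AddCircle
open scoped ComplexOrder InnerProductSpace ComplexConjugate

namespace Pool.Agent.X23.CA

open Pool.Agent.Y842.CX (Wt L cr Fam)

universe u

variable {A : Type u} [CStarAlgebra A]

/-- ultrafilter limits of states -/
lemma lim_state (𝒰 : Ultrafilter ℕ) (Φ : ℕ → A → ℂ) (hΦ : ∀ j, IsSt (Φ j)) :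
    ∃ Ψ : A → ℂ, IsSt Ψ ∧ ∀ a, Tendsto (fun j => Φ j a) 𝒰 (𝓝 (Ψ a)) := by
  have h1 : ∀ a : A, ∃ z : ℂ, Tendsto (fun j => Φ j a) 𝒰 (𝓝 z) := by
    intro a
    have h2 : IsCompact (Metric.closedBall (0 : ℂ) ‖a‖) := isCompact_closedBall _ _
    obtain ⟨z, _, hz⟩ := h2.ultrafilter_le_nhds (𝒰.map (fun j => Φ j a)) (by
      rw [le_principal_iff]
      refine Filter.mem_map.2 (Filter.univ_mem' fun j => ?_)
      rw [Set.mem_preimage, mem_closedBall_zero_iff]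
      exact (hΦ j).norm_le a)
    exact ⟨z, hz⟩
  choose Ψ hΨ using h1
  refine ⟨Ψ, ⟨?_, ?_, ?_, ?_⟩, hΨ⟩
  · intro a b
    refine tendsto_nhds_unique (hΨ (a + b)) (((hΨ a).add (hΨ b)).congr fun j => ?_)
    rw [(hΦ j).add]
  · intro c a
    refine tendsto_nhds_unique (hΨ (c • a)) (((hΨ a).const_mul c).congr fun j => ?_)
    rw [(hΦ j).smul]
  · intro a
    exact ge_of_tendsto' (hΨ (star a * a)) fun j => (hΦ j).pos a
  · refine tendsto_nhds_unique (hΨ 1) (tendsto_const_nhds.congr fun j => ?_)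
    rw [(hΦ j).one]

/-- **the limit** -/
theorem seq_lim (α : A →⋆ₐ[ℂ] A) (b : A)
    (hS : ∀ φ : A → ℂ, IsSt φ → (∀ a, φ (α a) = φ a) → Sg α b φ)
    (w : ℕ → ℕ → ℝ) (M H : ℕ → ℕ) (τ : ℕ → ℝ) (v : ℕ → ℕ → ℂ)
    (hw : ∀ j, Wt (w j) (M j) 1 (τ j)) (hone : ∀ j, ∑ n ∈ range (M j), w j n = 1) (hH1 : ∀ j, 1 ≤ H j)
    (hH : Tendsto H atTop atTop) (hτ : Tendsto (fun j => (H j : ℝ) * τ j) atTop (𝓝 0))
    (hv : ∀ j n, ‖v j n‖ ≤ 1)
    (hc : ∀ k : ℕ, 1 ≤ k → Tendsto (fun j => ‖L (w j) (M j) (cr (v j) k)‖) atTop (𝓝 0)) :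
    Tendsto (fun j => Qc α b (v j) (w j) (M j) (H j)) atTop (𝓝 0) := by
  rcases subsingleton_or_nontrivial A with hA | hA
  · have h0 : ∀ j, Qc α b (v j) (w j) (M j) (H j) = 0 := by
      intro j
      unfold Qc
      have h1 : ∀ n ∈ range (M j), w j n * ‖∑ m ∈ range (H j), v j (n + m) • (α^[m]) b‖ = 0 := by
        intro n _
        rw [Subsingleton.elim (∑ m ∈ range (H j), v j (n + m) • (α^[m]) b) 0, norm_zero, mul_zero]
      rw [sum_congr rfl h1]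
      simp
    simp only [h0]
    exact tendsto_const_nhds
  rw [tendsto_iff_ultrafilter]
  intro 𝒰 h𝒰
  have hB0 : 0 ≤ ‖b‖ := norm_nonneg b
  choose Φ hΦ hΦi hΦb using fun j => bound α b (v j) (hv j) (hw j) (hone j) (hH1 j)
  obtain ⟨Ψ, hΨ, hlim⟩ := lim_state 𝒰 Φ hΦ
  have hHr : Tendsto (fun j => (H j : ℝ)) 𝒰 atTop :=
    (tendsto_natCast_atTop_atTop.comp hH).mono_left h𝒰
  -- invariance
  have hinv : ∀ a, Ψ (α a) = Ψ a := by
    intro a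
    have h3 : Tendsto (fun j => Φ j (α a) - Φ j a) 𝒰 (𝓝 0) := by
      apply squeeze_zero_norm (a := fun j => 2 * ‖a‖ / H j)
      · intro j
        exact hΦi j a
      · exact tendsto_const_nhds.div_atTop hHr
    have h4 := tendsto_nhds_unique h3 ((hlim (α a)).sub (hlim a))
    exact (sub_eq_zero.1 h4.symm)
  have hsing := hS Ψ hΨ hinv
  rw [Metric.tendsto_nhds]
  intro ε hε
  set δ : ℝ := (ε / (2 * (1 + ‖b‖))) ^ 2 with hδ
  have hδ0 : 0 < δ := by positivity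
  obtain ⟨K, c, h1, h2⟩ := approx hΨ hinv hsing δ hδ0
  set S : ℝ := ∑ h ∈ range (2 * K + 1), ‖c h‖ with hS'
  set η : ℕ → ℝ := fun j => ∑ k ∈ Ico 1 (2 * K + 1), ‖L (w j) (M j) (cr (v j) k)‖ with hη
  have hη0 : ∀ j, 0 ≤ η j := fun j => sum_nonneg fun _ _ => norm_nonneg _
  have hηl : Tendsto η 𝒰 (𝓝 0) := by
    have : Tendsto η atTop (𝓝 (∑ k ∈ Ico 1 (2 * K + 1), (0 : ℝ))) :=
      tendsto_finset_sum _ fun k hk => hc k (mem_Ico.1 hk).1
    simp only [sum_const_zero] at this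
    exact this.mono_left h𝒰
  have hbound : ∀ j, Qc α b (v j) (w j) (M j) (H j) ≤
      Real.sqrt (Φ j (star (Dc α b K c) * Dc α b K c)).re +
      ‖b‖ * Real.sqrt (∑ h ∈ range (2 * K + 1), ‖c h‖ ^ 2 + S ^ 2 * (η j + (3 * K + H j : ℕ) * τ j)) +
      (2 * K * ‖b‖ + 4 * K * ‖b‖ * S) / H j := fun j =>
    hΦb j K c (η j) (hη0 j) (fun k hk =>
      single_le_sum (f := fun k => ‖L (w j) (M j) (cr (v j) k)‖) (fun _ _ => norm_nonneg _) hk)
  have hτ0 : Tendsto τ atTop (𝓝 0) := by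
    apply squeeze_zero' (Eventually.of_forall fun j => (hw j).τ_nonneg) _ hτ
    refine Eventually.of_forall fun j => ?_
    have : (1 : ℝ) ≤ H j := by exact_mod_cast hH1 j
    have h3 := (hw j).τ_nonneg
    nlinarith
  have hτ1 : Tendsto (fun j => ((3 * K + H j : ℕ) : ℝ) * τ j) 𝒰 (𝓝 0) := by
    have h3 : Tendsto (fun j => (3 * K : ℝ) * τ j + (H j : ℝ) * τ j) atTop (𝓝 ((3 * K : ℝ) * 0 + 0)) :=
      (hτ0.const_mul _).add hτ
    rw [mul_zero, add_zero] at h3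
    refine (h3.mono_left h𝒰).congr fun j => ?_
    push_cast
    ring
  have hΦl : Tendsto (fun j => Real.sqrt (Φ j (star (Dc α b K c) * Dc α b K c)).re +
      ‖b‖ * Real.sqrt (∑ h ∈ range (2 * K + 1), ‖c h‖ ^ 2 + S ^ 2 * (η j + (3 * K + H j : ℕ) * τ j)) +
      (2 * K * ‖b‖ + 4 * K * ‖b‖ * S) / H j) 𝒰
      (𝓝 (Real.sqrt (Ψ (star (Dc α b K c) * Dc α b K c)).re +
        ‖b‖ * Real.sqrt (∑ h ∈ range (2 * K + 1), ‖c h‖ ^ 2 + S ^ 2 * (0 + 0)) + 0)) := by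
    refine Tendsto.add (Tendsto.add ?_ ?_) ?_
    · exact (Real.continuous_sqrt.tendsto _).comp
        ((Complex.continuous_re.tendsto _).comp (hlim (star (Dc α b K c) * Dc α b K c)))
    · refine Tendsto.const_mul _ ((Real.continuous_sqrt.tendsto _).comp ?_)
      exact tendsto_const_nhds.add ((hηl.add hτ1).const_mul _)
    · exact tendsto_const_nhds.div_atTop hHr
  have hval : Real.sqrt (Ψ (star (Dc α b K c) * Dc α b K c)).re +
        ‖b‖ * Real.sqrt (∑ h ∈ range (2 * K + 1), ‖c h‖ ^ 2 + S ^ 2 * (0 + 0)) + 0 < ε := by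
    have h3 : Real.sqrt δ = ε / (2 * (1 + ‖b‖)) := by
      rw [hδ]
      exact Real.sqrt_sq (by positivity)
    have h4 := Real.sqrt_le_sqrt h2
    have h5 := Real.sqrt_le_sqrt h1
    rw [h3] at h4 h5
    have h6 := mul_le_mul_of_nonneg_left h5 hB0
    have h7 : ε / (2 * (1 + ‖b‖)) + ‖b‖ * (ε / (2 * (1 + ‖b‖))) = ε / 2 := by
      field_simp
    simp only [add_zero, mul_zero]
    linarith
  have h3 := hΦl.eventually_lt_const hval
  filter_upwards [h3] with j hj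
  rw [Real.dist_eq, sub_zero, abs_of_nonneg]
  · exact (hbound j).trans_lt hj
  · unfold Qc
    exact div_nonneg (sum_nonneg fun n _ => mul_nonneg ((hw j).nn n) (norm_nonneg _)) (Nat.cast_nonneg _)

/-- **the uniform statement** -/
theorem uniform (α : A →⋆ₐ[ℂ] A) (b : A)
    (hS : ∀ φ : A → ℂ, IsSt φ → (∀ a, φ (α a) = φ a) → Sg α b φ)
    {ι : Type} {l : Filter ι} {w : ι → ℕ → ℝ} {M : ι → ℕ} {τ : ι → ℝ} (hF : Fam l w M 1 τ)
    (hone : ∀ᶠ i in l, ∑ n ∈ range (M i), w i n = 1) {Θ : Type} (v : Θ → ℕ → ℂ) (hv : ∀ θ n, ‖v θ n‖ ≤ 1)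
    (hc : ∀ k : ℕ, 1 ≤ k → ∀ ε : ℝ, 0 < ε → ∀ᶠ i in l, ∀ θ, ‖L (w i) (M i) (cr (v θ) k)‖ ≤ ε)
    (ε : ℝ) (hε : 0 < ε) : ∃ H₀ : ℕ, ∀ H : ℕ, H₀ ≤ H → ∀ᶠ i in l, ∀ θ : Θ,
      Qc α b (v θ) (w i) (M i) H ≤ ε := by
  by_contra hcon
  push Not at hcon
  have hstep : ∀ j : ℕ, ∃ (H : ℕ) (i : ι) (θ : Θ), j + 1 ≤ H ∧ ε < Qc α b (v θ) (w i) (M i) H ∧
      Wt (w i) (M i) 1 (τ i) ∧ ∑ n ∈ range (M i), w i n = 1 ∧ (H : ℝ) * τ i ≤ 1 / ((j : ℝ) + 1) ∧
      ∀ k ∈ Ico 1 (j + 1), ∀ θ, ‖L (w i) (M i) (cr (v θ) k)‖ ≤ 1 / ((j : ℝ) + 1) := by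
    intro j
    obtain ⟨H, hH, hfr⟩ := hcon (j + 1)
    have hj : (0 : ℝ) < 1 / ((j : ℝ) + 1) := by positivity
    have hH0 : (0 : ℝ) < H := by exact_mod_cast (by omega : 0 < H)
    have h1 : ∀ᶠ i in l, τ i < 1 / ((j : ℝ) + 1) / H :=
      hF.lim.eventually_lt_const (by positivity)
    have h2 : ∀ᶠ i in l, ∀ k ∈ Ico 1 (j + 1), ∀ θ, ‖L (w i) (M i) (cr (v θ) k)‖ ≤ 1 / ((j : ℝ) + 1) := by
      rw [Filter.eventually_all_finset]
      intro k hk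
      exact hc k (mem_Ico.1 hk).1 _ hj
    obtain ⟨i, ⟨θ, h3⟩, h4, h5, h6, h7⟩ := (hfr.and_eventually (hF.wt.and (hone.and (h1.and h2)))).exists
    refine ⟨H, i, θ, hH, h3, h4, h5, ?_, h7⟩
    rw [lt_div_iff₀ hH0] at h6
    linarith
  choose H i θ h1 h2 h3 h4 h5 h6 using hstep
  have hz : Tendsto (fun j : ℕ => 1 / ((j : ℝ) + 1)) atTop (𝓝 0) := tendsto_one_div_add_atTop_nhds_zero_nat
  have hlim := seq_lim α b hS (fun j => w (i j)) (fun j => M (i j)) H (fun j => τ (i j))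
    (fun j => v (θ j)) h3 h4 (fun j => (Nat.le_add_left 1 j).trans (h1 j))
    (tendsto_atTop_mono (fun j => (Nat.le_succ j).trans (h1 j)) tendsto_id)
    (squeeze_zero (fun j => mul_nonneg (Nat.cast_nonneg _) (h3 j).τ_nonneg) h5 hz)
    (fun j n => hv _ _) (fun k hk => by
      refine squeeze_zero' (Eventually.of_forall fun _ => norm_nonneg _) ?_ hz
      filter_upwards [eventually_ge_atTop k] with j hj
      exact h6 j k (mem_Ico.2 ⟨hk, by omega⟩) (θ j))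
  obtain ⟨j, hj⟩ := (hlim.eventually_lt_const hε).exists
  exact absurd hj (not_lt.2 (h2 j).le)

end Pool.Agent.X23.CA
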