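import Pool.Agent.X23.CA3

/-!
Windows in C*-algebras: closed subspaces, means, logarithmic means (helper23).
-/

set_option autoImplicit false

open Finset Filter Topology MeasureTheory

namespace Pool.Agent.X23.CA

open Pool.Agent.Y842.CX (Wt L cr Fam natw flt flt_iff fam_nat)

section norm
variable {V : Type*} [NormedAddCommGroup V] [NormedSpace ℂ V]

lemma shift_err (φ : ℕ → V) (b : ℝ) (hφ : ∀ m, ‖φ m‖ ≤ b) (H s : ℕ) :
    ‖∑ m ∈ range H, φ (m + s) - ∑ m ∈ range H, φ m‖ ≤ 2 * s * b := by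
  induction s with
  | zero => simp
  | succ s ih =>
    have h1 : ∑ m ∈ range H, φ (m + (s + 1)) = ∑ m ∈ range H, φ (m + s) + φ (H + s) - φ s := by
      have h2 := sum_range_succ (fun m => φ (m + s)) H
      have h3 := sum_range_succ' (fun m => φ (m + s)) H
      rw [h2] at h3
      have h4 : ∑ m ∈ range H, φ (m + (s + 1)) = ∑ m ∈ range H, φ (m + 1 + s) :=
        sum_congr rfl fun m _ => by congr 1; ring
      rw [h4, eq_sub_iff_add_eq]
      simpa using h3.symm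
    rw [h1]
    have h5 : ∑ m ∈ range H, φ (m + s) + φ (H + s) - φ s - ∑ m ∈ range H, φ m =
        (∑ m ∈ range H, φ (m + s) - ∑ m ∈ range H, φ m) + (φ (H + s) - φ s) := by abel
    rw [h5]
    refine (norm_add_le _ _).trans ?_
    have h6 : ‖φ (H + s) - φ s‖ ≤ b + b := (norm_sub_le _ _).trans (add_le_add (hφ _) (hφ _))
    push_cast
    linarith

/-- from windows to long sums -/
lemma long (φ : ℕ → V) (b : ℝ) (hφ : ∀ n, ‖φ n‖ ≤ b)
    (N H : ℕ) (hH : 1 ≤ H) (ε : ℝ) (h : ∑ n ∈ range N, ‖∑ m ∈ range H, φ (n + m)‖ ≤ ε * H * N) :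
    ‖∑ n ∈ range N, φ n‖ ≤ ε * N + 2 * H * b := by
  have hb : 0 ≤ b := (norm_nonneg _).trans (hφ 0)
  have hH0 : (0 : ℝ) < H := by exact_mod_cast hH
  have h1 : ‖∑ n ∈ range N, ∑ m ∈ range H, φ (n + m) - (H : ℂ) • ∑ n ∈ range N, φ n‖ ≤ H * (2 * H * b) := by
    rw [sum_comm]
    have e1 : (H : ℂ) • ∑ n ∈ range N, φ n = ∑ m ∈ range H, ∑ n ∈ range N, φ n := by
      rw [sum_const, card_range, Nat.cast_smul_eq_nsmul]
    rw [e1, ← sum_sub_distrib]
    refine (norm_sum_le _ _).trans ?_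
    calc ∑ m ∈ range H, ‖∑ n ∈ range N, φ (n + m) - ∑ n ∈ range N, φ n‖ ≤ ∑ m ∈ range H, 2 * (H : ℝ) * b := by
          refine sum_le_sum fun m hm => (shift_err φ b hφ N m).trans ?_
          apply mul_le_mul_of_nonneg_right _ hb
          have : (m : ℝ) ≤ H := by exact_mod_cast (mem_range.1 hm).le
          linarith
      _ = H * (2 * H * b) := by rw [sum_const, card_range, nsmul_eq_mul]
  have h2 : ‖∑ n ∈ range N, ∑ m ∈ range H, φ (n + m)‖ ≤ ε * H * N := (norm_sum_le _ _).trans h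
  have h3 : ‖(H : ℂ) • ∑ n ∈ range N, φ n‖ ≤ H * (ε * N + 2 * H * b) := by
    have := norm_le_norm_add_norm_sub (∑ n ∈ range N, ∑ m ∈ range H, φ (n + m)) ((H : ℂ) • ∑ n ∈ range N, φ n)
    nlinarith
  rw [norm_smul, Complex.norm_natCast] at h3
  exact le_of_mul_le_mul_left h3 hH0

open Classical in
/-- partial summation: small means outside `E` give small logarithmic means -/
lemma log_mean (φ : ℕ → V) (b : ℝ) (hφ : ∀ n, ‖φ n‖ ≤ b) (E : Set ℕ) (ε : ℝ) (hε : 0 ≤ ε) (N₀ : ℕ)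
    (h : ∀ N : ℕ, N₀ ≤ N → N ∉ E → ‖∑ n ∈ range N, φ n‖ ≤ ε * N) (N : ℕ) (hN : 1 ≤ N) :
    ‖∑ n ∈ Icc 1 N, (1 / (n : ℂ)) • φ n‖ ≤ 3 * b + 2 * b * N₀ +
      2 * b * (∑ n ∈ Icc 1 N, if n ∈ E then (1 : ℝ) / n else 0) + 2 * ε * ∑ n ∈ Icc 1 N, (1 : ℝ) / n := by
  have hb : 0 ≤ b := (norm_nonneg _).trans (hφ 0)
  set S : ℕ → V := fun N => ∑ n ∈ range N, φ n with hS
  have hSb : ∀ n, ‖S n‖ ≤ b * n := by
    intro n
    refine (norm_sum_le _ _).trans ?_
    calc ∑ i ∈ range n, ‖φ i‖ ≤ ∑ i ∈ range n, b := sum_le_sum fun i _ => hφ i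
      _ = b * n := by rw [sum_const, card_range, nsmul_eq_mul, mul_comm]
  -- summation by parts
  have key : ∀ N : ℕ, 1 ≤ N → ∑ n ∈ Icc 1 N, (1 / (n : ℂ)) • φ n =
      (1 / (N : ℂ)) • S (N + 1) - S 1 + ∑ n ∈ Ico 1 N, ((1 / (n : ℂ)) - 1 / ((n : ℂ) + 1)) • S (n + 1) := by
    intro N hN
    induction N, hN using Nat.le_induction with
    | base =>
      simp only [Icc_self, sum_singleton, Nat.cast_one, div_one, one_smul, Ico_self, sum_empty, add_zero, hS]
      rw [sum_range_succ, sum_range_succ]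
      simp
    | succ N hN ih =>
      rw [← Finset.insert_Icc_right_eq_Icc_add_one (by omega : 1 ≤ N + 1), sum_insert (by simp), ih,
        sum_Ico_succ_top hN]
      have e1 : S (N + 1 + 1) = S (N + 1) + φ (N + 1) := by
        rw [hS]
        simp only
        rw [sum_range_succ]
      rw [e1]
      push_cast
      rw [smul_add, sub_smul]
      abel
  rw [key N hN]
  have hN0 : (0 : ℝ) < N := by exact_mod_cast hN
  have h1 : ‖(1 / (N : ℂ)) • S (N + 1)‖ ≤ 2 * b := by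
    rw [norm_smul, norm_div, norm_one, Complex.norm_natCast]
    have h2 := hSb (N + 1)
    have h3 : b * ((N + 1 : ℕ) : ℝ) ≤ 2 * b * N := by
      have : (1 : ℝ) ≤ N := by exact_mod_cast hN
      push_cast
      nlinarith
    rw [div_mul_eq_mul_div, one_mul, div_le_iff₀ hN0]
    exact h2.trans h3
  have h2 : ‖S 1‖ ≤ b := by
    have := hSb 1
    simpa using this
  have h3 : ∀ n ∈ Ico 1 N, ‖((1 / (n : ℂ)) - 1 / ((n : ℂ) + 1)) • S (n + 1)‖ ≤
      (if n + 1 < N₀ then b else 0) + b * (if n + 1 ∈ E then (1 : ℝ) / (n + 1 : ℕ) * 2 else 0) +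
        2 * ε * (1 / ((n + 1 : ℕ) : ℝ)) := by
    intro n hn
    rw [mem_Ico] at hn
    have hn0 : (0 : ℝ) < n := by exact_mod_cast hn.1
    have hn1 : (1 : ℝ) ≤ n := by exact_mod_cast hn.1
    have e1 : ((1 / (n : ℂ)) - 1 / ((n : ℂ) + 1)) = ((1 / ((n : ℝ) * (n + 1)) : ℝ) : ℂ) := by
      have h4 : (n : ℂ) ≠ 0 := by exact_mod_cast hn0.ne'
      have h5 : (n : ℂ) + 1 ≠ 0 := by exact_mod_cast (by positivity : (n : ℝ) + 1 ≠ 0)
      push_cast
      field_simp
      ring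
    rw [e1, norm_smul, Complex.norm_real, Real.norm_of_nonneg (by positivity)]
    have hsmall : (1 : ℝ) / n ≤ 2 * (1 / ((n + 1 : ℕ) : ℝ)) := by
      push_cast
      rw [div_le_iff₀ hn0, mul_assoc, div_mul_eq_mul_div, one_mul, ← mul_div_assoc, le_div_iff₀ (by positivity)]
      linarith
    have hpos : (0 : ℝ) ≤ 1 / ((n + 1 : ℕ) : ℝ) := by positivity
    have hgen : 1 / ((n : ℝ) * (n + 1)) * ‖S (n + 1)‖ ≤ b * (1 / n) := by
      have h4 := hSb (n + 1)
      calc 1 / ((n : ℝ) * (n + 1)) * ‖S (n + 1)‖ ≤ 1 / ((n : ℝ) * (n + 1)) * (b * (n + 1 : ℕ)) :=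
            mul_le_mul_of_nonneg_left h4 (by positivity)
        _ = b * (1 / n) := by
            push_cast
            field_simp
    by_cases hc : n + 1 < N₀
    · rw [if_pos hc]
      have h4 : b * (1 / (n : ℝ)) ≤ b := by
        have : (1 : ℝ) / n ≤ 1 := by
          rw [div_le_one hn0]
          exact hn1
        nlinarith
      have h5 : 0 ≤ b * (if n + 1 ∈ E then (1 : ℝ) / (n + 1 : ℕ) * 2 else 0) := by
        apply mul_nonneg hb
        split_ifs
        · positivity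
        · exact le_rfl
      have h6 : 0 ≤ 2 * ε * (1 / ((n + 1 : ℕ) : ℝ)) := by positivity
      linarith
    · rw [if_neg hc, zero_add]
      have h6 : 0 ≤ 2 * ε * (1 / ((n + 1 : ℕ) : ℝ)) := by positivity
      by_cases hE : n + 1 ∈ E
      · rw [if_pos hE]
        have : b * (1 / (n : ℝ)) ≤ b * (1 / ((n + 1 : ℕ) : ℝ) * 2) := by
          apply mul_le_mul_of_nonneg_left _ hb
          linarith
        linarith
      · rw [if_neg hE, mul_zero, zero_add]
        have h4 := h (n + 1) (by omega) hE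
        calc 1 / ((n : ℝ) * (n + 1)) * ‖S (n + 1)‖ ≤ 1 / ((n : ℝ) * (n + 1)) * (ε * (n + 1 : ℕ)) :=
              mul_le_mul_of_nonneg_left h4 (by positivity)
          _ = ε * (1 / n) := by
              push_cast
              field_simp
          _ ≤ ε * (2 * (1 / ((n + 1 : ℕ) : ℝ))) := mul_le_mul_of_nonneg_left hsmall hε
          _ = _ := by ring
  have h4 : ‖∑ n ∈ Ico 1 N, ((1 / (n : ℂ)) - 1 / ((n : ℂ) + 1)) • S (n + 1)‖ ≤ 2 * b * N₀ +
      2 * b * (∑ n ∈ Icc 1 N, if n ∈ E then (1 : ℝ) / n else 0) + 2 * ε * ∑ n ∈ Icc 1 N, (1 : ℝ) / n := by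
    refine (norm_sum_le _ _).trans ((sum_le_sum h3).trans ?_)
    rw [sum_add_distrib, sum_add_distrib]
    have h5 : ∑ n ∈ Ico 1 N, (if n + 1 < N₀ then b else 0) ≤ 2 * b * N₀ := by
      rw [← sum_filter]
      have h6 : ((Ico 1 N).filter fun n => n + 1 < N₀) ⊆ range N₀ := by
        intro n hn
        rw [mem_filter] at hn
        exact mem_range.2 (by omega)
      calc ∑ n ∈ (Ico 1 N).filter (fun n => n + 1 < N₀), b ≤ ∑ n ∈ range N₀, b :=
            sum_le_sum_of_subset_of_nonneg h6 fun _ _ _ => hb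
        _ = N₀ * b := by rw [sum_const, card_range, nsmul_eq_mul]
        _ ≤ 2 * b * N₀ := by
            have : 0 ≤ b * N₀ := by positivity
            linarith
    have h6 : ∀ g : ℕ → ℝ, (∀ n, 0 ≤ g n) → ∑ n ∈ Ico 1 N, g (n + 1) ≤ ∑ n ∈ Icc 1 N, g n := by
      intro g hg
      have e1 : ∑ n ∈ Ico 1 N, g (n + 1) = ∑ n ∈ Ico 2 (N + 1), g n := by
        rw [← sum_Ico_add' g 1 N 1]
      rw [e1]
      apply sum_le_sum_of_subset_of_nonneg
      · intro n hn
        rw [mem_Ico] at hn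
        rw [mem_Icc]
        omega
      · exact fun _ _ _ => hg _
    have h7 : ∑ n ∈ Ico 1 N, b * (if n + 1 ∈ E then (1 : ℝ) / (n + 1 : ℕ) * 2 else 0) ≤
        2 * b * (∑ n ∈ Icc 1 N, if n ∈ E then (1 : ℝ) / n else 0) := by
      have h8 := h6 (fun n => b * (if n ∈ E then (1 : ℝ) / (n : ℕ) * 2 else 0)) (by
        intro n
        apply mul_nonneg hb
        split_ifs
        · positivity
        · exact le_rfl)
      refine h8.trans (le_of_eq ?_)
      rw [mul_sum]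
      refine sum_congr rfl fun n _ => ?_
      split_ifs
      · ring
      · ring
    have h8 : ∑ n ∈ Ico 1 N, 2 * ε * (1 / ((n + 1 : ℕ) : ℝ)) ≤ 2 * ε * ∑ n ∈ Icc 1 N, (1 : ℝ) / n := by
      have h9 := h6 (fun n => 2 * ε * (1 / (n : ℝ))) (fun n => by positivity)
      refine h9.trans (le_of_eq ?_)
      rw [mul_sum]
    linarith
  have h5 := norm_add_le ((1 / (N : ℂ)) • S (N + 1) - S 1)
    (∑ n ∈ Ico 1 N, ((1 / (n : ℂ)) - 1 / ((n : ℂ) + 1)) • S (n + 1))
  have h6 := norm_sub_le ((1 / (N : ℂ)) • S (N + 1)) (S 1)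
  linarith

end norm

end Pool.Agent.X23.CA
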