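import Pool.Agent.X23.CA4

/-!
Windows in C*-algebras: closed subspaces, means, logarithmic means, continued (helper23).
-/

set_option autoImplicit false

open Finset Filter Topology MeasureTheory

namespace Pool.Agent.X23.CA

open Pool.Agent.Y842.CX (Wt L cr Fam natw natw_wt flt flt_iff fam_nat)

universe u

variable {A : Type u} [CStarAlgebra A]

/-- the windows are small in norm, on average, along the `N` outside `E` -/
def Win (E : Set ℕ) {Θ : Type} (v : Θ → ℕ → ℂ) (α : A →⋆ₐ[ℂ] A) (b : A) : Prop :=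
  ∀ ε : ℝ, 0 < ε → ∃ H₀ : ℕ, ∀ H : ℕ, H₀ ≤ H → ∃ N₀ : ℕ, ∀ N : ℕ, N₀ ≤ N → N ∉ E → ∀ θ : Θ,
    ∑ n ∈ range N, ‖∑ m ∈ range H, v θ (n + m) • (α^[m]) b‖ ≤ ε * H * N

/-- the means are small in norm along the `N` outside `E` -/
def Mean (E : Set ℕ) {Θ : Type} (v : Θ → ℕ → ℂ) (α : A →⋆ₐ[ℂ] A) (b : A) : Prop :=
  ∀ ε : ℝ, 0 < ε → ∃ N₀ : ℕ, ∀ N : ℕ, N₀ ≤ N → N ∉ E → ∀ θ : Θ,
    ‖∑ n ∈ range N, v θ n • (α^[n]) b‖ ≤ ε * N

/-- the logarithmic means are small in norm -/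
def LogMean {Θ : Type} (v : Θ → ℕ → ℂ) (α : A →⋆ₐ[ℂ] A) (b : A) : Prop :=
  ∀ ε : ℝ, 0 < ε → ∃ N₀ : ℕ, ∀ N : ℕ, N₀ ≤ N → ∀ θ : Θ,
    ‖∑ n ∈ Icc 1 N, (1 / (n : ℂ)) • (v θ n • (α^[n]) b)‖ ≤ ε * Real.log N

variable {E : Set ℕ} {Θ : Type} {v : Θ → ℕ → ℂ} {α : A →⋆ₐ[ℂ] A}

lemma win_le (hv : ∀ θ n, ‖v θ n‖ ≤ 1) (b : A) (θ : Θ) (n H : ℕ) :
    ‖∑ m ∈ range H, v θ (n + m) • (α^[m]) b‖ ≤ H * ‖b‖ := by
  refine (norm_sum_le _ _).trans ?_
  calc ∑ m ∈ range H, ‖v θ (n + m) • (α^[m]) b‖ ≤ ∑ m ∈ range H, ‖b‖ := by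
        refine sum_le_sum fun m _ => ?_
        rw [norm_smul]
        calc ‖v θ (n + m)‖ * ‖(α^[m]) b‖ ≤ 1 * ‖b‖ :=
              mul_le_mul (hv _ _) (it_norm α m b) (norm_nonneg _) zero_le_one
          _ = ‖b‖ := one_mul _
    _ = H * ‖b‖ := by rw [sum_const, card_range, nsmul_eq_mul]

lemma win_add {b b' : A} (h : Win E v α b) (h' : Win E v α b') : Win E v α (b + b') := by
  intro ε hε
  obtain ⟨H₀, h1⟩ := h (ε / 2) (by positivity)
  obtain ⟨H₁, h2⟩ := h' (ε / 2) (by positivity)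
  refine ⟨H₀ + H₁, fun H hH => ?_⟩
  obtain ⟨N₀, h3⟩ := h1 H (by omega)
  obtain ⟨N₁, h4⟩ := h2 H (by omega)
  refine ⟨N₀ + N₁, fun N hN hNE θ => ?_⟩
  have h5 := h3 N (by omega) hNE θ
  have h6 := h4 N (by omega) hNE θ
  calc ∑ n ∈ range N, ‖∑ m ∈ range H, v θ (n + m) • (α^[m]) (b + b')‖ ≤
      ∑ n ∈ range N, (‖∑ m ∈ range H, v θ (n + m) • (α^[m]) b‖ +
        ‖∑ m ∈ range H, v θ (n + m) • (α^[m]) b'‖) := by
        refine sum_le_sum fun n _ => ?_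
        refine le_trans (le_of_eq ?_) (norm_add_le _ _)
        rw [← sum_add_distrib]
        congr 1
        refine sum_congr rfl fun m _ => ?_
        rw [it_add, smul_add]
    _ ≤ ε * H * N := by
        rw [sum_add_distrib]
        linarith

lemma win_smul {b : A} (h : Win E v α b) (c : ℂ) : Win E v α (c • b) := by
  intro ε hε
  obtain ⟨H₀, h1⟩ := h (ε / (‖c‖ + 1)) (by positivity)
  refine ⟨H₀, fun H hH => ?_⟩
  obtain ⟨N₀, h3⟩ := h1 H hH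
  refine ⟨N₀, fun N hN hNE θ => ?_⟩
  have h5 := h3 N hN hNE θ
  have e1 : ∑ n ∈ range N, ‖∑ m ∈ range H, v θ (n + m) • (α^[m]) (c • b)‖ =
      ‖c‖ * ∑ n ∈ range N, ‖∑ m ∈ range H, v θ (n + m) • (α^[m]) b‖ := by
    rw [mul_sum]
    refine sum_congr rfl fun n _ => ?_
    rw [← norm_smul, smul_sum]
    congr 1
    refine sum_congr rfl fun m _ => ?_
    rw [it_smul, smul_comm]
  rw [e1]
  have h6 : ‖c‖ * (ε / (‖c‖ + 1)) ≤ ε := by
    rw [← mul_div_assoc, div_le_iff₀ (by positivity)]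
    nlinarith [norm_nonneg c]
  have h7 : (0 : ℝ) ≤ H * N := by positivity
  calc ‖c‖ * ∑ n ∈ range N, ‖∑ m ∈ range H, v θ (n + m) • (α^[m]) b‖ ≤
      ‖c‖ * (ε / (‖c‖ + 1) * H * N) := mul_le_mul_of_nonneg_left h5 (norm_nonneg _)
    _ = (‖c‖ * (ε / (‖c‖ + 1))) * (H * N) := by ring
    _ ≤ ε * (H * N) := mul_le_mul_of_nonneg_right h6 h7
    _ = _ := by ring

lemma win_zero : Win E v α 0 := by
  have h0 : ∀ m, (α^[m]) (0 : A) = 0 := by
    intro m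
    have := it_smul α m 0 0
    simpa using this
  intro ε hε
  refine ⟨0, fun H _ => ⟨0, fun N _ _ θ => ?_⟩⟩
  simp only [h0, smul_zero, sum_const_zero, norm_zero]
  positivity

/-- the closed subspace of the elements with small windows -/
def winSub (E : Set ℕ) {Θ : Type} (v : Θ → ℕ → ℂ) (α : A →⋆ₐ[ℂ] A) : Submodule ℂ A where
  carrier := {b | Win E v α b}
  add_mem' := win_add
  zero_mem' := win_zero
  smul_mem' := fun c _ h => win_smul h c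

lemma win_closed (hv : ∀ θ n, ‖v θ n‖ ≤ 1) : IsClosed (winSub E v α : Set A) := by
  rw [← closure_subset_iff_isClosed]
  intro b hb ε hε
  rw [Metric.mem_closure_iff] at hb
  obtain ⟨b', hb', hd⟩ := hb (ε / 2) (by positivity)
  obtain ⟨H₀, h1⟩ := hb' (ε / 2) (by positivity)
  refine ⟨H₀, fun H hH => ?_⟩
  obtain ⟨N₀, h3⟩ := h1 H hH
  refine ⟨N₀, fun N hN hNE θ => ?_⟩
  have h5 := h3 N hN hNE θ
  rw [dist_eq_norm] at hd
  calc ∑ n ∈ range N, ‖∑ m ∈ range H, v θ (n + m) • (α^[m]) b‖ ≤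
      ∑ n ∈ range N, (‖∑ m ∈ range H, v θ (n + m) • (α^[m]) b'‖ + H * ‖b - b'‖) := by
        refine sum_le_sum fun n _ => ?_
        have h6 := win_le (α := α) hv (b - b') θ n H
        have e1 : ∑ m ∈ range H, v θ (n + m) • (α^[m]) b = ∑ m ∈ range H, v θ (n + m) • (α^[m]) b' +
            ∑ m ∈ range H, v θ (n + m) • (α^[m]) (b - b') := by
          rw [← sum_add_distrib]
          refine sum_congr rfl fun m _ => ?_
          rw [← smul_add, ← it_add]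
          congr 2
          abel
        rw [e1]
        exact (norm_add_le _ _).trans (add_le_add_right h6 _)
    _ ≤ ε * H * N := by
        rw [sum_add_distrib, sum_const, card_range, nsmul_eq_mul]
        have h7 : (H : ℝ) * ‖b - b'‖ ≤ H * (ε / 2) := mul_le_mul_of_nonneg_left hd.le (Nat.cast_nonneg _)
        have h8 : (N : ℝ) * (H * ‖b - b'‖) ≤ N * (H * (ε / 2)) := mul_le_mul_of_nonneg_left h7 (Nat.cast_nonneg _)
        linarith

lemma win_mean (hv : ∀ θ n, ‖v θ n‖ ≤ 1) {b : A} (h : Win E v α b) : Mean E v α b := by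
  intro ε hε
  obtain ⟨H₀, h2⟩ := h (ε / 2) (by positivity)
  obtain ⟨N₀, h3⟩ := h2 (H₀ + 1) (by omega)
  obtain ⟨N₁, hN₁⟩ := exists_nat_ge (4 * (H₀ + 1 : ℕ) * ‖b‖ / ε)
  refine ⟨N₀ + N₁, fun N hN hNE θ => ?_⟩
  have h4 := h3 N (by omega) hNE θ
  have h5 := long (fun n => v θ n • (α^[n]) b) ‖b‖ (by
    intro n
    rw [norm_smul]
    calc ‖v θ n‖ * ‖(α^[n]) b‖ ≤ 1 * ‖b‖ :=
          mul_le_mul (hv _ _) (it_norm α n b) (norm_nonneg _) zero_le_one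
      _ = _ := one_mul _) N (H₀ + 1) (by omega) (ε / 2) (by
    refine le_trans (sum_le_sum fun n _ => ?_) h4
    have e1 : ∑ m ∈ range (H₀ + 1), v θ (n + m) • (α^[n + m]) b =
        (α^[n]) (∑ m ∈ range (H₀ + 1), v θ (n + m) • (α^[m]) b) := by
      rw [it_sum]
      refine sum_congr rfl fun m _ => ?_
      rw [it_smul, Function.iterate_add_apply]
    rw [e1]
    exact it_norm α n _)
  refine h5.trans ?_
  have h6 : (4 * (H₀ + 1 : ℕ) * ‖b‖ / ε : ℝ) ≤ N := hN₁.trans (by exact_mod_cast (by omega : N₁ ≤ N))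
  rw [div_le_iff₀ hε] at h6
  linarith

open Classical in
lemma mean_log (hE : Tendsto (fun X : ℕ => (∑ n ∈ Icc 1 X, if n ∈ E then (1 : ℝ) / n else 0) / Real.log X)
    atTop (𝓝 0)) (hv : ∀ θ n, ‖v θ n‖ ≤ 1) {b : A} (h : Mean E v α b) : LogMean v α b := by
  intro ε hε
  obtain ⟨N₀, h1⟩ := h (ε / 8) (by positivity)
  have hlog : Tendsto (fun N : ℕ => Real.log (N : ℝ)) atTop atTop :=
    Real.tendsto_log_atTop.comp tendsto_natCast_atTop_atTop
  have hδ : (0 : ℝ) < ε / (8 * (‖b‖ + 1)) := by positivity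
  have e1 := hE.eventually_lt_const hδ
  have e2 := hlog.eventually_ge_atTop ((3 * ‖b‖ + 2 * ‖b‖ * N₀) * 4 / ε + 1)
  obtain ⟨N₁, h2⟩ := eventually_atTop.1 (e1.and e2)
  refine ⟨N₁ + 1, fun N hN θ => ?_⟩
  obtain ⟨h3, h4⟩ := h2 N (by omega)
  have hlN : 1 ≤ Real.log N := by
    have : 0 ≤ (3 * ‖b‖ + 2 * ‖b‖ * N₀) * 4 / ε := by positivity
    linarith
  have h5 := log_mean (fun n => v θ n • (α^[n]) b) ‖b‖ (by
    intro n
    rw [norm_smul]
    calc ‖v θ n‖ * ‖(α^[n]) b‖ ≤ 1 * ‖b‖ :=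
          mul_le_mul (hv _ _) (it_norm α n b) (norm_nonneg _) zero_le_one
      _ = _ := one_mul _) E (ε / 8) (by positivity) N₀ (fun N hN hNE => h1 N hN hNE θ) N (by omega)
  refine h5.trans ?_
  have h6 : ∑ n ∈ Icc 1 N, (1 : ℝ) / n ≤ 1 + Real.log N := by
    have := harmonic_le_one_add_log N
    rw [harmonic_eq_sum_Icc] at this
    push_cast at this
    refine le_trans (le_of_eq ?_) this
    exact sum_congr rfl fun n _ => one_div _
  rw [div_lt_iff₀ (by linarith)] at h3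
  have h7 : 2 * ‖b‖ * (∑ n ∈ Icc 1 N, if n ∈ E then (1 : ℝ) / n else 0) ≤ ε / 4 * Real.log N := by
    have h8 : 2 * ‖b‖ * (∑ n ∈ Icc 1 N, if n ∈ E then (1 : ℝ) / n else 0) ≤
        2 * ‖b‖ * (ε / (8 * (‖b‖ + 1)) * Real.log N) := mul_le_mul_of_nonneg_left h3.le (by positivity)
    have h9 : 2 * ‖b‖ * (ε / (8 * (‖b‖ + 1))) ≤ ε / 4 := by
      rw [← mul_div_assoc, div_le_iff₀ (by positivity)]
      nlinarith [norm_nonneg b]
    have h10 := mul_le_mul_of_nonneg_right h9 (by linarith : 0 ≤ Real.log N)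
    linarith
  have h8 : 3 * ‖b‖ + 2 * ‖b‖ * N₀ ≤ ε / 4 * Real.log N := by
    have h9 : (3 * ‖b‖ + 2 * ‖b‖ * N₀) * 4 / ε ≤ Real.log N := by linarith
    rw [div_le_iff₀ hε] at h9
    linarith
  have h9 : 2 * (ε / 8) * ∑ n ∈ Icc 1 N, (1 : ℝ) / n ≤ ε / 4 * (2 * Real.log N) := by
    have h10 : ∑ n ∈ Icc 1 N, (1 : ℝ) / n ≤ 2 * Real.log N := by linarith
    have := mul_le_mul_of_nonneg_left h10 (by positivity : 0 ≤ 2 * (ε / 8))
    linarith
  linarith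

/-- **singular spectral measures give small windows** -/
lemma sing_win (hv : ∀ θ n, ‖v θ n‖ ≤ 1)
    (hc : ∀ k : ℕ, 1 ≤ k → ∀ ε : ℝ, 0 < ε → ∀ᶠ N in flt E, ∀ θ, ‖L (natw N) N (cr (v θ) k)‖ ≤ ε)
    {b : A} (hS : ∀ φ : A → ℂ, IsSt φ → (∀ a, φ (α a) = φ a) → Sg α b φ) : Win E v α b := by
  have hone : ∀ᶠ N in flt E, ∑ n ∈ range N, natw N n = 1 := by
    rw [flt_iff]
    exact ⟨1, fun N hN _ => Pool.Agent.X23.SS.natw_one N hN⟩
  intro ε hε
  obtain ⟨H₀, h⟩ := uniform α b hS (fam_nat E) hone v hv hc ε hε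
  refine ⟨H₀ + 1, fun H hH => ?_⟩
  have h2 := h H (by omega)
  rw [flt_iff] at h2
  obtain ⟨N₀, h3⟩ := h2
  refine ⟨N₀ + 1, fun N hN hNE θ => ?_⟩
  have h4 := h3 N (by omega) hNE θ
  have hN0 : (0 : ℝ) < N := by exact_mod_cast (by omega : 0 < N)
  have hH0 : (0 : ℝ) < H := by exact_mod_cast (by omega : 0 < H)
  unfold Qc at h4
  have e : ∑ n ∈ range N, natw N n * ‖∑ m ∈ range H, v θ (n + m) • (α^[m]) b‖ =
      (∑ n ∈ range N, ‖∑ m ∈ range H, v θ (n + m) • (α^[m]) b‖) / N := by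
    rw [sum_div]
    refine sum_congr rfl fun n hn => ?_
    unfold natw
    rw [if_pos (mem_range.1 hn)]
    ring
  rw [e, div_div, div_le_iff₀ (by positivity)] at h4
  linarith

/-- the closed span of the elements with singular spectral measures -/
lemma span_win (hv : ∀ θ n, ‖v θ n‖ ≤ 1)
    (hc : ∀ k : ℕ, 1 ≤ k → ∀ ε : ℝ, 0 < ε → ∀ᶠ N in flt E, ∀ θ, ‖L (natw N) N (cr (v θ) k)‖ ≤ ε)
    {b : A} (hb : b ∈ (Submodule.span ℂ {b : A | ∀ φ : A → ℂ, IsSt φ → (∀ a, φ (α a) = φ a) →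
      Sg α b φ}).topologicalClosure) : Win E v α b := by
  have h1 : (Submodule.span ℂ {b : A | ∀ φ : A → ℂ, IsSt φ → (∀ a, φ (α a) = φ a) →
      Sg α b φ}).topologicalClosure ≤ winSub E v α := by
    apply Submodule.topologicalClosure_minimal _ _ (win_closed hv)
    rw [Submodule.span_le]
    intro b hb
    exact sing_win hv hc hb
  exact h1 hb

end Pool.Agent.X23.CA
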