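import Mathlib

/-!
# Products of `k` consecutive values of a sign sequence with small binary correlations

Abstract part: exponential sums, pointwise inequalities.
-/

open Finset

namespace Pool.Agent.X23.CS

/-- `e(x) = exp(2 π i x)` -/
noncomputable def e (x : ℝ) : ℂ := Complex.exp (2 * Real.pi * x * Complex.I)

theorem norm_e (x : ℝ) : ‖e x‖ = 1 := by
  unfold e
  have : (2 * Real.pi * x * Complex.I : ℂ) = ((2 * Real.pi * x : ℝ) : ℂ) * Complex.I := by
    push_cast; ring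
  rw [this]
  exact Complex.norm_exp_ofReal_mul_I _

theorem e_add (x y : ℝ) : e (x + y) = e x * e y := by
  unfold e
  rw [← Complex.exp_add]
  congr 1
  push_cast
  ring

theorem e_zero : e 0 = 1 := by
  unfold e; simp

/-- the weight `W` keeps the exponential sums of `F` over `I` below `η` -/
def Q (I : Finset ℕ) (F : ℕ → ℂ) (η : ℝ) (W : ℕ → ℂ) : Prop :=
  ∀ β : ℝ, ‖∑ n ∈ I, F n * W n * e (β * n)‖ ≤ η

/-- a real cosine -/
noncomputable def cs (α θ : ℝ) (n : ℕ) : ℝ := Real.cos (2 * Real.pi * (α * n + θ))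

theorem cs_eq (α θ : ℝ) (n : ℕ) : ((cs α θ n : ℝ) : ℂ) = (e θ * e (α * n) + e (-θ) * e (-α * n)) / 2 := by
  unfold cs
  rw [← e_add, ← e_add, Complex.ofReal_cos, Complex.cos]
  unfold e
  congr 2
  · congr 1
    push_cast
    ring
  · congr 1
    push_cast
    ring

theorem abs_cs_le (α θ : ℝ) (n : ℕ) : |cs α θ n| ≤ 1 := Real.abs_cos_le_one _

theorem Q.mul_cs {I : Finset ℕ} {F : ℕ → ℂ} {η : ℝ} {W : ℕ → ℂ} (h : Q I F η W) (α θ : ℝ) :
    Q I F η (fun n => W n * cs α θ n) := by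
  intro β
  have h1 : ∑ n ∈ I, F n * (W n * (cs α θ n : ℂ)) * e (β * n) =
      e θ / 2 * ∑ n ∈ I, F n * W n * e ((β + α) * n) +
      e (-θ) / 2 * ∑ n ∈ I, F n * W n * e ((β - α) * n) := by
    rw [mul_sum, mul_sum, ← sum_add_distrib]
    refine sum_congr rfl fun n _ => ?_
    have e1 : e ((β + α) * n) = e (α * n) * e (β * n) := by rw [← e_add]; congr 1; ring
    have e2 : e ((β - α) * n) = e (-α * n) * e (β * n) := by rw [← e_add]; congr 1; ring
    rw [cs_eq, e1, e2]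
    ring
  rw [h1]
  refine (norm_add_le _ _).trans ?_
  rw [norm_mul, norm_mul, norm_div, norm_div, norm_e, norm_e]
  have h2 := h (β + α)
  have h3 := h (β - α)
  simp only [Complex.norm_ofNat]
  linarith

theorem Q.add {I : Finset ℕ} {F : ℕ → ℂ} {η η' : ℝ} {W W' : ℕ → ℂ} (h : Q I F η W)
    (h' : Q I F η' W') : Q I F (η + η') (fun n => W n + W' n) := by
  intro β
  have : ∑ n ∈ I, F n * (W n + W' n) * e (β * n) =
      ∑ n ∈ I, F n * W n * e (β * n) + ∑ n ∈ I, F n * W' n * e (β * n) := by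
    rw [← sum_add_distrib]
    refine sum_congr rfl fun n _ => ?_
    ring
  rw [this]
  exact (norm_add_le _ _).trans (add_le_add (h β) (h' β))

theorem Q.smul {I : Finset ℕ} {F : ℕ → ℂ} {η : ℝ} {W : ℕ → ℂ} (h : Q I F η W) (c : ℝ) :
    Q I F (|c| * η) (fun n => (c : ℂ) * W n) := by
  intro β
  have : ∑ n ∈ I, F n * ((c : ℂ) * W n) * e (β * n) = c * ∑ n ∈ I, F n * W n * e (β * n) := by
    rw [mul_sum]
    refine sum_congr rfl fun n _ => ?_
    ring
  rw [this, norm_mul, Complex.norm_real, Real.norm_eq_abs]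
  exact mul_le_mul_of_nonneg_left (h β) (abs_nonneg _)

/-- powers of a combination of two cosines -/
theorem Q.pow {I : Finset ℕ} {F : ℕ → ℂ} {η : ℝ} (h : Q I F η (fun _ => 1)) (α θ α' θ' s : ℝ)
    (hs : |s| = 1) (j : ℕ) :
    Q I F (2 ^ j * η) (fun n => ((cs α θ n + s * cs α' θ' n : ℝ) : ℂ) ^ j) := by
  induction j with
  | zero => simpa using h
  | succ j ih =>
    have h1 := ih.mul_cs α θ
    have h2 := (ih.mul_cs α' θ').smul s
    have h3 := h1.add h2
    rw [hs, one_mul] at h3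
    have e1 : (2 : ℝ) ^ (j + 1) * η = 2 ^ j * η + 2 ^ j * η := by ring
    rw [e1]
    refine fun β => le_trans (le_of_eq ?_) (h3 β)
    congr 1
    refine sum_congr rfl fun n _ => ?_
    push_cast
    ring

/-- a polynomial of a combination of two cosines -/
theorem Q.poly {I : Finset ℕ} {F : ℕ → ℂ} {η : ℝ} (h : Q I F η (fun _ => 1)) (α θ α' θ' s : ℝ)
    (hs : |s| = 1) (P : Polynomial ℝ) :
    ‖∑ n ∈ I, F n * ((P.eval (cs α θ n + s * cs α' θ' n) : ℝ) : ℂ)‖ ≤
      (∑ j ∈ range (P.natDegree + 1), |P.coeff j| * 2 ^ j) * η := by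
  have h1 : ∑ n ∈ I, F n * ((P.eval (cs α θ n + s * cs α' θ' n) : ℝ) : ℂ) =
      ∑ j ∈ range (P.natDegree + 1), (P.coeff j : ℂ) *
        ∑ n ∈ I, F n * ((cs α θ n + s * cs α' θ' n : ℝ) : ℂ) ^ j * e (0 * n) := by
    simp only [mul_sum]
    rw [sum_comm]
    refine sum_congr rfl fun n _ => ?_
    rw [Polynomial.eval_eq_sum_range]
    push_cast
    rw [mul_sum]
    refine sum_congr rfl fun j _ => ?_
    rw [zero_mul, e_zero]
    ring
  rw [h1, sum_mul]
  refine (norm_sum_le _ _).trans (sum_le_sum fun j _ => ?_)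
  rw [norm_mul, Complex.norm_real, Real.norm_eq_abs, mul_assoc]
  exact mul_le_mul_of_nonneg_left (h.pow α θ α' θ' s hs j 0) (abs_nonneg _)

/-- the absolute value of a combination of two cosines -/
theorem abs_small (ε : ℝ) (hε : 0 < ε) : ∃ δ : ℝ, 0 < δ ∧ ∀ (I : Finset ℕ) (F : ℕ → ℝ) (M : ℝ),
    (∀ n, |F n| ≤ 1) → (I.card : ℝ) ≤ M → Q I (fun n => F n) (δ * M) (fun _ => 1) →
    ∀ α θ α' θ' s : ℝ, |s| = 1 →
      |∑ n ∈ I, F n * (|cs α θ n + s * cs α' θ' n|)| ≤ ε * M := by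
  obtain ⟨P, hP⟩ := exists_polynomial_near_of_continuousOn (-2) 2 (fun x => |x|)
    (continuous_abs.continuousOn) (ε / 2) (by positivity)
  set C : ℝ := ∑ j ∈ range (P.natDegree + 1), |P.coeff j| * 2 ^ j with hC
  have hC0 : 0 ≤ C := sum_nonneg fun j _ => by positivity
  refine ⟨ε / 2 / (C + 1), by positivity, ?_⟩
  intro I F M hF hM hQ α θ α' θ' s hs
  have hM0 : 0 ≤ M := le_trans (Nat.cast_nonneg _) hM
  have h1 := hQ.poly α θ α' θ' s hs P
  have h2 : |∑ n ∈ I, F n * P.eval (cs α θ n + s * cs α' θ' n)| ≤ ε / 2 * M := by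
    have e1 : ((∑ n ∈ I, F n * P.eval (cs α θ n + s * cs α' θ' n) : ℝ) : ℂ) =
        ∑ n ∈ I, (F n : ℂ) * ((P.eval (cs α θ n + s * cs α' θ' n) : ℝ) : ℂ) := by
      push_cast
      rfl
    rw [← Real.norm_eq_abs, ← Complex.norm_real, e1]
    refine h1.trans ?_
    rw [← hC]
    have : C * (ε / 2 / (C + 1) * M) = C / (C + 1) * (ε / 2 * M) := by field_simp
    rw [this]
    have h3 : C / (C + 1) ≤ 1 := by
      rw [div_le_one (by positivity)]
      linarith
    have h4 : 0 ≤ ε / 2 * M := by positivity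
    nlinarith
  have h3 : ∑ n ∈ I, F n * |cs α θ n + s * cs α' θ' n| =
      ∑ n ∈ I, F n * P.eval (cs α θ n + s * cs α' θ' n) +
      ∑ n ∈ I, F n * (|cs α θ n + s * cs α' θ' n| - P.eval (cs α θ n + s * cs α' θ' n)) := by
    rw [← sum_add_distrib]
    refine sum_congr rfl fun n _ => ?_
    ring
  rw [h3]
  refine (abs_add_le _ _).trans ?_
  have h4 : |∑ n ∈ I, F n * (|cs α θ n + s * cs α' θ' n| -
      P.eval (cs α θ n + s * cs α' θ' n))| ≤ ε / 2 * M := by
    refine (abs_sum_le_sum_abs _ _).trans ?_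
    have h5 : ∀ n ∈ I, |F n * (|cs α θ n + s * cs α' θ' n| -
        P.eval (cs α θ n + s * cs α' θ' n))| ≤ ε / 2 := by
      intro n _
      have hx : cs α θ n + s * cs α' θ' n ∈ Set.Icc (-2 : ℝ) 2 := by
        rw [Set.mem_Icc, ← abs_le]
        refine (abs_add_le _ _).trans ?_
        rw [abs_mul, hs, one_mul]
        have := abs_cs_le α θ n
        have := abs_cs_le α' θ' n
        linarith
      have h6 := hP _ hx
      rw [abs_mul]
      have h7 : |(|cs α θ n + s * cs α' θ' n| - P.eval (cs α θ n + s * cs α' θ' n))| ≤ ε / 2 := by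
        rw [abs_sub_comm]
        exact h6.le
      calc |F n| * |(|cs α θ n + s * cs α' θ' n| - P.eval (cs α θ n + s * cs α' θ' n))| ≤
          1 * (ε / 2) := mul_le_mul (hF n) h7 (abs_nonneg _) zero_le_one
        _ = ε / 2 := one_mul _
    refine (sum_le_sum h5).trans ?_
    rw [sum_const, nsmul_eq_mul, mul_comm]
    exact mul_le_mul_of_nonneg_left hM (by positivity)
  linarith

/-- **the main inequality**: a sign sequence whose product with its shift by one has small exponential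
sums has itself exponential sums at most half of the trivial bound. -/
theorem half_bound (ε : ℝ) (hε : 0 < ε) : ∃ δ : ℝ, 0 < δ ∧ ∀ (Y X : ℕ) (f : ℕ → ℝ) (M : ℝ),
    Y ≤ X → (∀ n, f n = 1 ∨ f n = -1) → (X : ℝ) ≤ M → 2 / ε ≤ M →
    Q (Ioc Y X) (fun n => ((f n * f (n + 1) : ℝ) : ℂ)) (δ * M) (fun _ => 1) →
    ∀ α : ℝ, ‖∑ n ∈ Ioc Y X, (f n : ℂ) * e (α * n)‖ ≤ ((X : ℝ) - Y) / 2 + ε * M := by
  obtain ⟨δ, hδ, H⟩ := abs_small (ε / 2) (by positivity)
  refine ⟨δ, hδ, ?_⟩
  intro Y X f M hYX hf hX hM hQ α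
  have hM0 : 0 < M := lt_of_lt_of_le (by positivity) hM
  have hf1 : ∀ n, |f n| ≤ 1 := by
    intro n
    rcases hf n with h | h <;> rw [h] <;> norm_num
  -- the phase
  set S : ℂ := ∑ n ∈ Ioc Y X, (f n : ℂ) * e (α * n) with hS
  obtain ⟨θ, hθ⟩ : ∃ θ : ℝ, e θ * S = ((‖S‖ : ℝ) : ℂ) := by
    refine ⟨-(S.arg) / (2 * Real.pi), ?_⟩
    have h1 : e (-(S.arg) / (2 * Real.pi)) = Complex.exp (-(S.arg) * Complex.I) := by
      unfold e
      congr 1
      have : (Real.pi : ℂ) ≠ 0 := by exact_mod_cast Real.pi_ne_zero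
      push_cast
      field_simp
    have h2 := Complex.norm_mul_exp_arg_mul_I S
    have h3 : Complex.exp (-(S.arg) * Complex.I) * Complex.exp (S.arg * Complex.I) = 1 := by
      rw [← Complex.exp_add]
      have : -(S.arg : ℂ) * Complex.I + (S.arg : ℂ) * Complex.I = 0 := by ring
      rw [this, Complex.exp_zero]
    calc e (-(S.arg) / (2 * Real.pi)) * S =
        Complex.exp (-(S.arg) * Complex.I) * (‖S‖ * Complex.exp (S.arg * Complex.I)) := by
          rw [h1, h2]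
      _ = (Complex.exp (-(S.arg) * Complex.I) * Complex.exp (S.arg * Complex.I)) * ‖S‖ := by ring
      _ = ((‖S‖ : ℝ) : ℂ) := by rw [h3, one_mul]
  have hre : ∑ n ∈ Ioc Y X, f n * cs α θ n = ‖S‖ := by
    have h1 : (e θ * S).re = ‖S‖ := by rw [hθ]; exact Complex.ofReal_re _
    rw [← h1, hS, mul_sum, Complex.re_sum]
    refine sum_congr rfl fun n _ => ?_
    have h2 : e θ * ((f n : ℂ) * e (α * n)) = (f n : ℂ) * e (α * n + θ) := by
      rw [e_add]; ring
    rw [h2, Complex.re_ofReal_mul]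
    congr 1
    unfold cs e
    have h3 : (2 * Real.pi * ((α * n + θ : ℝ) : ℂ) * Complex.I : ℂ) =
        ((2 * Real.pi * (α * n + θ) : ℝ) : ℂ) * Complex.I := by
      push_cast; ring
    rw [h3, Complex.exp_ofReal_mul_I_re]
  -- the shifted sum
  have hsh : ∑ n ∈ Ioc Y X, f n * cs α θ n ≤ ∑ n ∈ Ioc Y X, f (n + 1) * cs α (α + θ) n + 2 := by
    have h1 : ∀ n : ℕ, f (n + 1) * cs α (α + θ) n = f (n + 1) * cs α θ (n + 1) := by
      intro n
      congr 1
      unfold cs
      congr 1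
      push_cast
      ring
    rw [sum_congr rfl fun n _ => h1 n]
    have h2 : ∑ n ∈ Ioc Y X, f (n + 1) * cs α θ (n + 1) =
        ∑ n ∈ Ioc (Y + 1) (X + 1), f n * cs α θ n := by
      rw [← map_add_right_Ioc, sum_map]
      rfl
    rw [h2]
    have hb : ∀ n, |f n * cs α θ n| ≤ 1 := by
      intro n
      rw [abs_mul]
      exact mul_le_one₀ (hf1 n) (abs_nonneg _) (abs_cs_le _ _ _)
    rcases Nat.eq_or_lt_of_le hYX with h | h
    · rw [h, Ioc_self, sum_empty]
      have h3 : Ioc (X + 1) (X + 1) = ∅ := Ioc_self _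
      rw [h3, sum_empty]
      norm_num
    · have h3 : ∑ n ∈ Ioc Y (X + 1), f n * cs α θ n =
          ∑ n ∈ Ioc Y X, f n * cs α θ n + f (X + 1) * cs α θ (X + 1) :=
        sum_Ioc_succ_top (by omega) _
      have h4 : ∑ n ∈ Ioc Y (X + 1), f n * cs α θ n =
          f (Y + 1) * cs α θ (Y + 1) + ∑ n ∈ Ioc (Y + 1) (X + 1), f n * cs α θ n := by
        have h5 : Ioc Y (X + 1) = insert (Y + 1) (Ioc (Y + 1) (X + 1)) := by
          ext m
          simp only [mem_Ioc, mem_insert]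
          omega
        rw [h5, sum_insert (by simp)]
      have h6 := abs_le.mp (hb (X + 1))
      have h7 := abs_le.mp (hb (Y + 1))
      linarith [h6.1, h7.2]
  -- pointwise inequality
  have hpt : ∀ n : ℕ, f n * cs α θ n + f (n + 1) * cs α (α + θ) n ≤ 1 +
      f n * f (n + 1) * |cs α θ n + 1 * cs α (α + θ) n| / 2 -
      f n * f (n + 1) * |cs α θ n + (-1) * cs α (α + θ) n| / 2 := by
    intro n
    set x := cs α θ n
    set y := cs α (α + θ) n
    have hx := abs_le.mp (abs_cs_le α θ n)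
    have hy := abs_le.mp (abs_cs_le α (α + θ) n)
    change -1 ≤ x ∧ x ≤ 1 at hx
    change -1 ≤ y ∧ y ≤ 1 at hy
    have e1 : x + 1 * y = x + y := by ring
    have e2 : x + -1 * y = x - y := by ring
    rw [e1, e2]
    have h1 := le_abs_self (x + y)
    have h2 := neg_abs_le (x + y)
    have h3 := le_abs_self (x - y)
    have h4 := neg_abs_le (x - y)
    have h5 : |x + y| + |x - y| ≤ 2 := by
      rcases abs_cases (x + y) with ⟨h, -⟩ | ⟨h, -⟩ <;> rcases abs_cases (x - y) with ⟨g, -⟩ | ⟨g, -⟩ <;>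
        rw [h, g] <;> linarith [hx.1, hx.2, hy.1, hy.2]
    rcases hf n with h | h <;> rcases hf (n + 1) with g | g <;> rw [h, g] <;> linarith
  have hsum : ∑ n ∈ Ioc Y X, f n * cs α θ n + ∑ n ∈ Ioc Y X, f (n + 1) * cs α (α + θ) n ≤
      ((X : ℝ) - Y) + (∑ n ∈ Ioc Y X, f n * f (n + 1) * |cs α θ n + 1 * cs α (α + θ) n|) / 2 -
      (∑ n ∈ Ioc Y X, f n * f (n + 1) * |cs α θ n + (-1) * cs α (α + θ) n|) / 2 := by
    rw [← sum_add_distrib]
    refine (sum_le_sum fun n _ => hpt n).trans (le_of_eq ?_)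
    rw [sum_sub_distrib, sum_add_distrib, sum_const, Nat.card_Ioc, nsmul_eq_mul, mul_one,
      Nat.cast_sub hYX, sum_div, sum_div]
  have hFb : ∀ n, |f n * f (n + 1)| ≤ 1 := by
    intro n
    rw [abs_mul]
    exact mul_le_one₀ (hf1 n) (abs_nonneg _) (hf1 _)
  have hcard : ((Ioc Y X).card : ℝ) ≤ M := by
    rw [Nat.card_Ioc, Nat.cast_sub hYX]
    have : (0 : ℝ) ≤ Y := Nat.cast_nonneg _
    linarith
  have h1 := H (Ioc Y X) (fun n => f n * f (n + 1)) M hFb hcard hQ α θ α (α + θ) 1 (by norm_num)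
  have h2 := H (Ioc Y X) (fun n => f n * f (n + 1)) M hFb hcard hQ α θ α (α + θ) (-1) (by norm_num)
  have h3 := (abs_le.mp h1).2
  have h4 := (abs_le.mp h2).1
  have h5 : 2 ≤ ε * M := by
    rw [div_le_iff₀ hε] at hM
    linarith
  rw [hre] at hsh hsum
  linarith

end Pool.Agent.X23.CS
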