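import Pool.Agent.X23.CS1

/-!
# Products of `k` consecutive values of the Liouville function along a progression
-/

open Finset

namespace Pool.Agent.X23.CS

/-- the Liouville function -/
noncomputable def lam (n : ℕ) : ℝ := (-1 : ℝ) ^ ArithmeticFunction.cardFactors n

theorem lam_pm (n : ℕ) : lam n = 1 ∨ lam n = -1 := by
  unfold lam
  exact neg_one_pow_eq_or ℝ _

theorem lam_sq (n : ℕ) : lam n * lam n = 1 := by
  rcases lam_pm n with h | h <;> rw [h] <;> norm_num

/-- products of `k` values along a progression -/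
noncomputable def prodL (a b k n : ℕ) : ℝ := ∏ j ∈ range k, lam (a * (n + j) + b)

theorem prodL_pm (a b k n : ℕ) : prodL a b k n = 1 ∨ prodL a b k n = -1 := by
  induction k with
  | zero => left; simp [prodL]
  | succ k ih =>
    unfold prodL at *
    rw [prod_range_succ]
    rcases ih with h | h <;> rcases lam_pm (a * (n + k) + b) with g | g <;> rw [h, g] <;> norm_num

theorem prodL_succ (a b k n : ℕ) : prodL a b (k + 1) n = prodL a b k n * lam (a * (n + k) + b) := by
  unfold prodL
  rw [prod_range_succ]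

theorem prodL_succ' (a b k n : ℕ) :
    prodL a b (k + 1) n = lam (a * n + b) * prodL a b k (n + 1) := by
  unfold prodL
  rw [prod_range_succ', mul_comm, add_zero]
  congr 1
  refine prod_congr rfl fun j _ => ?_
  congr 2
  ring

theorem prodL_mul_shift (a b k n : ℕ) :
    prodL a b k n * prodL a b k (n + 1) = lam (a * n + b) * lam (a * (n + k) + b) := by
  have h1 := prodL_succ a b k n
  have h2 := prodL_succ' a b k n
  have h3 : prodL a b k n * lam (a * (n + k) + b) = lam (a * n + b) * prodL a b k (n + 1) := by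
    rw [← h1, h2]
  have h4 : prodL a b k (n + 1) * prodL a b k (n + 1) = 1 := by
    rcases prodL_pm a b k (n + 1) with h | h <;> rw [h] <;> norm_num
  have h5 := lam_sq (a * (n + k) + b)
  calc prodL a b k n * prodL a b k (n + 1) =
      (prodL a b k n * lam (a * (n + k) + b)) * lam (a * (n + k) + b) * prodL a b k (n + 1) := by
        rw [mul_assoc (prodL a b k n), h5, mul_one]
    _ = lam (a * n + b) * lam (a * (n + k) + b) *
        (prodL a b k (n + 1) * prodL a b k (n + 1)) := by rw [h3]; ring
    _ = _ := by rw [h4, mul_one]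

/-- the four neighbouring products -/
theorem four (a b k n : ℕ) (u v : ℝ) :
    prodL a b k (n + 1) + u * prodL a b (k + 1) n + v * prodL a b (k + 1) (n + 1) +
      u * v * prodL a b (k + 2) n =
    prodL a b k (n + 1) * ((1 + u * lam (a * n + b)) * (1 + v * lam (a * (n + (k + 1)) + b))) := by
  have h1 := prodL_succ' a b k n
  have h2 := prodL_succ a b k (n + 1)
  have h3 := prodL_succ' a b (k + 1) n
  have e1 : n + 1 + k = n + (k + 1) := by ring
  rw [e1] at h2
  rw [show k + 2 = (k + 1) + 1 from rfl, h3, h2, h1]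
  ring

/-! ### Progressions -/

theorem e_eq_one_iff (x : ℝ) : e x = 1 ↔ ∃ m : ℤ, x = m := by
  unfold e
  rw [Complex.exp_eq_one_iff]
  have hpi : (Real.pi : ℂ) ≠ 0 := by exact_mod_cast Real.pi_ne_zero
  constructor
  · rintro ⟨m, hm⟩
    refine ⟨m, ?_⟩
    have h1 : (2 * Real.pi * Complex.I : ℂ) * x = (2 * Real.pi * Complex.I) * m := by
      calc (2 * Real.pi * Complex.I : ℂ) * x = 2 * Real.pi * x * Complex.I := by ring
        _ = m * (2 * Real.pi * Complex.I) := hm
        _ = _ := by ring
    have h2 := mul_left_cancel₀ Complex.two_pi_I_ne_zero h1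
    exact_mod_cast h2
  · rintro ⟨m, hm⟩
    refine ⟨m, ?_⟩
    rw [hm]
    push_cast
    ring

theorem e_nat_mul (x : ℝ) (j : ℕ) : e (j * x) = e x ^ j := by
  unfold e
  rw [← Complex.exp_nat_mul]
  congr 1
  push_cast
  ring

/-- orthogonality -/
theorem orth (a : ℕ) (ha : 1 ≤ a) (t : ℤ) :
    (∑ j ∈ range a, e (j * ((t : ℝ) / a))) = if (a : ℤ) ∣ t then (a : ℂ) else 0 := by
  have ha0 : (a : ℝ) ≠ 0 := by positivity
  split_ifs with h
  · obtain ⟨s, rfl⟩ := h
    have h1 : ∀ j ∈ range a, e (j * ((((a : ℤ) * s : ℤ) : ℝ) / a)) = 1 := by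
      intro j _
      rw [e_eq_one_iff]
      refine ⟨j * s, ?_⟩
      push_cast
      field_simp
    rw [sum_congr rfl h1]
    simp
  · have h1 : e ((t : ℝ) / a) ≠ 1 := by
      intro h2
      rw [e_eq_one_iff] at h2
      obtain ⟨m, hm⟩ := h2
      apply h
      refine ⟨m, ?_⟩
      rw [div_eq_iff ha0] at hm
      have : (t : ℝ) = ((a * m : ℤ) : ℝ) := by
        rw [hm]; push_cast; ring
      exact_mod_cast this
    have h2 : e ((t : ℝ) / a) ^ a = 1 := by
      rw [← e_nat_mul, e_eq_one_iff]
      refine ⟨t, ?_⟩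
      field_simp
    have h3 : ∀ j ∈ range a, e (j * ((t : ℝ) / a)) = e ((t : ℝ) / a) ^ j :=
      fun j _ => e_nat_mul _ _
    rw [sum_congr rfl h3, geom_sum_eq h1, h2, sub_self, zero_div]

theorem ap_bound (g : ℕ → ℂ) (N : ℕ) (B : ℝ)
    (h : ∀ (α : ℝ) (y : ℕ), y ≤ N → ‖∑ n ∈ Icc 1 y, g n * e (α * n)‖ ≤ B)
    (a b Y X : ℕ) (ha : 1 ≤ a) (hYX : Y ≤ X) (hX : a * X + b ≤ N) (α : ℝ) :
    ‖∑ n ∈ Ioc Y X, g (a * n + b) * e (α * n)‖ ≤ 2 * B := by
  have ha0 : (a : ℝ) ≠ 0 := by positivity
  have haC : (a : ℂ) ≠ 0 := by exact_mod_cast ha0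
  have h1 : ∑ n ∈ Ioc Y X, g (a * n + b) * e (α * n) =
      (a : ℂ)⁻¹ * ∑ j ∈ range a, e (-((α + j) * b / a)) *
        ∑ m ∈ Ioc (a * Y + b) (a * X + b), g m * e ((α + j) / a * m) := by
    have h2 : ∀ m : ℕ, ∑ j ∈ range a, e (-((α + j) * b / a)) * (g m * e ((α + j) / a * m)) =
        g m * e (α * ((m : ℝ) - b) / a) * if (a : ℤ) ∣ ((m : ℤ) - b) then (a : ℂ) else 0 := by
      intro m
      rw [← orth a ha, mul_sum]
      refine sum_congr rfl fun j _ => ?_
      have h3 : e (-((α + j) * b / a)) * e ((α + j) / a * m) =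
          e (α * ((m : ℝ) - b) / a) * e (j * ((((m : ℤ) - b : ℤ) : ℝ) / a)) := by
        rw [← e_add, ← e_add]
        congr 1
        push_cast
        field_simp
        ring
      calc _ = g m * (e (-((α + j) * b / a)) * e ((α + j) / a * m)) := by ring
        _ = _ := by rw [h3]; ring
    have h4 : ∑ j ∈ range a, e (-((α + j) * b / a)) *
        ∑ m ∈ Ioc (a * Y + b) (a * X + b), g m * e ((α + j) / a * m) =
        ∑ m ∈ Ioc (a * Y + b) (a * X + b), g m * e (α * ((m : ℝ) - b) / a) *
          if (a : ℤ) ∣ ((m : ℤ) - b) then (a : ℂ) else 0 := by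
      simp only [mul_sum]
      rw [sum_comm]
      exact sum_congr rfl fun m _ => h2 m
    rw [h4]
    have himg : (Ioc Y X).image (fun n => a * n + b) ⊆ Ioc (a * Y + b) (a * X + b) := by
      intro m hm
      rw [mem_image] at hm
      obtain ⟨n, hn, rfl⟩ := hm
      rw [mem_Ioc] at hn ⊢
      constructor
      · have := Nat.mul_lt_mul_of_pos_left hn.1 (show 0 < a by omega)
        omega
      · have := Nat.mul_le_mul_left a hn.2
        omega
    rw [← sum_subset himg, sum_image, mul_sum]
    · refine sum_congr rfl fun n _ => ?_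
      have h5 : (a : ℤ) ∣ (((a * n + b : ℕ) : ℤ) - b) := ⟨n, by push_cast; ring⟩
      have h6 : α * (((a * n + b : ℕ) : ℝ) - b) / a = α * n := by
        push_cast
        field_simp
        ring
      rw [if_pos h5, h6]
      field_simp
    · intro n _ n' _ hnn
      simp only at hnn
      have : a * n = a * n' := by omega
      exact Nat.eq_of_mul_eq_mul_left (by omega) this
    · intro m hm hm'
      have h5 : ¬ (a : ℤ) ∣ ((m : ℤ) - b) := by
        rintro ⟨s, hs⟩
        apply hm'
        rw [mem_Ioc] at hm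
        have hs0 : 0 ≤ s := by
          by_contra hneg
          push Not at hneg
          have h6 : (b : ℤ) < m := by
            have : b < m := lt_of_le_of_lt (Nat.le_add_left _ _) hm.1
            exact_mod_cast this
          have h7 : (a : ℤ) * s < 0 := by
            apply mul_neg_of_pos_of_neg _ hneg
            exact_mod_cast (show 0 < a by omega)
          omega
        obtain ⟨n, rfl⟩ := Int.eq_ofNat_of_zero_le hs0
        have hmn : m = a * n + b := by
          have : (m : ℤ) = a * n + b := by linarith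
          exact_mod_cast this
        rw [mem_image]
        refine ⟨n, ?_, hmn.symm⟩
        rw [hmn] at hm
        rw [mem_Ioc]
        constructor
        · have : a * Y < a * n := by omega
          exact lt_of_mul_lt_mul_left' this
        · have : a * n ≤ a * X := by omega
          exact le_of_mul_le_mul_left this (by omega)
      rw [if_neg h5, mul_zero]
  rw [h1, norm_mul, norm_inv, Complex.norm_natCast]
  have h2 : ‖∑ j ∈ range a, e (-((α + j) * b / a)) *
      ∑ m ∈ Ioc (a * Y + b) (a * X + b), g m * e ((α + j) / a * m)‖ ≤ a * (2 * B) := by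
    refine (norm_sum_le _ _).trans ?_
    have h3 : ∀ j ∈ range a, ‖e (-((α + j) * b / a)) *
        ∑ m ∈ Ioc (a * Y + b) (a * X + b), g m * e ((α + j) / a * m)‖ ≤ 2 * B := by
      intro j _
      rw [norm_mul, norm_e, one_mul]
      have h4 : ∑ m ∈ Icc 1 (a * X + b), g m * e ((α + j) / a * m) =
          ∑ m ∈ Icc 1 (a * Y + b), g m * e ((α + j) / a * m) +
          ∑ m ∈ Ioc (a * Y + b) (a * X + b), g m * e ((α + j) / a * m) := by
        rw [← sum_union]
        · congr 1
          ext m
          have := Nat.mul_le_mul_left a hYX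
          simp only [mem_Icc, mem_union, mem_Ioc]
          omega
        · rw [disjoint_left]
          intro m hm hm'
          rw [mem_Icc] at hm
          rw [mem_Ioc] at hm'
          omega
      have h5 : ∑ m ∈ Ioc (a * Y + b) (a * X + b), g m * e ((α + j) / a * m) =
          ∑ m ∈ Icc 1 (a * X + b), g m * e ((α + j) / a * m) -
          ∑ m ∈ Icc 1 (a * Y + b), g m * e ((α + j) / a * m) := by
        rw [h4]; ring
      rw [h5]
      refine (norm_sub_le _ _).trans ?_
      have h6 := h ((α + j) / a) (a * X + b) hX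
      have h7 := h ((α + j) / a) (a * Y + b) (by
        have := Nat.mul_le_mul_left a hYX
        omega)
      linarith
    refine (sum_le_sum h3).trans ?_
    rw [sum_const, card_range, nsmul_eq_mul]
  calc (a : ℝ)⁻¹ * _ ≤ (a : ℝ)⁻¹ * (a * (2 * B)) :=
        mul_le_mul_of_nonneg_left h2 (by positivity)
    _ = 2 * B := by field_simp

end Pool.Agent.X23.CS
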