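import Pool.Agent.X23.CS2

/-!
# Products of `k` consecutive values of the Liouville function: every length, almost all scales
-/

open Finset Filter

namespace Pool.Agent.X23.CS

open Classical in
/-- `E` has logarithmic density zero -/
def LogDensityZero (E : Set ℕ) : Prop := Tendsto
  (fun X : ℕ => (∑ n ∈ Icc 1 X, if n ∈ E then (1 : ℝ) / n else 0) / Real.log X) atTop (nhds 0)

/-- single values -/
def One (E : Set ℕ) : Prop := ∀ c : ℕ, ∀ ε : ℝ, 0 < ε → ∃ N₀ : ℕ, ∀ N : ℕ, N₀ ≤ N → N ∉ E →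
  ∀ (α : ℝ) (y : ℕ), y ≤ N → ‖∑ n ∈ Icc 1 y, ((lam (n + c) : ℝ) : ℂ) * e (α * n)‖ ≤ ε * N

/-- pairs of values -/
def Two (E : Set ℕ) : Prop := ∀ d : ℕ, 1 ≤ d → ∀ ε : ℝ, 0 < ε → ∃ N₀ : ℕ, ∀ N : ℕ, N₀ ≤ N → N ∉ E →
  ∀ (α : ℝ) (y : ℕ), y ≤ N →
    ‖∑ n ∈ Icc 1 y, ((lam n * lam (n + d) : ℝ) : ℂ) * e (α * n)‖ ≤ ε * N

/-- the sums of the products over an interval -/
noncomputable def sumL (a b k Y X : ℕ) : ℝ := ∑ n ∈ Ioc Y X, prodL a b k n

theorem part1 {E : Set ℕ} (h2 : Two E) (a k : ℕ) (ha : 1 ≤ a) (hk : 1 ≤ k) (ε : ℝ) (hε : 0 < ε) :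
    ∃ N₀ : ℕ, ∀ N : ℕ, N₀ ≤ N → N ∉ E → ∀ b Y X : ℕ, Y ≤ X → a * X + b ≤ N → ∀ α : ℝ,
      ‖∑ n ∈ Ioc Y X, (prodL a b k n : ℂ) * e (α * n)‖ ≤ ((X : ℝ) - Y) / 2 + ε * N := by
  obtain ⟨δ, hδ, H⟩ := half_bound ε hε
  obtain ⟨N₀, hN₀⟩ := h2 (a * k) (Nat.mul_pos ha hk) (δ / 2) (by positivity)
  obtain ⟨N₁, hN₁⟩ := exists_nat_ge (2 / ε)
  refine ⟨max N₀ N₁, fun N hN hNE b Y X hYX hX α => ?_⟩
  have hNN₀ : N₀ ≤ N := le_trans (le_max_left _ _) hN
  have hNN₁ : N₁ ≤ N := le_trans (le_max_right _ _) hN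
  refine H Y X (prodL a b k) N hYX (prodL_pm a b k) ?_ ?_ ?_ α
  · have : X ≤ N := by
      have : X ≤ a * X := Nat.le_mul_of_pos_left X ha
      omega
    exact_mod_cast this
  · exact le_trans hN₁ (by exact_mod_cast hNN₁)
  · intro β
    have h3 := ap_bound (fun m => ((lam m * lam (m + a * k) : ℝ) : ℂ)) N (δ / 2 * N)
      (fun α y hy => hN₀ N hNN₀ hNE α y hy) a b Y X ha hYX hX β
    refine le_trans (le_of_eq ?_) (h3.trans (le_of_eq (by ring)))
    congr 1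
    refine sum_congr rfl fun n _ => ?_
    show ((prodL a b k n * prodL a b k (n + 1) : ℝ) : ℂ) * 1 * e (β * n) = _
    rw [prodL_mul_shift, mul_one]
    congr 4
    ring

theorem part3 {E : Set ℕ} (h1 : One E) (h2 : Two E) (a k : ℕ) (ha : 1 ≤ a) (ε : ℝ)
    (hε : 0 < ε) :
    ∃ N₀ : ℕ, ∀ N : ℕ, N₀ ≤ N → N ∉ E → ∀ b Y X : ℕ, Y ≤ X → a * X + b ≤ N →
      ∀ ξ : ℕ → ℂ, (∀ n, ‖ξ n‖ ≤ 1) → ∀ u v : ℝ, (u = 1 ∨ u = -1) → (v = 1 ∨ v = -1) →
      ‖∑ n ∈ Ioc Y X, ξ n * ((prodL a b k (n + 1) + u * prodL a b (k + 1) n +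
        v * prodL a b (k + 1) (n + 1) + u * v * prodL a b (k + 2) n : ℝ) : ℂ)‖ ≤
        ((X : ℝ) - Y) + ε * N := by
  obtain ⟨N₀, hN₀⟩ := h2 (a * (k + 1)) (Nat.mul_pos ha (Nat.succ_pos k)) (ε / 6) (by positivity)
  obtain ⟨N₁, hN₁⟩ := h1 0 (ε / 6) (by positivity)
  obtain ⟨N₂, hN₂⟩ := h1 (a * (k + 1)) (ε / 6) (by positivity)
  refine ⟨max N₀ (max N₁ N₂), fun N hN hNE b Y X hYX hX ξ hξ u v hu hv => ?_⟩
  have hNN₀ : N₀ ≤ N := le_trans (le_max_left _ _) hN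
  have hNN₁ : N₁ ≤ N := le_trans (le_max_left _ _) (le_trans (le_max_right _ _) hN)
  have hNN₂ : N₂ ≤ N := le_trans (le_max_right _ _) (le_trans (le_max_right _ _) hN)
  set A : ℕ → ℝ := fun n => lam (a * n + b) with hA
  set B : ℕ → ℝ := fun n => lam (a * (n + (k + 1)) + b) with hB
  have hA' : |∑ n ∈ Ioc Y X, A n| ≤ ε / 3 * N := by
    have h3 := ap_bound (fun m => ((lam (m + 0) : ℝ) : ℂ)) N (ε / 6 * N)
      (fun α y hy => hN₁ N hNN₁ hNE α y hy) a b Y X ha hYX hX 0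
    have h4 : ∑ n ∈ Ioc Y X, ((lam (a * n + b + 0) : ℝ) : ℂ) * e (0 * n) =
        ((∑ n ∈ Ioc Y X, A n : ℝ) : ℂ) := by
      push_cast
      refine sum_congr rfl fun n _ => ?_
      rw [zero_mul, e_zero, mul_one, add_zero]
    rw [h4, Complex.norm_real, Real.norm_eq_abs] at h3
    exact h3.trans (le_of_eq (by ring))
  have hB' : |∑ n ∈ Ioc Y X, B n| ≤ ε / 3 * N := by
    have h3 := ap_bound (fun m => ((lam (m + a * (k + 1)) : ℝ) : ℂ)) N (ε / 6 * N)
      (fun α y hy => hN₂ N hNN₂ hNE α y hy) a b Y X ha hYX hX 0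
    have h4 : ∑ n ∈ Ioc Y X, ((lam (a * n + b + a * (k + 1)) : ℝ) : ℂ) * e (0 * n) =
        ((∑ n ∈ Ioc Y X, B n : ℝ) : ℂ) := by
      push_cast
      refine sum_congr rfl fun n _ => ?_
      rw [zero_mul, e_zero, mul_one]
      congr 2
      ring
    rw [h4, Complex.norm_real, Real.norm_eq_abs] at h3
    exact h3.trans (le_of_eq (by ring))
  have hAB : |∑ n ∈ Ioc Y X, A n * B n| ≤ ε / 3 * N := by
    have h3 := ap_bound (fun m => ((lam m * lam (m + a * (k + 1)) : ℝ) : ℂ)) N (ε / 6 * N)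
      (fun α y hy => hN₀ N hNN₀ hNE α y hy) a b Y X ha hYX hX 0
    have h4 : ∑ n ∈ Ioc Y X, ((lam (a * n + b) * lam (a * n + b + a * (k + 1)) : ℝ) : ℂ) *
        e (0 * n) = ((∑ n ∈ Ioc Y X, A n * B n : ℝ) : ℂ) := by
      push_cast
      refine sum_congr rfl fun n _ => ?_
      rw [zero_mul, e_zero, mul_one]
      congr 3
      ring
    rw [h4, Complex.norm_real, Real.norm_eq_abs] at h3
    exact h3.trans (le_of_eq (by ring))
  have hu1 : |u| = 1 := by rcases hu with h | h <;> rw [h] <;> norm_num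
  have hv1 : |v| = 1 := by rcases hv with h | h <;> rw [h] <;> norm_num
  have hpt : ∀ n, ‖ξ n * ((prodL a b k (n + 1) + u * prodL a b (k + 1) n +
        v * prodL a b (k + 1) (n + 1) + u * v * prodL a b (k + 2) n : ℝ) : ℂ)‖ ≤
        1 + u * A n + v * B n + u * v * (A n * B n) := by
    intro n
    rw [four, norm_mul, Complex.norm_real, Real.norm_eq_abs, abs_mul]
    have h3 : |prodL a b k (n + 1)| = 1 := by
      rcases prodL_pm a b k (n + 1) with h | h <;> rw [h] <;> norm_num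
    rw [h3, one_mul]
    have h4 : 0 ≤ 1 + u * A n := by
      rcases hu with h | h <;> rcases lam_pm (a * n + b) with g | g <;>
        simp only [hA, h, g] <;> norm_num
    have h5 : 0 ≤ 1 + v * B n := by
      rcases hv with h | h <;> rcases lam_pm (a * (n + (k + 1)) + b) with g | g <;>
        simp only [hB, h, g] <;> norm_num
    have h6 : |(1 + u * lam (a * n + b)) * (1 + v * lam (a * (n + (k + 1)) + b))| =
        (1 + u * A n) * (1 + v * B n) := abs_of_nonneg (mul_nonneg h4 h5)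
    rw [h6]
    calc ‖ξ n‖ * ((1 + u * A n) * (1 + v * B n)) ≤ 1 * ((1 + u * A n) * (1 + v * B n)) :=
          mul_le_mul_of_nonneg_right (hξ n) (mul_nonneg h4 h5)
      _ = _ := by ring
  refine (norm_sum_le _ _).trans ((sum_le_sum fun n _ => hpt n).trans ?_)
  rw [sum_add_distrib, sum_add_distrib, sum_add_distrib, sum_const, Nat.card_Ioc, nsmul_eq_mul,
    mul_one, Nat.cast_sub hYX, ← mul_sum, ← mul_sum, ← mul_sum]
  have e1 : u * ∑ n ∈ Ioc Y X, A n ≤ ε / 3 * N := by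
    refine (le_abs_self _).trans ?_
    rw [abs_mul, hu1, one_mul]
    exact hA'
  have e2 : v * ∑ n ∈ Ioc Y X, B n ≤ ε / 3 * N := by
    refine (le_abs_self _).trans ?_
    rw [abs_mul, hv1, one_mul]
    exact hB'
  have e3 : u * v * ∑ n ∈ Ioc Y X, A n * B n ≤ ε / 3 * N := by
    refine (le_abs_self _).trans ?_
    rw [abs_mul, abs_mul, hu1, hv1, one_mul, one_mul]
    exact hAB
  linarith

/-- shifting a sum by one -/
theorem shift_sum (f : ℕ → ℝ) (hf : ∀ n, |f n| ≤ 1) (Y X : ℕ) (h : Y ≤ X) :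
    |∑ n ∈ Ioc Y X, f (n + 1) - ∑ n ∈ Ioc Y X, f n| ≤ 2 := by
  have h2 : ∑ n ∈ Ioc Y X, f (n + 1) = ∑ n ∈ Ioc (Y + 1) (X + 1), f n := by
    rw [← map_add_right_Ioc, sum_map]
    rfl
  rw [h2]
  rcases Nat.eq_or_lt_of_le h with h | h
  · rw [h, Ioc_self, Ioc_self, sum_empty]
    norm_num
  · have h3 : ∑ n ∈ Ioc Y (X + 1), f n = ∑ n ∈ Ioc Y X, f n + f (X + 1) :=
      sum_Ioc_succ_top (by omega) _
    have h4 : ∑ n ∈ Ioc Y (X + 1), f n = f (Y + 1) + ∑ n ∈ Ioc (Y + 1) (X + 1), f n := by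
      have h5 : Ioc Y (X + 1) = insert (Y + 1) (Ioc (Y + 1) (X + 1)) := by
        ext m
        simp only [mem_Ioc, mem_insert]
        omega
      rw [h5, sum_insert (by simp)]
    have h6 := abs_le.mp (hf (X + 1))
    have h7 := abs_le.mp (hf (Y + 1))
    rw [abs_le]
    constructor <;> linarith [h6.1, h6.2, h7.1, h7.2]

theorem part2 {E : Set ℕ} (h1 : One E) (h2 : Two E) (a k : ℕ) (ha : 1 ≤ a) (ε : ℝ)
    (hε : 0 < ε) :
    ∃ N₀ : ℕ, ∀ N : ℕ, N₀ ≤ N → N ∉ E → ∀ b Y X : ℕ, Y ≤ X → a * X + b ≤ N →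
      2 * |sumL a b (k + 1) Y X| + |sumL a b (k + 2) Y X + sumL a b k Y X| ≤
        ((X : ℝ) - Y) + ε * N := by
  obtain ⟨N₀, hN₀⟩ := part3 h1 h2 a k ha (ε / 2) (by positivity)
  obtain ⟨N₁, hN₁⟩ := exists_nat_ge (8 / ε)
  refine ⟨max N₀ N₁, fun N hN hNE b Y X hYX hX => ?_⟩
  have hNN₀ : N₀ ≤ N := le_trans (le_max_left _ _) hN
  have hNN₁ : N₁ ≤ N := le_trans (le_max_right _ _) hN
  have hbig : 4 ≤ ε / 2 * N := by
    have h3 : 8 / ε ≤ N := le_trans hN₁ (by exact_mod_cast hNN₁)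
    rw [div_le_iff₀ hε] at h3
    linarith
  have hb : ∀ j n, |prodL a b j n| ≤ 1 := by
    intro j n
    rcases prodL_pm a b j n with h | h <;> rw [h] <;> norm_num
  have key : ∀ u : ℝ, (u = 1 ∨ u = -1) →
      |∑ n ∈ Ioc Y X, prodL a b k (n + 1) + u * sumL a b (k + 1) Y X +
        u * ∑ n ∈ Ioc Y X, prodL a b (k + 1) (n + 1) + sumL a b (k + 2) Y X| ≤
        ((X : ℝ) - Y) + ε / 2 * N := by
    intro u hu
    have h3 := hN₀ N hNN₀ hNE b Y X hYX hX (fun _ => 1) (fun _ => by simp) u u hu hu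
    have hu2 : u * u = 1 := by rcases hu with h | h <;> rw [h] <;> norm_num
    have h4 : ∑ n ∈ Ioc Y X, (1 : ℂ) * ((prodL a b k (n + 1) + u * prodL a b (k + 1) n +
        u * prodL a b (k + 1) (n + 1) + u * u * prodL a b (k + 2) n : ℝ) : ℂ) =
        ((∑ n ∈ Ioc Y X, prodL a b k (n + 1) + u * sumL a b (k + 1) Y X +
        u * ∑ n ∈ Ioc Y X, prodL a b (k + 1) (n + 1) + sumL a b (k + 2) Y X : ℝ) : ℂ) := by
      unfold sumL
      rw [mul_sum, mul_sum, ← sum_add_distrib, ← sum_add_distrib, ← sum_add_distrib]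
      push_cast
      refine sum_congr rfl fun n _ => ?_
      have : (u : ℂ) * u = 1 := by exact_mod_cast hu2
      rw [this]
      ring
    rw [h4, Complex.norm_real, Real.norm_eq_abs] at h3
    exact h3
  have s1 := shift_sum (prodL a b k) (hb k) Y X hYX
  have s2 := shift_sum (prodL a b (k + 1)) (hb (k + 1)) Y X hYX
  have k1 := key 1 (Or.inl rfl)
  have k2 := key (-1) (Or.inr rfl)
  change |∑ n ∈ Ioc Y X, prodL a b k (n + 1) - sumL a b k Y X| ≤ 2 at s1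
  change |∑ n ∈ Ioc Y X, prodL a b (k + 1) (n + 1) - sumL a b (k + 1) Y X| ≤ 2 at s2
  rw [abs_le] at s1 s2 k1 k2
  have h5 : 2 * |sumL a b (k + 1) Y X| = |2 * sumL a b (k + 1) Y X| := by
    rw [abs_mul]; norm_num
  rw [h5]
  rcases abs_cases (2 * sumL a b (k + 1) Y X) with ⟨g, -⟩ | ⟨g, -⟩ <;>
    rcases abs_cases (sumL a b (k + 2) Y X + sumL a b k Y X) with ⟨g', -⟩ | ⟨g', -⟩ <;>
    rw [g, g'] <;> linarith [s1.1, s1.2, s2.1, s2.2, k1.1, k1.2, k2.1, k2.2]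

/-! ### Logarithmic sums -/

theorem parts (b : ℕ → ℝ) (X : ℕ) : ∑ n ∈ Icc 1 X, b n / n =
    ∑ N ∈ Icc 1 X, (∑ n ∈ Icc 1 N, b n) / ((N : ℝ) * (N + 1)) +
      (∑ n ∈ Icc 1 X, b n) / ((X : ℝ) + 1) := by
  induction X with
  | zero => simp
  | succ X ih =>
    rw [sum_Icc_succ_top (by omega), ih, sum_Icc_succ_top (f := fun N : ℕ =>
      (∑ n ∈ Icc 1 N, b n) / ((N : ℝ) * (N + 1))) (by omega), sum_Icc_succ_top (by omega)]
    push_cast
    field_simp
    ring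

theorem harmonic_le (X : ℕ) : ∑ n ∈ Icc 1 X, (1 : ℝ) / n ≤ 1 + Real.log X := by
  have h := harmonic_le_one_add_log X
  have h1 : ((harmonic X : ℚ) : ℝ) = ∑ n ∈ Icc 1 X, (1 : ℝ) / n := by
    rw [harmonic_eq_sum_Icc]
    push_cast
    simp only [one_div]
  rw [← h1]
  exact h

theorem log_part {E : Set ℕ} (hE : LogDensityZero E) (b : ℕ → ℝ) (hb : ∀ n, |b n| ≤ 1) (c : ℝ)
    (hc : 0 ≤ c)
    (h : ∀ ε : ℝ, 0 < ε → ∃ N₀ : ℕ, ∀ N : ℕ, N₀ ≤ N → N ∉ E → |∑ n ∈ Icc 1 N, b n| ≤ (c + ε) * N)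
    (ε : ℝ) (hε : 0 < ε) : ∃ X₀ : ℕ, ∀ X : ℕ, X₀ ≤ X →
      |∑ n ∈ Icc 1 X, b n / n| ≤ (c + ε) * Real.log X := by
  classical
  obtain ⟨N₀, hN₀⟩ := h (ε / 4) (by positivity)
  have hE' := (Metric.tendsto_atTop.mp hE) (ε / 4) (by positivity)
  obtain ⟨X₁, hX₁⟩ := hE'
  obtain ⟨X₂, hX₂⟩ := eventually_atTop.1 ((tendsto_atTop.1
    (Real.tendsto_log_atTop.comp tendsto_natCast_atTop_atTop)) ((c + ε + N₀ + 2) / (ε / 4)))
  refine ⟨max (max X₁ X₂) 3, fun X hX => ?_⟩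
  have hXX₁ : X₁ ≤ X := le_trans (le_max_left _ _) (le_trans (le_max_left _ _) hX)
  have hXX₂ : X₂ ≤ X := le_trans (le_max_right _ _) (le_trans (le_max_left _ _) hX)
  have hX3 : 3 ≤ X := le_trans (le_max_right _ _) hX
  have hlogpos : 0 < Real.log X := Real.log_pos (by exact_mod_cast (show 1 < X by omega))
  have hEX : ∑ n ∈ Icc 1 X, (if n ∈ E then (1 : ℝ) / n else 0) ≤ ε / 4 * Real.log X := by
    have h1 := hX₁ X hXX₁
    rw [Real.dist_eq, sub_zero, abs_div, abs_of_pos hlogpos, div_lt_iff₀ hlogpos] at h1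
    exact (le_abs_self _).trans h1.le
  have hlog : c + ε + N₀ + 2 ≤ ε / 4 * Real.log X := by
    have h1 := hX₂ X hXX₂
    simp only [Function.comp] at h1
    rw [div_le_iff₀ (by positivity)] at h1
    linarith
  rw [parts]
  refine (abs_add_le _ _).trans ?_
  have htriv : ∀ N : ℕ, |∑ n ∈ Icc 1 N, b n| ≤ N := by
    intro N
    refine (abs_sum_le_sum_abs _ _).trans ((sum_le_sum fun n _ => hb n).trans ?_)
    simp
  have hlast : |(∑ n ∈ Icc 1 X, b n) / ((X : ℝ) + 1)| ≤ 1 := by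
    rw [abs_div, abs_of_pos (show (0 : ℝ) < X + 1 by positivity), div_le_one (by positivity)]
    linarith [htriv X]
  have hmain : |∑ N ∈ Icc 1 X, (∑ n ∈ Icc 1 N, b n) / ((N : ℝ) * (N + 1))| ≤
      (c + ε / 4) * (1 + Real.log X) + ε / 4 * Real.log X + N₀ := by
    refine (abs_sum_le_sum_abs _ _).trans ?_
    have hpt : ∀ N ∈ Icc 1 X, |(∑ n ∈ Icc 1 N, b n) / ((N : ℝ) * (N + 1))| ≤
        (c + ε / 4) * (1 / N) + (if N ∈ E then (1 : ℝ) / N else 0) + if N < N₀ then 1 else 0 := by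
      intro N hN
      have hN1 := (mem_Icc.1 hN).1
      have hNpos : (0 : ℝ) < N := by exact_mod_cast hN1
      rw [abs_div, abs_of_pos (show (0 : ℝ) < N * (N + 1) by positivity)]
      have hm : 0 ≤ (c + ε / 4) * (1 / (N : ℝ)) := by positivity
      have hdiv : ∀ t : ℝ, 0 ≤ t → |∑ n ∈ Icc 1 N, b n| ≤ t * N →
          |∑ n ∈ Icc 1 N, b n| / ((N : ℝ) * (N + 1)) ≤ t * (1 / N) := by
        intro t ht0 ht
        rw [div_le_iff₀ (by positivity)]
        have : t * (1 / (N : ℝ)) * (N * (N + 1)) = t * (N + 1) := by field_simp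
        rw [this]
        linarith
      by_cases hNE : N ∈ E
      · rw [if_pos hNE]
        have h3 := hdiv 1 zero_le_one (by rw [one_mul]; exact htriv N)
        rw [one_mul] at h3
        have h4 : (0 : ℝ) ≤ if N < N₀ then 1 else 0 := by split_ifs <;> norm_num
        linarith
      · rw [if_neg hNE]
        by_cases hNN : N < N₀
        · rw [if_pos hNN]
          have h3 := hdiv 1 zero_le_one (by rw [one_mul]; exact htriv N)
          have h4 : (1 : ℝ) / N ≤ 1 := by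
            rw [div_le_one hNpos]
            exact_mod_cast hN1
          linarith
        · rw [if_neg hNN]
          have h3 := hdiv (c + ε / 4) (by positivity) (hN₀ N (by omega) hNE)
          linarith
    refine (sum_le_sum hpt).trans ?_
    rw [sum_add_distrib, sum_add_distrib, ← mul_sum]
    have h5 := harmonic_le X
    have h6 : ∑ N ∈ Icc 1 X, (if N < N₀ then (1 : ℝ) else 0) ≤ N₀ := by
      rw [← sum_filter, sum_const, nsmul_eq_mul, mul_one]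
      have : ((Icc 1 X).filter (fun N => N < N₀)).card ≤ N₀ := by
        calc _ ≤ (range N₀).card := card_le_card (fun N hN => by
                rw [mem_filter] at hN
                exact mem_range.mpr hN.2)
          _ = N₀ := card_range _
      exact_mod_cast this
    have h7 : (c + ε / 4) * ∑ N ∈ Icc 1 X, (1 : ℝ) / N ≤ (c + ε / 4) * (1 + Real.log X) :=
      mul_le_mul_of_nonneg_left h5 (by positivity)
    linarith
  have h8 : (c + ε / 4) * (1 + Real.log X) = c * Real.log X + ε / 4 * Real.log X + (c + ε / 4) := by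
    ring
  rw [h8] at hmain
  nlinarith

end Pool.Agent.X23.CS
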