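import Pool.Agent.X23.CS2

/-!
# A trilinear form and exponential sums
-/

open Finset

namespace Pool.Agent.X23.CS

theorem conj_e (x : ℝ) : (starRingEnd ℂ) (e x) = e (-x) := by
  unfold e
  rw [← Complex.exp_conj]
  congr 1
  simp only [map_mul, Complex.conj_I, Complex.conj_ofReal, map_ofNat]
  push_cast
  ring

/-- the exponential sum of `Z` over `A` -/
noncomputable def hat (A : Finset ℕ) (Z : ℕ → ℂ) (t : ℝ) : ℂ := ∑ c ∈ A, Z c * e (t * c)

theorem parseval (M : ℕ) (hM : 1 ≤ M) (A : Finset ℕ) (hA : A ⊆ range M) (Z : ℕ → ℂ) :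
    ∑ j ∈ range M, ‖hat A Z (j / M)‖ ^ 2 = M * ∑ c ∈ A, ‖Z c‖ ^ 2 := by
  have hM0 : (M : ℝ) ≠ 0 := by positivity
  have h1 : ∀ j ∈ range M, ((‖hat A Z (j / M)‖ ^ 2 : ℝ) : ℂ) =
      ∑ c ∈ A, ∑ d ∈ A, Z c * (starRingEnd ℂ) (Z d) * e (j * ((((c : ℤ) - d : ℤ) : ℝ) / M)) := by
    intro j _
    have h2 : ((‖hat A Z (j / M)‖ ^ 2 : ℝ) : ℂ) =
        hat A Z (j / M) * (starRingEnd ℂ) (hat A Z (j / M)) := by
      rw [Complex.mul_conj, Complex.normSq_eq_norm_sq]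
    rw [h2]
    unfold hat
    rw [map_sum, sum_mul_sum]
    refine sum_congr rfl fun c _ => sum_congr rfl fun d _ => ?_
    rw [map_mul, conj_e]
    have h3 : e (↑j / ↑M * ↑c) * e (-(↑j / ↑M * ↑d)) =
        e (j * ((((c : ℤ) - d : ℤ) : ℝ) / M)) := by
      rw [← e_add]
      congr 1
      push_cast
      ring
    rw [← h3]
    ring
  have h4 : ((∑ j ∈ range M, ‖hat A Z (j / M)‖ ^ 2 : ℝ) : ℂ) =
      ((M * ∑ c ∈ A, ‖Z c‖ ^ 2 : ℝ) : ℂ) := by
    rw [Complex.ofReal_sum, sum_congr rfl h1, sum_comm]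
    have h5 : ∀ c ∈ A, ∑ j ∈ range M, ∑ d ∈ A,
        Z c * (starRingEnd ℂ) (Z d) * e (j * ((((c : ℤ) - d : ℤ) : ℝ) / M)) =
        (M : ℂ) * ((‖Z c‖ ^ 2 : ℝ) : ℂ) := by
      intro c hc
      rw [sum_comm]
      have h6 : ∀ d ∈ A, ∑ j ∈ range M,
          Z c * (starRingEnd ℂ) (Z d) * e (j * ((((c : ℤ) - d : ℤ) : ℝ) / M)) =
          if c = d then Z c * (starRingEnd ℂ) (Z d) * M else 0 := by
        intro d hd
        rw [← mul_sum, orth M hM]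
        have hcM := mem_range.1 (hA hc)
        have hdM := mem_range.1 (hA hd)
        by_cases hcd : c = d
        · rw [if_pos hcd, if_pos]
          rw [hcd, sub_self]
          exact dvd_zero _
        · rw [if_neg hcd, if_neg, mul_zero]
          intro hdvd
          apply hcd
          have h7 := Int.eq_zero_of_abs_lt_dvd hdvd (by
            rw [abs_lt]
            constructor <;> omega)
          omega
      rw [sum_congr rfl h6, sum_ite_eq, if_pos hc, Complex.mul_conj, Complex.normSq_eq_norm_sq]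
      ring
    rw [sum_congr rfl h5, ← mul_sum]
    push_cast
    rfl
  exact_mod_cast h4

/-- the trilinear form through exponential sums -/
theorem tri_eq (M : ℕ) (hM : 1 ≤ M) (A B C : Finset ℕ) (X Y Z : ℕ → ℂ)
    (hA : A ⊆ range M) (hBC : ∀ b ∈ B, ∀ c ∈ C, b + c ∈ A) :
    ∑ b ∈ B, ∑ c ∈ C, X (b + c) * Y b * Z c = (M : ℂ)⁻¹ * ∑ j ∈ range M,
      hat A X (-(j / M)) * hat B Y (j / M) * hat C Z (j / M) := by
  have hM0 : (M : ℝ) ≠ 0 := by positivity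
  have hMC : (M : ℂ) ≠ 0 := by exact_mod_cast hM0
  have h1 : ∀ j ∈ range M, hat A X (-(j / M)) * hat B Y (j / M) * hat C Z (j / M) =
      ∑ a ∈ A, ∑ b ∈ B, ∑ c ∈ C,
        X a * Y b * Z c * e (j * ((((b : ℤ) + c - a : ℤ) : ℝ) / M)) := by
    intro j _
    unfold hat
    rw [sum_mul_sum, sum_mul]
    refine sum_congr rfl fun a _ => ?_
    rw [sum_mul]
    refine sum_congr rfl fun b _ => ?_
    rw [mul_sum]
    refine sum_congr rfl fun c _ => ?_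
    have h3 : e (-(↑j / ↑M) * ↑a) * e (↑j / ↑M * ↑b) * e (↑j / ↑M * ↑c) =
        e (j * ((((b : ℤ) + c - a : ℤ) : ℝ) / M)) := by
      rw [← e_add, ← e_add]
      congr 1
      push_cast
      ring
    rw [← h3]
    ring
  have h2 : ∑ j ∈ range M, ∑ a ∈ A, ∑ b ∈ B, ∑ c ∈ C,
      X a * Y b * Z c * e (j * ((((b : ℤ) + c - a : ℤ) : ℝ) / M)) =
      ∑ a ∈ A, ∑ b ∈ B, ∑ c ∈ C, if a = b + c then X a * Y b * Z c * M else 0 := by
    rw [sum_comm]
    refine sum_congr rfl fun a ha => ?_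
    rw [sum_comm]
    refine sum_congr rfl fun b hb => ?_
    rw [sum_comm]
    refine sum_congr rfl fun c hc => ?_
    rw [← mul_sum, orth M hM]
    have haM := mem_range.1 (hA ha)
    have hbcM := mem_range.1 (hA (hBC b hb c hc))
    by_cases hcd : a = b + c
    · rw [if_pos hcd, if_pos]
      rw [hcd]
      push_cast
      rw [sub_self]
      exact dvd_zero _
    · rw [if_neg hcd, if_neg, mul_zero]
      intro hdvd
      apply hcd
      have h7 := Int.eq_zero_of_abs_lt_dvd hdvd (by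
        rw [abs_lt]
        constructor <;> omega)
      omega
  rw [sum_congr rfl h1, h2, sum_comm (s := A) (t := B)]
  have h3 : ∀ b ∈ B, ∑ a ∈ A, ∑ c ∈ C, (if a = b + c then X a * Y b * Z c * (M : ℂ) else 0) =
      ∑ c ∈ C, X (b + c) * Y b * Z c * M := by
    intro b hb
    rw [sum_comm]
    refine sum_congr rfl fun c hc => ?_
    rw [sum_ite_eq', if_pos (hBC b hb c hc)]
  rw [sum_congr rfl h3, mul_sum]
  refine sum_congr rfl fun b _ => ?_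
  rw [mul_sum]
  refine sum_congr rfl fun c _ => ?_
  field_simp

theorem norm_hat_neg (A : Finset ℕ) (X : ℕ → ℂ) (t : ℝ) :
    ‖hat A X (-t)‖ = ‖hat A (fun n => (starRingEnd ℂ) (X n)) t‖ := by
  have : hat A (fun n => (starRingEnd ℂ) (X n)) t = (starRingEnd ℂ) (hat A X (-t)) := by
    unfold hat
    rw [map_sum]
    refine sum_congr rfl fun c _ => ?_
    rw [map_mul, conj_e]
    congr 2
    ring
  rw [this, Complex.norm_conj]

theorem sum_sq_le (M : ℕ) (hM : 1 ≤ M) (A : Finset ℕ) (hA : A ⊆ range M) (Z : ℕ → ℂ)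
    (hZ : ∀ n, ‖Z n‖ ≤ 1) : ∑ j ∈ range M, ‖hat A Z (j / M)‖ ^ 2 ≤ (M : ℝ) * M := by
  rw [parseval M hM A hA Z]
  refine mul_le_mul_of_nonneg_left ?_ (Nat.cast_nonneg _)
  have h1 : ∀ c ∈ A, ‖Z c‖ ^ 2 ≤ 1 := fun c _ => pow_le_one₀ (norm_nonneg _) (hZ c)
  refine (sum_le_sum h1).trans ?_
  rw [sum_const, nsmul_eq_mul, mul_one]
  have := card_le_card hA
  rw [card_range] at this
  exact_mod_cast this

theorem sum_sq_neg_le (M : ℕ) (hM : 1 ≤ M) (A : Finset ℕ) (hA : A ⊆ range M) (Z : ℕ → ℂ)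
    (hZ : ∀ n, ‖Z n‖ ≤ 1) : ∑ j ∈ range M, ‖hat A Z (-(j / M))‖ ^ 2 ≤ (M : ℝ) * M := by
  simp only [norm_hat_neg]
  exact sum_sq_le M hM A hA _ (fun n => by rw [Complex.norm_conj]; exact hZ n)

/-- one small factor: the middle one -/
theorem tri_mid (M : ℕ) (hM : 1 ≤ M) (A B C : Finset ℕ) (X Y Z : ℕ → ℂ)
    (hA : A ⊆ range M) (hC : C ⊆ range M) (hBC : ∀ b ∈ B, ∀ c ∈ C, b + c ∈ A)
    (hX : ∀ n, ‖X n‖ ≤ 1) (hZ : ∀ n, ‖Z n‖ ≤ 1) (D : ℝ) (hD : ∀ t, ‖hat B Y t‖ ≤ D) :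
    ‖∑ b ∈ B, ∑ c ∈ C, X (b + c) * Y b * Z c‖ ≤ D * M := by
  have hM0 : (0 : ℝ) < M := by positivity
  have hD0 : 0 ≤ D := le_trans (norm_nonneg _) (hD 0)
  rw [tri_eq M hM A B C X Y Z hA hBC, norm_mul, norm_inv, Complex.norm_natCast]
  have h1 : ∀ j ∈ range M, ‖hat A X (-(j / M)) * hat B Y (j / M) * hat C Z (j / M)‖ ≤
      D / 2 * (‖hat A X (-(j / M))‖ ^ 2 + ‖hat C Z (j / M)‖ ^ 2) := by
    intro j _
    rw [norm_mul, norm_mul]
    have h2 := hD (j / M)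
    have h3 : 0 ≤ ‖hat A X (-(j / M))‖ := norm_nonneg _
    have h4 : 0 ≤ ‖hat C Z (j / M)‖ := norm_nonneg _
    have h5 : ‖hat A X (-(j / M))‖ * ‖hat B Y (j / M)‖ * ‖hat C Z (j / M)‖ ≤
        ‖hat A X (-(j / M))‖ * D * ‖hat C Z (j / M)‖ := by gcongr
    refine h5.trans ?_
    nlinarith [sq_nonneg (‖hat A X (-(j / M))‖ - ‖hat C Z (j / M)‖)]
  have h2 : ‖∑ j ∈ range M, hat A X (-(j / M)) * hat B Y (j / M) * hat C Z (j / M)‖ ≤
      D * (M * M) := by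
    refine (norm_sum_le _ _).trans ((sum_le_sum h1).trans ?_)
    rw [← mul_sum, sum_add_distrib]
    have h3 := sum_sq_neg_le M hM A hA X hX
    have h4 := sum_sq_le M hM C hC Z hZ
    nlinarith
  calc (M : ℝ)⁻¹ * _ ≤ (M : ℝ)⁻¹ * (D * (M * M)) := mul_le_mul_of_nonneg_left h2 (by positivity)
    _ = D * M := by field_simp

/-- one small factor: the first one -/
theorem tri_first (M : ℕ) (hM : 1 ≤ M) (A B C : Finset ℕ) (X Y Z : ℕ → ℂ)
    (hA : A ⊆ range M) (hB : B ⊆ range M) (hC : C ⊆ range M) (hBC : ∀ b ∈ B, ∀ c ∈ C, b + c ∈ A)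
    (hY : ∀ n, ‖Y n‖ ≤ 1) (hZ : ∀ n, ‖Z n‖ ≤ 1) (D : ℝ) (hD : ∀ t, ‖hat A X t‖ ≤ D) :
    ‖∑ b ∈ B, ∑ c ∈ C, X (b + c) * Y b * Z c‖ ≤ D * M := by
  have hM0 : (0 : ℝ) < M := by positivity
  have hD0 : 0 ≤ D := le_trans (norm_nonneg _) (hD 0)
  rw [tri_eq M hM A B C X Y Z hA hBC, norm_mul, norm_inv, Complex.norm_natCast]
  have h1 : ∀ j ∈ range M, ‖hat A X (-(j / M)) * hat B Y (j / M) * hat C Z (j / M)‖ ≤
      D / 2 * (‖hat B Y (j / M)‖ ^ 2 + ‖hat C Z (j / M)‖ ^ 2) := by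
    intro j _
    rw [norm_mul, norm_mul]
    have h2 := hD (-(j / M))
    have h3 : 0 ≤ ‖hat B Y (j / M)‖ := norm_nonneg _
    have h4 : 0 ≤ ‖hat C Z (j / M)‖ := norm_nonneg _
    have h5 : ‖hat A X (-(j / M))‖ * ‖hat B Y (j / M)‖ * ‖hat C Z (j / M)‖ ≤
        D * ‖hat B Y (j / M)‖ * ‖hat C Z (j / M)‖ := by gcongr
    refine h5.trans ?_
    nlinarith [sq_nonneg (‖hat B Y (j / M)‖ - ‖hat C Z (j / M)‖)]
  have h2 : ‖∑ j ∈ range M, hat A X (-(j / M)) * hat B Y (j / M) * hat C Z (j / M)‖ ≤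
      D * (M * M) := by
    refine (norm_sum_le _ _).trans ((sum_le_sum h1).trans ?_)
    rw [← mul_sum, sum_add_distrib]
    have h3 := sum_sq_le M hM B hB Y hY
    have h4 := sum_sq_le M hM C hC Z hZ
    nlinarith
  calc (M : ℝ)⁻¹ * _ ≤ (M : ℝ)⁻¹ * (D * (M * M)) := mul_le_mul_of_nonneg_left h2 (by positivity)
    _ = D * M := by field_simp

end Pool.Agent.X23.CS
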