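import Pool.Agent.X23.CS4

/-!
# Autocorrelations of a sign sequence whose neighbouring products have small exponential sums
-/

open Finset

namespace Pool.Agent.X23.CS

/-- the products of `p` at distance one and two have exponential sums at most `D` -/
def Small (p : ℕ → ℝ) (R : ℕ) (D : ℝ) : Prop := ∀ i j : ℕ,
  ((i = 0 ∧ j = 1) ∨ (i = 1 ∧ j = 2) ∨ (i = 0 ∧ j = 2)) → ∀ (t : ℝ) (Y X : ℕ), X ≤ R →
    ‖hat (Ico Y X) (fun n => ((p (n + i) * p (n + j) : ℝ) : ℂ)) t‖ ≤ D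

/-- the average of the shifts -/
noncomputable def G (K : Finset ℕ) (s p : ℕ → ℝ) (n : ℕ) : ℝ :=
  (∑ k ∈ K, s k * p (n + k)) / K.card

theorem abs_G_le (K : Finset ℕ) (hK : 0 < K.card) (s p : ℕ → ℝ) (hs : ∀ k, |s k| ≤ 1)
    (hp : ∀ n, |p n| ≤ 1) (n : ℕ) : |G K s p n| ≤ 1 := by
  have h0 : (0 : ℝ) < K.card := by exact_mod_cast hK
  unfold G
  rw [abs_div, abs_of_pos h0, div_le_one h0]
  refine (abs_sum_le_sum_abs _ _).trans ?_
  have : ∀ k ∈ K, |s k * p (n + k)| ≤ 1 := by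
    intro k _
    rw [abs_mul]
    exact mul_le_one₀ (hs k) (abs_nonneg _) (hp _)
  refine (sum_le_sum this).trans ?_
  rw [sum_const, nsmul_eq_mul, mul_one]

section

variable {p s : ℕ → ℝ} (hp : ∀ n, |p n| ≤ 1) (hs : ∀ k, |s k| ≤ 1) {K : Finset ℕ}
  (hK : 0 < K.card) {N : ℕ} (hKN : K ⊆ range (N + 1)) {Y X : ℕ} (hX : X ≤ N)

include hp hs hK hKN hX

theorem sum_G (i : ℕ) (F : ℕ → ℂ) (D : ℝ) (hF : ∀ t, ‖hat (Ico Y X) F t‖ ≤ D) :
    ‖∑ n ∈ Ico Y X, F n * ((G K s p (n + i) : ℝ) : ℂ)‖ ≤ D * ((2 * N + 1 : ℕ) : ℝ) / K.card := by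
  have h0 : (0 : ℝ) < K.card := by exact_mod_cast hK
  have h1 : ∑ n ∈ Ico Y X, F n * ((G K s p (n + i) : ℝ) : ℂ) =
      ((K.card : ℝ) : ℂ)⁻¹ * ∑ n ∈ Ico Y X, ∑ k ∈ K,
        ((p (n + k + i) : ℝ) : ℂ) * F n * ((s k : ℝ) : ℂ) := by
    rw [mul_sum]
    refine sum_congr rfl fun n _ => ?_
    unfold G
    push_cast
    rw [sum_div, mul_sum, mul_sum]
    refine sum_congr rfl fun k _ => ?_
    have e1 : n + i + k = n + k + i := by ring
    rw [e1]
    field_simp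
  have h2 := tri_mid (2 * N + 1) (by omega) (range (2 * N + 1)) (Ico Y X) K
    (fun m => ((p (m + i) : ℝ) : ℂ)) F (fun k => ((s k : ℝ) : ℂ)) (le_refl _)
    (fun k hk => by
      have := mem_range.1 (hKN hk)
      exact mem_range.2 (by omega))
    (fun b hb c hc => by
      have h3 := (mem_Ico.1 hb).2
      have h4 := mem_range.1 (hKN hc)
      exact mem_range.2 (by omega))
    (fun n => by rw [Complex.norm_real]; exact hp _)
    (fun k => by rw [Complex.norm_real]; exact hs _) D hF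
  rw [h1, norm_mul, norm_inv, Complex.norm_real, Real.norm_of_nonneg h0.le]
  calc (K.card : ℝ)⁻¹ * _ ≤ (K.card : ℝ)⁻¹ * (D * ((2 * N + 1 : ℕ) : ℝ)) :=
        mul_le_mul_of_nonneg_left h2 (by positivity)
    _ = _ := by field_simp

theorem sum_GG (i j : ℕ) (F : ℕ → ℝ) (D : ℝ)
    (hF : ∀ t, ‖hat (Ico Y X) (fun n => ((F n : ℝ) : ℂ)) t‖ ≤ D) :
    |∑ n ∈ Ico Y X, F n * G K s p (n + i) * G K s p (n + j)| ≤
      D * ((2 * N + 1 : ℕ) : ℝ) ^ 2 / (K.card : ℝ) ^ 2 := by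
  have h0 : (0 : ℝ) < K.card := by exact_mod_cast hK
  have h1 : ∀ t, ‖hat (Ico Y X) (fun n => ((F n : ℝ) : ℂ) * ((G K s p (n + i) : ℝ) : ℂ)) t‖ ≤
      D * ((2 * N + 1 : ℕ) : ℝ) / K.card := by
    intro t
    have h2 := sum_G hp hs hK hKN hX i (fun n => ((F n : ℝ) : ℂ) * e (t * n)) D (fun u => by
      have h3 := hF (t + u)
      refine le_trans (le_of_eq ?_) h3
      congr 1
      unfold hat
      refine sum_congr rfl fun n _ => ?_
      rw [add_mul, e_add]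
      ring)
    refine le_trans (le_of_eq ?_) h2
    congr 1
    unfold hat
    refine sum_congr rfl fun n _ => ?_
    ring
  have h2 := sum_G hp hs hK hKN hX j
    (fun n => ((F n : ℝ) : ℂ) * ((G K s p (n + i) : ℝ) : ℂ)) _ h1
  have h3 : ∑ n ∈ Ico Y X, ((F n : ℝ) : ℂ) * ((G K s p (n + i) : ℝ) : ℂ) *
      ((G K s p (n + j) : ℝ) : ℂ) =
      ((∑ n ∈ Ico Y X, F n * G K s p (n + i) * G K s p (n + j) : ℝ) : ℂ) := by
    push_cast
    rfl
  rw [h3, Complex.norm_real, Real.norm_eq_abs] at h2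
  refine h2.trans (le_of_eq ?_)
  field_simp

end

theorem sum_shift {K : Finset ℕ} {N : ℕ} (hKN : K ⊆ range (N + 1)) {Y X : ℕ} (hX : X ≤ N)
    (W : ℕ → ℝ) (hW : ∀ n, |W n| ≤ 1) (F : ℕ → ℝ) (D : ℝ)
    (hF : ∀ t, ‖hat (range (2 * N + 1)) (fun n => ((F n : ℝ) : ℂ)) t‖ ≤ D) :
    ∑ k ∈ K, |∑ n ∈ Ico Y X, F (n + k) * W n| ≤ D * ((2 * N + 1 : ℕ) : ℝ) := by
  set σ : ℕ → ℝ := fun k => if 0 ≤ ∑ n ∈ Ico Y X, F (n + k) * W n then 1 else -1 with hσ
  have hσ1 : ∀ k, |σ k| ≤ 1 := by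
    intro k
    simp only [hσ]
    split_ifs <;> norm_num
  have h1 : ∀ k ∈ K, |∑ n ∈ Ico Y X, F (n + k) * W n| =
      σ k * ∑ n ∈ Ico Y X, F (n + k) * W n := by
    intro k _
    simp only [hσ]
    split_ifs with h
    · rw [abs_of_nonneg h, one_mul]
    · rw [abs_of_neg (not_le.1 h)]; ring
  have h2 := tri_first (2 * N + 1) (by omega) (range (2 * N + 1)) (Ico Y X) K
    (fun m => ((F m : ℝ) : ℂ)) (fun n => ((W n : ℝ) : ℂ)) (fun k => ((σ k : ℝ) : ℂ)) (le_refl _)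
    (fun n hn => by
      have := (mem_Ico.1 hn).2
      exact mem_range.2 (by omega))
    (fun k hk => by
      have := mem_range.1 (hKN hk)
      exact mem_range.2 (by omega))
    (fun b hb c hc => by
      have h3 := (mem_Ico.1 hb).2
      have h4 := mem_range.1 (hKN hc)
      exact mem_range.2 (by omega))
    (fun n => by rw [Complex.norm_real]; exact hW _)
    (fun k => by rw [Complex.norm_real]; exact hσ1 _) D hF
  rw [sum_congr rfl h1]
  have h3 : ((∑ k ∈ K, σ k * ∑ n ∈ Ico Y X, F (n + k) * W n : ℝ) : ℂ) =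
      ∑ b ∈ Ico Y X, ∑ c ∈ K, ((F (b + c) : ℝ) : ℂ) * ((W b : ℝ) : ℂ) * ((σ c : ℝ) : ℂ) := by
    push_cast
    rw [sum_comm]
    refine sum_congr rfl fun k _ => ?_
    rw [mul_sum]
    refine sum_congr rfl fun n _ => ?_
    ring
  refine (le_abs_self _).trans ?_
  rw [← Real.norm_eq_abs, ← Complex.norm_real, h3]
  exact h2

/-- shifting a sum over `Ico` -/
theorem shift_Ico (f : ℕ → ℝ) (hf : ∀ n, |f n| ≤ 1) (Y X i : ℕ) :
    |∑ n ∈ Ico Y X, f (n + i) - ∑ n ∈ Ico Y X, f n| ≤ 2 * i := by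
  induction i with
  | zero => simp
  | succ i ih =>
    have h1 : |∑ n ∈ Ico Y X, f (n + i + 1) - ∑ n ∈ Ico Y X, f (n + i)| ≤ 2 := by
      rcases Nat.lt_or_ge Y X with h | h
      · have h2 : ∑ n ∈ Ico Y X, f (n + i + 1) = ∑ n ∈ Ico (Y + 1) (X + 1), f (n + i) := by
          rw [← map_add_right_Ico, sum_map]
          refine sum_congr rfl fun n _ => ?_
          simp only [addRightEmbedding_apply]
          congr 1
          ring
        have h3 : ∑ n ∈ Ico Y (X + 1), f (n + i) = ∑ n ∈ Ico Y X, f (n + i) + f (X + i) :=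
          sum_Ico_succ_top h.le _
        have h4 : ∑ n ∈ Ico Y (X + 1), f (n + i) =
            f (Y + i) + ∑ n ∈ Ico (Y + 1) (X + 1), f (n + i) :=
          sum_eq_sum_Ico_succ_bot (by omega) _
        have h5 := abs_le.mp (hf (X + i))
        have h6 := abs_le.mp (hf (Y + i))
        rw [h2, abs_le]
        constructor <;> linarith [h5.1, h5.2, h6.1, h6.2]
      · rw [Ico_eq_empty (by omega), sum_empty, sum_empty]
        norm_num
    have h2 : ∀ n, f (n + (i + 1)) = f (n + i + 1) := fun n => by rw [add_assoc]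
    simp only [h2]
    push_cast
    calc |∑ n ∈ Ico Y X, f (n + i + 1) - ∑ n ∈ Ico Y X, f n| ≤
        |∑ n ∈ Ico Y X, f (n + i + 1) - ∑ n ∈ Ico Y X, f (n + i)| +
        |∑ n ∈ Ico Y X, f (n + i) - ∑ n ∈ Ico Y X, f n| := abs_sub_le _ _ _
      _ ≤ 2 * ((i : ℝ) + 1) := by linarith

/-- the basic inequality -/
theorem basic (p g : ℕ → ℝ) (hp : ∀ n, p n = 1 ∨ p n = -1) (hg : ∀ n, |g n| ≤ 1) (Y X r : ℕ)
    (hYX : Y ≤ X) (c01 c12 c02 : ℝ)
    (h01 : |∑ n ∈ Ico Y X, p (n + r) * p (n + r + 1) * g n * g (n + 1)| ≤ c01)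
    (h12 : |∑ n ∈ Ico Y X, p (n + r + 1) * p (n + r + 2) * g (n + 1) * g (n + 2)| ≤ c12)
    (h02 : |∑ n ∈ Ico Y X, p (n + r) * p (n + r + 2) * g n * g (n + 2)| ≤ c02) :
    3 * |∑ n ∈ Ico Y X, p (n + r) * g n| ≤
      6 + (((X : ℝ) - Y) + 3 * ∑ n ∈ Ico Y X, g n ^ 2 + 6 + 2 * (c01 + c12 + c02)) / 2 := by
  have hp1 : ∀ n, |p n| ≤ 1 := by
    intro n
    rcases hp n with h | h <;> rw [h] <;> norm_num
  have hp2 : ∀ n, p n ^ 2 = 1 := by
    intro n
    rcases hp n with h | h <;> rw [h] <;> norm_num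
  set V : ℕ → ℝ := fun n => p (n + r) * g n + p (n + r + 1) * g (n + 1) +
    p (n + r + 2) * g (n + 2) with hV
  have hb : ∀ n, |p (n + r) * g n| ≤ 1 := by
    intro n
    rw [abs_mul]
    exact mul_le_one₀ (hp1 _) (abs_nonneg _) (hg _)
  have hb2 : ∀ n, |g n ^ 2| ≤ 1 := by
    intro n
    rw [abs_pow]
    exact pow_le_one₀ (abs_nonneg _) (hg _)
  have s1 := shift_Ico (fun n => p (n + r) * g n) hb Y X 1
  have s2 := shift_Ico (fun n => p (n + r) * g n) hb Y X 2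
  have t1 := shift_Ico (fun n => g n ^ 2) hb2 Y X 1
  have t2 := shift_Ico (fun n => g n ^ 2) hb2 Y X 2
  have hVsum : ∑ n ∈ Ico Y X, V n = ∑ n ∈ Ico Y X, p (n + r) * g n +
      ∑ n ∈ Ico Y X, p (n + 1 + r) * g (n + 1) + ∑ n ∈ Ico Y X, p (n + 2 + r) * g (n + 2) := by
    rw [← sum_add_distrib, ← sum_add_distrib]
    refine sum_congr rfl fun n _ => ?_
    simp only [hV]
    have e1 : n + r + 1 = n + 1 + r := by ring
    have e2 : n + r + 2 = n + 2 + r := by ring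
    rw [e1, e2]
  have hVsq : ∑ n ∈ Ico Y X, V n ^ 2 = ∑ n ∈ Ico Y X, g n ^ 2 + ∑ n ∈ Ico Y X, g (n + 1) ^ 2 +
      ∑ n ∈ Ico Y X, g (n + 2) ^ 2 +
      2 * (∑ n ∈ Ico Y X, p (n + r) * p (n + r + 1) * g n * g (n + 1) +
        ∑ n ∈ Ico Y X, p (n + r + 1) * p (n + r + 2) * g (n + 1) * g (n + 2) +
        ∑ n ∈ Ico Y X, p (n + r) * p (n + r + 2) * g n * g (n + 2)) := by
    rw [← sum_add_distrib, ← sum_add_distrib, ← sum_add_distrib, ← sum_add_distrib, mul_sum,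
      ← sum_add_distrib]
    refine sum_congr rfl fun n _ => ?_
    simp only [hV]
    have e0 := hp2 (n + r)
    have e1 := hp2 (n + r + 1)
    have e2 := hp2 (n + r + 2)
    calc (p (n + r) * g n + p (n + r + 1) * g (n + 1) + p (n + r + 2) * g (n + 2)) ^ 2 =
        p (n + r) ^ 2 * g n ^ 2 + p (n + r + 1) ^ 2 * g (n + 1) ^ 2 +
        p (n + r + 2) ^ 2 * g (n + 2) ^ 2 +
        2 * (p (n + r) * p (n + r + 1) * g n * g (n + 1) +
        p (n + r + 1) * p (n + r + 2) * g (n + 1) * g (n + 2) +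
        p (n + r) * p (n + r + 2) * g n * g (n + 2)) := by ring
      _ = _ := by rw [e0, e1, e2]; ring
  have hcard : ((Ico Y X).card : ℝ) = (X : ℝ) - Y := by
    rw [Nat.card_Ico, Nat.cast_sub hYX]
  have hup : ∀ τ : ℝ, (τ = 1 ∨ τ = -1) →
      τ * ∑ n ∈ Ico Y X, V n ≤ (((X : ℝ) - Y) + ∑ n ∈ Ico Y X, V n ^ 2) / 2 := by
    intro τ hτ
    have h1 : ∀ n ∈ Ico Y X, τ * V n ≤ (1 + V n ^ 2) / 2 := by
      intro n _
      rcases hτ with h | h <;> rw [h]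
      · nlinarith [sq_nonneg (V n - 1)]
      · nlinarith [sq_nonneg (V n + 1)]
    rw [mul_sum]
    refine (sum_le_sum h1).trans (le_of_eq ?_)
    rw [← sum_div, sum_add_distrib, sum_const, nsmul_eq_mul, mul_one, hcard]
  have hu1 := hup 1 (Or.inl rfl)
  have hu2 := hup (-1) (Or.inr rfl)
  rw [hVsum, hVsq] at hu1 hu2
  push_cast at s1 s2 t1 t2
  rw [abs_le] at s1 s2 t1 t2 h01 h12 h02
  rcases abs_cases (∑ n ∈ Ico Y X, p (n + r) * g n) with ⟨g', -⟩ | ⟨g', -⟩ <;> rw [g']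
  · linarith [s1.1, s2.1, t1.2, t2.2, h01.2, h12.2, h02.2]
  · linarith [s1.2, s2.2, t1.2, t2.2, h01.2, h12.2, h02.2]

/-- **autocorrelations**: the average over a set of lengths is at most one third -/
theorem avg_third (p : ℕ → ℝ) (hp : ∀ n, p n = 1 ∨ p n = -1) (N : ℕ) (D : ℝ)
    (hD : Small p (2 * N + 1) D) (K : Finset ℕ) (hK : 0 < K.card) (hKN : K ⊆ range (N + 1))
    (Y X : ℕ) (hYX : Y ≤ X) (hX : X ≤ N) :
    (∑ k ∈ K, |∑ n ∈ Ico Y X, p n * p (n + k)|) / K.card ≤ ((X : ℝ) - Y) / 3 + 6 +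
      D * ((2 * N + 1 : ℕ) : ℝ) / K.card + D * ((2 * N + 1 : ℕ) : ℝ) ^ 2 / (K.card : ℝ) ^ 2 := by
  have h0 : (0 : ℝ) < K.card := by exact_mod_cast hK
  have hp1 : ∀ n, |p n| ≤ 1 := by
    intro n
    rcases hp n with h | h <;> rw [h] <;> norm_num
  set c : ℕ → ℝ := fun k => ∑ n ∈ Ico Y X, p n * p (n + k) with hc
  set s : ℕ → ℝ := fun k => if 0 ≤ c k then 1 else -1 with hs
  have hs1 : ∀ k, |s k| ≤ 1 := by
    intro k
    simp only [hs]
    split_ifs <;> norm_num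
  have hsc : ∀ k, |c k| = s k * c k := by
    intro k
    simp only [hs]
    split_ifs with h
    · rw [abs_of_nonneg h, one_mul]
    · rw [abs_of_neg (not_le.1 h)]; ring
  set g : ℕ → ℝ := G K s p with hgdef
  have hg : ∀ n, |g n| ≤ 1 := abs_G_le K hK s p hs1 hp1
  set U : ℝ := ∑ n ∈ Ico Y X, g n ^ 2 with hU
  set M : ℝ := ((2 * N + 1 : ℕ) : ℝ) with hM
  have hT : (∑ k ∈ K, |c k|) / K.card = ∑ n ∈ Ico Y X, p n * g n := by
    have h1 : ∀ k ∈ K, |c k| = ∑ n ∈ Ico Y X, p n * (s k * p (n + k)) := by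
      intro k _
      rw [hsc, hc, mul_sum]
      refine sum_congr rfl fun n _ => ?_
      ring
    rw [sum_congr rfl h1, sum_comm, sum_div]
    refine sum_congr rfl fun n _ => ?_
    rw [← mul_sum, mul_div_assoc]
    rfl
  have hUk : U = (∑ k ∈ K, s k * ∑ n ∈ Ico Y X, p (n + k) * g n) / K.card := by
    have h1 : ∀ k ∈ K, s k * ∑ n ∈ Ico Y X, p (n + k) * g n =
        ∑ n ∈ Ico Y X, g n * (s k * p (n + k)) := by
      intro k _
      rw [mul_sum]
      refine sum_congr rfl fun n _ => ?_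
      ring
    rw [sum_congr rfl h1, sum_comm, sum_div]
    refine sum_congr rfl fun n _ => ?_
    rw [← mul_sum, mul_div_assoc, pow_two]
    rfl
  -- the cross terms for the shift 0
  have F01 : ∀ t, ‖hat (Ico Y X) (fun n => ((p n * p (n + 1) : ℝ) : ℂ)) t‖ ≤ D :=
    fun t => hD 0 1 (Or.inl ⟨rfl, rfl⟩) t Y X (by omega)
  have F12 : ∀ t, ‖hat (Ico Y X) (fun n => ((p (n + 1) * p (n + 2) : ℝ) : ℂ)) t‖ ≤ D :=
    fun t => hD 1 2 (Or.inr (Or.inl ⟨rfl, rfl⟩)) t Y X (by omega)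
  have F02 : ∀ t, ‖hat (Ico Y X) (fun n => ((p n * p (n + 2) : ℝ) : ℂ)) t‖ ≤ D :=
    fun t => hD 0 2 (Or.inr (Or.inr ⟨rfl, rfl⟩)) t Y X (by omega)
  have C01 := sum_GG hp1 hs1 hK hKN hX 0 1 (fun n => p n * p (n + 1)) D F01
  have C12 := sum_GG hp1 hs1 hK hKN hX 1 2 (fun n => p (n + 1) * p (n + 2)) D F12
  have C02 := sum_GG hp1 hs1 hK hKN hX 0 2 (fun n => p n * p (n + 2)) D F02
  have hbase := basic p g hp hg Y X 0 hYX _ _ _ C01 C12 C02
  -- the cross terms for the shifts in `K`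
  have hrange : ∀ F : ℕ → ℂ, hat (range (2 * N + 1)) F = hat (Ico 0 (2 * N + 1)) F := by
    intro F
    rw [range_eq_Ico]
  have R01 : ∀ t, ‖hat (range (2 * N + 1)) (fun n => ((p n * p (n + 1) : ℝ) : ℂ)) t‖ ≤ D := by
    intro t
    rw [hrange]
    exact hD 0 1 (Or.inl ⟨rfl, rfl⟩) t 0 _ (le_refl _)
  have R12 : ∀ t, ‖hat (range (2 * N + 1)) (fun n => ((p (n + 1) * p (n + 2) : ℝ) : ℂ)) t‖ ≤ D := by
    intro t
    rw [hrange]
    exact hD 1 2 (Or.inr (Or.inl ⟨rfl, rfl⟩)) t 0 _ (le_refl _)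
  have R02 : ∀ t, ‖hat (range (2 * N + 1)) (fun n => ((p n * p (n + 2) : ℝ) : ℂ)) t‖ ≤ D := by
    intro t
    rw [hrange]
    exact hD 0 2 (Or.inr (Or.inr ⟨rfl, rfl⟩)) t 0 _ (le_refl _)
  have hgg : ∀ i j n, |g (n + i) * g (n + j)| ≤ 1 := by
    intro i j n
    rw [abs_mul]
    exact mul_le_one₀ (hg _) (abs_nonneg _) (hg _)
  have S01 := sum_shift (Y := Y) hKN hX (fun n => g (n + 0) * g (n + 1)) (hgg 0 1) _ D R01
  have S12 := sum_shift (Y := Y) hKN hX (fun n => g (n + 1) * g (n + 2)) (hgg 1 2) _ D R12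
  have S02 := sum_shift (Y := Y) hKN hX (fun n => g (n + 0) * g (n + 2)) (hgg 0 2) _ D R02
  have hk : ∀ k ∈ K, 3 * |∑ n ∈ Ico Y X, p (n + k) * g n| ≤
      6 + (((X : ℝ) - Y) + 3 * U + 6 + 2 * (
        |∑ n ∈ Ico Y X, p (n + k) * p (n + k + 1) * (g (n + 0) * g (n + 1))| +
        |∑ n ∈ Ico Y X, p (n + k + 1) * p (n + k + 2) * (g (n + 1) * g (n + 2))| +
        |∑ n ∈ Ico Y X, p (n + k) * p (n + k + 2) * (g (n + 0) * g (n + 2))|)) / 2 := by
    intro k _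
    refine basic p g hp hg Y X k hYX _ _ _ (le_of_eq ?_) (le_of_eq ?_) (le_of_eq ?_)
    · congr 1
      refine sum_congr rfl fun n _ => ?_
      rw [add_zero]; ring
    · congr 1
      refine sum_congr rfl fun n _ => ?_
      ring
    · congr 1
      refine sum_congr rfl fun n _ => ?_
      rw [add_zero]; ring
  have hsumk := sum_le_sum hk
  simp only [← mul_sum, sum_add_distrib, ← sum_div, sum_const, nsmul_eq_mul] at hsumk
  have hUle : U * K.card ≤ ∑ k ∈ K, |∑ n ∈ Ico Y X, p (n + k) * g n| := by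
    rw [hUk, div_mul_cancel₀ _ h0.ne']
    refine sum_le_sum fun k _ => ?_
    refine (le_abs_self _).trans ?_
    rw [abs_mul]
    calc |s k| * _ ≤ 1 * _ := mul_le_mul_of_nonneg_right (hs1 k) (abs_nonneg _)
      _ = _ := one_mul _
  have hU1 : U ≤ ((X : ℝ) - Y) / 3 + 6 + 2 * (D * M / K.card) := by
    have h1 : 3 * (U * K.card) ≤ K.card * 6 + (K.card * ((X : ℝ) - Y) + K.card * (3 * U) +
        K.card * 6 + 2 * (D * M + D * M + D * M)) / 2 := by
      refine le_trans (mul_le_mul_of_nonneg_left hUle (by norm_num)) (hsumk.trans ?_)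
      have S01' : ∑ k ∈ K, |∑ n ∈ Ico Y X, p (n + k) * p (n + k + 1) *
          (g (n + 0) * g (n + 1))| ≤ D * M := S01
      have S12' : ∑ k ∈ K, |∑ n ∈ Ico Y X, p (n + k + 1) * p (n + k + 2) *
          (g (n + 1) * g (n + 2))| ≤ D * M := S12
      have S02' : ∑ k ∈ K, |∑ n ∈ Ico Y X, p (n + k) * p (n + k + 2) *
          (g (n + 0) * g (n + 2))| ≤ D * M := S02
      linarith
    have h2 : U * K.card ≤ (((X : ℝ) - Y) / 3 + 6 + 2 * (D * M / K.card)) * K.card := by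
      have h3 : (((X : ℝ) - Y) / 3 + 6 + 2 * (D * M / K.card)) * K.card =
          K.card * ((X : ℝ) - Y) / 3 + 6 * K.card + 2 * (D * M) := by
        field_simp
      rw [h3]
      nlinarith
    exact le_of_mul_le_mul_right h2 h0
  have hbase' : 3 * |∑ n ∈ Ico Y X, p n * g n| ≤
      6 + (((X : ℝ) - Y) + 3 * U + 6 + 2 * (3 * (D * M ^ 2 / (K.card : ℝ) ^ 2))) / 2 := by
    refine le_trans (le_of_eq ?_) (hbase.trans (le_of_eq ?_))
    · simp only [add_zero]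
    · rw [hU, hM]
      ring
  rw [hT]
  have h9 := le_abs_self (∑ n ∈ Ico Y X, p n * g n)
  have h10 : D * M ^ 2 / (K.card : ℝ) ^ 2 = D * M ^ 2 / (K.card : ℝ) ^ 2 := rfl
  linarith

end Pool.Agent.X23.CS
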