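import Pool.Agent.X23.CS3
import Pool.Agent.Y842.QG.Fin
import Pool.Agent.TH823.MRS.Circ5

/-!
# The exceptional set of scales for one and two values of the Liouville function
-/

open Finset Filter

namespace Pool.Agent.X23.CS

open Pool.Agent.Y958.U (LZ)
open Pool.Agent.Y842.EL (LZ_mono LZ_union LZ_pull)

theorem e_eq (x : ℝ) : Pool.Agent.Helper602.MK.ee x = e x := rfl

theorem liR_eq (n : ℕ) : Pool.Agent.H373R2.T7.liR n = ((lam n : ℝ) : ℂ) := by
  unfold Pool.Agent.H373R2.T7.liR lam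
  push_cast
  rfl

theorem liR_flp (p : ℕ) (hp : p.Prime) : Pool.Agent.Y842.PG.Flp Pool.Agent.H373R2.T7.liR p := by
  refine ⟨-1, by rw [norm_neg, norm_one], fun n hn => ?_⟩
  have hn0 : n ≠ 0 := fun h => hn (h ▸ dvd_zero p)
  unfold Pool.Agent.H373R2.T7.liR
  rw [ArithmeticFunction.cardFactors_mul hp.ne_zero hn0, ArithmeticFunction.cardFactors_apply_prime hp,
    pow_add, pow_one]

theorem exceptional : ∃ E : Set ℕ, LogDensityZero E ∧ One E ∧ Two E := by
  obtain ⟨E₁, hE₁, h1⟩ := Pool.Agent.Y842.QG.exc_sg Pool.Agent.H373R2.T7.liR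
    Pool.Agent.H373R2.T7.liR_norm Pool.Agent.TH823.MRS.liR_E liR_flp (fun _ => 1)
    (fun _ => by rw [norm_one]) (fun _ => 1) (fun _ _ => by rw [norm_one])
    (fun _ _ _ _ _ => by rw [mul_one])
  obtain ⟨E₂, hE₂, h2⟩ := Pool.Agent.Y842.QG.exc_sg Pool.Agent.H373R2.T7.liR
    Pool.Agent.H373R2.T7.liR_norm Pool.Agent.TH823.MRS.liR_E liR_flp (fun _ => 1)
    (fun _ => by rw [norm_one]) Pool.Agent.H373R2.T7.liR
    (fun _ _ => Pool.Agent.H373R2.T7.liR_norm _)
    (fun m n hm hn _ => by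
      unfold Pool.Agent.H373R2.T7.liR
      rw [ArithmeticFunction.cardFactors_mul (by omega) (by omega), pow_add])
  refine ⟨E₁ ∪ E₂, LZ_union hE₁ hE₂, ?_, ?_⟩
  · intro c ε hε
    obtain ⟨N₀, h⟩ := h1 c (c + 1) (by omega) ε hε
    refine ⟨N₀, fun N hN hNE α y hy => ?_⟩
    have h3 := h N hN (fun hcon => hNE (Set.mem_union_left _ hcon)) α y hy
    refine le_trans (le_of_eq ?_) h3
    congr 1
    refine sum_congr rfl fun n _ => ?_
    rw [e_eq, liR_eq, one_mul, one_mul]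
  · intro d hd ε hε
    obtain ⟨N₀, h⟩ := h2 d 0 (by omega) ε hε
    refine ⟨N₀, fun N hN hNE α y hy => ?_⟩
    have h3 := h N hN (fun hcon => hNE (Set.mem_union_right _ hcon)) α y hy
    refine le_trans (le_of_eq ?_) h3
    congr 1
    refine sum_congr rfl fun n _ => ?_
    rw [e_eq, liR_eq, liR_eq, one_mul, add_zero]
    push_cast
    rfl

theorem pull {E : Set ℕ} (hE : LogDensityZero E) (a c : ℕ) (ha : 1 ≤ a) :
    LogDensityZero {N | a * N + c ∈ E} := LZ_pull hE a c ha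

theorem ldz_sub {E F : Set ℕ} (h : E ⊆ F) (hF : LogDensityZero F) : LogDensityZero E :=
  LZ_mono h hF

end Pool.Agent.X23.CS
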