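import Pool.Agent.X23.CS6

/-!
# Logarithmic sums along progressions
-/

open Finset Filter

namespace Pool.Agent.X23.CS

theorem log_sums {E : Set ℕ} (hE : LogDensityZero E) (h2 : Two E) (a b k : ℕ) (ha : 1 ≤ a)
    (hk : 1 ≤ k) (ε : ℝ) (hε : 0 < ε) : ∃ X₀ : ℕ, ∀ X : ℕ, X₀ ≤ X →
      |∑ n ∈ Icc 1 X, prodL a b k n / n| ≤ (1 / 2 + ε) * Real.log X := by
  refine log_part (pull hE a b ha) (prodL a b k) (fun n => ?_) (1 / 2) (by norm_num) ?_ ε hε
  · rcases prodL_pm a b k n with h | h <;> rw [h] <;> norm_num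
  · intro δ hδ
    have hab : (0 : ℝ) < a + b := by
      have : (1 : ℝ) ≤ a := by exact_mod_cast ha
      positivity
    obtain ⟨N₀, hN₀⟩ := part1 h2 a k ha hk (δ / (a + b)) (by positivity)
    refine ⟨N₀ + 1, fun N hN hNE => ?_⟩
    have hN1 : (1 : ℝ) ≤ N := by exact_mod_cast (by omega : 1 ≤ N)
    have hle : N ≤ a * N + b := by nlinarith
    have h3 := hN₀ (a * N + b) (by omega) hNE b 0 N (Nat.zero_le _) le_rfl 0
    have h4 : ∑ n ∈ Ioc 0 N, (prodL a b k n : ℂ) * e (0 * n) =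
        ((∑ n ∈ Icc 1 N, prodL a b k n : ℝ) : ℂ) := by
      push_cast
      refine sum_congr rfl fun n _ => ?_
      rw [zero_mul, e_zero, mul_one]
    rw [h4, Complex.norm_real, Real.norm_eq_abs] at h3
    refine h3.trans ?_
    have h5 : δ / (a + b) * ((a * N + b : ℕ) : ℝ) ≤ δ * N := by
      rw [div_mul_eq_mul_div, div_le_iff₀ hab]
      push_cast
      have hb0 : (0 : ℝ) ≤ b := Nat.cast_nonneg _
      have : (a : ℝ) * N + b ≤ N * (a + b) := by nlinarith
      nlinarith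
    have : ((0 : ℕ) : ℝ) = 0 := Nat.cast_zero
    rw [this]
    linarith

end Pool.Agent.X23.CS
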