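import Pool.Agent.X23.CS5
import Pool.Agent.X23.CS7

/-!
# Almost all lengths: the bound one third on all the intervals
-/

open Finset Filter

namespace Pool.Agent.X23.CS

open Classical in
/-- The number of the elements of the finite set `I` with the property `E`. -/
noncomputable def num (I : Finset ℕ) (E : ℕ → Prop) : ℝ := ((I.filter E).card : ℝ)

/-- the autocorrelation over an interval -/
noncomputable def au (p : ℕ → ℝ) (k Y X : ℕ) : ℝ := ∑ n ∈ Ioc Y X, p n * p (n + k)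

theorem au_Ico (p : ℕ → ℝ) (k Y X : ℕ) :
    au p k Y X = ∑ n ∈ Ico (Y + 1) (X + 1), p n * p (n + k) := by
  unfold au
  have : Ioc Y X = Ico (Y + 1) (X + 1) := by
    ext n
    simp only [mem_Ioc, mem_Ico]
    omega
  rw [this]

theorem num_mono {I : Finset ℕ} {E F : ℕ → Prop} (h : ∀ k ∈ I, E k → F k) : num I E ≤ num I F := by
  classical
  unfold num
  refine Nat.cast_le.2 (card_le_card fun k hk => ?_)
  rw [mem_filter] at hk ⊢
  exact ⟨hk.1, h k hk.1 hk.2⟩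

theorem num_zero {I : Finset ℕ} {E : ℕ → Prop} (h : ∀ k ∈ I, ¬ E k) : num I E = 0 := by
  classical
  unfold num
  rw [Nat.cast_eq_zero, card_eq_zero, filter_eq_empty_iff]
  exact fun k hk => h k hk

theorem few_pair (p : ℕ → ℝ) (hp : ∀ n, p n = 1 ∨ p n = -1) (N : ℕ) (D : ℝ)
    (hD : Small p (2 * (N + 1) + 1) D) (Y X : ℕ) (hYX : Y ≤ X) (hX : X ≤ N) (κ ρ : ℝ) (hκ : 0 < κ)
    (hρ : 6 + D * ((2 * (N + 1) + 1 : ℕ) : ℝ) / κ + D * ((2 * (N + 1) + 1 : ℕ) : ℝ) ^ 2 / κ ^ 2 < ρ) :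
    num (Icc 1 N) (fun k => ((X : ℝ) - Y) / 3 + ρ < |au p k Y X|) ≤ κ := by
  classical
  by_contra hcon
  rw [not_le] at hcon
  unfold num at hcon
  set K := (Icc 1 N).filter (fun k => ((X : ℝ) - Y) / 3 + ρ < |au p k Y X|) with hK
  have hK0 : (0 : ℝ) < K.card := lt_trans hκ hcon
  have hK1 : 0 < K.card := by exact_mod_cast hK0
  have hD0 : 0 ≤ D := (norm_nonneg _).trans (hD 0 1 (Or.inl ⟨rfl, rfl⟩) 0 0 0 (Nat.zero_le _))
  have h1 := avg_third p hp (N + 1) D hD K hK1 (fun k hk => by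
    have := mem_Icc.1 (mem_filter.1 hk).1
    exact mem_range.2 (by omega)) (Y + 1) (X + 1) (by omega) (by omega)
  have h2 : K.card * (((X : ℝ) - Y) / 3 + ρ) ≤
      ∑ k ∈ K, |∑ n ∈ Ico (Y + 1) (X + 1), p n * p (n + k)| := by
    rw [← nsmul_eq_mul, ← sum_const]
    refine sum_le_sum fun k hk => ?_
    rw [← au_Ico]
    exact (mem_filter.1 hk).2.le
  have h3 : ((X : ℝ) - Y) / 3 + ρ ≤
      (∑ k ∈ K, |∑ n ∈ Ico (Y + 1) (X + 1), p n * p (n + k)|) / K.card := by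
    rw [le_div_iff₀ hK0, mul_comm]
    exact h2
  have h4 : D * ((2 * (N + 1) + 1 : ℕ) : ℝ) / K.card ≤ D * ((2 * (N + 1) + 1 : ℕ) : ℝ) / κ :=
    div_le_div_of_nonneg_left (by positivity) hκ hcon.le
  have h5 : D * ((2 * (N + 1) + 1 : ℕ) : ℝ) ^ 2 / (K.card : ℝ) ^ 2 ≤
      D * ((2 * (N + 1) + 1 : ℕ) : ℝ) ^ 2 / κ ^ 2 :=
    div_le_div_of_nonneg_left (by positivity) (by positivity)
      (pow_le_pow_left₀ hκ.le hcon.le 2)
  have h6 : (((X + 1 : ℕ) : ℝ) - ((Y + 1 : ℕ) : ℝ)) / 3 = ((X : ℝ) - Y) / 3 := by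
    push_cast
    ring
  rw [h6] at h1
  linarith

theorem num_union {ι : Type*} (T : Finset ι) (I : Finset ℕ) (E : ι → ℕ → Prop) (F : ℕ → Prop)
    (h : ∀ k ∈ I, F k → ∃ t ∈ T, E t k) : num I F ≤ ∑ t ∈ T, num I (E t) := by
  classical
  unfold num
  have h1 : I.filter F ⊆ T.biUnion (fun t => I.filter (E t)) := by
    intro k hk
    rw [mem_filter] at hk
    obtain ⟨t, ht, hE⟩ := h k hk.1 hk.2
    exact mem_biUnion.2 ⟨t, ht, mem_filter.2 ⟨hk.1, hE⟩⟩
  have h2 := (card_le_card h1).trans card_biUnion_le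
  exact_mod_cast h2

theorem au_split (p : ℕ → ℝ) (k : ℕ) {Y X Z : ℕ} (h1 : Y ≤ X) (h2 : X ≤ Z) :
    au p k Y Z = au p k Y X + au p k X Z := by
  unfold au
  exact (sum_Ioc_consecutive _ h1 h2).symm

theorem au_abs (p : ℕ → ℝ) (hp : ∀ n, p n = 1 ∨ p n = -1) (k : ℕ) {Y X : ℕ} (h : Y ≤ X) :
    |au p k Y X| ≤ (X : ℝ) - Y := by
  unfold au
  refine (abs_sum_le_sum_abs _ _).trans ?_
  have : ∀ n ∈ Ioc Y X, |p n * p (n + k)| ≤ 1 := by
    intro n _
    rcases hp n with h | h <;> rcases hp (n + k) with g | g <;> rw [h, g] <;> norm_num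
  refine (sum_le_sum this).trans (le_of_eq ?_)
  rw [sum_const, Nat.card_Ioc, nsmul_eq_mul, mul_one, Nat.cast_sub h]

/-- the bound one third on all the intervals, for almost all the shifts -/
theorem third_all (ε : ℝ) (hε : 0 < ε) : ∃ δ : ℝ, 0 < δ ∧ ∃ N₀ : ℕ, ∀ N : ℕ, N₀ ≤ N →
    ∀ p : ℕ → ℝ, (∀ n, p n = 1 ∨ p n = -1) → Small p (2 * (N + 1) + 1) (δ * N) →
      num (Icc 1 N) (fun k => ¬ ∀ Y X : ℕ, Y ≤ X → X ≤ N →
        |au p k Y X| ≤ ((X : ℝ) - Y) / 3 + ε * N) ≤ ε * N := by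
  obtain ⟨G, hG⟩ := exists_nat_ge (16 / ε)
  set κ₀ : ℝ := ε / (G + 1) ^ 2 with hκ₀
  have hκ₀pos : 0 < κ₀ := by positivity
  set δ : ℝ := ε / 8 / (5 / κ₀ + 25 / κ₀ ^ 2) with hδdef
  have hδ : 0 < δ := by positivity
  obtain ⟨N₁, hN₁⟩ := exists_nat_ge (64 / ε)
  refine ⟨δ, hδ, max N₁ 3, fun N hN p hp hS => ?_⟩
  have hNN₁ : N₁ ≤ N := le_trans (le_max_left _ _) hN
  have hN3 : 3 ≤ N := le_trans (le_max_right _ _) hN
  have hN3r : (3 : ℝ) ≤ N := by exact_mod_cast hN3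
  have hNpos : (0 : ℝ) < N := by linarith
  have hbig : 64 ≤ ε * N := by
    have h3 : 64 / ε ≤ N := le_trans hN₁ (by exact_mod_cast hNN₁)
    rw [div_le_iff₀ hε] at h3
    linarith
  -- the step of the grid
  set h : ℕ := ⌊ε / 8 * N⌋₊ with hh
  have hh1 : (h : ℝ) ≤ ε / 8 * N := Nat.floor_le (by positivity)
  have hh2 : ε / 8 * N < h + 1 := Nat.lt_floor_add_one _
  have hh3 : ε / 16 * N ≤ h := by linarith
  have hhpos : (0 : ℝ) < h := by linarith [mul_pos (div_pos hε (by norm_num : (0 : ℝ) < 16)) hNpos]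
  have hhpos' : 0 < h := by exact_mod_cast hhpos
  have hcell : ∀ X : ℕ, X ≤ N → X / h < G + 1 := by
    intro X hX
    rw [Nat.div_lt_iff_lt_mul hhpos']
    have h1 : (N : ℝ) ≤ G * h := by
      have h2 : 16 ≤ ε * G := by
        rw [div_le_iff₀ hε] at hG
        linarith
      have h3 : (16 : ℝ) * N ≤ (ε * G) * N := by nlinarith
      have hG0 : (0 : ℝ) ≤ G := Nat.cast_nonneg _
      nlinarith
    have h2 : N ≤ G * h := by exact_mod_cast h1
    have h3 : (G + 1) * h = G * h + h := by ring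
    omega
  have hpair : ∀ t ∈ (range (G + 1)) ×ˢ (range (G + 1)),
      num (Icc 1 N) (fun k => t.1 * h ≤ t.2 * h ∧ t.2 * h ≤ N ∧
        (((t.2 * h : ℕ) : ℝ) - ((t.1 * h : ℕ) : ℝ)) / 3 + ε / 4 * N < |au p k (t.1 * h) (t.2 * h)|) ≤
        κ₀ * N := by
    intro t _
    by_cases ht : t.1 * h ≤ t.2 * h ∧ t.2 * h ≤ N
    · have h1 := few_pair p hp N (δ * N) hS (t.1 * h) (t.2 * h) ht.1 ht.2 (κ₀ * N) (ε / 4 * N)
        (by positivity) (by
          have hM : ((2 * (N + 1) + 1 : ℕ) : ℝ) ≤ 5 * N := by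
            push_cast
            linarith
          have hM0 : (0 : ℝ) ≤ ((2 * (N + 1) + 1 : ℕ) : ℝ) := Nat.cast_nonneg _
          have e1 : δ * N * ((2 * (N + 1) + 1 : ℕ) : ℝ) / (κ₀ * N) ≤ δ * (5 / κ₀) * N := by
            rw [div_le_iff₀ (by positivity)]
            calc δ * N * ((2 * (N + 1) + 1 : ℕ) : ℝ) ≤ δ * N * (5 * N) :=
                  mul_le_mul_of_nonneg_left hM (by positivity)
              _ = _ := by field_simp
          have e2 : δ * N * ((2 * (N + 1) + 1 : ℕ) : ℝ) ^ 2 / (κ₀ * N) ^ 2 ≤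
              δ * (25 / κ₀ ^ 2) * N := by
            rw [div_le_iff₀ (by positivity)]
            calc δ * N * ((2 * (N + 1) + 1 : ℕ) : ℝ) ^ 2 ≤ δ * N * (5 * N) ^ 2 :=
                  mul_le_mul_of_nonneg_left (pow_le_pow_left₀ hM0 hM 2) (by positivity)
              _ = _ := by field_simp; ring
          have e3 : δ * (5 / κ₀) * N + δ * (25 / κ₀ ^ 2) * N = ε / 8 * N := by
            rw [hδdef]
            field_simp
          have e4 : (6 : ℝ) < ε / 8 * N := by linarith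
          linarith)
      exact (num_mono fun k _ hk => hk.2.2).trans h1
    · have : num (Icc 1 N) (fun k => t.1 * h ≤ t.2 * h ∧ t.2 * h ≤ N ∧
        (((t.2 * h : ℕ) : ℝ) - ((t.1 * h : ℕ) : ℝ)) / 3 + ε / 4 * N < |au p k (t.1 * h) (t.2 * h)|) = 0 := by
        exact num_zero fun k _ hk => ht ⟨hk.1, hk.2.1⟩
      rw [this]
      positivity
  refine (num_union ((range (G + 1)) ×ˢ (range (G + 1))) (Icc 1 N)
    (fun t k => t.1 * h ≤ t.2 * h ∧ t.2 * h ≤ N ∧
        (((t.2 * h : ℕ) : ℝ) - ((t.1 * h : ℕ) : ℝ)) / 3 + ε / 4 * N < |au p k (t.1 * h) (t.2 * h)|)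
    _ ?_).trans ?_
  · intro k _ hk
    by_contra hcon
    apply hk
    intro Y X hYX hX
    push Not at hcon
    have c1 : Y / h * h ≤ X / h * h := Nat.mul_le_mul_right _ (Nat.div_le_div_right hYX)
    have c2 : X / h * h ≤ X := Nat.div_mul_le_self _ _
    have c3 : Y / h * h ≤ Y := Nat.div_mul_le_self _ _
    have c4 : X < X / h * h + h := Nat.lt_div_mul_add hhpos'
    have c5 : Y < Y / h * h + h := Nat.lt_div_mul_add hhpos'
    have h1 := hcon (Y / h, X / h) (mem_product.2 ⟨mem_range.2 (hcell Y (hYX.trans hX)),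
      mem_range.2 (hcell X hX)⟩) c1 (c2.trans hX)
    simp only at h1
    set Y' := Y / h * h with hY'
    set X' := X / h * h with hX'
    have s1 : au p k Y' X = au p k Y' X' + au p k X' X := au_split p k c1 c2
    have s2 : au p k Y' X = au p k Y' Y + au p k Y X := au_split p k c3 hYX
    have b1 := au_abs p hp k c2
    have b2 := au_abs p hp k c3
    have c2r : (X' : ℝ) ≤ X := by exact_mod_cast c2
    have c3r : (Y' : ℝ) ≤ Y := by exact_mod_cast c3
    have c4r : (X : ℝ) ≤ X' + h := by exact_mod_cast c4.le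
    have c5r : (Y : ℝ) ≤ Y' + h := by exact_mod_cast c5.le
    have h5 : au p k Y X = au p k Y' X' + au p k X' X - au p k Y' Y := by linarith
    rw [h5]
    rw [abs_le] at h1 b1 b2 ⊢
    constructor <;> linarith [h1.1, h1.2, b1.1, b1.2, b2.1, b2.2]
  · refine (sum_le_sum hpair).trans ?_
    rw [sum_const, card_product, card_range, nsmul_eq_mul]
    push_cast
    have : ((G : ℝ) + 1) * (G + 1) * (κ₀ * N) = ε * N := by
      rw [hκ₀]
      field_simp
    exact this.le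

end Pool.Agent.X23.CS
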