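import Pool.Agent.X23.CS8

/-!
# Almost all lengths: the Liouville function
-/

open Finset Filter

namespace Pool.Agent.X23.CS

theorem P_pm (a b n : ℕ) : prodL a b n 0 = 1 ∨ prodL a b n 0 = -1 := prodL_pm a b n 0

theorem P_mul (a b n k : ℕ) : prodL a b n 0 * prodL a b (n + k) 0 = prodL a b k n := by
  have h : prodL a b (n + k) 0 = prodL a b n 0 * prodL a b k n := by
    unfold prodL
    rw [prod_range_add]
    congr 1
    refine prod_congr rfl fun j _ => ?_
    rw [zero_add]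
  rw [h, ← mul_assoc]
  rcases P_pm a b n with g | g <;> rw [g] <;> norm_num

theorem prodL_one (a b n : ℕ) : prodL a b 1 n = lam (a * n + b) := by
  unfold prodL
  rw [prod_range_one, add_zero]

theorem prodL_two (a b n : ℕ) : prodL a b 2 n = lam (a * n + b) * lam (a * n + b + a) := by
  unfold prodL
  rw [prod_range_succ, prod_range_one, add_zero]
  congr 2
  ring

theorem hat_Ico (F : ℕ → ℂ) (hF : ∀ n, ‖F n‖ ≤ 1) (t : ℝ) (Y X : ℕ) (D : ℝ) (hD : 0 ≤ D)
    (h : ∀ Y' X' : ℕ, Y' ≤ X' → X' + 1 ≤ X → ‖∑ n ∈ Ioc Y' X', F n * e (t * n)‖ ≤ D) :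
    ‖hat (Ico Y X) F t‖ ≤ D + 1 := by
  rcases Nat.lt_or_ge Y X with hYX | hYX
  · rcases Nat.eq_zero_or_pos Y with rfl | hY
    · have h1 : hat (Ico 0 X) F t = F 0 * e (t * (0 : ℕ)) +
          ∑ n ∈ Ioc 0 (X - 1), F n * e (t * n) := by
        unfold hat
        have h2 : Ico 0 X = insert 0 (Ioc 0 (X - 1)) := by
          ext n
          simp only [mem_Ico, mem_insert, mem_Ioc]
          omega
        rw [h2, sum_insert (by simp)]
      rw [h1]
      refine (norm_add_le _ _).trans ?_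
      have h2 := h 0 (X - 1) (Nat.zero_le _) (by omega)
      have h3 : ‖F 0 * e (t * (0 : ℕ))‖ ≤ 1 := by
        rw [norm_mul, norm_e, mul_one]
        exact hF 0
      linarith
    · have h1 : hat (Ico Y X) F t = ∑ n ∈ Ioc (Y - 1) (X - 1), F n * e (t * n) := by
        unfold hat
        have h2 : Ico Y X = Ioc (Y - 1) (X - 1) := by
          ext n
          simp only [mem_Ico, mem_Ioc]
          omega
        rw [h2]
      rw [h1]
      have h2 := h (Y - 1) (X - 1) (by omega) (by omega)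
      linarith
  · unfold hat
    rw [Ico_eq_empty (by omega), sum_empty, norm_zero]
    positivity

theorem small_prod {E : Set ℕ} (h1 : One E) (h2 : Two E) (a B : ℕ) (ha : 1 ≤ a) (δ : ℝ)
    (hδ : 0 < δ) : ∃ N₀ : ℕ, ∀ N : ℕ, N₀ ≤ N → (2 * a + B) * N + 4 * a ∉ E → ∀ b : ℕ, b ≤ B * N →
      Small (fun n => prodL a b n 0) (2 * (N + 1) + 1) (δ * N) := by
  have ha0 : (1 : ℝ) ≤ a := by exact_mod_cast ha
  have hB0 : (0 : ℝ) ≤ B := Nat.cast_nonneg _
  set η : ℝ := δ / (4 * (6 * a + B)) with hη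
  have hηpos : 0 < η := by positivity
  obtain ⟨N₁, g1⟩ := h1 0 η hηpos
  obtain ⟨N₂, g2⟩ := h1 a η hηpos
  obtain ⟨N₃, g3⟩ := h2 a ha η hηpos
  obtain ⟨N₄, hN₄⟩ := exists_nat_ge (2 / δ)
  refine ⟨max (max N₁ N₂) (max N₃ (max N₄ 1)), fun N hN hNE b hb => ?_⟩
  have k1 : N₁ ≤ N := (le_max_left _ _).trans ((le_max_left _ _).trans hN)
  have k2 : N₂ ≤ N := (le_max_right _ _).trans ((le_max_left _ _).trans hN)
  have k3 : N₃ ≤ N := (le_max_left _ _).trans ((le_max_right _ _).trans hN)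
  have k4 : N₄ ≤ N := (le_max_left _ _).trans ((le_max_right _ _).trans ((le_max_right _ _).trans hN))
  have k5 : 1 ≤ N := (le_max_right _ _).trans ((le_max_right _ _).trans ((le_max_right _ _).trans hN))
  set M := (2 * a + B) * N + 4 * a with hM
  have hNM : N ≤ M := by
    have : 1 * N ≤ (2 * a + B) * N := Nat.mul_le_mul_right _ (by omega)
    omega
  have k5r : (1 : ℝ) ≤ N := by exact_mod_cast k5
  have hMr : (M : ℝ) ≤ (6 * a + B) * N := by
    rw [hM]
    push_cast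
    nlinarith
  have hone : 1 ≤ δ / 2 * N := by
    have h3 : 2 / δ ≤ N := hN₄.trans (by exact_mod_cast k4)
    rw [div_le_iff₀ hδ] at h3
    linarith
  have hηM : 2 * (η * M) ≤ δ / 2 * N := by
    calc 2 * (η * M) ≤ 2 * (η * ((6 * a + B) * N)) := by gcongr
      _ = δ / 2 * N := by
        rw [hη]
        field_simp
        ring
  have hηM0 : 0 ≤ 2 * (η * M) := by positivity
  have hfin : 2 * (η * M) + 1 ≤ δ * N := by linarith
  have hb' : ∀ X' : ℕ, X' + 1 ≤ 2 * (N + 1) + 1 → a * X' + b ≤ M := by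
    intro X' hX'
    have : a * X' ≤ a * (2 * N + 2) := Nat.mul_le_mul_left _ (by omega)
    rw [hM]
    nlinarith
  have hlam1 : ∀ n : ℕ, ‖((lam n : ℝ) : ℂ)‖ ≤ 1 := by
    intro n
    rw [Complex.norm_real, Real.norm_eq_abs]
    rcases lam_pm n with h | h <;> rw [h] <;> norm_num
  intro i j hij t Y X hX
  have hbd : ∀ n, ‖((prodL a b (n + i) 0 * prodL a b (n + j) 0 : ℝ) : ℂ)‖ ≤ 1 := by
    intro n
    rw [Complex.norm_real, Real.norm_eq_abs, abs_mul]
    rcases P_pm a b (n + i) with h | h <;> rcases P_pm a b (n + j) with g | g <;>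
      rw [h, g] <;> norm_num
  refine (hat_Ico _ hbd t Y X (2 * (η * M)) hηM0 ?_).trans hfin
  intro Y' X' hYX' hX'
  have hle := hb' X' (hX'.trans hX)
  rcases hij with ⟨rfl, rfl⟩ | ⟨rfl, rfl⟩ | ⟨rfl, rfl⟩
  · have h3 := ap_bound (fun m => ((lam (m + 0) : ℝ) : ℂ)) M (η * M)
      (fun α y hy => g1 M (k1.trans hNM) hNE α y hy) a b Y' X' ha hYX' hle t
    refine le_trans (le_of_eq ?_) h3
    congr 1
    refine sum_congr rfl fun n _ => ?_
    rw [add_zero, P_mul, prodL_one, add_zero]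
  · have h3 := ap_bound (fun m => ((lam (m + a) : ℝ) : ℂ)) M (η * M)
      (fun α y hy => g2 M (k2.trans hNM) hNE α y hy) a b Y' X' ha hYX' hle t
    refine le_trans (le_of_eq ?_) h3
    congr 1
    refine sum_congr rfl fun n _ => ?_
    rw [show n + 2 = n + 1 + 1 from rfl, P_mul, prodL_one, show a * (n + 1) + b = a * n + b + a by ring]
  · have h3 := ap_bound (fun m => ((lam m * lam (m + a) : ℝ) : ℂ)) M (η * M)
      (fun α y hy => g3 M (k3.trans hNM) hNE α y hy) a b Y' X' ha hYX' hle t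
    refine le_trans (le_of_eq ?_) h3
    congr 1
    refine sum_congr rfl fun n _ => ?_
    rw [add_zero, P_mul, prodL_two]

theorem third_liouville : ∃ E : Set ℕ, LogDensityZero E ∧ ∀ a B : ℕ, 1 ≤ a → ∀ ε : ℝ, 0 < ε →
    ∃ N₀ : ℕ, ∀ N : ℕ, N₀ ≤ N → N ∉ E → ∀ b : ℕ, b ≤ B * N →
      num (Icc 1 N) (fun k => ¬ ∀ Y X : ℕ, Y ≤ X → X ≤ N →
        |sumL a b k Y X| ≤ ((X : ℝ) - Y) / 3 + ε * N) ≤ ε * N := by
  obtain ⟨E, hE, h1, h2⟩ := exceptional
  obtain ⟨F, hF, hdiag⟩ := Pool.Agent.Y842.EL.LZ_diag'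
    (fun t : ℕ × ℕ => {N | (2 * (t.1 + 1) + t.2) * N + 4 * (t.1 + 1) ∈ E})
    (fun t => pull hE _ _ (by omega))
  refine ⟨F, hF, fun a B ha ε hε => ?_⟩
  obtain ⟨δ, hδ, N₁, g1⟩ := third_all ε hε
  obtain ⟨N₂, g2⟩ := small_prod h1 h2 a B ha δ hδ
  obtain ⟨N₃, g3⟩ := hdiag (a - 1, B)
  refine ⟨max N₁ (max N₂ N₃), fun N hN hNF b hb => ?_⟩
  have k1 : N₁ ≤ N := (le_max_left _ _).trans hN
  have k2 : N₂ ≤ N := (le_max_left _ _).trans ((le_max_right _ _).trans hN)
  have k3 : N₃ ≤ N := (le_max_right _ _).trans ((le_max_right _ _).trans hN)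
  have hNE : (2 * a + B) * N + 4 * a ∉ E := by
    intro hcon
    refine hNF (g3 N k3 ?_)
    have : a - 1 + 1 = a := by omega
    simp only [Set.mem_setOf_eq, this]
    exact hcon
  have h3 := g1 N k1 (fun n => prodL a b n 0) (P_pm a b) (g2 N k2 hNE b hb)
  refine le_trans (le_of_eq ?_) h3
  congr 1
  funext k
  have : ∀ Y X : ℕ, au (fun n => prodL a b n 0) k Y X = sumL a b k Y X := by
    intro Y X
    unfold au sumL
    exact sum_congr rfl fun n _ => P_mul a b n k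
  simp only [this]

end Pool.Agent.X23.CS
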