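import Pool.Agent.X23.CS2

/-!
# From correlations with one shift to products of consecutive values, arbitrary weights
-/

open Finset

namespace Pool.Agent.X23.CT

open Pool.Agent.X23.CS

theorem ap_sum (F : ℕ → ℂ) (a b : ℕ) (ha : 1 ≤ a) (hF : ∀ m, b ≤ m → ¬ a ∣ (m - b) → F m = 0)
    (Y X : ℕ) (hYX : Y ≤ X) :
    ∑ m ∈ Ioc (a * Y + b) (a * X + b), F m = ∑ n ∈ Ioc Y X, F (a * n + b) := by
  induction X, hYX using Nat.le_induction with
  | base => simp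
  | succ X hX ih =>
    have h1 : a * Y + b ≤ a * X + b := by
      have := Nat.mul_le_mul_left a hX
      omega
    have h2 : a * X + b ≤ a * (X + 1) + b := by
      have : a * (X + 1) = a * X + a := by ring
      omega
    rw [← sum_Ioc_consecutive F h1 h2, ih, ← sum_Ioc_consecutive (fun n => F (a * n + b)) hX
      (Nat.le_succ X)]
    congr 1
    have h3 : Ioc X (X + 1) = {X + 1} := by
      ext n
      simp only [mem_Ioc, mem_singleton]
      omega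
    rw [h3, sum_singleton]
    rw [sum_eq_single_of_mem (a * (X + 1) + b) (mem_Ioc.2 ⟨by
      have : a * (X + 1) = a * X + a := by ring
      omega, le_rfl⟩)]
    intro m hm hne
    rw [mem_Ioc] at hm
    apply hF m (by nlinarith [Nat.zero_le (a * X)])
    rintro ⟨c, hc⟩
    have h4 : m = a * c + b := by omega
    have h5 : a * X < a * c := by omega
    have h6 : X < c := Nat.lt_of_mul_lt_mul_left h5
    have h7 : a * (X + 1) ≤ a * c := Nat.mul_le_mul_left _ h6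
    omega

/-- the three quadratic forms -/
noncomputable def pr (q : ℕ) (z w : ℂ) : ℝ :=
  if q = 0 then z.re * w.re else if q = 1 then z.re * w.im + z.im * w.re else z.im * w.im

theorem abs_pr_le (q : ℕ) (z w : ℂ) (hz : ‖z‖ ≤ 1) (hw : ‖w‖ ≤ 1) : |pr q z w| ≤ 1 := by
  unfold pr
  split_ifs
  · rw [abs_mul]
    exact mul_le_one₀ ((Complex.abs_re_le_norm z).trans hz) (abs_nonneg _)
      ((Complex.abs_re_le_norm w).trans hw)
  · rw [← Complex.mul_im]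
    refine (Complex.abs_im_le_norm _).trans ?_
    rw [norm_mul]
    exact mul_le_one₀ hz (norm_nonneg _) hw
  · rw [abs_mul]
    exact mul_le_one₀ ((Complex.abs_im_le_norm z).trans hz) (abs_nonneg _)
      ((Complex.abs_im_le_norm w).trans hw)

/-- the weights on the progression -/
noncomputable def wt (a b : ℕ) (ξ : ℕ → ℂ) (q m : ℕ) : ℂ :=
  if b ≤ m ∧ a ∣ (m - b) then
    ((pr q (ξ ((m - b) / a)) (ξ ((m - b) / a + 1)) * lam m : ℝ) : ℂ) else 0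

theorem norm_wt_le (a b : ℕ) (ξ : ℕ → ℂ) (hξ : ∀ n, ‖ξ n‖ ≤ 1) (q m : ℕ) : ‖wt a b ξ q m‖ ≤ 1 := by
  unfold wt
  split_ifs
  · rw [Complex.norm_real, Real.norm_eq_abs, abs_mul]
    refine mul_le_one₀ (abs_pr_le q _ _ (hξ _) (hξ _)) (abs_nonneg _) ?_
    rcases lam_pm m with h | h <;> rw [h] <;> norm_num
  · rw [norm_zero]; exact zero_le_one

theorem wt_ap (a b : ℕ) (ha : 1 ≤ a) (ξ : ℕ → ℂ) (q n : ℕ) :
    wt a b ξ q (a * n + b) = ((pr q (ξ n) (ξ (n + 1)) * lam (a * n + b) : ℝ) : ℂ) := by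
  unfold wt
  have h1 : a * n + b - b = a * n := by omega
  rw [h1, if_pos ⟨by omega, dvd_mul_right _ _⟩, Nat.mul_div_cancel_left _ (by omega)]

theorem pr_sum (a b k : ℕ) (ha : 1 ≤ a) (ξ : ℕ → ℂ) (η : ℝ) (X₀ : ℕ) (q : ℕ)
    (h : ∀ x : ℕ, x ≤ a * X₀ + b →
      ‖∑ m ∈ Icc 1 x, wt a b ξ q m * ((lam (m + a * k) : ℝ) : ℂ)‖ ≤ η)
    (Y X : ℕ) (hYX : Y ≤ X) (hX : X ≤ X₀) :
    |∑ n ∈ Ioc Y X, pr q (ξ n) (ξ (n + 1)) * (prodL a b k n * prodL a b k (n + 1))| ≤ 2 * η := by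
  have h1 : ∑ m ∈ Ioc (a * Y + b) (a * X + b), wt a b ξ q m * ((lam (m + a * k) : ℝ) : ℂ) =
      ((∑ n ∈ Ioc Y X, pr q (ξ n) (ξ (n + 1)) * (prodL a b k n * prodL a b k (n + 1)) : ℝ) : ℂ) := by
    rw [ap_sum _ a b ha (fun m _ hm => by
      unfold wt
      rw [if_neg (fun h => hm h.2), zero_mul]) Y X hYX]
    rw [Complex.ofReal_sum]
    refine sum_congr rfl fun n _ => ?_
    rw [wt_ap a b ha, prodL_mul_shift, show a * n + b + a * k = a * (n + k) + b by ring]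
    push_cast
    ring
  have h2 : a * Y + b ≤ a * X + b := by
    have := Nat.mul_le_mul_left a hYX
    omega
  have h3 : a * X + b ≤ a * X₀ + b := by
    have := Nat.mul_le_mul_left a hX
    omega
  have h4 : ∀ x : ℕ, ∑ m ∈ Icc 1 x, wt a b ξ q m * ((lam (m + a * k) : ℝ) : ℂ) =
      ∑ m ∈ Ioc 0 x, wt a b ξ q m * ((lam (m + a * k) : ℝ) : ℂ) := fun x => rfl
  have h5 := sum_Ioc_consecutive (fun m => wt a b ξ q m * ((lam (m + a * k) : ℝ) : ℂ))
    (Nat.zero_le (a * Y + b)) h2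
  have h6 : ∑ m ∈ Ioc (a * Y + b) (a * X + b), wt a b ξ q m * ((lam (m + a * k) : ℝ) : ℂ) =
      ∑ m ∈ Icc 1 (a * X + b), wt a b ξ q m * ((lam (m + a * k) : ℝ) : ℂ) -
      ∑ m ∈ Icc 1 (a * Y + b), wt a b ξ q m * ((lam (m + a * k) : ℝ) : ℂ) := by
    rw [h4, h4, ← h5]
    ring
  rw [← Real.norm_eq_abs, ← Complex.norm_real, ← h1, h6]
  refine (norm_sub_le _ _).trans ?_
  have h7 := h (a * X + b) h3
  have h8 := h (a * Y + b) (h2.trans h3)
  linarith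

theorem shift_eq (g : ℕ → ℝ) (Y X : ℕ) (h : Y ≤ X) :
    ∑ n ∈ Ioc Y X, g (n + 1) = ∑ n ∈ Ioc Y X, g n + g (X + 1) - g (Y + 1) := by
  induction X, h using Nat.le_induction with
  | base => simp
  | succ X hX ih =>
    rw [← sum_Ioc_consecutive (fun n => g (n + 1)) hX (Nat.le_succ X),
      ← sum_Ioc_consecutive g hX (Nat.le_succ X), ih]
    have h3 : Ioc X (X + 1) = {X + 1} := by
      ext n
      simp only [mem_Ioc, mem_singleton]
      omega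
    rw [h3, sum_singleton, sum_singleton]
    ring

theorem transfer (a b k : ℕ) (ha : 1 ≤ a) (ξ : ℕ → ℂ) (hξ : ∀ n, ‖ξ n‖ ≤ 1) (η : ℝ) (X₀ : ℕ)
    (h : ∀ q : ℕ, q < 3 → ∀ x : ℕ, x ≤ a * X₀ + b →
      ‖∑ m ∈ Icc 1 x, wt a b ξ q m * ((lam (m + a * k) : ℝ) : ℂ)‖ ≤ η)
    (Y X : ℕ) (hYX : Y ≤ X) (hX : X ≤ X₀) :
    ‖∑ n ∈ Ioc Y X, ξ n * ((prodL a b k n : ℝ) : ℂ)‖ ≤ ((X : ℝ) - Y) / 2 + 2 * η + 1 := by
  set Z : ℂ := ∑ n ∈ Ioc Y X, ξ n * ((prodL a b k n : ℝ) : ℂ) with hZ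
  have hη : 0 ≤ η := (norm_nonneg _).trans (h 0 (by norm_num) 0 (Nat.zero_le _))
  obtain ⟨τ, hτ1, hτ2⟩ : ∃ τ : ℂ, ‖τ‖ = 1 ∧ τ * Z = ((‖Z‖ : ℝ) : ℂ) := by
    by_cases hZ0 : Z = 0
    · exact ⟨1, norm_one, by rw [hZ0, mul_zero, norm_zero, Complex.ofReal_zero]⟩
    · have hn : (‖Z‖ : ℝ) ≠ 0 := norm_ne_zero_iff.2 hZ0
      have hnC : ((‖Z‖ : ℝ) : ℂ) ≠ 0 := by exact_mod_cast hn
      refine ⟨(starRingEnd ℂ) Z / ((‖Z‖ : ℝ) : ℂ), ?_, ?_⟩
      · rw [norm_div, RCLike.norm_conj, Complex.norm_real, Real.norm_of_nonneg (norm_nonneg _),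
          div_self hn]
      · rw [div_mul_eq_mul_div, div_eq_iff hnC, mul_comm, Complex.mul_conj,
          Complex.normSq_eq_norm_sq]
        push_cast
        ring
  set w : ℕ → ℝ := fun n => (τ * ξ n).re with hw
  have hw1 : ∀ n, |w n| ≤ 1 := by
    intro n
    refine (Complex.abs_re_le_norm _).trans ?_
    rw [norm_mul, hτ1, one_mul]
    exact hξ n
  set f : ℕ → ℝ := fun n => prodL a b k n with hf
  have hf1 : ∀ n, |f n| ≤ 1 := by
    intro n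
    simp only [hf]
    rcases prodL_pm a b k n with h | h <;> rw [h] <;> norm_num
  have hZw : ‖Z‖ = ∑ n ∈ Ioc Y X, w n * f n := by
    have h1 : ‖Z‖ = (τ * Z).re := by rw [hτ2, Complex.ofReal_re]
    rw [h1, hZ, mul_sum, Complex.re_sum]
    refine sum_congr rfl fun n _ => ?_
    rw [← mul_assoc, Complex.re_mul_ofReal]
  have hv : ∀ n, |w n * f n| ≤ 1 := by
    intro n
    rw [abs_mul]
    exact mul_le_one₀ (hw1 n) (abs_nonneg _) (hf1 n)
  have hshift := shift_eq (fun n => w n * f n) Y X hYX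
  have h2 := abs_le.1 (hv (X + 1))
  have h3 := abs_le.1 (hv (Y + 1))
  have hpt : ∀ n ∈ Ioc Y X, w n * f n + w (n + 1) * f (n + 1) ≤
      1 + (w n * w (n + 1)) * (f n * f (n + 1)) := by
    intro n _
    have g1 := abs_le.1 (hv n)
    have g2 := abs_le.1 (hv (n + 1))
    nlinarith [mul_nonneg (sub_nonneg.2 g1.2) (sub_nonneg.2 g2.2)]
  have hsum := sum_le_sum hpt
  rw [sum_add_distrib, sum_add_distrib, sum_const, Nat.card_Ioc, nsmul_eq_mul, mul_one,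
    Nat.cast_sub hYX] at hsum
  set T : ℕ → ℝ := fun q => ∑ n ∈ Ioc Y X, pr q (ξ n) (ξ (n + 1)) * (f n * f (n + 1)) with hT
  have hT0 := pr_sum a b k ha ξ η X₀ 0 (h 0 (by norm_num)) Y X hYX hX
  have hT1 := pr_sum a b k ha ξ η X₀ 1 (h 1 (by norm_num)) Y X hYX hX
  have hT2 := pr_sum a b k ha ξ η X₀ 2 (h 2 (by norm_num)) Y X hYX hX
  change |T 0| ≤ 2 * η at hT0
  change |T 1| ≤ 2 * η at hT1
  change |T 2| ≤ 2 * η at hT2
  have hprod : ∑ n ∈ Ioc Y X, (w n * w (n + 1)) * (f n * f (n + 1)) =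
      τ.re ^ 2 * T 0 - τ.re * τ.im * T 1 + τ.im ^ 2 * T 2 := by
    rw [hT]
    simp only [mul_sum]
    rw [← sum_sub_distrib, ← sum_add_distrib]
    refine sum_congr rfl fun n _ => ?_
    simp only [hw, pr, Complex.mul_re]
    norm_num
    ring
  have hτ : τ.re ^ 2 + τ.im ^ 2 = 1 := by
    have h4 : Complex.normSq τ = 1 := by
      rw [Complex.normSq_eq_norm_sq, hτ1]
      norm_num
    rw [Complex.normSq_apply] at h4
    nlinarith
  have hb : τ.re ^ 2 * T 0 - τ.re * τ.im * T 1 + τ.im ^ 2 * T 2 ≤ 4 * η := by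
    have e0 := abs_le.1 hT0
    have e1 := abs_le.1 hT1
    have e2 := abs_le.1 hT2
    have f0 : τ.re ^ 2 * T 0 ≤ τ.re ^ 2 * (2 * η) := mul_le_mul_of_nonneg_left e0.2 (sq_nonneg _)
    have f2 : τ.im ^ 2 * T 2 ≤ τ.im ^ 2 * (2 * η) := mul_le_mul_of_nonneg_left e2.2 (sq_nonneg _)
    have f3 : |τ.re * τ.im| ≤ 1 / 2 := by
      rw [abs_le]
      constructor <;> nlinarith [sq_nonneg (τ.re - τ.im), sq_nonneg (τ.re + τ.im)]
    have f1 : -(τ.re * τ.im * T 1) ≤ 1 / 2 * (2 * η) := by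
      refine (neg_le_abs _).trans ?_
      rw [abs_mul]
      exact mul_le_mul f3 hT1 (abs_nonneg _) (by norm_num)
    have f4 : τ.re ^ 2 * (2 * η) + τ.im ^ 2 * (2 * η) = 2 * η := by
      rw [← add_mul, hτ, one_mul]
    linarith
  rw [hprod] at hsum
  rw [hZw]
  linarith [h2.1, h3.2]

end Pool.Agent.X23.CT
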