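import Pool.Agent.X23.CT1
import Pool.Agent.W93.AU14

/-!
# Lengths from automatic sets
-/

open Finset

namespace Pool.Agent.X23.CT

open Pool.Agent.X23.CS
open Pool.Agent.H373R2.T7 (exI liR)

theorem liR_lam (n : ℕ) : liR n = ((lam n : ℝ) : ℂ) := by
  unfold liR lam
  push_cast
  rfl

theorem exI_nat (n : ℕ) (h : 1 ≤ n) : exI liR (n : ℤ) = ((lam n : ℝ) : ℂ) := by
  unfold exI
  rw [if_pos (by exact_mod_cast h), Int.toNat_natCast, liR_lam]

/-- powers of the logarithm -/
theorem log_big (U : ℕ) : ∃ N₀ : ℕ, ∀ N : ℕ, N₀ ≤ N → 3 ≤ Real.log N ∧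
    2 * (N / Real.log N ^ (U + 1)) + 1 ≤ N / Real.log N ^ U := by
  have h1 := (isLittleO_log_rpow_rpow_atTop (r := ((U : ℕ) : ℝ)) (s := 1) (by norm_num)).def
    (c := 1 / 4) (by norm_num)
  have h2 := (h1.and (Real.tendsto_log_atTop.eventually_ge_atTop 3)).and
    (Filter.eventually_ge_atTop 1)
  rw [Filter.eventually_atTop] at h2
  obtain ⟨x₀, h0⟩ := h2
  refine ⟨⌈x₀⌉₊, fun N hN => ?_⟩
  have hx : x₀ ≤ N := (Nat.le_ceil x₀).trans (by exact_mod_cast hN)
  obtain ⟨⟨h3, h4⟩, h5⟩ := h0 N hx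
  refine ⟨h4, ?_⟩
  have hN0 : (0 : ℝ) < N := by linarith
  have hlog : 0 < Real.log N := by linarith
  rw [Real.rpow_natCast, Real.rpow_one, Real.norm_of_nonneg (by positivity),
    Real.norm_of_nonneg (by positivity)] at h3
  have hp : 0 < Real.log (N : ℝ) ^ U := by positivity
  have h6 : 4 ≤ N / Real.log (N : ℝ) ^ U := by
    rw [le_div_iff₀ hp]
    linarith
  have h7 : N / Real.log (N : ℝ) ^ (U + 1) ≤ N / Real.log (N : ℝ) ^ U / 3 := by
    rw [pow_succ, ← div_div]
    exact div_le_div_of_nonneg_left (by positivity) (by norm_num) h4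
  linarith

open Classical in
/-- The number of the integers `0 ≤ v < N` with the property `E` whose base `b` digits are accepted by the
automaton `M`. -/
noncomputable def anum {σ : Type} (b : ℕ) (M : DFA ℕ σ) (N : ℕ) (E : ℕ → Prop) : ℝ :=
  (((range N).filter fun v => Nat.digits b v ∈ M.accepts ∧ E v).card : ℝ)

theorem auto_lengths {σ : Type} [Finite σ] (c : ℕ) (hc : 2 ≤ c) (M : DFA ℕ σ)
    (hM : ∀ k : ℕ, ∃ᶠ N : ℕ in Filter.atTop, Real.log N ^ k < anum c M N (fun _ => True))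
    (a B T U : ℕ) (ha : 1 ≤ a) :
    ∃ N₀ : ℕ, ∀ N : ℕ, N₀ ≤ N → ∀ b : ℕ, b ≤ B * N →
      ∀ L : ℕ, (L : ℝ) ≤ Real.log N ^ T → ∀ ξ : Fin L → ℕ → ℂ, (∀ l n, ‖ξ l n‖ ≤ 1) →
        anum c M N (fun k => ¬ ∀ l, ∀ Y X : ℕ, Y ≤ X → X ≤ B * N →
          ‖∑ n ∈ Ioc Y X, ξ l n * ((prodL a b k n : ℝ) : ℂ)‖ ≤
            ((X : ℝ) - Y) / 2 + N / Real.log N ^ U) ≤
          anum c M N (fun _ => True) / Real.log N ^ U := by
  classical
  have := Fintype.ofFinite σ
  have hnum : ∀ N, anum c M N (fun _ => True) =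
      (((range N).filter fun v => Nat.digits c v ∈ M.accepts).card : ℝ) := by
    intro N
    unfold anum
    congr 2
    ext v
    simp only [mem_filter, and_true]
  obtain ⟨N₁, h⟩ := Pool.Agent.W93.AU.au_corr c hc M
    (fun k => (hM k).mono fun N hN => by rw [hnum] at hN; exact hN)
    liR Pool.Agent.W93.LM.nice_liR (a : ℤ) (by exact_mod_cast (by omega : a ≠ 0))
    ((a + 1) * B) (T + 1) (U + 1)
  obtain ⟨N₂, hN₂⟩ := log_big U
  refine ⟨max N₁ N₂, fun N hN b hb L hL ξ hξ => ?_⟩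
  obtain ⟨hlog3, hbound⟩ := hN₂ N ((le_max_right _ _).trans hN)
  have hlog1 : 1 ≤ Real.log N := by linarith
  have h1 := h N ((le_max_left _ _).trans hN) 0 (by positivity) (3 * L) (by
    push_cast
    rw [pow_succ]
    have : (0 : ℝ) ≤ L := Nat.cast_nonneg _
    nlinarith)
    (fun l => if h : l / 3 < L then wt a b (ξ ⟨l / 3, h⟩) (l % 3) else fun _ => 0) (by
      intro l _ n _ _
      refine le_trans ?_ (one_le_pow₀ hlog1)
      by_cases hl : l / 3 < L
      · simp only [hl, dif_pos]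
        exact norm_wt_le a b _ (hξ _) _ _
      · simp only [hl, dif_neg, not_false_eq_true, norm_zero]
        exact zero_le_one)
    (fun k => ¬ ∀ l, ∀ Y X : ℕ, Y ≤ X → X ≤ B * N →
          ‖∑ n ∈ Ioc Y X, ξ l n * ((prodL a b k n : ℝ) : ℂ)‖ ≤
            ((X : ℝ) - Y) / 2 + N / Real.log N ^ U) (by
      intro v hv
      by_contra hcon
      apply hv
      intro l Y X hYX hX
      push Not at hcon
      refine (transfer a b v ha (ξ l) (hξ l) (N / Real.log N ^ (U + 1)) (B * N) ?_ Y X hYX hX).trans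
        (by linarith)
      intro q hq x hx
      have hlt : (3 * (l : ℕ) + q) / 3 = l := by omega
      have hmod : (3 * (l : ℕ) + q) % 3 = q := by omega
      have h2 := hcon (3 * (l : ℕ) + q) (by have := l.2; omega) x (hx.trans (by
        have : a * (B * N) + b ≤ a * (B * N) + B * N := by omega
        refine this.trans (le_of_eq (by ring))))
      refine le_trans (le_of_eq ?_) h2
      congr 1
      refine sum_congr rfl fun m hm => ?_
      have hm1 := (mem_Icc.1 hm).1
      have h3 : ((m : ℤ) + (0 + (a : ℤ) * (v : ℤ))) = ((m + a * v : ℕ) : ℤ) := by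
        push_cast
        ring
      rw [h3, exI_nat _ (by omega)]
      simp only [hlt, hmod, l.2, dif_pos])
  rw [hnum]
  have h4 : (((range N).filter fun v => Nat.digits c v ∈ M.accepts).card : ℝ) /
      Real.log N ^ (U + 1) ≤ (((range N).filter fun v => Nat.digits c v ∈ M.accepts).card : ℝ) /
      Real.log N ^ U := by
    apply div_le_div_of_nonneg_left (Nat.cast_nonneg _) (by positivity)
    exact pow_le_pow_right₀ hlog1 (Nat.le_succ U)
  refine le_trans (le_of_eq ?_) (h1.trans h4)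
  unfold anum
  congr!

end Pool.Agent.X23.CT
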