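import Pool.Agent.X23.CT1
import Pool.Agent.Y885.KP3

/-!
# Lengths near an arbitrary length
-/

open Finset

namespace Pool.Agent.X23.CT

open Pool.Agent.X23.CS

theorem laR_lam (n : ℕ) : Pool.Agent.Y885.laR n = lam n := rfl

/-- powers of the logarithm -/
theorem log_big' (U D : ℕ) : ∃ N₀ : ℕ, ∀ N : ℕ, N₀ ≤ N → D + 3 ≤ Real.log N ∧
    4 * (N / Real.log N ^ (U + 1)) + 1 ≤ N / Real.log N ^ U := by
  have h1 := (isLittleO_log_rpow_rpow_atTop (r := ((U + 1 : ℕ) : ℝ)) (s := 1) (by norm_num)).def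
    (c := 1) (by norm_num)
  have h2 := (h1.and (Real.tendsto_log_atTop.eventually_ge_atTop (D + 5))).and
    (Filter.eventually_ge_atTop 1)
  rw [Filter.eventually_atTop] at h2
  obtain ⟨x₀, h0⟩ := h2
  refine ⟨⌈x₀⌉₊, fun N hN => ?_⟩
  have hx : x₀ ≤ N := (Nat.le_ceil x₀).trans (by exact_mod_cast hN)
  obtain ⟨⟨h3, h4⟩, h5⟩ := h0 N hx
  have hD : (0 : ℝ) ≤ D := Nat.cast_nonneg _
  refine ⟨by linarith, ?_⟩
  have hN0 : (0 : ℝ) < N := by linarith
  have hlog : 0 < Real.log N := by linarith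
  rw [Real.rpow_natCast, Real.rpow_one, Real.norm_of_nonneg (by positivity),
    Real.norm_of_nonneg (by positivity), one_mul] at h3
  have hp : 0 < Real.log (N : ℝ) ^ (U + 1) := by positivity
  have h6 : 1 ≤ N / Real.log (N : ℝ) ^ (U + 1) := by
    rw [le_div_iff₀ hp]
    linarith
  have h7 : 5 * (N / Real.log (N : ℝ) ^ (U + 1)) ≤ N / Real.log (N : ℝ) ^ U := by
    have h8 : N / Real.log (N : ℝ) ^ U = Real.log N * (N / Real.log (N : ℝ) ^ (U + 1)) := by
      rw [pow_succ]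
      field_simp
    rw [h8]
    exact mul_le_mul_of_nonneg_right (by linarith) (by positivity)
  linarith

/-- shifted weights -/
noncomputable def swt (a b : ℕ) (ξ : ℕ → ℂ) (q j m : ℕ) : ℂ :=
  if a * j < m then wt a b ξ q (m - a * j) else 0

theorem norm_swt_le (a b : ℕ) (ξ : ℕ → ℂ) (hξ : ∀ n, ‖ξ n‖ ≤ 1) (q j m : ℕ) :
    ‖swt a b ξ q j m‖ ≤ 1 := by
  unfold swt
  split_ifs
  · exact norm_wt_le a b ξ hξ q _
  · rw [norm_zero]; exact zero_le_one

theorem swt_sum (a b k j : ℕ) (ξ : ℕ → ℂ) (q x : ℕ) :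
    ∑ m ∈ Icc 1 x, wt a b ξ q m * ((lam (m + a * (k + j)) : ℝ) : ℂ) =
      ∑ m ∈ Icc 1 (x + a * j), swt a b ξ q j m * ((lam (m + a * k) : ℝ) : ℂ) := by
  have h1 : ∑ m ∈ Icc 1 (x + a * j), swt a b ξ q j m * ((lam (m + a * k) : ℝ) : ℂ) =
      ∑ m ∈ (Icc 1 x).map (addRightEmbedding (a * j)),
        swt a b ξ q j m * ((lam (m + a * k) : ℝ) : ℂ) := by
    symm
    apply sum_subset
    · intro m hm
      rw [mem_map] at hm
      obtain ⟨i, hi, rfl⟩ := hm
      rw [mem_Icc] at hi ⊢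
      simp only [addRightEmbedding_apply]
      omega
    · intro m hm hm2
      rw [mem_Icc] at hm
      have h2 : ¬ a * j < m := by
        intro hcon
        apply hm2
        rw [mem_map]
        refine ⟨m - a * j, mem_Icc.2 (by omega), ?_⟩
        simp only [addRightEmbedding_apply]
        omega
      unfold swt
      rw [if_neg h2, zero_mul]
  rw [h1, sum_map]
  refine sum_congr rfl fun m hm => ?_
  rw [mem_Icc] at hm
  simp only [addRightEmbedding_apply]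
  unfold swt
  rw [if_pos (by omega), show m + a * j - a * j = m by omega,
    show m + a * j + a * k = m + a * (k + j) by ring]

theorem tailored (l κ U a : ℕ) (hl : 2 ≤ l) (ha : 1 ≤ a) : ∃ C : ℝ, ∀ H B : ℕ, ∃ N₀ : ℕ,
    ∀ N : ℕ, N₀ ≤ N → ∀ A : Set ℕ, (∀ x : ℕ, 1 ≤ x → ∃ s ∈ A, x ≤ s ∧ s ≤ l * x) →
    ∀ h b : ℕ, h ≤ B * N → b ≤ B * N →
    ∀ L : ℕ, (L : ℝ) ≤ Real.log N ^ κ → ∀ ξ : Fin L → ℕ → ℂ, (∀ m n, ‖ξ m n‖ ≤ 1) →
    ∃ S : Finset ℕ,
      (∀ s ∈ S, s ∈ A ∧ Real.log N ^ H ≤ s ∧ (s : ℝ) ≤ N / Real.log N ^ H) ∧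
      ((S.card : ℝ) ≤ C * Real.log (Real.log N) ^ 2) ∧
      ∀ m, ∀ k : ℕ, h + ∑ s ∈ S, s ≤ k → (k : ℝ) ≤ (h + ∑ s ∈ S, s : ℕ) + Real.log N ^ κ →
        ∀ Y X : ℕ, Y ≤ X → X ≤ B * N →
          ‖∑ n ∈ Ioc Y X, ξ m n * ((prodL a b k n : ℝ) : ℂ)‖ ≤
            ((X : ℝ) - Y) / 2 + N / Real.log N ^ U := by
  classical
  obtain ⟨C, hC⟩ := Pool.Agent.Y885.las_kptq (l * (a + 1)) 1 (2 * κ + 2) (U + 1)
    (by nlinarith) le_rfl Pool.Agent.Y885.laR Pool.Agent.Y885.fine_lam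
  refine ⟨C, fun H B => ?_⟩
  obtain ⟨N₁, h1⟩ := hC (H + 1) ((a + 1) * (B + 1))
  obtain ⟨N₂, h2⟩ := log_big' U a
  obtain ⟨N₃, h3⟩ := log_big' κ 0
  refine ⟨max N₁ (max N₂ N₃), fun N hN A hA h b hh hb L hL ξ hξ => ?_⟩
  obtain ⟨hlog3, hbound⟩ := h2 N ((le_max_left _ _).trans ((le_max_right _ _).trans hN))
  obtain ⟨-, hbound2⟩ := h3 N ((le_max_right _ _).trans ((le_max_right _ _).trans hN))
  have ha0 : (1 : ℝ) ≤ a := by exact_mod_cast ha
  have hlog1 : 1 ≤ Real.log N := by linarith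
  have hN0 : (0 : ℝ) < N := by
    by_contra hcon
    have : (N : ℝ) = 0 := le_antisymm (not_lt.1 hcon) (Nat.cast_nonneg _)
    rw [this, Real.log_zero] at hlog1
    linarith
  have hlogκ : Real.log (N : ℝ) ^ κ ≤ N := by
    have h4 : 1 ≤ N / Real.log (N : ℝ) ^ κ := by
      refine le_trans ?_ hbound2
      have : 0 ≤ 4 * (N / Real.log (N : ℝ) ^ (κ + 1)) := by positivity
      linarith
    rw [le_div_iff₀ (by positivity)] at h4
    linarith
  obtain ⟨J, hJ⟩ : ∃ J, J = ⌊Real.log (N : ℝ) ^ κ⌋₊ + 1 := ⟨_, rfl⟩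
  have hJ1 : (J : ℝ) ≤ Real.log (N : ℝ) ^ κ + 1 := by
    rw [hJ]
    push_cast
    linarith [Nat.floor_le (show (0 : ℝ) ≤ Real.log (N : ℝ) ^ κ by positivity)]
  have hlogκ1 : 1 ≤ Real.log (N : ℝ) ^ κ := one_le_pow₀ hlog1
  have e : (Fin L × (Fin J × Fin 3)) ≃ Fin (L * (J * 3)) := Fintype.equivFinOfCardEq (by simp)
  obtain ⟨S', g1, g2, -, g4⟩ := h1 1 (fun _ => (fun s => a * s) '' A) (by
      intro _ x hx
      obtain ⟨s, hs, hs1, hs2⟩ := hA ((x + a - 1) / a) ((Nat.one_le_div_iff (by omega)).2 (by omega))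
      have hmod := Nat.div_add_mod (x + a - 1) a
      have hlt := Nat.mod_lt (x + a - 1) (show 0 < a by omega)
      refine ⟨a * s, ⟨s, hs, rfl⟩, ?_, ?_⟩
      · have h5 : a * ((x + a - 1) / a) ≤ a * s := Nat.mul_le_mul_left _ hs1
        omega
      · have h5 : a * s ≤ a * (l * ((x + a - 1) / a)) := Nat.mul_le_mul_left _ hs2
        have h6 : a * ((x + a - 1) / a) ≤ x + a - 1 := Nat.mul_div_le _ _
        calc a * s ≤ a * (l * ((x + a - 1) / a)) := h5
          _ = l * (a * ((x + a - 1) / a)) := by ring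
          _ ≤ l * (x + a - 1) := Nat.mul_le_mul_left _ h6
          _ ≤ l * ((a + 1) * x) := Nat.mul_le_mul_left _ (by
              have : a * 1 ≤ a * x := Nat.mul_le_mul_left _ hx
              have h7 : (a + 1) * x = a * x + x := by ring
              omega)
          _ = l * (a + 1) * x := by ring)
    N ((le_max_left _ _).trans hN) (by
      rw [pow_one]
      have h5 : Real.log (N : ℝ) ^ 1 ≤ Real.log (N : ℝ) ^ (2 * κ + 2) :=
        pow_le_pow_right₀ hlog1 (by omega)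
      rw [pow_one] at h5
      linarith)
    (fun _ => a * h) (by
      intro _
      calc a * h ≤ a * (B * N) := Nat.mul_le_mul_left _ hh
        _ ≤ (a + 1) * (B + 1) * N := by nlinarith [Nat.zero_le (B * N), Nat.zero_le (a * N)])
    (L * (J * 3)) (by
      push_cast
      have hL0 : (0 : ℝ) ≤ L := Nat.cast_nonneg _
      have hJ0 : (0 : ℝ) ≤ J := Nat.cast_nonneg _
      have h5 : (J : ℝ) * 3 ≤ Real.log N ^ κ * Real.log N ^ 2 := by
        have h6 : (6 : ℝ) ≤ Real.log N ^ 2 := by nlinarith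
        have h7 : Real.log (N : ℝ) ^ κ * 6 ≤ Real.log N ^ κ * Real.log N ^ 2 :=
          mul_le_mul_of_nonneg_left h6 (by linarith)
        linarith
      calc (L : ℝ) * (J * 3) ≤ Real.log N ^ κ * (Real.log N ^ κ * Real.log N ^ 2) := by gcongr
        _ = Real.log N ^ (2 * κ + 2) := by ring)
    (fun _ => 1) (fun r => swt a b (ξ (e.symm r).1) (e.symm r).2.2 (e.symm r).2.1) (fun _ => le_rfl) (by
      intro m n _ _
      exact (norm_swt_le a b _ (hξ _) _ _ _).trans (one_le_pow₀ hlog1))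
  have hmul : ∀ s' ∈ S' 0, ∃ s ∈ A, a * s = s' := fun s' hs' => (g1 0 s' hs').1
  have hdiv : ∀ s' ∈ S' 0, a * (s' / a) = s' := by
    intro s' hs'
    obtain ⟨s, _, rfl⟩ := hmul s' hs'
    rw [Nat.mul_div_cancel_left _ (by omega)]
  have hinj : Set.InjOn (fun s' => s' / a) (S' 0 : Set ℕ) := by
    intro x hx y hy hxy
    rw [← hdiv x hx, ← hdiv y hy]
    simp only at hxy
    rw [hxy]
  have hsum : a * ∑ s ∈ (S' 0).image (fun s' => s' / a), s = ∑ s' ∈ S' 0, s' := by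
    rw [sum_image hinj, mul_sum]
    exact sum_congr rfl fun s' hs' => hdiv s' hs'
  refine ⟨(S' 0).image (fun s' => s' / a), ?_, ?_, ?_⟩
  · intro s hs
    rw [mem_image] at hs
    obtain ⟨s', hs', rfl⟩ := hs
    obtain ⟨s, hsA, hs2⟩ := hmul s' hs'
    obtain ⟨-, c1, c2⟩ := g1 0 s' hs'
    have h5 : s' / a = s := by rw [← hs2, Nat.mul_div_cancel_left _ (by omega)]
    rw [h5]
    have hs2r : (s' : ℝ) = a * s := by
      rw [← hs2]
      push_cast
      ring
    rw [hs2r] at c1 c2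
    have hp : 0 < Real.log (N : ℝ) ^ H := by positivity
    refine ⟨hsA, ?_, ?_⟩
    · have h6 : a * Real.log (N : ℝ) ^ H ≤ a * s := by
        refine le_trans ?_ c1
        rw [pow_succ, mul_comm]
        exact mul_le_mul_of_nonneg_left (by linarith) hp.le
      exact le_of_mul_le_mul_left h6 (by linarith)
    · have h6 : (s : ℝ) ≤ a * s := le_mul_of_one_le_left (Nat.cast_nonneg _) ha0
      refine h6.trans (c2.trans ?_)
      exact div_le_div_of_nonneg_left hN0.le hp (pow_le_pow_right₀ hlog1 (Nat.le_succ H))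
  · refine le_trans ?_ (g2 0)
    exact_mod_cast card_image_le
  · intro m k hk1 hk2 Y X hYX hX
    obtain ⟨j, rfl⟩ := Nat.exists_eq_add_of_le hk1
    have hjκ : (j : ℝ) ≤ Real.log (N : ℝ) ^ κ := by
      push_cast at hk2
      linarith
    have hjJ : j < J := by
      rw [hJ, Nat.lt_add_one_iff]
      exact Nat.le_floor hjκ
    have hjN : j ≤ N := by exact_mod_cast hjκ.trans hlogκ
    refine (transfer a b _ ha (ξ m) (hξ m) (N / Real.log N ^ (U + 1)) (B * N) ?_ Y X hYX hX).trans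
      (by
        have : 0 ≤ N / Real.log (N : ℝ) ^ (U + 1) := by positivity
        linarith)
    intro q hq x hx
    rw [swt_sum]
    have h5 := g4 (e (m, (⟨j, hjJ⟩, ⟨q, hq⟩))) univ ⟨0, mem_univ _⟩ 1 le_rfl (by
        push_cast
        exact one_le_pow₀ hlog1) 0 (x + a * j) (by
      intro _ _
      rw [one_mul]
      have h6 : a * j ≤ a * N := Nat.mul_le_mul_left _ hjN
      calc x + a * j ≤ (a * (B * N) + b) + a * N := Nat.add_le_add hx h6
        _ ≤ (a * (B * N) + B * N) + a * N := by omega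
        _ ≤ (a + 1) * (B + 1) * N := by nlinarith [Nat.zero_le N])
    refine le_trans (le_of_eq ?_) h5
    congr 1
    have h6 : (Icc 1 (x + a * j)).filter (fun n => n ≡ 0 [MOD 1]) = Icc 1 (x + a * j) :=
      filter_true_of_mem fun n _ => Nat.modEq_one
    rw [h6]
    refine sum_congr rfl fun n _ => ?_
    rw [Equiv.symm_apply_apply, Fin.prod_univ_one, laR_lam, one_mul]
    simp only
    rw [← hsum, ← mul_add]

end Pool.Agent.X23.CT
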