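import Pool.Agent.TH575.OM.FinT

/-!
# One step of van der Corput's inequality, and products of functions of one type
-/

set_option autoImplicit false

namespace Pool.Agent.X23.EL

open Finset Pool.Agent.TH575.OM

lemma tele (v : ℕ → ℂ) (M : ℕ) : ∑ n ∈ Icc 1 M, (v (n + 1) - v n) = v (M + 1) - v 1 := by
  induction M with
  | zero => simp
  | succ M ih =>
    rw [sum_Icc_succ_top (by omega), ih]
    ring

lemma shift_sum (u : ℕ → ℂ) (hu : ∀ n, ‖u n‖ ≤ 1) (h M : ℕ) :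
    ‖∑ n ∈ Icc 1 M, u (n + h) - ∑ n ∈ Icc 1 M, u n‖ ≤ 2 * h := by
  induction h with
  | zero => simp
  | succ h ih =>
    have e1 : ∑ n ∈ Icc 1 M, u (n + (h + 1)) - ∑ n ∈ Icc 1 M, u n =
        ∑ n ∈ Icc 1 M, ((fun m => u (m + h)) (n + 1) - (fun m => u (m + h)) n) +
          (∑ n ∈ Icc 1 M, u (n + h) - ∑ n ∈ Icc 1 M, u n) := by
      rw [sum_sub_distrib]
      have e2 : ∑ n ∈ Icc 1 M, u (n + (h + 1)) = ∑ n ∈ Icc 1 M, (fun m => u (m + h)) (n + 1) := by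
        refine sum_congr rfl fun n _ => ?_
        show u (n + (h + 1)) = u (n + 1 + h)
        congr 1
        ring
      rw [e2]
      ring
    rw [e1, tele (fun m => u (m + h)) M]
    refine (norm_add_le _ _).trans ?_
    have h2 := norm_sub_le (u (M + 1 + h)) (u (1 + h))
    have h3 := hu (M + 1 + h)
    have h4 := hu (1 + h)
    push_cast
    show ‖u (M + 1 + h) - u (1 + h)‖ + _ ≤ _
    linarith

lemma half (u : ℕ → ℂ) (hu : ∀ n, ‖u n‖ ≤ 1) (h M : ℕ) :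
    ‖∑ n ∈ Icc 1 M, u n‖ ≤ 1 / 2 * ∑ n ∈ Icc 1 M, ‖u n + u (n + h)‖ + h := by
  have h1 := shift_sum u hu h M
  have e1 : 2 * ∑ n ∈ Icc 1 M, u n = ∑ n ∈ Icc 1 M, (u n + u (n + h)) -
      (∑ n ∈ Icc 1 M, u (n + h) - ∑ n ∈ Icc 1 M, u n) := by
    rw [sum_add_distrib]
    ring
  have h2 : ‖2 * ∑ n ∈ Icc 1 M, u n‖ ≤ ∑ n ∈ Icc 1 M, ‖u n + u (n + h)‖ + 2 * h := by
    rw [e1]
    refine (norm_sub_le _ _).trans (add_le_add (norm_sum_le _ _) h1)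
  rw [norm_mul, Complex.norm_two] at h2
  linarith

/-- the mean over `1 ≤ n ≤ M` -/
noncomputable def mn (u : ℕ → ℂ) (M : ℕ) : ℂ := (∑ n ∈ Icc 1 M, u n) / (M : ℂ)

/-- the products with lag `h` -/
noncomputable def lag (u : ℕ → ℂ) (h : ℕ) (n : ℕ) : ℂ := u (n + h) * (starRingEnd ℂ) (u n)

lemma norm_mn (u : ℕ → ℂ) (M : ℕ) (hM : 1 ≤ M) : ‖∑ n ∈ Icc 1 M, u n‖ = M * ‖mn u M‖ := by
  have hM0 : (M : ℝ) ≠ 0 := by exact_mod_cast (by omega : M ≠ 0)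
  unfold mn
  rw [norm_div, Complex.norm_natCast]
  field_simp

lemma norm_sq_add (a b : ℂ) (ha : ‖a‖ ≤ 1) (hb : ‖b‖ ≤ 1) :
    ‖a + b‖ ^ 2 ≤ 2 + 2 * (b * (starRingEnd ℂ) a).re := by
  have h1 : ‖a + b‖ ^ 2 = ‖a‖ ^ 2 + ‖b‖ ^ 2 + 2 * (b * (starRingEnd ℂ) a).re := by
    rw [← Complex.normSq_eq_norm_sq, ← Complex.normSq_eq_norm_sq, ← Complex.normSq_eq_norm_sq,
      Complex.normSq_add]
    have : (a * (starRingEnd ℂ) b).re = (b * (starRingEnd ℂ) a).re := by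
      simp [Complex.mul_re]
      ring
    rw [this]
  have h2 : ‖a‖ ^ 2 ≤ 1 := pow_le_one₀ (norm_nonneg _) ha
  have h3 : ‖b‖ ^ 2 ≤ 1 := pow_le_one₀ (norm_nonneg _) hb
  linarith

lemma real_add (a b : ℂ) (ha : ‖a‖ ≤ 1) (hb : ‖b‖ ≤ 1) (ha' : a.im = 0) (hb' : b.im = 0) :
    ‖a + b‖ ≤ 1 + (b * (starRingEnd ℂ) a).re := by
  have e1 : a + b = ((a.re + b.re : ℝ) : ℂ) := by
    apply Complex.ext <;> simp [ha', hb']
  have e2 : (b * (starRingEnd ℂ) a).re = a.re * b.re := by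
    simp [Complex.mul_re, ha', hb']
    ring
  have h1 : |a.re| ≤ 1 := (Complex.abs_re_le_norm a).trans ha
  have h2 : |b.re| ≤ 1 := (Complex.abs_re_le_norm b).trans hb
  rw [e1, e2, Complex.norm_real, Real.norm_eq_abs, abs_le]
  rw [abs_le] at h1 h2
  constructor <;> nlinarith

lemma re_sum_le (u : ℕ → ℂ) (h M : ℕ) :
    ∑ n ∈ Icc 1 M, (u (n + h) * (starRingEnd ℂ) (u n)).re ≤ ‖∑ n ∈ Icc 1 M, lag u h n‖ := by
  rw [← Complex.re_sum]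
  exact Complex.re_le_norm _

/-- the general bound -/
lemma bound_gen (u : ℕ → ℂ) (hu : ∀ n, ‖u n‖ ≤ 1) (h M : ℕ) (hM : 1 ≤ M) :
    ‖mn u M‖ ≤ 1 / 2 * Real.sqrt (2 + 2 * ‖mn (lag u h) M‖) + h / M := by
  have hM0 : (0 : ℝ) < M := by exact_mod_cast (by omega : 0 < M)
  have h1 := half u hu h M
  have h2 : (∑ n ∈ Icc 1 M, ‖u n + u (n + h)‖) ^ 2 ≤
      (M : ℝ) * ∑ n ∈ Icc 1 M, ‖u n + u (n + h)‖ ^ 2 := by
    have := sq_sum_le_card_mul_sum_sq (s := Icc 1 M) (f := fun n => ‖u n + u (n + h)‖)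
    rw [Nat.card_Icc, Nat.add_sub_cancel] at this
    exact this
  have h3 : ∑ n ∈ Icc 1 M, ‖u n + u (n + h)‖ ^ 2 ≤ M * (2 + 2 * ‖mn (lag u h) M‖) := by
    calc ∑ n ∈ Icc 1 M, ‖u n + u (n + h)‖ ^ 2
        ≤ ∑ n ∈ Icc 1 M, (2 + 2 * (u (n + h) * (starRingEnd ℂ) (u n)).re) :=
          sum_le_sum fun n _ => norm_sq_add _ _ (hu _) (hu _)
      _ = 2 * M + 2 * ∑ n ∈ Icc 1 M, (u (n + h) * (starRingEnd ℂ) (u n)).re := by
          rw [sum_add_distrib, sum_const, Nat.card_Icc, Nat.add_sub_cancel, nsmul_eq_mul, mul_sum]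
          ring
      _ ≤ 2 * M + 2 * ‖∑ n ∈ Icc 1 M, lag u h n‖ := by
          have := re_sum_le u h M
          linarith
      _ = _ := by
          rw [norm_mn _ M hM]
          ring
  have h4 : ∑ n ∈ Icc 1 M, ‖u n + u (n + h)‖ ≤ M * Real.sqrt (2 + 2 * ‖mn (lag u h) M‖) := by
    apply le_of_sq_le_sq _ (by positivity)
    calc (∑ n ∈ Icc 1 M, ‖u n + u (n + h)‖) ^ 2 ≤ (M : ℝ) * ∑ n ∈ Icc 1 M, ‖u n + u (n + h)‖ ^ 2 := h2
      _ ≤ (M : ℝ) * (M * (2 + 2 * ‖mn (lag u h) M‖)) := mul_le_mul_of_nonneg_left h3 hM0.le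
      _ = _ := by
          rw [mul_pow, Real.sq_sqrt (by positivity)]
          ring
  rw [norm_mn u M hM] at h1
  have h5 : (M : ℝ) * ‖mn u M‖ ≤ M * (1 / 2 * Real.sqrt (2 + 2 * ‖mn (lag u h) M‖) + h / M) := by
    have : (M : ℝ) * (1 / 2 * Real.sqrt (2 + 2 * ‖mn (lag u h) M‖) + h / M) =
        1 / 2 * (M * Real.sqrt (2 + 2 * ‖mn (lag u h) M‖)) + h := by
      field_simp
    rw [this]
    linarith
  exact le_of_mul_le_mul_left h5 hM0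

/-- the bound for real valued sequences -/
lemma bound_real (u : ℕ → ℂ) (hu : ∀ n, ‖u n‖ ≤ 1) (hr : ∀ n, (u n).im = 0) (h M : ℕ) (hM : 1 ≤ M) :
    ‖mn u M‖ ≤ 1 / 2 * (1 + ‖mn (lag u h) M‖) + h / M := by
  have hM0 : (0 : ℝ) < M := by exact_mod_cast (by omega : 0 < M)
  have h1 := half u hu h M
  have h3 : ∑ n ∈ Icc 1 M, ‖u n + u (n + h)‖ ≤ M * (1 + ‖mn (lag u h) M‖) := by
    calc ∑ n ∈ Icc 1 M, ‖u n + u (n + h)‖
        ≤ ∑ n ∈ Icc 1 M, (1 + (u (n + h) * (starRingEnd ℂ) (u n)).re) :=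
          sum_le_sum fun n _ => real_add _ _ (hu _) (hu _) (hr _) (hr _)
      _ = M + ∑ n ∈ Icc 1 M, (u (n + h) * (starRingEnd ℂ) (u n)).re := by
          rw [sum_add_distrib, sum_const, Nat.card_Icc, Nat.add_sub_cancel, nsmul_eq_mul]
          ring
      _ ≤ M + ‖∑ n ∈ Icc 1 M, lag u h n‖ := by
          have := re_sum_le u h M
          linarith
      _ = _ := by
          rw [norm_mn _ M hM]
          ring
  rw [norm_mn u M hM] at h1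
  have h5 : (M : ℝ) * ‖mn u M‖ ≤ M * (1 / 2 * (1 + ‖mn (lag u h) M‖) + h / M) := by
    have : (M : ℝ) * (1 / 2 * (1 + ‖mn (lag u h) M‖) + h / M) =
        1 / 2 * (M * (1 + ‖mn (lag u h) M‖)) + h := by
      field_simp
    rw [this]
    linarith
  exact le_of_mul_le_mul_left h5 hM0

/-! ### the theorem for several functions, over any finite index set -/

open scoped Classical in
theorem mainI (ι : Type) [Fintype ι] (k l : ℕ) (hs : ι → ℕ) (hkl : k ≠ l) (p₀ q : ℕ) (hq : 1 ≤ q) (ε : ℝ)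
    (hε : 0 < ε) :
    ∃ η : ℝ, 0 < η ∧ ∃ C : ℝ, ∀ J : ℕ, ∃ δ : ℝ, 0 < δ ∧ ∃ y0 : ℕ, ∀ y : ℕ, y0 ≤ y →
    ∀ (t : ℝ) (ts : ι → ℝ), |t| ≤ δ * y → (∀ j, |ts j| ≤ δ * y) →
    ∀ (χ : DirichletCharacter ℂ q) (χs : ι → DirichletCharacter ℂ q) (z : ℂ), ‖z‖ = 1 → ε ≤ ‖z - 1‖ →
    ∀ (f g : ℕ → ℂ) (F : ι → ℕ → ℂ), UD f → UD g → (∀ j, UD (F j)) →
    Near p₀ q (2 * y) χ t z η f → (∀ j, Near p₀ q (2 * y) (χs j) (ts j) 1 η (F j)) →
    ∑ i ∈ (Icc 1 J).filter (fun i => ε < ‖mn (fun n => f (n + k) * g (n + l) * ∏ j, F j (n + hs j)) (y / 2 ^ i)‖),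
      1 / (i : ℝ) ≤ C := by
  set e : Fin (Fintype.card ι) ≃ ι := (Fintype.equivFin ι).symm with he
  obtain ⟨η, hη, C, hC⟩ := mainT (Fintype.card ι) k l (fun j => hs (e j)) hkl p₀ q hq ε hε
  refine ⟨η, hη, C, fun J => ?_⟩
  obtain ⟨δ, hδ, y0, h1⟩ := hC J
  refine ⟨δ, hδ, y0, fun y hy t ts ht hts χ χs z hz hz1 f g F hf hg hF hnf hnF => ?_⟩
  have h2 := h1 y hy t (fun j => ts (e j)) ht (fun j => hts (e j)) χ (fun j => χs (e j)) z hz hz1 f g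
    (fun j => F (e j)) hf hg (fun j => hF (e j)) hnf (fun j => hnF (e j))
  have h3 : ∀ n : ℕ, ∏ j, F (e j) (n + hs (e j)) = ∏ j, F j (n + hs j) := fun n =>
    Equiv.prod_comp e (fun j => F j (n + hs j))
  simp only [h3] at h2
  exact h2

end Pool.Agent.X23.EL
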