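import Pool.Agent.X23.EL1

/-!
# Products of functions of one type at the terms of an arithmetic progression
-/

set_option autoImplicit false

namespace Pool.Agent.X23.EL

open Finset Pool.Agent.TH575.OM

lemma UD_mul {f g : ℕ → ℂ} (hf : UD f) (hg : UD g) : UD (fun n => f n * g n) := by
  refine ⟨fun n => ?_, fun m n hm hn hc => ?_⟩
  · rw [norm_mul]
    exact mul_le_one₀ (hf.1 n) (norm_nonneg _) (hg.1 n)
  · show f (m * n) * g (m * n) = f m * g m * (f n * g n)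
    rw [hf.2 m n hm hn hc, hg.2 m n hm hn hc]
    ring

lemma UD_conj {f : ℕ → ℂ} (hf : UD f) : UD (fun n => (starRingEnd ℂ) (f n)) := by
  refine ⟨fun n => ?_, fun m n hm hn hc => ?_⟩
  · rw [RCLike.norm_conj]
    exact hf.1 n
  · show (starRingEnd ℂ) (f (m * n)) = (starRingEnd ℂ) (f m) * (starRingEnd ℂ) (f n)
    rw [hf.2 m n hm hn hc, map_mul]

lemma conj_nit (t : ℝ) (n : ℕ) : (starRingEnd ℂ) (nit t n) = nit (-t) n := by
  unfold nit
  rw [← Complex.exp_conj, map_mul, Complex.conj_ofReal, Complex.conj_I]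
  congr 1
  push_cast
  ring

lemma nit_add (s t : ℝ) (n : ℕ) : nit s n * nit t n = nit (s + t) n := by
  unfold nit
  rw [← Complex.exp_add]
  congr 1
  push_cast
  ring

lemma conj_char {q : ℕ} (hq : 1 ≤ q) (χ : DirichletCharacter ℂ q) (a : ZMod q) :
    (starRingEnd ℂ) (χ a) = χ⁻¹ a := by
  haveI : NeZero q := ⟨by omega⟩
  rw [← MulChar.star_eq_inv, MulChar.star_apply]
  rfl

lemma char_le {q : ℕ} (χ : DirichletCharacter ℂ q) (a : ZMod q) : ‖χ a‖ ≤ 1 :=
  DirichletCharacter.norm_le_one χ a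

lemma main_le {q : ℕ} (χ : DirichletCharacter ℂ q) (t : ℝ) (z : ℂ) (hz : ‖z‖ ≤ 1) (p : ℕ) :
    ‖z * χ (p : ZMod q) * nit t p‖ ≤ 1 := by
  rw [norm_mul, norm_mul, nit_norm, mul_one]
  exact mul_le_one₀ hz (norm_nonneg _) (char_le χ _)

/-- the conjugate of a function of type `z` times a function of type `z` is of type `1` -/
lemma near_mul {p₀ q X : ℕ} (hq : 1 ≤ q) {χ ψ : DirichletCharacter ℂ q} {s t : ℝ} {z w : ℂ}
    (hz : ‖z‖ ≤ 1) (hw : ‖w‖ ≤ 1) {η η' : ℝ}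
    {f g : ℕ → ℂ} (hg : ∀ n, ‖g n‖ ≤ 1) (h1 : Near p₀ q X χ s z η f) (h2 : Near p₀ q X ψ t w η' g) :
    Near p₀ q X (χ * ψ⁻¹) (s - t) (z * (starRingEnd ℂ) w) (η + η') (fun n => f n * (starRingEnd ℂ) (g n)) := by
  unfold Near at h1 h2 ⊢
  refine le_trans ?_ (add_le_add h1 h2)
  rw [← sum_add_distrib]
  refine sum_le_sum fun p hp => ?_
  rw [← add_div]
  apply div_le_div_of_nonneg_right _ (by positivity)
  have e1 : f p * (starRingEnd ℂ) (g p) - z * (starRingEnd ℂ) w * (χ * ψ⁻¹) (p : ZMod q) * nit (s - t) p =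
      (f p - z * χ (p : ZMod q) * nit s p) * (starRingEnd ℂ) (g p) +
        (z * χ (p : ZMod q) * nit s p) * (starRingEnd ℂ) (g p - w * ψ (p : ZMod q) * nit t p) := by
    rw [map_sub, map_mul, map_mul, conj_nit, conj_char hq, MulChar.mul_apply,
      show s - t = s + (-t) by ring, ← nit_add]
    ring
  rw [e1]
  refine (norm_add_le _ _).trans ?_
  rw [norm_mul, norm_mul, RCLike.norm_conj, RCLike.norm_conj]
  apply add_le_add
  · exact mul_le_of_le_one_right (norm_nonneg _) (hg p)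
  · exact mul_le_of_le_one_left (norm_nonneg _) (main_le χ s z hz p)

lemma near_conj {p₀ q X : ℕ} (hq : 1 ≤ q) {ψ : DirichletCharacter ℂ q} {t : ℝ} {η : ℝ}
    {g : ℕ → ℂ} (h : Near p₀ q X ψ t 1 η g) :
    Near p₀ q X (ψ⁻¹) (-t) 1 η (fun n => (starRingEnd ℂ) (g n)) := by
  unfold Near at h ⊢
  refine le_trans (le_of_eq ?_) h
  refine sum_congr rfl fun p _ => ?_
  have e1 : (starRingEnd ℂ) (g p) - 1 * ψ⁻¹ (p : ZMod q) * nit (-t) p =
      (starRingEnd ℂ) (g p - 1 * ψ (p : ZMod q) * nit t p) := by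
    rw [map_sub, map_mul, map_mul, conj_nit, conj_char hq, map_one]
  rw [e1, RCLike.norm_conj]

lemma near_mono {p₀ q X : ℕ} {χ : DirichletCharacter ℂ q} {t : ℝ} {z : ℂ} {η η' : ℝ} (h : η ≤ η')
    {f : ℕ → ℂ} (h1 : Near p₀ q X χ t z η f) : Near p₀ q X χ t z η' f := h1.trans h

/-- the product of the functions `f j` at `n + b + j h`, `j ≤ r`, and of the functions `G m` at `n + c m` -/
noncomputable def prd {r s : ℕ} (f : Fin (r + 1) → ℕ → ℂ) (G : Fin s → ℕ → ℂ) (b h : ℕ) (c : Fin s → ℕ) (n : ℕ) : ℂ :=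
  (∏ j : Fin (r + 1), f j (n + (b + j * h))) * ∏ m : Fin s, G m (n + c m)

lemma prd_le {r s : ℕ} {f : Fin (r + 1) → ℕ → ℂ} {G : Fin s → ℕ → ℂ} (hf : ∀ j, UD (f j)) (hG : ∀ m, UD (G m))
    (b h : ℕ) (c : Fin s → ℕ) (n : ℕ) : ‖prd f G b h c n‖ ≤ 1 := by
  unfold prd
  rw [norm_mul, norm_prod, norm_prod]
  exact mul_le_one₀ (prod_le_one (fun _ _ => norm_nonneg _) fun j _ => (hf j).1 _)
    (prod_nonneg fun _ _ => norm_nonneg _) (prod_le_one (fun _ _ => norm_nonneg _) fun m _ => (hG m).1 _)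

/-- the shifts of the factors of type one in the product with lag `h` -/
def sh (r s b h : ℕ) (c : Fin s → ℕ) : (Fin r ⊕ (Fin s ⊕ Fin s)) → ℕ
  | Sum.inl j => b + (j + 1) * h
  | Sum.inr (Sum.inl m) => c m + h
  | Sum.inr (Sum.inr m) => c m

/-- the factors of type one in the product with lag `h` -/
noncomputable def Fs {r s : ℕ} (f : Fin (r + 1) → ℕ → ℂ) (G : Fin s → ℕ → ℂ) :
    (Fin r ⊕ (Fin s ⊕ Fin s)) → ℕ → ℂ
  | Sum.inl j => fun n => f j.castSucc n * (starRingEnd ℂ) (f j.succ n)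
  | Sum.inr (Sum.inl m) => G m
  | Sum.inr (Sum.inr m) => fun n => (starRingEnd ℂ) (G m n)

lemma lag_prd {r s : ℕ} (f : Fin (r + 1) → ℕ → ℂ) (G : Fin s → ℕ → ℂ) (b h : ℕ) (c : Fin s → ℕ) (n : ℕ) :
    lag (prd f G b h c) h n = f (Fin.last r) (n + (b + (r + 1) * h)) * (starRingEnd ℂ) (f 0 (n + b)) *
      ∏ j, Fs f G j (n + sh r s b h c j) := by
  unfold lag prd
  rw [Fintype.prod_sum_type, Fintype.prod_sum_type]
  simp only [Fs, sh, map_mul, map_prod]
  rw [Fin.prod_univ_castSucc (fun j : Fin (r + 1) => f j (n + h + (b + j * h))),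
    Fin.prod_univ_succ (fun j : Fin (r + 1) => (starRingEnd ℂ) (f j (n + (b + j * h)))), prod_mul_distrib]
  have e1 : ∀ j : Fin r, n + h + (b + ((j.castSucc : Fin (r + 1)) : ℕ) * h) = n + (b + ((j : ℕ) + 1) * h) := by
    intro j
    rw [Fin.val_castSucc]
    ring
  have e2 : n + h + (b + ((Fin.last r : Fin (r + 1)) : ℕ) * h) = n + (b + (r + 1) * h) := by
    rw [Fin.val_last]
    ring
  have e3 : ∀ j : Fin r, n + (b + ((j.succ : Fin (r + 1)) : ℕ) * h) = n + (b + ((j : ℕ) + 1) * h) := by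
    intro j
    rw [Fin.val_succ]
  have e4 : n + (b + (((0 : Fin (r + 1)) : ℕ)) * h) = n + b := by simp
  have e5 : ∀ m : Fin s, n + h + c m = n + (c m + h) := fun m => by ring
  simp only [e1, e2, e3, e4, e5]
  ring

lemma sqrt_bound (ε x : ℝ) (hε : 0 ≤ ε) (hx : x ≤ ε) :
    1 / 2 * Real.sqrt (2 + 2 * x) ≤ 1 / Real.sqrt 2 + ε / 2 := by
  have h2 : (0 : ℝ) < Real.sqrt 2 := by positivity
  have h3 : (1 : ℝ) ≤ Real.sqrt 2 := by
    rw [Real.one_le_sqrt]
    norm_num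
  have e1 : (1 : ℝ) / 2 * Real.sqrt (2 + 2 * x) ≤ 1 / 2 * (Real.sqrt 2 * (1 + ε / 2)) := by
    apply mul_le_mul_of_nonneg_left _ (by norm_num)
    apply Real.sqrt_le_iff.2
    refine ⟨by positivity, ?_⟩
    rw [mul_pow, Real.sq_sqrt (by norm_num)]
    nlinarith [sq_nonneg ε]
  have e2 : 1 / Real.sqrt 2 = Real.sqrt 2 / 2 := by
    rw [div_eq_div_iff h2.ne' (by norm_num), one_mul, Real.mul_self_sqrt (by norm_num)]
  have h4 : Real.sqrt 2 ≤ 2 := by
    rw [Real.sqrt_le_left (by norm_num)]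
    norm_num
  rw [e2]
  nlinarith

open scoped Classical in
/-- **products of functions of one type** -/
theorem oneType (r s b h : ℕ) (hh : 1 ≤ h) (c : Fin s → ℕ) (p₀ q : ℕ) (hq : 1 ≤ q) (ε : ℝ) (hε : 0 < ε) :
    ∃ η : ℝ, 0 < η ∧ ∃ C : ℝ, ∀ J : ℕ, ∃ δ : ℝ, 0 < δ ∧ ∃ x₀ : ℕ, ∀ x : ℕ, x₀ ≤ x →
    ∀ (t : Fin (r + 1) → ℝ) (ts : Fin s → ℝ), (∀ j, |t j| ≤ δ * x) → (∀ m, |ts m| ≤ δ * x) →
    ∀ (χ : Fin (r + 1) → DirichletCharacter ℂ q) (χs : Fin s → DirichletCharacter ℂ q) (z : ℂ), ‖z‖ = 1 →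
    ε ≤ ‖z - 1‖ → ∀ (f : Fin (r + 1) → ℕ → ℂ) (G : Fin s → ℕ → ℂ), (∀ j, UD (f j)) → (∀ m, UD (G m)) →
    (∀ j, Near p₀ q (2 * x) (χ j) (t j) z η (f j)) → (∀ m, Near p₀ q (2 * x) (χs m) (ts m) 1 η (G m)) →
    ∑ i ∈ (Icc 1 J).filter (fun i => 1 / Real.sqrt 2 + ε < ‖mn (prd f G b h c) (x / 2 ^ i)‖), 1 / (i : ℝ) ≤ C ∧
    ((∀ j n, (f j n).im = 0) → (∀ m n, (G m n).im = 0) →
      ∑ i ∈ (Icc 1 J).filter (fun i => 1 / 2 + ε < ‖mn (prd f G b h c) (x / 2 ^ i)‖), 1 / (i : ℝ) ≤ C) := by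
  obtain ⟨η, hη, C, hC⟩ := mainI (Fin r ⊕ (Fin s ⊕ Fin s)) (b + (r + 1) * h) b (sh r s b h c)
    (by
      have : 1 ≤ (r + 1) * h := Nat.one_le_iff_ne_zero.2 (by positivity)
      omega) p₀ q hq ε hε
  refine ⟨η / 2, by positivity, C, fun J => ?_⟩
  obtain ⟨δ, hδ, y0, h1⟩ := hC J
  obtain ⟨K, hK⟩ := exists_nat_ge (2 * (h : ℝ) / ε)
  refine ⟨δ / 2, by positivity, y0 + 2 ^ J * (K + 1), fun x hx t ts ht hts χ χs z hz hz1 f G hf hG hnf hnG => ?_⟩
  have hzz : z * (starRingEnd ℂ) z = 1 := by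
    rw [Complex.mul_conj, Complex.normSq_eq_norm_sq, hz]
    norm_num
  have hxx : (0 : ℝ) ≤ x := by positivity
  -- the lag sums
  have h2 := h1 x (by omega) (t (Fin.last r))
    (fun j => match j with
      | Sum.inl j => t j.castSucc - t j.succ
      | Sum.inr (Sum.inl m) => ts m
      | Sum.inr (Sum.inr m) => - ts m)
    (by
      have := ht (Fin.last r)
      have h3 : δ / 2 * x ≤ δ * x := by nlinarith
      linarith)
    (by
      have h3 : δ / 2 * x ≤ δ * x := by nlinarith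
      rintro (j | m | m)
      · show |t j.castSucc - t j.succ| ≤ δ * x
        have h4 := ht j.castSucc
        have h5 := ht j.succ
        have h6 := abs_sub (t j.castSucc) (t j.succ)
        linarith
      · exact (hts m).trans h3
      · show |-ts m| ≤ δ * x
        rw [abs_neg]
        exact (hts m).trans h3)
    (χ (Fin.last r))
    (fun j => match j with
      | Sum.inl j => χ j.castSucc * (χ j.succ)⁻¹
      | Sum.inr (Sum.inl m) => χs m
      | Sum.inr (Sum.inr m) => (χs m)⁻¹)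
    z hz hz1 (f (Fin.last r)) (fun n => (starRingEnd ℂ) (f 0 n)) (Fs f G) (hf _) (UD_conj (hf 0))
    (by
      rintro (j | m | m)
      · exact UD_mul (hf _) (UD_conj (hf _))
      · exact hG m
      · exact UD_conj (hG m))
    (near_mono (by linarith) (hnf _))
    (by
      rintro (j | m | m)
      · have h3 := near_mul hq hz.le hz.le (hf j.succ).1 (hnf j.castSucc) (hnf j.succ)
        rw [hzz, add_halves] at h3
        exact h3
      · exact near_mono (by linarith) (hnG m)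
      · exact near_mono (by linarith) (near_conj hq (hnG m)))
  have e1 : (fun n => f (Fin.last r) (n + (b + (r + 1) * h)) * (fun n => (starRingEnd ℂ) (f 0 n)) (n + b) *
      ∏ j, Fs f G j (n + sh r s b h c j)) = lag (prd f G b h c) h := by
    funext n
    exact (lag_prd f G b h c n).symm
  rw [e1] at h2
  -- the scales are large
  have hsc : ∀ i ∈ Icc 1 J, K + 1 ≤ x / 2 ^ i := by
    intro i hi
    rw [mem_Icc] at hi
    rw [Nat.le_div_iff_mul_le (by positivity)]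
    have h3 : 2 ^ i ≤ 2 ^ J := Nat.pow_le_pow_right (by norm_num) hi.2
    calc (K + 1) * 2 ^ i ≤ (K + 1) * 2 ^ J := Nat.mul_le_mul_left _ h3
      _ ≤ x := by rw [mul_comm]; omega
  have hsm : ∀ i ∈ Icc 1 J, (h : ℝ) / ((x / 2 ^ i : ℕ) : ℝ) ≤ ε / 2 := by
    intro i hi
    have h3 : ((K + 1 : ℕ) : ℝ) ≤ ((x / 2 ^ i : ℕ) : ℝ) := by exact_mod_cast hsc i hi
    push_cast at h3
    have h4 : 0 < ((x / 2 ^ i : ℕ) : ℝ) := by
      have : (0 : ℝ) ≤ K := by positivity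
      linarith
    rw [div_le_iff₀ h4]
    rw [div_le_iff₀ hε] at hK
    nlinarith
  have hle := prd_le hf hG b h c
  refine ⟨?_, fun hfr hGr => ?_⟩
  · refine (sum_le_sum_of_subset_of_nonneg ?_ fun _ _ _ => by positivity).trans h2
    intro i hi
    rw [mem_filter] at hi ⊢
    refine ⟨hi.1, ?_⟩
    by_contra hcon
    rw [not_lt] at hcon
    have h3 := bound_gen (prd f G b h c) hle h (x / 2 ^ i) (le_trans (by omega) (hsc i hi.1))
    have h4 := sqrt_bound ε _ hε.le hcon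
    have h5 := hsm i hi.1
    have h6 := hi.2
    linarith
  · refine (sum_le_sum_of_subset_of_nonneg ?_ fun _ _ _ => by positivity).trans h2
    intro i hi
    rw [mem_filter] at hi ⊢
    refine ⟨hi.1, ?_⟩
    by_contra hcon
    rw [not_lt] at hcon
    have hre : ∀ n, (prd f G b h c n).im = 0 := by
      intro n
      have h7 : ∀ (κ : Type) (S : Finset κ) (a : κ → ℂ), (∀ i, (a i).im = 0) → (∏ i ∈ S, a i).im = 0 := by
        intro κ S a ha
        induction S using Finset.induction_on with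
        | empty => simp
        | insert x S hx ih => rw [prod_insert hx, Complex.mul_im, ha, ih]; ring
      unfold prd
      rw [Complex.mul_im, h7 _ _ _ fun j => hfr j _, h7 _ _ _ fun m => hGr m _]
      ring
    have h3 := bound_real (prd f G b h c) hle hre h (x / 2 ^ i) (le_trans (by omega) (hsc i hi.1))
    have h5 := hsm i hi.1
    have h6 := hi.2
    linarith

end Pool.Agent.X23.EL
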