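import Pool.Agent.X23.EL1
import Pool.Agent.Y842.QY.FinW

/-!
# Products of a function of `Ω` at the terms of an arithmetic progression
-/

set_option autoImplicit false

namespace Pool.Agent.X23.EL

open Finset Filter Topology
open ArithmeticFunction (cardFactors)
open Pool.Agent.Y842.QY (mB Lc excW csg mB_le)
open Pool.Agent.Y958.U (LZ)
open Pool.Agent.Y842.EL (LZ_diag' LZ_union LZ_mono)
open Pool.Agent.Helper602.MK (ee)
open Pool.Agent.Helper602.MK.N_J1c (c_ee_add c_ee_int c_norm_ee)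

/-- the colouring with one colour -/
def one1 : ℕ → Fin 1 := fun _ => 0

/-- the number of prime factors of a signature -/
def tot (s : Multiset (Fin 1 × ℕ)) : ℕ := (s.map Prod.snd).sum

lemma tot_csg (n : ℕ) : tot (csg one1 n) = cardFactors n := by
  unfold tot csg
  rw [Multiset.map_map, ArithmeticFunction.cardFactors_eq_sum_factorization]
  rfl

lemma pairE (A B : ℕ → ℂ) (hA : ∀ l, ‖A l‖ ≤ 1) (hB : ∀ l, ‖B l‖ ≤ 1) :
    ∃ E : Set ℕ, LZ E ∧ ∀ a c : ℕ, a ≠ c → ∀ ε : ℝ, 0 < ε → ∃ N₀ : ℕ, ∀ N : ℕ, N₀ ≤ N → N ∉ E →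
      ∀ (α : ℝ) (y : ℕ), y ≤ N →
        ‖∑ n ∈ Icc 1 y, A (cardFactors (n + c)) * ee (α * n) * (B (cardFactors (n + a)) - mB B N)‖ ≤ ε * N := by
  obtain ⟨E, hE, h⟩ := excW one1 (fun s => A (tot s)) (fun s => hA _) (fun _ => 1) (fun _ _ => by simp)
    (fun _ _ _ _ _ => by simp) B hB
  refine ⟨E, hE, fun a c hac ε hε => ?_⟩
  obtain ⟨N₀, h1⟩ := h a c hac ε hε
  refine ⟨N₀, fun N hN hNE α y hy => ?_⟩
  have h2 := h1 N hN hNE α y hy
  unfold Lc at h2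
  simp only [tot_csg, mul_one] at h2
  exact h2

/-- two-point correlations of two functions of `Ω`, with linear phases -/
lemma two (A B : ℕ → ℂ) (hA : ∀ l, ‖A l‖ ≤ 1) (hB : ∀ l, ‖B l‖ ≤ 1) :
    ∃ E : Set ℕ, LZ E ∧ ∀ d : ℕ, 1 ≤ d → ∀ ε : ℝ, 0 < ε → ∃ N₀ : ℕ, ∀ N : ℕ, N₀ ≤ N → N ∉ E →
      ∀ (α : ℝ) (y : ℕ), y ≤ N →
        ‖∑ n ∈ Icc 1 y, A (cardFactors n) * B (cardFactors (n + d)) * ee (α * n) -
          mB A N * mB B N * ∑ n ∈ Icc 1 y, ee (α * n)‖ ≤ ε * N := by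
  obtain ⟨E1, hE1, h1⟩ := pairE A B hA hB
  obtain ⟨E2, hE2, h2⟩ := pairE (fun _ => 1) A (fun _ => by simp) hA
  refine ⟨E1 ∪ E2, LZ_union hE1 hE2, fun d hd ε hε => ?_⟩
  obtain ⟨N1, h1'⟩ := h1 d 0 (by omega) (ε / 2) (by positivity)
  obtain ⟨N2, h2'⟩ := h2 0 1 (by omega) (ε / 2) (by positivity)
  refine ⟨N1 + N2, fun N hN hNE α y hy => ?_⟩
  rw [Set.mem_union, not_or] at hNE
  have h3 := h1' N (by omega) hNE.1 α y hy
  have h4 := h2' N (by omega) hNE.2 α y hy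
  have e1 : ∑ n ∈ Icc 1 y, A (cardFactors n) * B (cardFactors (n + d)) * ee (α * n) -
          mB A N * mB B N * ∑ n ∈ Icc 1 y, ee (α * n) =
      ∑ n ∈ Icc 1 y, A (cardFactors (n + 0)) * ee (α * n) * (B (cardFactors (n + d)) - mB B N) +
      mB B N * ∑ n ∈ Icc 1 y, (1 : ℂ) * ee (α * n) * (A (cardFactors (n + 0)) - mB A N) := by
    rw [mul_sum, mul_sum, ← sum_add_distrib, ← sum_sub_distrib]
    refine sum_congr rfl fun n _ => ?_
    rw [add_zero]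
    ring
  rw [e1]
  refine (norm_add_le _ _).trans ?_
  rw [norm_mul]
  have h5 : ‖mB B N‖ * ‖∑ n ∈ Icc 1 y, (1 : ℂ) * ee (α * n) * (A (cardFactors (n + 0)) - mB A N)‖ ≤ 1 * (ε / 2 * N) :=
    mul_le_mul (mB_le B 1 zero_le_one hB N) h4 (norm_nonneg _) zero_le_one
  linarith

/-! ### the first bound -/

/-- rounding -/
noncomputable def rd (j : ℕ) (z : ℂ) : ℤ × ℤ := (⌊(j : ℝ) * z.re⌋, ⌊(j : ℝ) * z.im⌋)

/-- the value of a rounded number -/
noncomputable def vl (j : ℕ) (v : ℤ × ℤ) : ℂ := ((((v.1 : ℝ) / j : ℝ)) : ℂ) + (((v.2 : ℝ) / j : ℝ) : ℂ) * Complex.I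

/-- the grid -/
noncomputable def gr (j : ℕ) : Finset (ℤ × ℤ) := Icc (-(j : ℤ)) j ×ˢ Icc (-(j : ℤ)) j

lemma rd_mem (j : ℕ) (z : ℂ) (hz : ‖z‖ ≤ 1) : rd j z ∈ gr j := by
  have h1 := abs_le.1 ((Complex.abs_re_le_norm z).trans hz)
  have h2 := abs_le.1 ((Complex.abs_im_le_norm z).trans hz)
  have hj : (0 : ℝ) ≤ j := by positivity
  unfold rd gr
  rw [mem_product, mem_Icc, mem_Icc]
  refine ⟨⟨?_, ?_⟩, ⟨?_, ?_⟩⟩
  · rw [Int.le_floor]
    push_cast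
    nlinarith
  · show ⌊(j : ℝ) * z.re⌋ ≤ (j : ℤ)
    have : (⌊(j : ℝ) * z.re⌋ : ℝ) ≤ (j : ℝ) := (Int.floor_le _).trans (by nlinarith)
    exact_mod_cast this
  · rw [Int.le_floor]
    push_cast
    nlinarith
  · show ⌊(j : ℝ) * z.im⌋ ≤ (j : ℤ)
    have : (⌊(j : ℝ) * z.im⌋ : ℝ) ≤ (j : ℝ) := (Int.floor_le _).trans (by nlinarith)
    exact_mod_cast this

lemma vl_near (j : ℕ) (hj : 1 ≤ j) (z : ℂ) : ‖z - vl j (rd j z)‖ ≤ 2 / j := by
  have hj0 : (0 : ℝ) < j := by exact_mod_cast (by omega : 0 < j)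
  refine (Complex.norm_le_abs_re_add_abs_im _).trans ?_
  have e1 : (z - vl j (rd j z)).re = z.re - (⌊(j : ℝ) * z.re⌋ : ℝ) / j := by
    unfold vl rd
    simp
  have e2 : (z - vl j (rd j z)).im = z.im - (⌊(j : ℝ) * z.im⌋ : ℝ) / j := by
    unfold vl rd
    simp
  have key : ∀ x : ℝ, |x - (⌊(j : ℝ) * x⌋ : ℝ) / j| ≤ 1 / j := by
    intro x
    have h1 := Int.floor_le ((j : ℝ) * x)
    have h2 := Int.lt_floor_add_one ((j : ℝ) * x)
    have e3 : x - (⌊(j : ℝ) * x⌋ : ℝ) / j = ((j : ℝ) * x - ⌊(j : ℝ) * x⌋) / j := by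
      field_simp
    rw [e3, abs_div, abs_of_nonneg (by linarith : 0 ≤ (j : ℝ) * x - ⌊(j : ℝ) * x⌋), abs_of_pos hj0]
    apply div_le_div_of_nonneg_right _ hj0.le
    linarith
  rw [e1, e2]
  have h3 := key z.re
  have h4 := key z.im
  have : (2 : ℝ) / j = 1 / j + 1 / j := by ring
  linarith

/-- the indicator function of a class -/
noncomputable def I1 (a : ℕ → ℂ) (j : ℕ) (v : ℤ × ℤ) (l : ℕ) : ℂ := if rd j (a l) = v then 1 else 0

lemma I1_le (a : ℕ → ℂ) (j : ℕ) (v : ℤ × ℤ) (l : ℕ) : ‖I1 a j v l‖ ≤ 1 := by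
  unfold I1
  split_ifs <;> simp

/-- the sum over the classes -/
lemma sum_I1 (a : ℕ → ℂ) (ha : ∀ l, ‖a l‖ ≤ 1) (j : ℕ) (F : ℤ × ℤ → ℤ × ℤ → ℂ) (l m : ℕ) :
    ∑ v ∈ gr j, ∑ w ∈ gr j, F v w * (I1 a j v l * I1 a j w m) = F (rd j (a l)) (rd j (a m)) := by
  rw [sum_eq_single (rd j (a l)), sum_eq_single (rd j (a m))]
  · unfold I1
    simp
  · intro w _ hw
    have : I1 a j w m = 0 := by
      unfold I1
      rw [if_neg (fun h => hw h.symm)]
    rw [this, mul_zero, mul_zero]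
  · intro h
    exact absurd (rd_mem j _ (ha m)) h
  · intro v _ hv
    apply sum_eq_zero
    intro w _
    have : I1 a j v l = 0 := by
      unfold I1
      rw [if_neg (fun h => hv h.symm)]
    rw [this, zero_mul, mul_zero]
  · intro h
    exact absurd (rd_mem j _ (ha l)) h

/-- the mean of `‖a(Ω m₁) + a(Ω m₂)‖` over `m₁, m₂ ≤ N` -/
noncomputable def dbl (a : ℕ → ℂ) (N : ℕ) : ℝ :=
  (∑ m₁ ∈ Icc 1 N, ∑ m₂ ∈ Icc 1 N, ‖a (cardFactors m₁) + a (cardFactors m₂)‖) / (N : ℝ) ^ 2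

/-- the distance between the sums of the rounded values -/
lemma round_near (j : ℕ) (hj : 1 ≤ j) (x y : ℂ) :
    |‖x + y‖ - ‖vl j (rd j x) + vl j (rd j y)‖| ≤ 4 / j := by
  refine (abs_norm_sub_norm_le _ _).trans ?_
  have e1 : x + y - (vl j (rd j x) + vl j (rd j y)) = (x - vl j (rd j x)) + (y - vl j (rd j y)) := by ring
  rw [e1]
  refine (norm_add_le _ _).trans ?_
  have h1 := vl_near j hj x
  have h2 := vl_near j hj y
  have : (4 : ℝ) / j = 2 / j + 2 / j := by ring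
  linarith

/-- the weight of a pair of classes -/
noncomputable def wt (j : ℕ) (v w : ℤ × ℤ) : ℝ := ‖vl j v + vl j w‖

lemma wt_nonneg (j : ℕ) (v w : ℤ × ℤ) : 0 ≤ wt j v w := norm_nonneg _

lemma wt_le (j : ℕ) (hj : 1 ≤ j) (v w : ℤ × ℤ) (hv : v ∈ gr j) (hw : w ∈ gr j) : wt j v w ≤ 4 := by
  have hj0 : (0 : ℝ) < j := by exact_mod_cast (by omega : 0 < j)
  have key : ∀ v ∈ gr j, ‖vl j v‖ ≤ 2 := by
    intro v hv
    unfold gr at hv
    rw [mem_product, mem_Icc, mem_Icc] at hv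
    have h1 : |(v.1 : ℝ) / j| ≤ 1 := by
      rw [abs_div, abs_of_pos hj0, div_le_one hj0, abs_le]
      exact ⟨by exact_mod_cast hv.1.1, by exact_mod_cast hv.1.2⟩
    have h2 : |(v.2 : ℝ) / j| ≤ 1 := by
      rw [abs_div, abs_of_pos hj0, div_le_one hj0, abs_le]
      exact ⟨by exact_mod_cast hv.2.1, by exact_mod_cast hv.2.2⟩
    refine (Complex.norm_le_abs_re_add_abs_im _).trans ?_
    have e1 : (vl j v).re = (v.1 : ℝ) / j := by unfold vl; simp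
    have e2 : (vl j v).im = (v.2 : ℝ) / j := by unfold vl; simp
    rw [e1, e2]
    linarith
  unfold wt
  refine (norm_add_le _ _).trans ?_
  have h1 := key v hv
  have h2 := key w hw
  linarith

/-- the double mean, rounded -/
lemma dbl_round (a : ℕ → ℂ) (ha : ∀ l, ‖a l‖ ≤ 1) (j : ℕ) (hj : 1 ≤ j) (N : ℕ) (hN : 1 ≤ N) :
    ‖∑ v ∈ gr j, ∑ w ∈ gr j, ((wt j v w : ℝ) : ℂ) * (mB (I1 a j v) N * mB (I1 a j w) N)‖ ≤ dbl a N + 4 / j := by
  have hN0 : (0 : ℝ) < N := by exact_mod_cast (by omega : 0 < N)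
  have hNc : (N : ℂ) ≠ 0 := by exact_mod_cast (by omega : N ≠ 0)
  have e1 : ∑ v ∈ gr j, ∑ w ∈ gr j, ((wt j v w : ℝ) : ℂ) * (mB (I1 a j v) N * mB (I1 a j w) N) =
      (((∑ m₁ ∈ Icc 1 N, ∑ m₂ ∈ Icc 1 N, wt j (rd j (a (cardFactors m₁))) (rd j (a (cardFactors m₂)))) /
        (N : ℝ) ^ 2 : ℝ) : ℂ) := by
    push_cast
    rw [eq_div_iff (pow_ne_zero 2 hNc), sum_mul]
    have e2 : ∀ v w : ℤ × ℤ, ((wt j v w : ℝ) : ℂ) * (mB (I1 a j v) N * mB (I1 a j w) N) * (N : ℂ) ^ 2 =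
        ∑ m₁ ∈ Icc 1 N, ∑ m₂ ∈ Icc 1 N, ((wt j v w : ℝ) : ℂ) *
          (I1 a j v (cardFactors m₁) * I1 a j w (cardFactors m₂)) := by
      intro v w
      unfold mB
      rw [show ((wt j v w : ℝ) : ℂ) * ((∑ n ∈ Icc 1 N, I1 a j v (cardFactors n)) / (N : ℂ) *
        ((∑ n ∈ Icc 1 N, I1 a j w (cardFactors n)) / (N : ℂ))) * (N : ℂ) ^ 2 =
        ((wt j v w : ℝ) : ℂ) * ((∑ n ∈ Icc 1 N, I1 a j v (cardFactors n)) *
        (∑ n ∈ Icc 1 N, I1 a j w (cardFactors n))) by field_simp, sum_mul_sum, mul_sum]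
      refine sum_congr rfl fun m₁ _ => ?_
      rw [mul_sum]
    calc ∑ v ∈ gr j, (∑ w ∈ gr j, ((wt j v w : ℝ) : ℂ) * (mB (I1 a j v) N * mB (I1 a j w) N)) * (N : ℂ) ^ 2
        = ∑ v ∈ gr j, ∑ w ∈ gr j, ∑ m₁ ∈ Icc 1 N, ∑ m₂ ∈ Icc 1 N, ((wt j v w : ℝ) : ℂ) *
          (I1 a j v (cardFactors m₁) * I1 a j w (cardFactors m₂)) := by
          refine sum_congr rfl fun v _ => ?_
          rw [sum_mul]
          exact sum_congr rfl fun w _ => e2 v w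
      _ = ∑ m₁ ∈ Icc 1 N, ∑ m₂ ∈ Icc 1 N, ∑ v ∈ gr j, ∑ w ∈ gr j, ((wt j v w : ℝ) : ℂ) *
          (I1 a j v (cardFactors m₁) * I1 a j w (cardFactors m₂)) := by
          rw [sum_congr rfl fun v _ => sum_comm, sum_comm]
          refine sum_congr rfl fun m₁ _ => ?_
          rw [sum_congr rfl fun v _ => sum_comm, sum_comm]
      _ = _ := by
          refine sum_congr rfl fun m₁ _ => ?_
          refine sum_congr rfl fun m₂ _ => ?_
          exact sum_I1 a ha j (fun v w => ((wt j v w : ℝ) : ℂ)) _ _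
  rw [e1, Complex.norm_real, Real.norm_of_nonneg (by
    apply div_nonneg _ (by positivity)
    exact sum_nonneg fun _ _ => sum_nonneg fun _ _ => wt_nonneg _ _ _)]
  unfold dbl
  rw [div_add' _ _ _ (by positivity), div_le_div_iff_of_pos_right (by positivity)]
  have h1 : ∀ m₁ ∈ Icc 1 N, ∀ m₂ ∈ Icc 1 N, wt j (rd j (a (cardFactors m₁))) (rd j (a (cardFactors m₂))) ≤
      ‖a (cardFactors m₁) + a (cardFactors m₂)‖ + 4 / j := by
    intro m₁ _ m₂ _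
    have := (abs_le.1 (round_near j hj (a (cardFactors m₁)) (a (cardFactors m₂)))).1
    unfold wt
    linarith
  refine (sum_le_sum fun m₁ h₁ => sum_le_sum fun m₂ h₂ => h1 m₁ h₁ m₂ h₂).trans (le_of_eq ?_)
  simp only [sum_add_distrib, sum_const, Nat.card_Icc, Nat.add_sub_cancel, nsmul_eq_mul]
  ring

/-- the sum of `‖a(Ω n) + a(Ω(n + d))‖` -/
theorem two_norm (a : ℕ → ℂ) (ha : ∀ l, ‖a l‖ ≤ 1) :
    ∃ E : Set ℕ, LZ E ∧ ∀ d : ℕ, 1 ≤ d → ∀ ε : ℝ, 0 < ε → ∃ N₀ : ℕ, ∀ N : ℕ, N₀ ≤ N → N ∉ E →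
      ∀ y : ℕ, y ≤ N →
        ∑ n ∈ Icc 1 y, ‖a (cardFactors n) + a (cardFactors (n + d))‖ ≤ y * dbl a N + ε * N := by
  choose E hE h using fun t : ℕ × (ℤ × ℤ) × (ℤ × ℤ) => two (I1 a t.1 t.2.1) (I1 a t.1 t.2.2) (I1_le a _ _) (I1_le a _ _)
  obtain ⟨F, hF, h1⟩ := LZ_diag' E hE
  refine ⟨F, hF, fun d hd ε hε => ?_⟩
  obtain ⟨j, hj⟩ := exists_nat_ge (16 / ε + 1)
  have hj1 : 1 ≤ j := by
    have h0 : (0 : ℝ) ≤ 16 / ε := by positivity
    have : (1 : ℝ) ≤ j := by linarith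
    exact_mod_cast this
  have hj0 : (0 : ℝ) < j := by exact_mod_cast (by omega : 0 < j)
  have hj2 : 8 / (j : ℝ) ≤ ε / 2 := by
    have h0 : 16 / ε ≤ j := by linarith
    rw [div_le_iff₀ hε] at h0
    rw [div_le_iff₀ hj0]
    linarith
  set K : ℕ := (gr j).card with hK
  set σ : ℝ := ε / (8 * ((K : ℝ) ^ 2 + 1)) with hσ
  have hσ0 : 0 < σ := by positivity
  -- thresholds for all pairs of classes
  have h2 : ∀ v w : ℤ × ℤ, ∃ N₀ : ℕ, ∀ N : ℕ, N₀ ≤ N → N ∉ F → ∀ y : ℕ, y ≤ N →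
      ‖∑ n ∈ Icc 1 y, I1 a j v (cardFactors n) * I1 a j w (cardFactors (n + d)) -
        mB (I1 a j v) N * mB (I1 a j w) N * y‖ ≤ σ * N := by
    intro v w
    obtain ⟨N1, h3⟩ := h (j, v, w) d hd σ hσ0
    obtain ⟨N2, h4⟩ := h1 (j, v, w)
    refine ⟨N1 + N2, fun N hN hNF y hy => ?_⟩
    have h5 := h3 N (by omega) (fun hcon => hNF (h4 N (by omega) hcon)) 0 y hy
    have e0 : ∀ n : ℕ, ee (0 * (n : ℝ)) = 1 := by
      intro n
      rw [zero_mul]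
      have := c_ee_int 0
      simpa using this
    simp only [e0, mul_one, sum_const, Nat.card_Icc, Nat.add_sub_cancel, nsmul_eq_mul] at h5
    exact h5
  choose M hM using h2
  refine ⟨1 + ∑ v ∈ gr j, ∑ w ∈ gr j, M v w, fun N hN hNF y hy => ?_⟩
  have hN1 : 1 ≤ N := by omega
  have hN0 : (0 : ℝ) < N := by exact_mod_cast (by omega : 0 < N)
  have hyN : (y : ℝ) ≤ N := by exact_mod_cast hy
  have h3 : ∀ v ∈ gr j, ∀ w ∈ gr j, ‖∑ n ∈ Icc 1 y, I1 a j v (cardFactors n) * I1 a j w (cardFactors (n + d)) -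
        mB (I1 a j v) N * mB (I1 a j w) N * y‖ ≤ σ * N := by
    intro v hv w hw
    apply hM v w N _ hNF y hy
    have h4 : M v w ≤ ∑ w ∈ gr j, M v w := single_le_sum (f := fun w => M v w) (fun _ _ => Nat.zero_le _) hw
    have h5 : ∑ w ∈ gr j, M v w ≤ ∑ v ∈ gr j, ∑ w ∈ gr j, M v w :=
      single_le_sum (f := fun v => ∑ w ∈ gr j, M v w) (fun _ _ => Nat.zero_le _) hv
    omega
  -- the rounded sum
  have e1 : ((∑ n ∈ Icc 1 y, wt j (rd j (a (cardFactors n))) (rd j (a (cardFactors (n + d)))) : ℝ) : ℂ) =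
      ∑ v ∈ gr j, ∑ w ∈ gr j, ((wt j v w : ℝ) : ℂ) *
        ∑ n ∈ Icc 1 y, I1 a j v (cardFactors n) * I1 a j w (cardFactors (n + d)) := by
    push_cast
    simp only [mul_sum]
    rw [sum_congr rfl fun v _ => sum_comm, sum_comm]
    refine sum_congr rfl fun n _ => ?_
    exact (sum_I1 a ha j (fun v w => ((wt j v w : ℝ) : ℂ)) _ _).symm
  have h4 : ∑ n ∈ Icc 1 y, wt j (rd j (a (cardFactors n))) (rd j (a (cardFactors (n + d)))) ≤
      y * (dbl a N + 4 / j) + 4 * (K : ℝ) ^ 2 * (σ * N) := by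
    have h5 : ∑ n ∈ Icc 1 y, wt j (rd j (a (cardFactors n))) (rd j (a (cardFactors (n + d)))) =
        ‖((∑ n ∈ Icc 1 y, wt j (rd j (a (cardFactors n))) (rd j (a (cardFactors (n + d)))) : ℝ) : ℂ)‖ := by
      rw [Complex.norm_real, Real.norm_of_nonneg (sum_nonneg fun _ _ => wt_nonneg _ _ _)]
    rw [h5, e1]
    have e2 : ∑ v ∈ gr j, ∑ w ∈ gr j, ((wt j v w : ℝ) : ℂ) *
        ∑ n ∈ Icc 1 y, I1 a j v (cardFactors n) * I1 a j w (cardFactors (n + d)) =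
        y * ∑ v ∈ gr j, ∑ w ∈ gr j, ((wt j v w : ℝ) : ℂ) * (mB (I1 a j v) N * mB (I1 a j w) N) +
        ∑ v ∈ gr j, ∑ w ∈ gr j, ((wt j v w : ℝ) : ℂ) *
          (∑ n ∈ Icc 1 y, I1 a j v (cardFactors n) * I1 a j w (cardFactors (n + d)) -
            mB (I1 a j v) N * mB (I1 a j w) N * y) := by
      rw [mul_sum, ← sum_add_distrib]
      refine sum_congr rfl fun v _ => ?_
      rw [mul_sum, ← sum_add_distrib]
      refine sum_congr rfl fun w _ => ?_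
      ring
    rw [e2]
    refine (norm_add_le _ _).trans (add_le_add ?_ ?_)
    · rw [norm_mul, Complex.norm_natCast]
      exact mul_le_mul_of_nonneg_left (dbl_round a ha j hj1 N hN1) (by positivity)
    · calc ‖∑ v ∈ gr j, ∑ w ∈ gr j, ((wt j v w : ℝ) : ℂ) *
          (∑ n ∈ Icc 1 y, I1 a j v (cardFactors n) * I1 a j w (cardFactors (n + d)) -
            mB (I1 a j v) N * mB (I1 a j w) N * y)‖
          ≤ ∑ v ∈ gr j, ∑ w ∈ gr j, 4 * (σ * N) := by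
            refine (norm_sum_le _ _).trans (sum_le_sum fun v hv => ?_)
            refine (norm_sum_le _ _).trans (sum_le_sum fun w hw => ?_)
            rw [norm_mul, Complex.norm_real, Real.norm_of_nonneg (wt_nonneg j v w)]
            exact mul_le_mul (wt_le j hj1 v w hv hw) (h3 v hv w hw) (norm_nonneg _) (by norm_num)
        _ = 4 * (K : ℝ) ^ 2 * (σ * N) := by
            simp only [sum_const, nsmul_eq_mul]
            ring
  have h5 : ∑ n ∈ Icc 1 y, ‖a (cardFactors n) + a (cardFactors (n + d))‖ ≤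
      ∑ n ∈ Icc 1 y, wt j (rd j (a (cardFactors n))) (rd j (a (cardFactors (n + d)))) + y * (4 / j) := by
    have h6 : ∀ n ∈ Icc 1 y, ‖a (cardFactors n) + a (cardFactors (n + d))‖ ≤
        wt j (rd j (a (cardFactors n))) (rd j (a (cardFactors (n + d)))) + 4 / j := by
      intro n _
      have := (abs_le.1 (round_near j hj1 (a (cardFactors n)) (a (cardFactors (n + d))))).2
      unfold wt
      linarith
    refine (sum_le_sum h6).trans (le_of_eq ?_)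
    rw [sum_add_distrib, sum_const, Nat.card_Icc, Nat.add_sub_cancel, nsmul_eq_mul]
  have h6 : 4 * (K : ℝ) ^ 2 * (σ * N) ≤ ε / 2 * N := by
    have h7 : 4 * (K : ℝ) ^ 2 * σ ≤ ε / 2 := by
      rw [hσ, mul_div_assoc', div_le_iff₀ (by positivity)]
      nlinarith [sq_nonneg (K : ℝ)]
    calc 4 * (K : ℝ) ^ 2 * (σ * N) = (4 * (K : ℝ) ^ 2 * σ) * N := by ring
      _ ≤ _ := mul_le_mul_of_nonneg_right h7 hN0.le
  have h7 : (y : ℝ) * (8 / j) ≤ ε / 2 * N := by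
    calc (y : ℝ) * (8 / j) ≤ N * (ε / 2) := mul_le_mul hyN hj2 (by positivity) hN0.le
      _ = _ := by ring
  have e3 : (y : ℝ) * (dbl a N + 4 / j) + y * (4 / j) = y * dbl a N + y * (8 / j) := by ring
  linarith

end Pool.Agent.X23.EL
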