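import Pool.Agent.X23.EL3
import Pool.Agent.TH575.OM.FinP

/-!
# Products of a function of `Ω` at the terms of an arithmetic progression: the bounds
-/

set_option autoImplicit false

namespace Pool.Agent.X23.EL

open Finset Filter Topology
open ArithmeticFunction (cardFactors)
open Pool.Agent.Y842.QY (mB mB_le)
open Pool.Agent.Y958.U (LZ)
open Pool.Agent.Helper602.MK (ee)
open Pool.Agent.Helper602.MK.N_J1c (c_ee_add c_ee_int c_norm_ee)

/-- the product of the values of `a ∘ Ω` at `n, n + h, ..., n + (k - 1) h` -/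
noncomputable def blk (a : ℕ → ℂ) (k h n : ℕ) : ℂ := ∏ i ∈ range k, a (cardFactors (n + i * h))

lemma blk_le (a : ℕ → ℂ) (ha : ∀ l, ‖a l‖ ≤ 1) (k h n : ℕ) : ‖blk a k h n‖ ≤ 1 := by
  unfold blk
  rw [norm_prod]
  exact prod_le_one (fun _ _ => norm_nonneg _) fun _ _ => ha _

/-- the inner factors -/
noncomputable def inn (a : ℕ → ℂ) (r h n : ℕ) : ℂ := ∏ i ∈ range r, a (cardFactors (n + (i + 1) * h))

lemma inn_le (a : ℕ → ℂ) (ha : ∀ l, ‖a l‖ ≤ 1) (k h n : ℕ) : ‖inn a k h n‖ ≤ 1 := by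
  unfold inn
  rw [norm_prod]
  exact prod_le_one (fun _ _ => norm_nonneg _) fun _ _ => ha _

lemma inn_one (a : ℕ → ℂ) (ha : ∀ l, ‖a l‖ = 1) (k h n : ℕ) : ‖inn a k h n‖ = 1 := by
  unfold inn
  rw [norm_prod]
  exact prod_eq_one fun _ _ => ha _

lemma blk_first (a : ℕ → ℂ) (r h n : ℕ) : blk a (r + 1) h n = inn a r h n * a (cardFactors n) := by
  unfold blk inn
  rw [prod_range_succ', zero_mul, add_zero]

lemma blk_second (a : ℕ → ℂ) (r h n : ℕ) :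
    blk a (r + 1) h (n + h) = inn a r h n * a (cardFactors (n + (r + 1) * h)) := by
  unfold blk inn
  rw [prod_range_succ]
  congr 1
  · refine prod_congr rfl fun i _ => ?_
    congr 2
    ring
  · congr 2
    ring

/-- **first bound** -/
theorem first (a : ℕ → ℂ) (ha : ∀ l, ‖a l‖ ≤ 1) :
    ∃ E : Set ℕ, LZ E ∧ ∀ k h : ℕ, 1 ≤ k → 1 ≤ h → ∀ ε : ℝ, 0 < ε → ∃ N₀ : ℕ, ∀ N : ℕ, N₀ ≤ N → N ∉ E →
      ∀ y : ℕ, y ≤ N → ‖∑ n ∈ Icc 1 y, blk a k h n‖ ≤ y * (dbl a N / 2) + ε * N := by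
  obtain ⟨E, hE, h1⟩ := two_norm a ha
  refine ⟨E, hE, fun k h hk hh ε hε => ?_⟩
  obtain ⟨r, rfl⟩ : ∃ r, k = r + 1 := ⟨k - 1, by omega⟩
  obtain ⟨N₀, h2⟩ := h1 ((r + 1) * h) (Nat.one_le_iff_ne_zero.2 (by positivity)) ε hε
  obtain ⟨N₁, hN₁⟩ := exists_nat_ge ((h : ℝ) / (ε / 2))
  refine ⟨N₀ + N₁, fun N hN hNE y hy => ?_⟩
  have h3 := h2 N (by omega) hNE y hy
  have h4 := half (blk a (r + 1) h) (blk_le a ha _ h) h y
  have h5 : (h : ℝ) ≤ ε / 2 * N := by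
    rw [div_le_iff₀ (by positivity)] at hN₁
    have : (N₁ : ℝ) ≤ N := by exact_mod_cast (by omega : N₁ ≤ N)
    nlinarith
  have h6 : ∑ n ∈ Icc 1 y, ‖blk a (r + 1) h n + blk a (r + 1) h (n + h)‖ ≤
      ∑ n ∈ Icc 1 y, ‖a (cardFactors n) + a (cardFactors (n + (r + 1) * h))‖ := by
    refine sum_le_sum fun n _ => ?_
    rw [blk_first, blk_second, ← mul_add, norm_mul]
    exact mul_le_of_le_one_left (norm_nonneg _) (inn_le a ha _ _ _)
  linarith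

/-- van der Corput's inequality, one step, in terms of sums -/
lemma gen_sum (u : ℕ → ℂ) (hu : ∀ n, ‖u n‖ ≤ 1) (h M : ℕ) :
    ‖∑ n ∈ Icc 1 M, u n‖ ≤ 1 / 2 * Real.sqrt (M * (2 * M + 2 * ‖∑ n ∈ Icc 1 M, lag u h n‖)) + h := by
  have h1 := half u hu h M
  have h2 : (∑ n ∈ Icc 1 M, ‖u n + u (n + h)‖) ^ 2 ≤
      (M : ℝ) * ∑ n ∈ Icc 1 M, ‖u n + u (n + h)‖ ^ 2 := by
    have := sq_sum_le_card_mul_sum_sq (s := Icc 1 M) (f := fun n => ‖u n + u (n + h)‖)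
    rw [Nat.card_Icc, Nat.add_sub_cancel] at this
    exact this
  have h3 : ∑ n ∈ Icc 1 M, ‖u n + u (n + h)‖ ^ 2 ≤ 2 * M + 2 * ‖∑ n ∈ Icc 1 M, lag u h n‖ := by
    calc ∑ n ∈ Icc 1 M, ‖u n + u (n + h)‖ ^ 2
        ≤ ∑ n ∈ Icc 1 M, (2 + 2 * (u (n + h) * (starRingEnd ℂ) (u n)).re) :=
          sum_le_sum fun n _ => norm_sq_add _ _ (hu _) (hu _)
      _ = 2 * M + 2 * ∑ n ∈ Icc 1 M, (u (n + h) * (starRingEnd ℂ) (u n)).re := by
          rw [sum_add_distrib, sum_const, Nat.card_Icc, Nat.add_sub_cancel, nsmul_eq_mul, mul_sum]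
          ring
      _ ≤ 2 * M + 2 * ‖∑ n ∈ Icc 1 M, lag u h n‖ := by
          have := re_sum_le u h M
          linarith
  have h4 : ∑ n ∈ Icc 1 M, ‖u n + u (n + h)‖ ≤ Real.sqrt (M * (2 * M + 2 * ‖∑ n ∈ Icc 1 M, lag u h n‖)) := by
    apply Real.le_sqrt_of_sq_le
    exact h2.trans (mul_le_mul_of_nonneg_left h3 (by positivity))
  linarith

lemma conj_ee (x : ℝ) : (starRingEnd ℂ) (ee x) = ee (-x) := by
  unfold ee
  rw [← Complex.exp_conj, map_mul, map_mul, map_mul, Complex.conj_ofReal, Complex.conj_ofReal, Complex.conj_I]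
  congr 1
  push_cast
  rw [map_ofNat]
  ring

lemma mB_conj (a : ℕ → ℂ) (N : ℕ) : ‖mB (fun l => (starRingEnd ℂ) (a l)) N‖ = ‖mB a N‖ := by
  have : mB (fun l => (starRingEnd ℂ) (a l)) N = (starRingEnd ℂ) (mB a N) := by
    unfold mB
    rw [map_div₀, map_sum, Complex.conj_natCast]
  rw [this, RCLike.norm_conj]

/-- **second bound**: quadratic phases -/
theorem second (a : ℕ → ℂ) (ha : ∀ l, ‖a l‖ = 1) :
    ∃ E : Set ℕ, LZ E ∧ ∀ k h : ℕ, 1 ≤ k → 1 ≤ h → ∀ ε : ℝ, 0 < ε → ∃ N₀ : ℕ, ∀ N : ℕ, N₀ ≤ N → N ∉ E →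
      ∀ (α β : ℝ) (y : ℕ), y ≤ N → ‖∑ n ∈ Icc 1 y, blk a k h n * ee (β * (n : ℝ) ^ 2 + α * n)‖ ≤
        y * Real.sqrt ((1 + ‖mB a N‖ ^ 2) / 2) + ε * N := by
  have ha' : ∀ l, ‖a l‖ ≤ 1 := fun l => (ha l).le
  obtain ⟨E, hE, h1⟩ := two (fun l => (starRingEnd ℂ) (a l)) a (fun l => by rw [RCLike.norm_conj]; exact ha' l) ha'
  refine ⟨E, hE, fun k h hk hh ε hε => ?_⟩
  obtain ⟨r, rfl⟩ : ∃ r, k = r + 1 := ⟨k - 1, by omega⟩
  obtain ⟨N₀, h2⟩ := h1 ((r + 1) * h) (Nat.one_le_iff_ne_zero.2 (by positivity)) (ε ^ 2 / 2) (by positivity)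
  obtain ⟨N₁, hN₁⟩ := exists_nat_ge ((h : ℝ) / (ε / 2))
  refine ⟨N₀ + N₁, fun N hN hNE α β y hy => ?_⟩
  have hyN : (y : ℝ) ≤ N := by exact_mod_cast hy
  have hy0 : (0 : ℝ) ≤ y := by positivity
  have hN0 : (0 : ℝ) ≤ N := by positivity
  set u : ℕ → ℂ := fun n => blk a (r + 1) h n * ee (β * (n : ℝ) ^ 2 + α * n) with hu
  have hu1 : ∀ n, ‖u n‖ ≤ 1 := by
    intro n
    rw [hu]
    show ‖blk a (r + 1) h n * ee (β * (n : ℝ) ^ 2 + α * n)‖ ≤ 1
    rw [norm_mul, c_norm_ee, mul_one]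
    exact blk_le a ha' _ _ _
  have h3 := h2 N (by omega) hNE (2 * β * h) y hy
  have h4 := gen_sum u hu1 h y
  have h5 : (h : ℝ) ≤ ε / 2 * N := by
    rw [div_le_iff₀ (by positivity)] at hN₁
    have : (N₁ : ℝ) ≤ N := by exact_mod_cast (by omega : N₁ ≤ N)
    nlinarith
  -- the products with lag `h`
  have h6 : ∀ n, lag u h n = ee (β * (h : ℝ) ^ 2 + α * h) *
      ((starRingEnd ℂ) (a (cardFactors n)) * a (cardFactors (n + (r + 1) * h)) * ee (2 * β * h * n)) := by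
    intro n
    unfold lag
    rw [hu]
    show blk a (r + 1) h (n + h) * ee (β * ((n + h : ℕ) : ℝ) ^ 2 + α * ((n + h : ℕ) : ℝ)) *
      (starRingEnd ℂ) (blk a (r + 1) h n * ee (β * (n : ℝ) ^ 2 + α * n)) = _
    rw [map_mul, conj_ee, blk_second, blk_first, map_mul]
    have e1 : inn a r h n * (starRingEnd ℂ) (inn a r h n) = 1 := by
      rw [Complex.mul_conj, Complex.normSq_eq_norm_sq, inn_one a ha]
      norm_num
    have e2 : ee (β * ((n + h : ℕ) : ℝ) ^ 2 + α * ((n + h : ℕ) : ℝ)) * ee (-(β * (n : ℝ) ^ 2 + α * n)) =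
        ee (β * (h : ℝ) ^ 2 + α * h) * ee (2 * β * h * n) := by
      rw [← c_ee_add, ← c_ee_add]
      congr 1
      push_cast
      ring
    calc inn a r h n * a (cardFactors (n + (r + 1) * h)) *
          ee (β * ((n + h : ℕ) : ℝ) ^ 2 + α * ((n + h : ℕ) : ℝ)) *
          ((starRingEnd ℂ) (inn a r h n) * (starRingEnd ℂ) (a (cardFactors n)) *
            ee (-(β * (n : ℝ) ^ 2 + α * n)))
        = (inn a r h n * (starRingEnd ℂ) (inn a r h n)) *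
          ((starRingEnd ℂ) (a (cardFactors n)) * a (cardFactors (n + (r + 1) * h))) *
          (ee (β * ((n + h : ℕ) : ℝ) ^ 2 + α * ((n + h : ℕ) : ℝ)) * ee (-(β * (n : ℝ) ^ 2 + α * n))) := by ring
      _ = _ := by
          rw [e1, e2]
          ring
  have h7 : ‖∑ n ∈ Icc 1 y, lag u h n‖ ≤ ‖mB a N‖ ^ 2 * y + ε ^ 2 / 2 * N := by
    rw [sum_congr rfl fun n _ => h6 n, ← mul_sum, norm_mul, c_norm_ee, one_mul]
    have e1 : ∑ n ∈ Icc 1 y, (starRingEnd ℂ) (a (cardFactors n)) * a (cardFactors (n + (r + 1) * h)) *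
        ee (2 * β * h * n) = (∑ n ∈ Icc 1 y, (starRingEnd ℂ) (a (cardFactors n)) *
          a (cardFactors (n + (r + 1) * h)) * ee (2 * β * h * n) -
          mB (fun l => (starRingEnd ℂ) (a l)) N * mB a N * ∑ n ∈ Icc 1 y, ee (2 * β * h * n)) +
          mB (fun l => (starRingEnd ℂ) (a l)) N * mB a N * ∑ n ∈ Icc 1 y, ee (2 * β * h * n) := by ring
    rw [e1]
    refine (norm_add_le _ _).trans ?_
    have h8 : ‖mB (fun l => (starRingEnd ℂ) (a l)) N * mB a N * ∑ n ∈ Icc 1 y, ee (2 * β * h * n)‖ ≤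
        ‖mB a N‖ ^ 2 * y := by
      rw [norm_mul, norm_mul, mB_conj, ← pow_two]
      apply mul_le_mul_of_nonneg_left _ (by positivity)
      refine (norm_sum_le _ _).trans (le_of_eq ?_)
      simp only [c_norm_ee, sum_const, Nat.card_Icc, Nat.add_sub_cancel, nsmul_eq_mul, mul_one]
    linarith
  set s : ℝ := Real.sqrt ((1 + ‖mB a N‖ ^ 2) / 2) with hs
  have hs0 : 0 ≤ s := Real.sqrt_nonneg _
  have hs2 : s ^ 2 = (1 + ‖mB a N‖ ^ 2) / 2 := Real.sq_sqrt (by positivity)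
  have h8 : Real.sqrt (y * (2 * y + 2 * ‖∑ n ∈ Icc 1 y, lag u h n‖)) ≤ 2 * (y * s) + ε * N := by
    apply Real.sqrt_le_iff.2
    refine ⟨by positivity, ?_⟩
    have h9 : (y : ℝ) * (2 * y + 2 * ‖∑ n ∈ Icc 1 y, lag u h n‖) ≤
        y * (2 * y + 2 * (‖mB a N‖ ^ 2 * y + ε ^ 2 / 2 * N)) := by
      apply mul_le_mul_of_nonneg_left _ hy0
      linarith
    have h10 : (y : ℝ) * (ε ^ 2 * N) ≤ (ε * N) ^ 2 := by
      calc (y : ℝ) * (ε ^ 2 * N) ≤ N * (ε ^ 2 * N) := mul_le_mul_of_nonneg_right hyN (by positivity)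
        _ = _ := by ring
    have h11 : (0 : ℝ) ≤ 4 * (y * s) * (ε * N) := by positivity
    have e1 : (2 * ((y : ℝ) * s) + ε * N) ^ 2 = 4 * (y ^ 2 * s ^ 2) + 4 * (y * s) * (ε * N) + (ε * N) ^ 2 := by ring
    rw [e1, hs2]
    nlinarith
  linarith

/-- the mean of `z ^ Ω` -/
lemma mean_pow (z : ℂ) (hz : ‖z‖ = 1) (hz1 : z ≠ 1) : Tendsto (fun N => mB (fun l => z ^ l) N) atTop (𝓝 0) := by
  rw [Metric.tendsto_atTop]
  intro ε hε
  have h0 : 0 < ‖z - 1‖ := norm_pos_iff.2 (sub_ne_zero.2 hz1)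
  obtain ⟨x₀, h1⟩ := Pool.Agent.TH575.OM.MV_z (min ε ‖z - 1‖) (lt_min hε h0)
  refine ⟨x₀, fun N hN => ?_⟩
  have h2 := h1 N hN z hz.le (min_le_right _ _)
  rw [dist_zero_right]
  have h3 : min ε ‖z - 1‖ / 2 < ε := by
    have := min_le_left ε ‖z - 1‖
    linarith
  exact lt_of_le_of_lt h2 h3

lemma root_sum (m : ℕ) (hm : 1 ≤ m) (z : ℂ) (hz : IsPrimitiveRoot z m) (t : ℕ) :
    ∑ j ∈ range m, (z ^ t) ^ j = if m ∣ t then (m : ℂ) else 0 := by
  split_ifs with h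
  · rw [(hz.pow_eq_one_iff_dvd t).2 h]
    simp
  · have h1 : z ^ t ≠ 1 := fun hc => h ((hz.pow_eq_one_iff_dvd t).1 hc)
    have h2 : (z ^ t) ^ m = 1 := by rw [← pow_mul, mul_comm, pow_mul, hz.pow_eq_one, one_pow]
    rw [geom_sum_eq h1, h2, sub_self, zero_div]

lemma root_norm (m : ℕ) (hm : 1 ≤ m) (z : ℂ) (hz : IsPrimitiveRoot z m) : ‖z‖ = 1 :=
  Complex.norm_eq_one_of_pow_eq_one hz.pow_eq_one (by omega)

/-- expansion of `‖z ^ a + z ^ b‖` -/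
lemma expand (m : ℕ) (hm : 1 ≤ m) (z : ℂ) (hz : IsPrimitiveRoot z m) (a b : ℕ) :
    ((‖z ^ a + z ^ b‖ : ℝ) : ℂ) = 1 / (m : ℂ) * ∑ t ∈ range m, ∑ j ∈ range m,
      ((‖1 + z ^ t‖ : ℝ) : ℂ) * (z ^ j) ^ (m - t) * ((z ^ j) ^ a * (z ^ (j * (m - 1))) ^ b) := by
  have hmc : (m : ℂ) ≠ 0 := by exact_mod_cast (by omega : m ≠ 0)
  have h1 : ∀ t ∈ range m, ∑ j ∈ range m,
      ((‖1 + z ^ t‖ : ℝ) : ℂ) * (z ^ j) ^ (m - t) * ((z ^ j) ^ a * (z ^ (j * (m - 1))) ^ b) =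
      ((‖1 + z ^ t‖ : ℝ) : ℂ) * if m ∣ (m - t) + (a + (m - 1) * b) then (m : ℂ) else 0 := by
    intro t _
    rw [← root_sum m hm z hz, mul_sum]
    refine sum_congr rfl fun j _ => ?_
    rw [mul_assoc]
    congr 1
    rw [← pow_mul, ← pow_mul, ← pow_mul, ← pow_mul, ← pow_add, ← pow_add]
    congr 1
    ring
  rw [sum_congr rfl h1]
  -- the unique `t`
  set t₀ := (a + (m - 1) * b) % m with ht₀
  have ht₀m : t₀ < m := Nat.mod_lt _ (by omega)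
  have hdv : ∀ t ∈ range m, (m ∣ (m - t) + (a + (m - 1) * b) ↔ t = t₀) := by
    intro t ht
    rw [mem_range] at ht
    constructor
    · intro h
      have h2 : (a + (m - 1) * b) ≡ t [MOD m] := by
        have h3 : (m - t) + (a + (m - 1) * b) ≡ (m - t) + t [MOD m] := by
          rw [Nat.sub_add_cancel ht.le]
          exact (Nat.modEq_zero_iff_dvd.2 h).trans (Nat.modEq_zero_iff_dvd.2 dvd_rfl).symm
        exact Nat.ModEq.add_left_cancel' _ h3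
      have h4 : (a + (m - 1) * b) % m = t % m := h2
      rw [Nat.mod_eq_of_lt ht] at h4
      exact h4.symm
    · intro h
      have h2 : (a + (m - 1) * b) ≡ t [MOD m] := by
        rw [h]
        exact (Nat.mod_modEq _ _).symm
      have h3 : (m - t) + (a + (m - 1) * b) ≡ (m - t) + t [MOD m] := Nat.ModEq.add_left _ h2
      rw [Nat.sub_add_cancel ht.le] at h3
      exact Nat.modEq_zero_iff_dvd.1 (h3.trans (Nat.modEq_zero_iff_dvd.2 dvd_rfl))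
  have h2 : ∑ t ∈ range m, ((‖1 + z ^ t‖ : ℝ) : ℂ) * (if m ∣ (m - t) + (a + (m - 1) * b) then (m : ℂ) else 0) =
      ((‖1 + z ^ t₀‖ : ℝ) : ℂ) * m := by
    rw [sum_eq_single t₀]
    · rw [if_pos ((hdv t₀ (mem_range.2 ht₀m)).2 rfl)]
    · intro t ht hne
      rw [if_neg (fun h => hne ((hdv t ht).1 h)), mul_zero]
    · intro h
      exact absurd (mem_range.2 ht₀m) h
  rw [h2]
  have h3 : ‖z ^ a + z ^ b‖ = ‖1 + z ^ t₀‖ := by
    have h4 : z ^ t₀ * z ^ b = z ^ a := by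
      have h5 : z ^ t₀ = z ^ (a + (m - 1) * b) := by
        rw [ht₀]
        exact (pow_eq_pow_mod _ hz.pow_eq_one).symm
      rw [h5, ← pow_add]
      have h6 : a + (m - 1) * b + b = a + m * b := by
        obtain ⟨k, rfl⟩ : ∃ k, m = k + 1 := ⟨m - 1, by omega⟩
        rw [Nat.add_sub_cancel]
        ring
      rw [h6, pow_add, pow_mul, hz.pow_eq_one, one_pow, mul_one]
    rw [← h4, ← add_one_mul, norm_mul, norm_pow, root_norm m hm z hz, one_pow, mul_one, add_comm]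
  rw [h3]
  field_simp

/-- the double mean for a root of unity -/
theorem dbl_root (m : ℕ) (hm : 1 ≤ m) (z : ℂ) (hz : IsPrimitiveRoot z m) :
    Tendsto (fun N => dbl (fun l => z ^ l) N / 2) atTop (𝓝 (1 / (2 * m) * ∑ j ∈ range m, ‖1 + z ^ j‖)) := by
  have hmc : (m : ℂ) ≠ 0 := by exact_mod_cast (by omega : m ≠ 0)
  have hn : ∀ j : ℕ, ‖z ^ j‖ = 1 := fun j => by rw [norm_pow, root_norm m hm z hz, one_pow]
  -- the limit of the products of the means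
  have h1 : ∀ j ∈ range m, Tendsto (fun N => mB (fun l => (z ^ j) ^ l) N * mB (fun l => (z ^ (j * (m - 1))) ^ l) N)
      atTop (𝓝 (if j = 0 then 1 else 0)) := by
    intro j hj
    rw [mem_range] at hj
    by_cases h0 : j = 0
    · rw [if_pos h0, h0]
      apply tendsto_const_nhds.congr'
      filter_upwards [eventually_ge_atTop 1] with N hN
      have hNc : (N : ℂ) ≠ 0 := by exact_mod_cast (by omega : N ≠ 0)
      simp only [pow_zero, one_pow, zero_mul]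
      unfold mB
      rw [sum_const, Nat.card_Icc, Nat.add_sub_cancel, nsmul_eq_mul, mul_one, div_self hNc, mul_one]
    · rw [if_neg h0]
      have h2 : z ^ j ≠ 1 := fun hc => by
        have := Nat.le_of_dvd (by omega) ((hz.pow_eq_one_iff_dvd j).1 hc)
        omega
      have h3 := mean_pow (z ^ j) (hn j) h2
      rw [tendsto_zero_iff_norm_tendsto_zero] at h3 ⊢
      refine squeeze_zero (fun N => norm_nonneg _) (fun N => ?_) h3
      rw [norm_mul]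
      exact mul_le_of_le_one_right (norm_nonneg _) (mB_le _ 1 zero_le_one
        (fun l => by rw [norm_pow, hn, one_pow]) N)
  have h2 : Tendsto (fun N => 1 / (m : ℂ) * ∑ t ∈ range m, ∑ j ∈ range m,
      ((‖1 + z ^ t‖ : ℝ) : ℂ) * (z ^ j) ^ (m - t) *
        (mB (fun l => (z ^ j) ^ l) N * mB (fun l => (z ^ (j * (m - 1))) ^ l) N)) atTop
      (𝓝 (1 / (m : ℂ) * ∑ t ∈ range m, ∑ j ∈ range m,
      ((‖1 + z ^ t‖ : ℝ) : ℂ) * (z ^ j) ^ (m - t) * (if j = 0 then 1 else 0))) := by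
    apply Tendsto.const_mul
    apply tendsto_finsetSum
    intro t _
    apply tendsto_finsetSum
    intro j hj
    exact (h1 j hj).const_mul _
  have h3 : 1 / (m : ℂ) * ∑ t ∈ range m, ∑ j ∈ range m,
      ((‖1 + z ^ t‖ : ℝ) : ℂ) * (z ^ j) ^ (m - t) * (if j = 0 then 1 else 0) =
      ((1 / m * ∑ t ∈ range m, ‖1 + z ^ t‖ : ℝ) : ℂ) := by
    push_cast
    congr 1
    refine sum_congr rfl fun t _ => ?_
    rw [sum_eq_single 0]
    · rw [if_pos rfl, pow_zero, one_pow, mul_one, mul_one]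
    · intro j _ hj
      rw [if_neg hj, mul_zero]
    · intro h
      exact absurd (mem_range.2 (by omega)) h
  rw [h3] at h2
  have h4 : Tendsto (fun N => ((dbl (fun l => z ^ l) N : ℝ) : ℂ)) atTop
      (𝓝 ((1 / m * ∑ t ∈ range m, ‖1 + z ^ t‖ : ℝ) : ℂ)) := by
    refine h2.congr' ?_
    filter_upwards [eventually_ge_atTop 1] with N hN
    have hNc : (N : ℂ) ≠ 0 := by exact_mod_cast (by omega : N ≠ 0)
    unfold dbl
    push_cast
    rw [eq_div_iff (pow_ne_zero 2 hNc)]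
    have e1 : ∀ m₁ m₂ : ℕ, ((‖z ^ (cardFactors m₁) + z ^ (cardFactors m₂)‖ : ℝ) : ℂ) =
        1 / (m : ℂ) * ∑ t ∈ range m, ∑ j ∈ range m, ((‖1 + z ^ t‖ : ℝ) : ℂ) * (z ^ j) ^ (m - t) *
          ((z ^ j) ^ (cardFactors m₁) * (z ^ (j * (m - 1))) ^ (cardFactors m₂)) := fun m₁ m₂ =>
      expand m hm z hz _ _
    rw [sum_congr rfl fun m₁ _ => sum_congr rfl fun m₂ _ => e1 m₁ m₂]
    simp only [← mul_sum]
    rw [mul_assoc]
    congr 1
    rw [sum_mul]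
    have e2 : ∀ t j : ℕ, ((‖1 + z ^ t‖ : ℝ) : ℂ) * (z ^ j) ^ (m - t) *
        (mB (fun l => (z ^ j) ^ l) N * mB (fun l => (z ^ (j * (m - 1))) ^ l) N) * (N : ℂ) ^ 2 =
        ∑ m₁ ∈ Icc 1 N, ∑ m₂ ∈ Icc 1 N, ((‖1 + z ^ t‖ : ℝ) : ℂ) * (z ^ j) ^ (m - t) *
          ((z ^ j) ^ (cardFactors m₁) * (z ^ (j * (m - 1))) ^ (cardFactors m₂)) := by
      intro t j
      unfold mB
      rw [show ((‖1 + z ^ t‖ : ℝ) : ℂ) * (z ^ j) ^ (m - t) *
        ((∑ n ∈ Icc 1 N, (z ^ j) ^ (cardFactors n)) / (N : ℂ) *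
        ((∑ n ∈ Icc 1 N, (z ^ (j * (m - 1))) ^ (cardFactors n)) / (N : ℂ))) * (N : ℂ) ^ 2 =
        ((‖1 + z ^ t‖ : ℝ) : ℂ) * (z ^ j) ^ (m - t) * ((∑ n ∈ Icc 1 N, (z ^ j) ^ (cardFactors n)) *
        (∑ n ∈ Icc 1 N, (z ^ (j * (m - 1))) ^ (cardFactors n))) by field_simp, sum_mul_sum, mul_sum]
      refine sum_congr rfl fun m₁ _ => ?_
      rw [mul_sum]
    calc ∑ t ∈ range m, (∑ j ∈ range m, ((‖1 + z ^ t‖ : ℝ) : ℂ) * (z ^ j) ^ (m - t) *
        (mB (fun l => (z ^ j) ^ l) N * mB (fun l => (z ^ (j * (m - 1))) ^ l) N)) * (N : ℂ) ^ 2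
        = ∑ t ∈ range m, ∑ j ∈ range m, ∑ m₁ ∈ Icc 1 N, ∑ m₂ ∈ Icc 1 N,
          ((‖1 + z ^ t‖ : ℝ) : ℂ) * (z ^ j) ^ (m - t) *
          ((z ^ j) ^ (cardFactors m₁) * (z ^ (j * (m - 1))) ^ (cardFactors m₂)) := by
          refine sum_congr rfl fun t _ => ?_
          rw [sum_mul]
          exact sum_congr rfl fun j _ => e2 t j
      _ = ∑ m₁ ∈ Icc 1 N, ∑ m₂ ∈ Icc 1 N, ∑ t ∈ range m, ∑ j ∈ range m,
          ((‖1 + z ^ t‖ : ℝ) : ℂ) * (z ^ j) ^ (m - t) *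
          ((z ^ j) ^ (cardFactors m₁) * (z ^ (j * (m - 1))) ^ (cardFactors m₂)) := by
          rw [sum_congr rfl fun t _ => sum_comm, sum_comm]
          refine sum_congr rfl fun m₁ _ => ?_
          rw [sum_congr rfl fun t _ => sum_comm, sum_comm]
      _ = _ := by
          simp only [mul_sum]
  have h5 : Tendsto (fun N => dbl (fun l => z ^ l) N) atTop (𝓝 (1 / m * ∑ t ∈ range m, ‖1 + z ^ t‖)) := by
    have h6 := (Complex.continuous_re.tendsto _).comp h4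
    simp only [Function.comp_def, Complex.ofReal_re] at h6
    exact h6
  have h6 := h5.div_const 2
  have e3 : 1 / (m : ℝ) * (∑ t ∈ range m, ‖1 + z ^ t‖) / 2 = 1 / (2 * m) * ∑ j ∈ range m, ‖1 + z ^ j‖ := by
    rw [one_div_mul_eq_div, one_div_mul_eq_div]
    rw [div_div]
    congr 1
    ring
  rw [e3] at h6
  exact h6

end Pool.Agent.X23.EL
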