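import Mathlib

/-!
# Matroids by rank functions, entropy of discrete random vectors
-/

open scoped ENNReal

namespace Pool.Agent.X23.EM

/-- A matroid on the ground set `Fin n`, given by its rank function. -/
structure Mat (n : ℕ) where
  r : Finset (Fin n) → ℕ
  le_card : ∀ A, r A ≤ A.card
  mono : ∀ A B, A ⊆ B → r A ≤ r B
  submod : ∀ A B, r (A ∪ B) + r (A ∩ B) ≤ r A + r B

/-- `N` is (isomorphic to) a minor of `M`: after renaming by `f`, `N` is `M` contracted by `C` and
restricted to the range of `f`. -/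
def IsMinor {m n : ℕ} (N : Mat m) (M : Mat n) : Prop :=
  ∃ (f : Fin m ↪ Fin n) (C : Finset (Fin n)), Disjoint (Finset.univ.map f) C ∧
    ∀ A, N.r A = M.r (A.map f ∪ C) - M.r C

/-- isomorphism -/
def Iso {m n : ℕ} (N : Mat m) (M : Mat n) : Prop :=
  ∃ e : Fin m ≃ Fin n, ∀ A, N.r A = M.r (A.map e.toEmbedding)

/-- the probability that `X_A = x_A`, for a random vector `X` with law `p` -/
noncomputable def prob {n : ℕ} (p : PMF (Fin n → ℕ)) (A : Finset (Fin n)) (x : Fin n → ℕ) :
    ℝ≥0∞ := by
  classical exact ∑' y, if ∀ i ∈ A, y i = x i then p y else 0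

/-- the entropy `H(X_A)` of a random vector `X` with law `p`: the mean of `-log` of the probability
of `X_A` -/
noncomputable def entropy {n : ℕ} (p : PMF (Fin n → ℕ)) (A : Finset (Fin n)) : ℝ≥0∞ :=
  ∑' x, p x * ENNReal.ofReal (-Real.log (prob p A x).toReal)

/-- the `p`-characteristic set -/
def chi {n : ℕ} (M : Mat n) : Set ℕ :=
  {v | 2 ≤ v ∧ ∃ p : PMF (Fin n → ℕ), ∀ A, entropy p A = ENNReal.ofReal (Real.log v * M.r A)}

/-- representable over every field -/
def Regular {n : ℕ} (M : Mat n) : Prop :=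
  ∀ (K : Type) [Field K], ∃ w : Fin n → (Fin n → K), ∀ A : Finset (Fin n),
    M.r A = Module.finrank K (Submodule.span K (w '' (A : Set (Fin n))))

/-- the class `M'` -/
def InClass {n : ℕ} (M : Mat n) : Prop := Regular M ∨ chi M = {v | 3 ≤ v ∧ v ≠ 6}

/-- excluded minors of the class -/
def IsExcludedMinor {n : ℕ} (M : Mat n) : Prop :=
  ¬ InClass M ∧ ∀ (m : ℕ) (N : Mat m), m < n → IsMinor N M → InClass N

/-! ### Probability lemmas -/

variable {n : ℕ} (p : PMF (Fin n → ℕ))

theorem prob_le_one (A : Finset (Fin n)) (x : Fin n → ℕ) : prob p A x ≤ 1 := by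
  classical
  rw [prob, ← p.tsum_coe]
  refine ENNReal.tsum_le_tsum fun y => ?_
  split_ifs
  · exact le_refl _
  · exact zero_le

theorem prob_ne_top (A : Finset (Fin n)) (x : Fin n → ℕ) : prob p A x ≠ ∞ :=
  ne_top_of_le_ne_top ENNReal.one_ne_top (prob_le_one p A x)

theorem le_prob (A : Finset (Fin n)) (x : Fin n → ℕ) : p x ≤ prob p A x := by
  classical
  rw [prob]
  refine le_trans ?_ (ENNReal.le_tsum x)
  rw [if_pos (fun _ _ => rfl)]

theorem prob_anti {A B : Finset (Fin n)} (h : A ⊆ B) (x : Fin n → ℕ) :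
    prob p B x ≤ prob p A x := by
  classical
  rw [prob, prob]
  refine ENNReal.tsum_le_tsum fun y => ?_
  split_ifs with h1 h2
  · exact le_refl _
  · exact absurd (fun i hi => h1 i (h hi)) h2
  · exact zero_le
  · exact le_refl _

theorem prob_congr (A : Finset (Fin n)) {x y : Fin n → ℕ} (h : ∀ i ∈ A, x i = y i) :
    prob p A x = prob p A y := by
  classical
  rw [prob, prob]
  refine tsum_congr fun z => ?_
  have : (∀ i ∈ A, z i = x i) ↔ (∀ i ∈ A, z i = y i) := by
    constructor
    · intro h1 i hi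
      rw [h1 i hi, h i hi]
    · intro h1 i hi
      rw [h1 i hi, h i hi]
  simp only [this]

theorem real_prob_pos {A : Finset (Fin n)} {x : Fin n → ℕ} (hx : p x ≠ 0) :
    0 < (prob p A x).toReal := by
  apply ENNReal.toReal_pos
  · intro h
    have := le_prob p A x
    rw [h] at this
    exact hx (le_antisymm this zero_le)
  · exact prob_ne_top p A x

theorem real_prob_le_one {A : Finset (Fin n)} {x : Fin n → ℕ} : (prob p A x).toReal ≤ 1 := by
  have := ENNReal.toReal_mono ENNReal.one_ne_top (prob_le_one p A x)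
  simpa using this

/-- equality of sums gives equality of terms -/
theorem term_eq {α : Type*} {f g : α → ℝ≥0∞} (hle : ∀ x, f x ≤ g x) (hsum : ∑' x, f x = ∑' x, g x)
    (hfin : ∑' x, f x ≠ ∞) (x : α) : f x = g x := by
  by_contra hne
  have hlt : f x < g x := lt_of_le_of_ne (hle x) hne
  have := ENNReal.tsum_lt_tsum hfin hle hlt
  rw [hsum] at this
  exact lt_irrefl _ this

theorem prob_eq_of_entropy {A B : Finset (Fin n)} (h : A ⊆ B) (hH : entropy p A = entropy p B)
    (hfin : entropy p A ≠ ∞) {x : Fin n → ℕ} (hx : p x ≠ 0) : prob p A x = prob p B x := by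
  have hle : ∀ x, p x * ENNReal.ofReal (-Real.log (prob p A x).toReal) ≤
      p x * ENNReal.ofReal (-Real.log (prob p B x).toReal) := by
    intro x
    by_cases hx : p x = 0
    · rw [hx, zero_mul, zero_mul]
    · refine mul_le_mul_right (ENNReal.ofReal_le_ofReal (neg_le_neg ?_)) _
      exact Real.log_le_log (real_prob_pos p hx)
        (ENNReal.toReal_mono (prob_ne_top p A x) (prob_anti p h x))
  have := term_eq hle hH hfin x
  have h2 := (ENNReal.mul_right_inj hx (p.apply_ne_top x)).mp this
  have hA := real_prob_pos p (A := A) hx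
  have hB := real_prob_pos p (A := B) hx
  have h3 : -Real.log (prob p A x).toReal = -Real.log (prob p B x).toReal := by
    have e1 := ENNReal.toReal_ofReal (neg_nonneg.mpr (Real.log_nonpos hA.le (real_prob_le_one p)))
    have e2 := ENNReal.toReal_ofReal (neg_nonneg.mpr (Real.log_nonpos hB.le (real_prob_le_one p)))
    rw [← e1, h2, e2]
  have h4 := Real.log_injOn_pos (Set.mem_Ioi.mpr hA) (Set.mem_Ioi.mpr hB) (neg_injective h3)
  exact (ENNReal.toReal_eq_toReal_iff' (prob_ne_top p A x) (prob_ne_top p B x)).mp h4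

theorem agree_of_entropy {A B : Finset (Fin n)} (h : A ⊆ B) (hH : entropy p A = entropy p B)
    (hfin : entropy p A ≠ ∞) {x y : Fin n → ℕ} (hx : p x ≠ 0) (hy : p y ≠ 0)
    (hxy : ∀ i ∈ A, y i = x i) : ∀ i ∈ B, y i = x i := by
  classical
  by_contra hcon
  have h1 := prob_eq_of_entropy p h hH hfin hx
  have h2 : prob p B x + p y ≤ prob p A x := by
    have h3 : p y = ∑' z, if z = y then p z else 0 := by
      rw [tsum_ite_eq]
    rw [h3, prob, prob, ← ENNReal.tsum_add]
    refine ENNReal.tsum_le_tsum fun z => ?_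
    by_cases hz : z = y
    · subst hz
      rw [if_neg hcon, if_pos rfl, if_pos hxy, zero_add]
    · rw [if_neg hz, add_zero]
      split_ifs with h4 h5
      · exact le_refl _
      · exact absurd (fun i hi => h4 i (h hi)) h5
      · exact zero_le
      · exact le_refl _
  rw [h1] at h2
  have h5 : prob p B x + p y ≤ prob p B x + 0 := by rw [add_zero]; exact h2
  have h6 := (ENNReal.add_le_add_iff_left (prob_ne_top p B x)).mp h5
  exact hy (le_antisymm h6 zero_le)

theorem gibbs {a b c : ℝ} (ha : 0 < a) (ha1 : a ≤ 1) (hb : 0 < b) (hb1 : b ≤ 1) (hc : 0 < c)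
    (hc1 : c ≤ 1) : ENNReal.ofReal (-Real.log c) + 1 ≤
      ENNReal.ofReal (-Real.log a) + ENNReal.ofReal (-Real.log b) + ENNReal.ofReal (a * b / c) := by
  have h1 : 0 ≤ -Real.log a := neg_nonneg.mpr (Real.log_nonpos ha.le ha1)
  have h2 : 0 ≤ -Real.log b := neg_nonneg.mpr (Real.log_nonpos hb.le hb1)
  have h3 : 0 ≤ -Real.log c := neg_nonneg.mpr (Real.log_nonpos hc.le hc1)
  have h4 : 0 ≤ a * b / c := by positivity
  rw [← ENNReal.ofReal_one, ← ENNReal.ofReal_add h3 zero_le_one, ← ENNReal.ofReal_add h1 h2,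
    ← ENNReal.ofReal_add (add_nonneg h1 h2) h4]
  apply ENNReal.ofReal_le_ofReal
  have h5 := Real.log_le_sub_one_of_pos (show 0 < a * b / c by positivity)
  rw [Real.log_div (by positivity) hc.ne', Real.log_mul ha.ne' hb.ne'] at h5
  linarith

theorem gibbs_eq {a b c : ℝ} (ha : 0 < a) (ha1 : a ≤ 1) (hb : 0 < b) (hb1 : b ≤ 1) (hc : 0 < c)
    (hc1 : c ≤ 1) (h : ENNReal.ofReal (-Real.log c) + 1 =
      ENNReal.ofReal (-Real.log a) + ENNReal.ofReal (-Real.log b) + ENNReal.ofReal (a * b / c)) :
    c = a * b := by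
  have h1 : 0 ≤ -Real.log a := neg_nonneg.mpr (Real.log_nonpos ha.le ha1)
  have h2 : 0 ≤ -Real.log b := neg_nonneg.mpr (Real.log_nonpos hb.le hb1)
  have h3 : 0 ≤ -Real.log c := neg_nonneg.mpr (Real.log_nonpos hc.le hc1)
  have h4 : 0 ≤ a * b / c := by positivity
  rw [← ENNReal.ofReal_one, ← ENNReal.ofReal_add h3 zero_le_one, ← ENNReal.ofReal_add h1 h2,
    ← ENNReal.ofReal_add (add_nonneg h1 h2) h4,
    ENNReal.ofReal_eq_ofReal_iff (by positivity) (by positivity)] at h
  by_contra hne
  have h6 : a * b / c ≠ 1 := by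
    intro h7
    rw [div_eq_one_iff_eq hc.ne'] at h7
    exact hne h7.symm
  have h5 := Real.log_lt_sub_one_of_pos (show 0 < a * b / c by positivity) h6
  rw [Real.log_div (by positivity) hc.ne', Real.log_mul ha.ne' hb.ne'] at h5
  linarith

/-- independence from additivity of the entropy -/
theorem indep {A B : Finset (Fin n)} (hH : entropy p (A ∪ B) = entropy p A + entropy p B)
    (hA : entropy p A ≠ ∞) (hB : entropy p B ≠ ∞) :
    (∀ x, p x ≠ 0 → (prob p (A ∪ B) x).toReal = (prob p A x).toReal * (prob p B x).toReal) ∧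
    ∀ y z, p y ≠ 0 → p z ≠ 0 → ∃ x, p x ≠ 0 ∧ (∀ i ∈ A, x i = y i) ∧ ∀ i ∈ B, x i = z i := by
  classical
  set R : (Fin n → ℕ) → ℝ≥0∞ := fun x => prob p A x * prob p B x / prob p (A ∪ B) x with hR
  -- the mean of `R`
  set m : (Fin n → ℕ) → (Fin n → ℕ) → ℝ≥0∞ := fun y z =>
    ∑' x, if (∀ i ∈ A, x i = y i) ∧ (∀ i ∈ B, x i = z i) then p x else 0 with hm
  have hmean : ∑' x, p x * R x = ∑' y, ∑' z, p y * p z * (if m y z = 0 then 0 else 1) := by
    have h1 : ∀ x, p x * R x = ∑' y, ∑' z, p y * p z *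
        (if (∀ i ∈ A, x i = y i) ∧ (∀ i ∈ B, x i = z i) then p x / m y z else 0) := by
      intro x
      have h2 : p x * R x = ∑' y, ∑' z, (if ∀ i ∈ A, y i = x i then p y else 0) *
          (if ∀ i ∈ B, z i = x i then p z else 0) * (p x / prob p (A ∪ B) x) := by
        simp_rw [ENNReal.tsum_mul_right, ENNReal.tsum_mul_left, ENNReal.tsum_mul_right]
        have e1 : ∑' y, (if ∀ i ∈ A, y i = x i then p y else 0) = prob p A x := by rw [prob]
        have e2 : ∑' z, (if ∀ i ∈ B, z i = x i then p z else 0) = prob p B x := by rw [prob]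
        rw [e1, e2]
        simp only [hR, div_eq_mul_inv]
        ring
      rw [h2]
      refine tsum_congr fun y => tsum_congr fun z => ?_
      by_cases hy : ∀ i ∈ A, y i = x i
      · by_cases hz : ∀ i ∈ B, z i = x i
        · rw [if_pos hy, if_pos hz, if_pos ⟨fun i hi => (hy i hi).symm, fun i hi => (hz i hi).symm⟩]
          congr 2
          simp only [hm]
          rw [prob]
          refine tsum_congr fun w => ?_
          have : (∀ i ∈ A ∪ B, w i = x i) ↔
              ((∀ i ∈ A, w i = y i) ∧ ∀ i ∈ B, w i = z i) := by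
            constructor
            · intro h
              refine ⟨fun i hi => ?_, fun i hi => ?_⟩
              · rw [hy i hi]; exact h i (Finset.mem_union_left _ hi)
              · rw [hz i hi]; exact h i (Finset.mem_union_right _ hi)
            · rintro ⟨h1, h2⟩ i hi
              rcases Finset.mem_union.mp hi with h | h
              · rw [h1 i h, hy i h]
              · rw [h2 i h, hz i h]
          simp only [this]
        · rw [if_neg hz, if_neg (fun h : (∀ i ∈ A, x i = y i) ∧ (∀ i ∈ B, x i = z i) =>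
            hz fun i hi => (h.2 i hi).symm)]
          simp
      · rw [if_neg hy, if_neg (fun h : (∀ i ∈ A, x i = y i) ∧ (∀ i ∈ B, x i = z i) =>
          hy fun i hi => (h.1 i hi).symm)]
        simp
    simp_rw [h1]
    rw [ENNReal.tsum_comm]
    refine tsum_congr fun y => ?_
    rw [ENNReal.tsum_comm]
    refine tsum_congr fun z => ?_
    rw [ENNReal.tsum_mul_left]
    congr 1
    have h3 : ∀ x, (if (∀ i ∈ A, x i = y i) ∧ (∀ i ∈ B, x i = z i) then p x / m y z else 0) =
        (if (∀ i ∈ A, x i = y i) ∧ (∀ i ∈ B, x i = z i) then p x else 0) * (m y z)⁻¹ := by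
      intro x
      split_ifs
      · rw [div_eq_mul_inv]
      · rw [zero_mul]
    simp_rw [h3]
    rw [ENNReal.tsum_mul_right]
    have h4 : ∑' x, (if (∀ i ∈ A, x i = y i) ∧ (∀ i ∈ B, x i = z i) then p x else 0) = m y z := rfl
    rw [h4]
    have hmtop : m y z ≠ ∞ := by
      refine ne_top_of_le_ne_top ENNReal.one_ne_top ?_
      rw [← p.tsum_coe]
      refine ENNReal.tsum_le_tsum fun w => ?_
      split_ifs
      · exact le_refl _
      · exact zero_le
    split_ifs with h5
    · rw [h5, zero_mul]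
    · exact ENNReal.mul_inv_cancel h5 hmtop
  have hmean_le : ∑' x, p x * R x ≤ 1 := by
    rw [hmean]
    have h1 : ∑' y, ∑' z, p y * p z = 1 := by
      simp_rw [ENNReal.tsum_mul_left, p.tsum_coe, mul_one]
      exact p.tsum_coe
    refine le_of_le_of_eq ?_ h1
    refine ENNReal.tsum_le_tsum fun y => ENNReal.tsum_le_tsum fun z => ?_
    split_ifs
    · rw [mul_zero]; exact zero_le
    · rw [mul_one]
  -- Gibbs
  have hRr : ∀ x, p x ≠ 0 → R x =
      ENNReal.ofReal ((prob p A x).toReal * (prob p B x).toReal / (prob p (A ∪ B) x).toReal) := by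
    intro x hx
    have hc := real_prob_pos p (A := A ∪ B) hx
    rw [ENNReal.ofReal_div_of_pos hc, ENNReal.ofReal_mul ENNReal.toReal_nonneg,
      ENNReal.ofReal_toReal (prob_ne_top p A x), ENNReal.ofReal_toReal (prob_ne_top p B x),
      ENNReal.ofReal_toReal (prob_ne_top p _ x)]
  set f : (Fin n → ℕ) → ℝ≥0∞ := fun x =>
    p x * (ENNReal.ofReal (-Real.log (prob p (A ∪ B) x).toReal) + 1) with hf
  set g : (Fin n → ℕ) → ℝ≥0∞ := fun x =>
    p x * (ENNReal.ofReal (-Real.log (prob p A x).toReal) +
      ENNReal.ofReal (-Real.log (prob p B x).toReal) + R x) with hg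
  have hfg : ∀ x, f x ≤ g x := by
    intro x
    by_cases hx : p x = 0
    · simp only [hf, hg, hx, zero_mul]; exact le_refl _
    · refine mul_le_mul_right ?_ _
      rw [hRr x hx]
      exact gibbs (real_prob_pos p hx) (real_prob_le_one p) (real_prob_pos p hx)
        (real_prob_le_one p) (real_prob_pos p hx) (real_prob_le_one p)
  have hsf : ∑' x, f x = entropy p (A ∪ B) + 1 := by
    simp only [hf, mul_add, mul_one]
    rw [ENNReal.tsum_add, p.tsum_coe]
    rfl
  have hsg : ∑' x, g x = entropy p A + entropy p B + ∑' x, p x * R x := by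
    simp only [hg, mul_add]
    rw [ENNReal.tsum_add, ENNReal.tsum_add]
    rfl
  have hfin : entropy p A + entropy p B ≠ ∞ := ENNReal.add_ne_top.mpr ⟨hA, hB⟩
  have hsle : ∑' x, g x ≤ ∑' x, f x := by
    rw [hsf, hsg, hH]
    exact add_le_add_right hmean_le _
  have hseq : ∑' x, f x = ∑' x, g x := le_antisymm (ENNReal.tsum_le_tsum hfg) hsle
  have hffin : ∑' x, f x ≠ ∞ := by
    rw [hsf, hH]
    exact ENNReal.add_ne_top.mpr ⟨hfin, ENNReal.one_ne_top⟩
  refine ⟨?_, ?_⟩
  · intro x hx
    have h1 := term_eq hfg hseq hffin x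
    have h2 := (ENNReal.mul_right_inj hx (p.apply_ne_top x)).mp h1
    rw [hRr x hx] at h2
    exact gibbs_eq (real_prob_pos p hx) (real_prob_le_one p) (real_prob_pos p hx)
      (real_prob_le_one p) (real_prob_pos p hx) (real_prob_le_one p) h2
  · have hmean1 : ∑' x, p x * R x = 1 := by
      rw [hsf, hsg, hH] at hseq
      exact ((ENNReal.add_right_inj hfin).mp hseq).symm
    have h1 : ∑' y, ∑' z, p y * p z = 1 := by
      simp_rw [ENNReal.tsum_mul_left, p.tsum_coe, mul_one]
      exact p.tsum_coe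
    intro y z hy hz
    by_contra hcon
    push Not at hcon
    have hm0 : m y z = 0 := by
      simp only [hm]
      rw [ENNReal.tsum_eq_zero]
      intro x
      split_ifs with h2
      · by_contra hx
        obtain ⟨i, hi, hne⟩ := hcon x hx h2.1
        exact hne (h2.2 i hi)
      · rfl
    have hle1 : ∀ y, ∑' z, p y * p z * (if m y z = 0 then 0 else 1) ≤ ∑' z, p y * p z := by
      intro y
      refine ENNReal.tsum_le_tsum fun z => ?_
      split_ifs
      · rw [mul_zero]; exact zero_le
      · rw [mul_one]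
    have hsum : ∑' y, ∑' z, p y * p z * (if m y z = 0 then 0 else 1) = ∑' y, ∑' z, p y * p z := by
      rw [← hmean, hmean1, h1]
    have h3 := term_eq hle1 hsum (by rw [hsum, h1]; exact ENNReal.one_ne_top) y
    have h4 : ∑' z, p y * p z ≠ ∞ := by
      rw [ENNReal.tsum_mul_left, p.tsum_coe, mul_one]
      exact p.apply_ne_top y
    have h5 := term_eq (f := fun z => p y * p z * (if m y z = 0 then 0 else 1))
      (g := fun z => p y * p z) (fun z => by
        split_ifs
        · rw [mul_zero]; exact zero_le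
        · rw [mul_one]) h3 (by rw [h3]; exact h4) z
    simp only [hm0, if_true, mul_zero] at h5
    rcases mul_eq_zero.mp h5.symm with h6 | h6
    · exact hy h6
    · exact hz h6

end Pool.Agent.X23.EM
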