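import Pool.Agent.X23.EM1

/-!
# The matroids of the problem; minors; the latin-square argument
-/

open scoped ENNReal

namespace Pool.Agent.X23.EM

/-- the uniform matroid of rank `min k n` -/
def unif (k n : ℕ) : Mat n where
  r A := min A.card k
  le_card A := min_le_left _ _
  mono A B h := by
    have := Finset.card_le_card h
    omega
  submod A B := by
    have h1 := Finset.card_union_add_card_inter A B
    have h2 : (A ∩ B).card ≤ A.card := Finset.card_le_card Finset.inter_subset_left
    have h3 : (A ∩ B).card ≤ B.card := Finset.card_le_card Finset.inter_subset_right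
    omega

/-- the dual matroid -/
def dual {n : ℕ} (M : Mat n) : Mat n where
  r A := A.card + M.r Aᶜ - M.r Finset.univ
  le_card A := by
    have := M.mono Aᶜ Finset.univ (Finset.subset_univ _)
    omega
  mono A B h := by
    have h1 := M.submod Bᶜ (B \ A)
    have h2 : Bᶜ ∪ (B \ A) = Aᶜ := by
      ext i
      simp only [Finset.mem_union, Finset.mem_compl, Finset.mem_sdiff]
      have := @h i
      tauto
    have h3 := M.le_card (B \ A)
    have h4 := Finset.card_sdiff_add_card_eq_card h
    rw [h2] at h1
    omega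
  submod A B := by
    have h1 := Finset.card_union_add_card_inter A B
    have h2 := M.submod Aᶜ Bᶜ
    have h3 : Aᶜ ∪ Bᶜ = (A ∩ B)ᶜ := (Finset.compl_inter A B).symm
    have h4 : Aᶜ ∩ Bᶜ = (A ∪ B)ᶜ := (Finset.compl_union A B).symm
    rw [h3, h4] at h2
    have h5 : ∀ C : Finset (Fin n), M.r Finset.univ ≤ C.card + M.r Cᶜ := by
      intro C
      have h6 := M.submod C Cᶜ
      rw [Finset.union_compl] at h6
      have := M.le_card C
      omega
    have := h5 A
    have := h5 B
    have := h5 (A ∪ B)
    have := h5 (A ∩ B)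
    omega

/-- the rank-`3` matroid on `Fin n` all of whose three-point lines are the members of `L`
(three-element sets, two of which meet in at most one point), and no two elements of which are
parallel -/
def ofLines {n : ℕ} (L : Finset (Finset (Fin n))) (h3 : ∀ l ∈ L, l.card = 3)
    (hL : ∀ l ∈ L, ∀ l' ∈ L, l ≠ l' → (l ∩ l').card ≤ 1) : Mat n where
  r A := if A ∈ L then 2 else min A.card 3
  le_card A := by
    split_ifs with h
    · rw [h3 A h]; omega
    · exact min_le_left _ _
  mono A B h := by
    have hc := Finset.card_le_card h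
    split_ifs with hA hB hB
    · exact le_refl _
    · have := h3 A hA
      omega
    · have hB3 := h3 B hB
      by_cases hAB : A.card = 3
      · exact absurd (Finset.eq_of_subset_of_card_le h (by omega) ▸ hB) hA
      · omega
    · omega
  submod A B := by
    have h1 := Finset.card_union_add_card_inter A B
    have h2 : (A ∩ B).card ≤ A.card := Finset.card_le_card Finset.inter_subset_left
    have h2' : (A ∩ B).card ≤ B.card := Finset.card_le_card Finset.inter_subset_right
    have hub : ∀ C : Finset (Fin n), (if C ∈ L then 2 else min C.card 3) ≤ min C.card 3 := by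
      intro C
      split_ifs with h
      · rw [h3 C h]; omega
      · exact le_refl _
    by_cases hAB : A ⊆ B
    · rw [Finset.union_eq_right.mpr hAB, Finset.inter_eq_left.mpr hAB]
      omega
    by_cases hBA : B ⊆ A
    · rw [Finset.union_eq_left.mpr hBA, Finset.inter_eq_right.mpr hBA]
    have hlt1 : (A ∩ B).card < A.card := by
      refine lt_of_le_of_ne h2 fun h => hAB ?_
      exact Finset.inter_eq_left.mp (Finset.eq_of_subset_of_card_le Finset.inter_subset_left h.ge)
    have hlt2 : (A ∩ B).card < B.card := by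
      refine lt_of_le_of_ne h2' fun h => hBA ?_
      exact Finset.inter_eq_right.mp (Finset.eq_of_subset_of_card_le Finset.inter_subset_right h.ge)
    have hu := hub (A ∪ B)
    have hi := hub (A ∩ B)
    by_cases hA : A ∈ L
    · by_cases hB : B ∈ L
      · have := hL A hA B hB (fun h => hAB (h ▸ le_refl _))
        rw [if_pos hA, if_pos hB]
        omega
      · rw [if_pos hA, if_neg hB]
        have := h3 A hA
        omega
    · by_cases hB : B ∈ L
      · rw [if_neg hA, if_pos hB]
        have := h3 B hB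
        omega
      · rw [if_neg hA, if_neg hB]
        omega

/-- the seven lines of the Fano plane -/
def fanoLines : Finset (Finset (Fin 7)) :=
  {{0, 1, 3}, {0, 2, 4}, {1, 2, 5}, {0, 5, 6}, {1, 4, 6}, {2, 3, 6}, {3, 4, 5}}

set_option maxRecDepth 100000 in
/-- the Fano matroid -/
def fano : Mat 7 := ofLines fanoLines (by decide) (by decide)

/-- the non-Fano lines -/
def nfLines : Finset (Finset (Fin 7)) :=
  {{0, 1, 3}, {0, 2, 4}, {1, 2, 5}, {0, 5, 6}, {1, 4, 6}, {2, 3, 6}}

set_option maxRecDepth 100000 in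
/-- the non-Fano matroid -/
def nonFano : Mat 7 := ofLines nfLines (by decide) (by decide)

/-! ### Minors -/

theorem IsMinor.refl {n : ℕ} (M : Mat n) : IsMinor M M := by
  refine ⟨Function.Embedding.refl _, ∅, Finset.disjoint_empty_right _, fun A => ?_⟩
  have h0 : M.r ∅ = 0 := by
    have := M.le_card ∅
    simpa using this
  rw [h0, Finset.union_empty, Finset.map_refl, Nat.sub_zero]

theorem IsMinor.trans {a b c : ℕ} {P : Mat a} {N : Mat b} {M : Mat c} (h1 : IsMinor P N)
    (h2 : IsMinor N M) : IsMinor P M := by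
  obtain ⟨f', C', hd', hr'⟩ := h1
  obtain ⟨f, C, hd, hr⟩ := h2
  refine ⟨f'.trans f, C'.map f ∪ C, ?_, fun A => ?_⟩
  · rw [Finset.disjoint_union_right]
    constructor
    · rw [← Finset.map_map, Finset.disjoint_map]
      exact hd'
    · refine Finset.disjoint_of_subset_left ?_ hd
      rw [← Finset.map_map]
      exact Finset.map_subset_map.mpr (Finset.subset_univ _)
  · rw [hr', hr, hr, Finset.map_union, Finset.map_map, Finset.union_assoc]
    have e1 := M.mono C (C'.map f ∪ C) Finset.subset_union_right
    omega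

theorem exists_excluded {n : ℕ} {M : Mat n} (hM : ¬ InClass M) :
    ∃ (m : ℕ) (N : Mat m), IsMinor N M ∧ IsExcludedMinor N := by
  classical
  have hex : ∃ m, ∃ N : Mat m, IsMinor N M ∧ ¬ InClass N := ⟨n, M, IsMinor.refl M, hM⟩
  obtain ⟨N, hN, hc⟩ := Nat.find_spec hex
  refine ⟨Nat.find hex, N, hN, hc, fun m P hm hP => ?_⟩
  by_contra hcon
  exact Nat.find_min hex hm ⟨P, hP.trans hN, hcon⟩

/-! ### The latin squares -/

theorem latin {A B C G : Type} [Fintype G] (g : A → B → C → G)
    (K1 : ∀ a b c b' c' a', g a b c = g a b' c' → g a' b c = g a' b' c')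
    (K2 : ∀ a b c a' c' b', g a b c = g a' b c' → g a b' c = g a' b' c')
    (K3 : ∀ a b c a' b' c', g a b c = g a' b' c → g a b c' = g a' b' c')
    (b1 : ∀ b c y, ∃ a, g a b c = y) (b2 : ∀ a c y, ∃ b, g a b c = y)
    (b3 : ∀ a b y, ∃ c, g a b c = y) (heven : 2 ∣ Fintype.card G) (a0 : A) (b0 : B) (c0 : C) :
    ∃ a b c, g a b0 c0 ≠ g a0 b0 c0 ∧ g a b c0 = g a0 b0 c0 ∧ g a b0 c = g a0 b0 c0 ∧
      g a0 b c = g a0 b0 c0 := by
  classical
  choose α hα using b1 b0 c0
  choose β hβ using b2 a0 c0
  choose γ hγ using b3 a0 b0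
  set o : G := g a0 b0 c0 with ho
  set f : G → G → G → G := fun x y z => g (α x) (β y) (γ z) with hf
  -- replace the base values
  have hα0 : ∀ b c, g (α o) b c = g a0 b c := by
    intro b c
    have h1 : g (α o) b0 c0 = g a0 b0 c0 := hα o
    have h2 := K2 _ _ _ _ _ b h1
    exact K3 _ _ _ _ _ c h2
  have hβ0 : ∀ a c, g a (β o) c = g a b0 c := by
    intro a c
    have h1 : g a0 (β o) c0 = g a0 b0 c0 := hβ o
    have h2 := K1 _ _ _ _ _ a h1
    exact K3 _ _ _ _ _ c h2
  have hγ0 : ∀ a b, g a b (γ o) = g a b c0 := by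
    intro a b
    have h1 : g a0 b0 (γ o) = g a0 b0 c0 := hγ o
    have h2 := K1 _ _ _ _ _ a h1
    exact K2 _ _ _ _ _ b h2
  have f1 : ∀ x, f x o o = x := by
    intro x
    simp only [hf, hβ0, hγ0]
    exact hα x
  have f2 : ∀ x, f o x o = x := by
    intro x
    simp only [hf, hα0, hγ0]
    exact hβ x
  have f3 : ∀ x, f o o x = x := by
    intro x
    simp only [hf, hα0, hβ0]
    exact hγ x
  have k1 : ∀ x y z y' z' x', f x y z = f x y' z' → f x' y z = f x' y' z' :=
    fun x y z y' z' x' h => K1 _ _ _ _ _ _ h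
  have k2 : ∀ x y z x' z' y', f x y z = f x' y z' → f x y' z = f x' y' z' :=
    fun x y z x' z' y' h => K2 _ _ _ _ _ _ h
  have k3 : ∀ x y z x' y' z', f x y z = f x' y' z → f x y z' = f x' y' z' :=
    fun x y z x' y' z' h => K3 _ _ _ _ _ _ h
  set s : G → G → G := fun x y => f x y o with hs
  have e1 : ∀ x z, f x o z = s x z := by
    intro x z
    have h : f o o z = f o z o := by rw [f3, f2]
    exact k1 _ _ _ _ _ x h
  have e2 : ∀ y z, f o y z = s z y := by
    intro y z
    have h : f o o z = f z o o := by rw [f3, f1]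
    exact k2 _ _ _ _ _ y h
  have e3 : ∀ x y z, f x y z = s (s x y) z := by
    intro x y z
    have h : f x y o = f (s x y) o o := by rw [f1]
    rw [k3 _ _ _ _ _ z h, e1]
  have e4 : ∀ x y z, f x y z = s x (f o y z) := by
    intro x y z
    have h : f o y z = f o (f o y z) o := by rw [f2]
    exact k1 _ _ _ _ _ x h
  have comm : ∀ x z, s x z = s z x := by
    intro x z
    have h : f x o o = f o x o := by rw [f1, f2]
    have h2 := k3 _ _ _ _ _ z h
    rw [e1, e2] at h2
    exact h2
  have assoc : ∀ x y z, s (s x y) z = s x (s y z) := by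
    intro x y z
    rw [← e3, e4, e2, comm z y]
  have zero : ∀ x, s o x = x := f2
  have hinv : ∀ x, ∃ y, s y x = o := by
    intro x
    obtain ⟨a, ha⟩ := b1 (β x) c0 o
    refine ⟨g a b0 c0, ?_⟩
    have h1 : g (α (g a b0 c0)) b0 c0 = g a b0 c0 := hα _
    have h2 := K2 _ _ _ _ _ (β x) h1
    simp only [hs, hf, hγ0]
    rw [h2, ha]
  choose ι hι using hinv
  let _ : Mul G := ⟨s⟩
  let _ : One G := ⟨o⟩
  let _ : Inv G := ⟨ι⟩
  let grp : Group G := Group.ofLeftAxioms assoc zero hι
  have : Fact (Nat.Prime 2) := ⟨Nat.prime_two⟩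
  obtain ⟨t, ht⟩ := exists_prime_orderOf_dvd_card 2 heven
  have ht1 : t ≠ o := by
    intro h
    have h1 : t = 1 := h
    rw [h1, orderOf_one] at ht
    exact absurd ht (by norm_num)
  have ht2 : s t t = o := by
    have h1 : t ^ 2 = 1 := by rw [← ht]; exact pow_orderOf_eq_one t
    rw [pow_two] at h1
    exact h1
  refine ⟨α t, β t, γ t, ?_, ?_, ?_, ?_⟩
  · rw [hα]; exact ht1
  · have := ht2
    simp only [hs, hf, hγ0] at this
    exact this
  · have := ht2
    rw [← e1] at this
    simp only [hf, hβ0] at this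
    exact this
  · have := ht2
    rw [← e2] at this
    simp only [hf, hα0] at this
    exact this

end Pool.Agent.X23.EM
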