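import Pool.Agent.X23.EM2

/-!
# The non-Fano matroid: `4` is not in the characteristic set; not regular
-/

open scoped ENNReal

namespace Pool.Agent.X23.EM

/-- If all values of a random variable have probability `1/4`, it has four values. -/
theorem card_values {n : ℕ} (p : PMF (Fin n → ℕ)) (i : Fin n)
    (h : ∀ x, p x ≠ 0 → prob p {i} x = 4⁻¹) :
    {v : ℕ | ∃ x, p x ≠ 0 ∧ x i = v}.Finite ∧ {v : ℕ | ∃ x, p x ≠ 0 ∧ x i = v}.ncard = 4 := by
  classical
  set V := {v : ℕ | ∃ x, p x ≠ 0 ∧ x i = v} with hV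
  have h1 : ∑' v : ℕ, ∑' y, (if y i = v then p y else 0) = 1 := by
    rw [ENNReal.tsum_comm]
    have : ∀ y, ∑' v : ℕ, (if y i = v then p y else 0) = p y := by
      intro y
      rw [tsum_eq_single (y i)]
      · rw [if_pos rfl]
      · intro v hv
        rw [if_neg (fun h => hv h.symm)]
    simp_rw [this]
    exact p.tsum_coe
  have h2 : ∀ v : ℕ, ∑' y, (if y i = v then p y else 0) = V.indicator (fun _ => 4⁻¹) v := by
    intro v
    by_cases hv : v ∈ V
    · rw [Set.indicator_of_mem hv]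
      obtain ⟨x, hx, hxi⟩ := hv
      rw [← h x hx, prob]
      refine tsum_congr fun y => ?_
      simp only [Finset.mem_singleton, forall_eq, hxi]
    · rw [Set.indicator_of_notMem hv, ENNReal.tsum_eq_zero]
      intro y
      split_ifs with hy
      · by_contra hne
        exact hv ⟨y, hne, hy⟩
      · rfl
  simp_rw [h2] at h1
  rw [← tsum_subtype, ENNReal.tsum_set_const] at h1
  have hfin : V.Finite := by
    by_contra hinf
    rw [Set.encard_eq_top_iff.mpr hinf] at h1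
    simp at h1
  refine ⟨hfin, ?_⟩
  rw [← hfin.cast_ncard_eq] at h1
  have h3 := congrArg (fun t => t * 4) h1
  simp only [mul_assoc] at h3
  rw [ENNReal.inv_mul_cancel (by norm_num) (by norm_num), mul_one, one_mul,
    ENat.toENNReal_coe] at h3
  exact_mod_cast h3

section NF

variable {n : ℕ} (p : PMF (Fin n → ℕ)) (M : Mat n) (l : ℝ)
  (hent : ∀ A, entropy p A = ENNReal.ofReal (l * M.r A))

include hent

theorem ag {A B : Finset (Fin n)} (h : A ⊆ B) (hr : M.r A = M.r B) {x y : Fin n → ℕ}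
    (hx : p x ≠ 0) (hy : p y ≠ 0) (hxy : ∀ i ∈ A, y i = x i) : ∀ i ∈ B, y i = x i :=
  agree_of_entropy p h (by rw [hent, hent, hr]) (by rw [hent]; exact ENNReal.ofReal_ne_top) hx hy
    hxy

theorem pe {A B : Finset (Fin n)} (h : A ⊆ B) (hr : M.r A = M.r B) {x : Fin n → ℕ}
    (hx : p x ≠ 0) : prob p A x = prob p B x :=
  prob_eq_of_entropy p h (by rw [hent, hent, hr]) (by rw [hent]; exact ENNReal.ofReal_ne_top) hx

theorem ind (hl : 0 ≤ l) {A B : Finset (Fin n)} (hr : M.r (A ∪ B) = M.r A + M.r B) :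
    (∀ x, p x ≠ 0 → (prob p (A ∪ B) x).toReal = (prob p A x).toReal * (prob p B x).toReal) ∧
    ∀ y z, p y ≠ 0 → p z ≠ 0 → ∃ x, p x ≠ 0 ∧ (∀ i ∈ A, x i = y i) ∧ ∀ i ∈ B, x i = z i := by
  refine indep p ?_ (by rw [hent]; exact ENNReal.ofReal_ne_top)
    (by rw [hent]; exact ENNReal.ofReal_ne_top)
  rw [hent, hent, hent, hr, ← ENNReal.ofReal_add (by positivity) (by positivity)]
  congr 1
  push_cast
  ring

end NF

theorem four_notMem : 4 ∉ chi nonFano := by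
  classical
  rintro ⟨-, p, hent⟩
  have hl : 0 ≤ Real.log (4 : ℕ) := Real.log_nonneg (by norm_num)
  -- agreement on lines
  have AG : ∀ i j k : Fin 7, nonFano.r {i, j} = nonFano.r {i, j, k} → ∀ x y, p x ≠ 0 → p y ≠ 0 →
      x i = y i → x j = y j → x k = y k := by
    intro i j k hr x y hx hy hi hj
    refine ag p nonFano _ hent (A := {i, j}) (B := {i, j, k}) ?_ hr hy hx ?_ k (by simp)
    · intro t ht
      simp only [Finset.mem_insert, Finset.mem_singleton] at ht ⊢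
      tauto
    · intro t ht
      simp only [Finset.mem_insert, Finset.mem_singleton] at ht
      rcases ht with rfl | rfl
      · exact hi
      · exact hj
  have AU : ∀ i j k : Fin 7, nonFano.r {i, j, k} = nonFano.r Finset.univ → ∀ x y, p x ≠ 0 →
      p y ≠ 0 → x i = y i → x j = y j → x k = y k → x = y := by
    intro i j k hr x y hx hy hi hj hk
    funext t
    refine ag p nonFano _ hent (A := {i, j, k}) (B := Finset.univ) (Finset.subset_univ _) hr hy hx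
      ?_ t (Finset.mem_univ t)
    intro t ht
    simp only [Finset.mem_insert, Finset.mem_singleton] at ht
    rcases ht with rfl | rfl | rfl
    · exact hi
    · exact hj
    · exact hk
  have I2 : ∀ i j : Fin 7, nonFano.r ({i} ∪ {j}) = nonFano.r {i} + nonFano.r {j} → ∀ y z,
      p y ≠ 0 → p z ≠ 0 → ∃ x, p x ≠ 0 ∧ x i = y i ∧ x j = z j := by
    intro i j hr y z hy hz
    obtain ⟨x, hx, h1, h2⟩ := (ind p nonFano _ hent hl hr).2 y z hy hz
    exact ⟨x, hx, h1 i (by simp), h2 j (by simp)⟩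
  have I3 : ∀ i j k : Fin 7, nonFano.r ({i, j} ∪ {k}) = nonFano.r {i, j} + nonFano.r {k} → ∀ y z,
      p y ≠ 0 → p z ≠ 0 → ∃ x, p x ≠ 0 ∧ x i = y i ∧ x j = y j ∧ x k = z k := by
    intro i j k hr y z hy hz
    obtain ⟨x, hx, h1, h2⟩ := (ind p nonFano _ hent hl hr).2 y z hy hz
    exact ⟨x, hx, h1 i (by simp), h1 j (by simp), h2 k (by simp)⟩
  have I : ∀ i j k : Fin 7, nonFano.r ({i} ∪ {j}) = nonFano.r {i} + nonFano.r {j} →
      nonFano.r ({i, j} ∪ {k}) = nonFano.r {i, j} + nonFano.r {k} → ∀ y z w,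
      p y ≠ 0 → p z ≠ 0 → p w ≠ 0 → ∃ x, p x ≠ 0 ∧ x i = y i ∧ x j = z j ∧ x k = w k := by
    intro i j k h1 h2 y z w hy hz hw
    obtain ⟨x, hx, hx1, hx2⟩ := I2 i j h1 y z hy hz
    obtain ⟨x', hx', hx1', hx2', hx3'⟩ := I3 i j k h2 x w hx hw
    exact ⟨x', hx', hx1'.trans hx1, hx2'.trans hx2, hx3'⟩
  -- probabilities along the line `{0, 5, 6}`
  have PQ : ∀ x, p x ≠ 0 → prob p {0} x = prob p {6} x := by
    intro x hx
    have h1 := (ind p nonFano _ hent hl (A := {0}) (B := {5}) (by decide)).1 x hx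
    have h2 := (ind p nonFano _ hent hl (A := {6}) (B := {5}) (by decide)).1 x hx
    have h3 := pe p nonFano _ hent (A := {0} ∪ {5}) (B := {0, 5, 6}) (by decide) (by decide) hx
    have h4 := pe p nonFano _ hent (A := {6} ∪ {5}) (B := {0, 5, 6}) (by decide) (by decide) hx
    rw [h3] at h1
    rw [h4] at h2
    rw [h1] at h2
    have h5 := mul_right_cancel₀ (real_prob_pos p hx).ne' h2
    exact (ENNReal.toReal_eq_toReal_iff' (prob_ne_top p _ x) (prob_ne_top p _ x)).mp h5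
  obtain ⟨x0, hx0⟩ : ∃ x, p x ≠ 0 := by
    obtain ⟨x, hx⟩ := p.support_nonempty
    exact ⟨x, (PMF.mem_support_iff _ _).mp hx⟩
  have PC : ∀ x, p x ≠ 0 → prob p {6} x = prob p {6} x0 := by
    intro x hx
    obtain ⟨z, hz, hz0, hz6⟩ := I2 0 6 (by decide) x x0 hx hx0
    rw [← PQ x hx, prob_congr p {0} (y := z) (by simpa using hz0.symm), PQ z hz,
      prob_congr p {6} (y := x0) (by simpa using hz6)]
  have PV : prob p {6} x0 = 4⁻¹ := by
    have h1 : entropy p {6} = ENNReal.ofReal (-Real.log (prob p {6} x0).toReal) := by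
      rw [entropy]
      have : ∀ x, p x * ENNReal.ofReal (-Real.log (prob p {6} x).toReal) =
          p x * ENNReal.ofReal (-Real.log (prob p {6} x0).toReal) := by
        intro x
        by_cases hx : p x = 0
        · rw [hx, zero_mul, zero_mul]
        · rw [PC x hx]
      simp_rw [this]
      rw [ENNReal.tsum_mul_right, p.tsum_coe, one_mul]
    have h2 : nonFano.r {6} = 1 := by decide
    rw [hent, h2, Nat.cast_one, mul_one] at h1
    have hpos := real_prob_pos p (A := {6}) hx0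
    rw [ENNReal.ofReal_eq_ofReal_iff hl
      (neg_nonneg.mpr (Real.log_nonpos hpos.le (real_prob_le_one p)))] at h1
    have h3 : Real.log (prob p {6} x0).toReal = Real.log ((4 : ℝ)⁻¹) := by
      rw [Real.log_inv]
      push_cast at h1
      linarith
    have h4 := Real.log_injOn_pos (Set.mem_Ioi.mpr hpos) (Set.mem_Ioi.mpr (by norm_num)) h3
    rw [← ENNReal.ofReal_toReal (prob_ne_top p {6} x0), h4, ENNReal.ofReal_inv_of_pos (by norm_num)]
    norm_num
  obtain ⟨hfin, hcard⟩ := card_values p 6 (fun x hx => (PC x hx).trans PV)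
  -- the types of values
  let V : Fin 7 → Set ℕ := fun i => {v | ∃ x, p x ≠ 0 ∧ x i = v}
  have hX : ∀ (a : V 0) (b : V 1) (c : V 2), ∃ x, p x ≠ 0 ∧ x 0 = a ∧ x 1 = b ∧ x 2 = c := by
    rintro ⟨a, y, hy, hya⟩ ⟨b, z, hz, hzb⟩ ⟨c, w, hw, hwc⟩
    obtain ⟨x, hx, h1, h2, h3⟩ := I 0 1 2 (by decide) (by decide) y z w hy hz hw
    exact ⟨x, hx, h1.trans hya, h2.trans hzb, h3.trans hwc⟩
  choose X hX0 hXa hXb hXc using hX
  let g : V 0 → V 1 → V 2 → V 6 := fun a b c => ⟨X a b c 6, X a b c, hX0 a b c, rfl⟩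
  have hg : ∀ a b c, (g a b c : ℕ) = X a b c 6 := fun a b c => rfl
  have hgg : ∀ {a b c a' b' c'}, g a b c = g a' b' c' ↔ X a b c 6 = X a' b' c' 6 := by
    intro a b c a' b' c'
    rw [Subtype.ext_iff]
  have g5 : ∀ a b c a', X a b c 5 = X a' b c 5 := fun a b c a' =>
    AG 1 2 5 (by decide) _ _ (hX0 _ _ _) (hX0 _ _ _) (by rw [hXb, hXb]) (by rw [hXc, hXc])
  have g4 : ∀ a b c b', X a b c 4 = X a b' c 4 := fun a b c b' =>
    AG 0 2 4 (by decide) _ _ (hX0 _ _ _) (hX0 _ _ _) (by rw [hXa, hXa]) (by rw [hXc, hXc])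
  have g3 : ∀ a b c c', X a b c 3 = X a b c' 3 := fun a b c c' =>
    AG 0 1 3 (by decide) _ _ (hX0 _ _ _) (hX0 _ _ _) (by rw [hXa, hXa]) (by rw [hXb, hXb])
  have d5 : ∀ a b c b' c', X a b c 6 = X a b' c' 6 → X a b c 5 = X a b' c' 5 :=
    fun a b c b' c' h => AG 0 6 5 (by decide) _ _ (hX0 _ _ _) (hX0 _ _ _) (by rw [hXa, hXa]) h
  have d4 : ∀ a b c a' c', X a b c 6 = X a' b c' 6 → X a b c 4 = X a' b c' 4 :=
    fun a b c b' c' h => AG 1 6 4 (by decide) _ _ (hX0 _ _ _) (hX0 _ _ _) (by rw [hXb, hXb]) h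
  have d3 : ∀ a b c a' b', X a b c 6 = X a' b' c 6 → X a b c 3 = X a' b' c 3 :=
    fun a b c b' c' h => AG 2 6 3 (by decide) _ _ (hX0 _ _ _) (hX0 _ _ _) (by rw [hXc, hXc]) h
  have surj : ∀ z, p z ≠ 0 → ∀ a b c, z 0 = (a : V 0) → z 1 = (b : V 1) → z 2 = (c : V 2) →
      X a b c = z := by
    intro z hz a b c h0 h1 h2
    exact AU 0 1 2 (by decide) _ _ (hX0 _ _ _) hz (by rw [hXa, h0]) (by rw [hXb, h1])
      (by rw [hXc, h2])
  let fintypeV : Fintype (V 6) := hfin.fintype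
  have hc4 : Fintype.card (V 6) = 4 := by
    rw [← Nat.card_eq_fintype_card, Nat.card_coe_set_eq]
    exact hcard
  have base0 : x0 0 ∈ V 0 := ⟨x0, hx0, rfl⟩
  have base1 : x0 1 ∈ V 1 := ⟨x0, hx0, rfl⟩
  have base2 : x0 2 ∈ V 2 := ⟨x0, hx0, rfl⟩
  obtain ⟨a, b, c, hne, e1, e2, e3⟩ := latin g
    (by
      intro a b c b' c' a' h
      rw [hgg] at h ⊢
      refine AG 0 5 6 (by decide) _ _ (hX0 _ _ _) (hX0 _ _ _) (by rw [hXa, hXa]) ?_
      rw [g5 a' b c a, g5 a' b' c' a]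
      exact d5 _ _ _ _ _ h)
    (by
      intro a b c a' c' b' h
      rw [hgg] at h ⊢
      refine AG 1 4 6 (by decide) _ _ (hX0 _ _ _) (hX0 _ _ _) (by rw [hXb, hXb]) ?_
      rw [g4 a b' c b, g4 a' b' c' b]
      exact d4 _ _ _ _ _ h)
    (by
      intro a b c a' b' c' h
      rw [hgg] at h ⊢
      refine AG 2 3 6 (by decide) _ _ (hX0 _ _ _) (hX0 _ _ _) (by rw [hXc, hXc]) ?_
      rw [g3 a b c' c, g3 a' b' c' c]
      exact d3 _ _ _ _ _ h)
    (by
      rintro ⟨b, y, hy, hyb⟩ ⟨c, z, hz, hzc⟩ ⟨v, w, hw, hwv⟩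
      obtain ⟨x, hx, h1, h2, h3⟩ := I 1 2 6 (by decide) (by decide) y z w hy hz hw
      refine ⟨⟨x 0, x, hx, rfl⟩, Subtype.ext ?_⟩
      rw [hg, surj x hx _ _ _ rfl (h1.trans hyb) (h2.trans hzc)]
      exact h3.trans hwv)
    (by
      rintro ⟨b, y, hy, hyb⟩ ⟨c, z, hz, hzc⟩ ⟨v, w, hw, hwv⟩
      obtain ⟨x, hx, h1, h2, h3⟩ := I 0 2 6 (by decide) (by decide) y z w hy hz hw
      refine ⟨⟨x 1, x, hx, rfl⟩, Subtype.ext ?_⟩
      rw [hg, surj x hx _ _ _ (h1.trans hyb) rfl (h2.trans hzc)]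
      exact h3.trans hwv)
    (by
      rintro ⟨b, y, hy, hyb⟩ ⟨c, z, hz, hzc⟩ ⟨v, w, hw, hwv⟩
      obtain ⟨x, hx, h1, h2, h3⟩ := I 0 1 6 (by decide) (by decide) y z w hy hz hw
      refine ⟨⟨x 2, x, hx, rfl⟩, Subtype.ext ?_⟩
      rw [hg, surj x hx _ _ _ (h1.trans hyb) (h2.trans hzc) rfl]
      exact h3.trans hwv)
    (by rw [hc4]; norm_num) ⟨x0 0, base0⟩ ⟨x0 1, base1⟩ ⟨x0 2, base2⟩
  rw [hgg] at e1 e2 e3
  refine hne ?_
  set a0 : V 0 := ⟨x0 0, base0⟩
  set b0 : V 1 := ⟨x0 1, base1⟩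
  set c0 : V 2 := ⟨x0 2, base2⟩
  have r3 : X a b c 3 = X a0 b0 c0 3 := (g3 a b c c0).trans (d3 _ _ _ _ _ e1)
  have r4 : X a b c 4 = X a0 b0 c0 4 := (g4 a b c b0).trans (d4 _ _ _ _ _ e2)
  have r5 : X a b c 5 = X a0 b0 c0 5 := (g5 a b c a0).trans (d5 _ _ _ _ _ e3)
  have hfinal := AU 3 4 5 (by decide) _ _ (hX0 a b c) (hX0 a0 b0 c0) r3 r4 r5
  have : a = a0 := by
    apply Subtype.ext
    rw [← hXa a b c, hfinal, hXa]
  rw [this]

end Pool.Agent.X23.EM
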