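import Mathlib

/-!
Approximation of the constant one by trigonometric polynomials with respect to a singular measure
(helper23).
-/

set_option autoImplicit false

open Finset Filter Topology MeasureTheory AddCircle

namespace Pool.Agent.X23.SS

/-- trigonometric polynomial with frequencies `0, …, R - 1` -/
noncomputable def tp (c : ℕ → ℂ) (R : ℕ) (t : UnitAddCircle) : ℂ := ∑ h ∈ range R, c h * fourier (h : ℤ) t

lemma tp_cont (c : ℕ → ℂ) (R : ℕ) : Continuous (tp c R) := by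
  unfold tp
  fun_prop

/-- `L²` density of the trigonometric polynomials for a finite measure on the circle -/
lemma dense_fourier (ν : Measure UnitAddCircle) [IsFiniteMeasure ν] (g : UnitAddCircle → ℂ)
    (hg : MemLp g 2 ν) (ε : ℝ) (hε : 0 < ε) :
    ∃ p : C(UnitAddCircle, ℂ), p ∈ Submodule.span ℂ (Set.range (fourier (T := 1))) ∧
      ∫ t, ‖g t - p t‖ ^ 2 ∂ν ≤ ε := by
  have hd : (Submodule.map (ContinuousMap.toLp (E := ℂ) 2 ν ℂ).toLinearMap
      (Submodule.span ℂ (Set.range (fourier (T := 1))))).topologicalClosure = ⊤ :=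
    (ContinuousMap.toLp_denseRange ℂ ν ℂ (p := 2) (by norm_num)).topologicalClosure_map_submodule
      span_fourier_closure_eq_top
  have h1 : hg.toLp g ∈ (Submodule.map (ContinuousMap.toLp (E := ℂ) 2 ν ℂ).toLinearMap
      (Submodule.span ℂ (Set.range (fourier (T := 1))))).topologicalClosure := by
    rw [hd]; trivial
  have h2 := Metric.mem_closure_iff.1 h1 (Real.sqrt ε) (Real.sqrt_pos.2 hε)
  obtain ⟨y, hy, hdist⟩ := h2
  obtain ⟨p, hp, rfl⟩ := hy
  refine ⟨p, hp, ?_⟩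
  rw [dist_eq_norm] at hdist
  have h3 : ‖hg.toLp g - ContinuousMap.toLp (E := ℂ) 2 ν ℂ p‖ ^ 2 = ∫ t, ‖g t - p t‖ ^ 2 ∂ν := by
    rw [← @inner_self_eq_norm_sq ℂ, L2.inner_def]
    have e : ∀ᵐ t ∂ν, inner ℂ ((hg.toLp g - ContinuousMap.toLp (E := ℂ) 2 ν ℂ p : Lp ℂ 2 ν) t)
        ((hg.toLp g - ContinuousMap.toLp (E := ℂ) 2 ν ℂ p : Lp ℂ 2 ν) t) = ((‖g t - p t‖ ^ 2 : ℝ) : ℂ) := by
      filter_upwards [Lp.coeFn_sub (hg.toLp g) (ContinuousMap.toLp (E := ℂ) 2 ν ℂ p), hg.coeFn_toLp,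
        ContinuousMap.coeFn_toLp (p := 2) (𝕜 := ℂ) ν p] with t h4 h5 h6
      rw [h4, Pi.sub_apply, h5, h6, inner_self_eq_norm_sq_to_K]
      norm_cast
    have e3 : ∫ a, ((‖g a - p a‖ ^ 2 : ℝ) : ℂ) ∂ν = ((∫ a, ‖g a - p a‖ ^ 2 ∂ν : ℝ) : ℂ) := integral_ofReal
    rw [integral_congr_ae e, e3]
    simp
  rw [← h3]
  calc ‖hg.toLp g - ContinuousMap.toLp (E := ℂ) 2 ν ℂ p‖ ^ 2 ≤ (Real.sqrt ε) ^ 2 :=
        pow_le_pow_left₀ (norm_nonneg _) hdist.le 2
    _ = ε := Real.sq_sqrt hε.le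

/-- the square norm of a trigonometric polynomial -/
lemma tp_sq (σ : Measure UnitAddCircle) [IsFiniteMeasure σ] (d : ℕ → ℂ) (R : ℕ) :
    ((∫ t, ‖tp d R t‖ ^ 2 ∂σ : ℝ) : ℂ) =
      ∑ i ∈ range R, ∑ j ∈ range R, d i * (starRingEnd ℂ) (d j) * ∫ t, fourier ((i : ℤ) - j) t ∂σ := by
  have hint : ∀ n : ℤ, Integrable (fun t => fourier (T := 1) n t) σ := fun n =>
    (fourier n).continuous.integrable_of_hasCompactSupport (HasCompactSupport.of_compactSpace _)
  have e1 : ((∫ t, ‖tp d R t‖ ^ 2 ∂σ : ℝ) : ℂ) = ∫ t, ((‖tp d R t‖ ^ 2 : ℝ) : ℂ) ∂σ := integral_ofReal.symm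
  rw [e1]
  have e2 : ∀ t, ((‖tp d R t‖ ^ 2 : ℝ) : ℂ) =
      ∑ i ∈ range R, ∑ j ∈ range R, d i * (starRingEnd ℂ) (d j) * fourier ((i : ℤ) - j) t := by
    intro t
    have h1 : ((‖tp d R t‖ ^ 2 : ℝ) : ℂ) = tp d R t * (starRingEnd ℂ) (tp d R t) := by
      rw [Complex.mul_conj, Complex.normSq_eq_norm_sq]
    rw [h1]
    unfold tp
    rw [map_sum, sum_mul_sum]
    refine sum_congr rfl fun i _ => sum_congr rfl fun j _ => ?_
    rw [map_mul, ← fourier_neg, sub_eq_add_neg, fourier_add]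
    ring
  simp only [e2]
  rw [integral_finset_sum _ (fun i _ => integrable_finset_sum _ fun j _ => (hint _).const_mul _)]
  refine sum_congr rfl fun i _ => ?_
  rw [integral_finset_sum _ (fun j _ => (hint _).const_mul _)]
  refine sum_congr rfl fun j _ => ?_
  rw [integral_const_mul]

lemma int_fourier (n : ℤ) : ∫ t : UnitAddCircle, fourier n t ∂haarAddCircle = if n = 0 then 1 else 0 := by
  have h := congrFun (fourierCoeff_fourier (T := 1) n) 0
  unfold fourierCoeff at h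
  simp only [neg_zero, fourier_zero, one_smul] at h
  rw [h]
  by_cases hn : n = 0
  · subst hn
    simp
  · rw [if_neg hn, Pi.single_eq_of_ne (Ne.symm hn)]

/-- Parseval -/
lemma tp_haar (d : ℕ → ℂ) (R : ℕ) :
    ∫ t, ‖tp d R t‖ ^ 2 ∂haarAddCircle = ∑ i ∈ range R, ‖d i‖ ^ 2 := by
  have h := tp_sq haarAddCircle d R
  have e : ∀ i ∈ range R, ∑ j ∈ range R, d i * (starRingEnd ℂ) (d j) *
      ∫ t, fourier ((i : ℤ) - j) t ∂haarAddCircle (T := 1) = ((‖d i‖ ^ 2 : ℝ) : ℂ) := by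
    intro i hi
    rw [sum_eq_single i]
    · rw [int_fourier, if_pos (by simp), mul_one, Complex.mul_conj, Complex.normSq_eq_norm_sq]
    · intro j _ hj
      rw [int_fourier, if_neg (by omega), mul_zero]
    · intro h'
      exact absurd hi h'
  rw [sum_congr rfl e, ← Complex.ofReal_sum] at h
  exact_mod_cast h

/-- **approximation of one** with respect to a singular measure -/
theorem approx_one (σ : Measure UnitAddCircle) [IsFiniteMeasure σ] (hσ : σ ⟂ₘ haarAddCircle) (ε : ℝ)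
    (hε : 0 < ε) : ∃ (K : ℕ) (c : ℕ → ℂ), ∑ h ∈ range (2 * K + 1), ‖c h‖ ^ 2 ≤ ε ∧
      ∫ t, ‖fourier (K : ℤ) t - tp c (2 * K + 1) t‖ ^ 2 ∂σ ≤ ε := by
  obtain ⟨s, hs, hs1, hs2⟩ := hσ
  set ν : Measure UnitAddCircle := σ + haarAddCircle with hν
  have hg : MemLp (sᶜ.indicator (fun _ => (1 : ℂ))) 2 ν := by
    apply memLp_indicator_const 2 hs.compl (1 : ℂ)
    right
    exact measure_ne_top ν _
  obtain ⟨p, hp, hp2⟩ := dense_fourier ν _ hg ε hε
  have hint : Integrable (fun t => ‖sᶜ.indicator (fun _ => (1 : ℂ)) t - p t‖ ^ 2) ν := by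
    have h1 : MemLp (fun t => sᶜ.indicator (fun _ => (1 : ℂ)) t - p t) 2 ν := by
      refine hg.sub ?_
      exact p.continuous.memLp_of_hasCompactSupport (HasCompactSupport.of_compactSpace _)
    exact h1.integrable_norm_pow (by norm_num)
  have hsplit : ∫ t, ‖sᶜ.indicator (fun _ => (1 : ℂ)) t - p t‖ ^ 2 ∂ν =
      ∫ t, ‖sᶜ.indicator (fun _ => (1 : ℂ)) t - p t‖ ^ 2 ∂σ +
      ∫ t, ‖sᶜ.indicator (fun _ => (1 : ℂ)) t - p t‖ ^ 2 ∂haarAddCircle := by
    rw [hν] at hint ⊢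
    exact integral_add_measure (hint.mono_measure (Measure.le_add_right le_rfl))
      (hint.mono_measure (Measure.le_add_left le_rfl))
  have hA : ∫ t, ‖sᶜ.indicator (fun _ => (1 : ℂ)) t - p t‖ ^ 2 ∂σ = ∫ t, ‖1 - p t‖ ^ 2 ∂σ := by
    apply integral_congr_ae
    have : ∀ᵐ t ∂σ, t ∉ s := by
      rw [ae_iff]
      simpa using hs1
    filter_upwards [this] with t ht
    rw [Set.indicator_of_mem (by exact ht)]
  have hB : ∫ t, ‖sᶜ.indicator (fun _ => (1 : ℂ)) t - p t‖ ^ 2 ∂haarAddCircle = ∫ t, ‖p t‖ ^ 2 ∂haarAddCircle := by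
    apply integral_congr_ae
    have : ∀ᵐ t ∂(haarAddCircle : Measure UnitAddCircle), t ∉ sᶜ := by
      rw [ae_iff]
      have e : {a | ¬ a ∉ sᶜ} = sᶜ := by
        ext a
        simp
      rw [e]
      exact hs2
    filter_upwards [this] with t ht
    rw [Set.indicator_of_notMem ht, zero_sub, norm_neg]
  have hA0 : 0 ≤ ∫ t, ‖1 - p t‖ ^ 2 ∂σ := integral_nonneg fun t => by positivity
  have hB0 : 0 ≤ ∫ t, ‖p t‖ ^ 2 ∂haarAddCircle := integral_nonneg fun t => by positivity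
  rw [hsplit, hA, hB] at hp2
  obtain ⟨a, ha⟩ := Finsupp.mem_span_range_iff_exists_finsupp.1 hp
  set K : ℕ := a.support.sup Int.natAbs with hK
  have hKa : ∀ n : ℤ, K < n.natAbs → a n = 0 := by
    intro n hn
    by_contra h0
    have := Finset.le_sup (f := Int.natAbs) (Finsupp.mem_support_iff.2 h0)
    omega
  have hpt : ∀ t, p t = ∑ h ∈ range (2 * K + 1), a ((h : ℤ) - K) * fourier ((h : ℤ) - K) t := by
    intro t
    rw [← ha]
    unfold Finsupp.sum
    rw [ContinuousMap.sum_apply]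
    have e1 : ∀ n : ℤ, (a n • (fourier n : C(UnitAddCircle, ℂ))) t = a n * fourier n t := fun n => rfl
    simp only [e1]
    have e2 : ∑ h ∈ range (2 * K + 1), a ((h : ℤ) - K) * fourier ((h : ℤ) - K) t =
        ∑ n ∈ Icc (-(K : ℤ)) K, a n * fourier n t := by
      refine sum_bij (fun h _ => (h : ℤ) - K) ?_ ?_ ?_ ?_
      · intro h hh
        rw [mem_range] at hh
        rw [mem_Icc]
        constructor <;> omega
      · intro h1 _ h2 _ h
        omega
      · intro n hn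
        rw [mem_Icc] at hn
        exact ⟨(n + K).toNat, by rw [mem_range]; omega, by omega⟩
      · intro h _
        rfl
    rw [e2]
    apply sum_subset
    · intro n hn
      rw [mem_Icc]
      have h0 := Finset.le_sup (f := Int.natAbs) hn
      omega
    · intro n _ hn
      rw [Finsupp.notMem_support_iff.1 hn, zero_mul]
  set c : ℕ → ℂ := fun h => a ((h : ℤ) - K) with hc
  have htp : ∀ t, tp c (2 * K + 1) t = fourier (K : ℤ) t * p t := by
    intro t
    unfold tp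
    rw [hpt, mul_sum]
    refine sum_congr rfl fun h _ => ?_
    have : fourier (h : ℤ) t = fourier (K : ℤ) t * fourier ((h : ℤ) - K) t := by
      rw [← fourier_add]
      congr 2
      ring
    rw [this, hc]
    ring
  have hn1 : ∀ (n : ℤ) (t : UnitAddCircle), ‖(fourier n t : ℂ)‖ = 1 := by
    intro n t
    rw [fourier_apply]
    exact Circle.norm_coe _
  refine ⟨K, c, ?_, ?_⟩
  · rw [← tp_haar]
    have e : ∀ t, ‖tp c (2 * K + 1) t‖ ^ 2 = ‖p t‖ ^ 2 := by
      intro t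
      rw [htp, norm_mul, hn1, one_mul]
    simp only [e]
    linarith
  · have e : ∀ t, ‖fourier (K : ℤ) t - tp c (2 * K + 1) t‖ ^ 2 = ‖1 - p t‖ ^ 2 := by
      intro t
      rw [htp]
      have : (fourier (K : ℤ) t : ℂ) - fourier (K : ℤ) t * p t = fourier (K : ℤ) t * (1 - p t) := by ring
      rw [this, norm_mul, hn1, one_mul]
    simp only [e]
    linarith

end Pool.Agent.X23.SS
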