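import Pool.Agent.X23.SS1
import Pool.Agent.Y842.CX.Vdc

/-!
Functions with singular spectral measure; windows of orbits against sequences without
autocorrelation (helper23).
-/

set_option autoImplicit false

open Finset Filter Topology MeasureTheory AddCircle

namespace Pool.Agent.X23.SS

/-- The spectral measure of `f` in the system `(X, κ, T)` is singular (with respect to Lebesgue
measure on the circle): for some finite singular measure `σ` on `ℝ/ℤ`,
`∫ f(T^n x) conj(f(x)) dκ(x) = ∫ e(n t) dσ(t)` for all `n ≥ 0`. -/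
def Sing {X : Type} [MeasurableSpace X] (T : X → X) (κ : Measure X) (f : X → ℂ) : Prop :=
  ∃ σ : Measure UnitAddCircle, IsFiniteMeasure σ ∧ σ ⟂ₘ (haarAddCircle : Measure UnitAddCircle) ∧
    ∀ n : ℕ, ∫ x, f (T^[n] x) * (starRingEnd ℂ) (f x) ∂κ = ∫ t, fourier (n : ℤ) t ∂σ

/-- the difference of `f ∘ T ^ K` and the combination with coefficients `c` -/
noncomputable def Df {X : Type} (T : X → X) (f : X → ℂ) (K : ℕ) (c : ℕ → ℂ) (x : X) : ℂ :=
  f (T^[K] x) - ∑ h ∈ range (2 * K + 1), c h * f (T^[h] x)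

section meas
variable {X : Type} [MetricSpace X] [CompactSpace X] [MeasurableSpace X] [BorelSpace X]

lemma int_cont (κ : Measure X) [IsFiniteMeasure κ] {g : X → ℂ} (hg : Continuous g) : Integrable g κ :=
  hg.integrable_of_hasCompactSupport (HasCompactSupport.of_compactSpace _)

lemma orb_sq (T : X → X) (hT : Continuous T) (κ : Measure X) [IsFiniteMeasure κ] (f : X → ℂ)
    (hf : Continuous f) (d : ℕ → ℂ) (R : ℕ) :
    ((∫ x, ‖∑ i ∈ range R, d i * f (T^[i] x)‖ ^ 2 ∂κ : ℝ) : ℂ) =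
      ∑ i ∈ range R, ∑ j ∈ range R, d i * (starRingEnd ℂ) (d j) *
        ∫ x, f (T^[i] x) * (starRingEnd ℂ) (f (T^[j] x)) ∂κ := by
  have hc : ∀ i, Continuous fun x => f (T^[i] x) := fun i => hf.comp (hT.iterate i)
  have hint : ∀ i j, Integrable (fun x => f (T^[i] x) * (starRingEnd ℂ) (f (T^[j] x))) κ := fun i j =>
    int_cont κ ((hc i).mul (Complex.continuous_conj.comp (hc j)))
  have e1 : ((∫ x, ‖∑ i ∈ range R, d i * f (T^[i] x)‖ ^ 2 ∂κ : ℝ) : ℂ) =
      ∫ x, ((‖∑ i ∈ range R, d i * f (T^[i] x)‖ ^ 2 : ℝ) : ℂ) ∂κ := integral_ofReal.symm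
  rw [e1]
  have e2 : ∀ x, ((‖∑ i ∈ range R, d i * f (T^[i] x)‖ ^ 2 : ℝ) : ℂ) =
      ∑ i ∈ range R, ∑ j ∈ range R, d i * (starRingEnd ℂ) (d j) *
        (f (T^[i] x) * (starRingEnd ℂ) (f (T^[j] x))) := by
    intro x
    have h1 : ((‖∑ i ∈ range R, d i * f (T^[i] x)‖ ^ 2 : ℝ) : ℂ) =
        (∑ i ∈ range R, d i * f (T^[i] x)) * (starRingEnd ℂ) (∑ i ∈ range R, d i * f (T^[i] x)) := by
      rw [Complex.mul_conj, Complex.normSq_eq_norm_sq]
    rw [h1, map_sum, sum_mul_sum]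
    refine sum_congr rfl fun i _ => sum_congr rfl fun j _ => ?_
    rw [map_mul]
    ring
  simp only [e2]
  rw [integral_finset_sum _ (fun i _ => integrable_finset_sum _ fun j _ => (hint _ _).const_mul _)]
  refine sum_congr rfl fun i _ => ?_
  rw [integral_finset_sum _ (fun j _ => (hint _ _).const_mul _)]
  refine sum_congr rfl fun j _ => ?_
  rw [integral_const_mul]

lemma corr_eq (T : X → X) (hT : Continuous T) (κ : Measure X) [IsFiniteMeasure κ]
    (hκ : MeasurePreserving T κ κ) (f : X → ℂ) (hf : Continuous f) (σ : Measure UnitAddCircle)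
    [IsFiniteMeasure σ]
    (hσ : ∀ n : ℕ, ∫ x, f (T^[n] x) * (starRingEnd ℂ) (f x) ∂κ = ∫ t, fourier (n : ℤ) t ∂σ) (i j : ℕ) :
    ∫ x, f (T^[i] x) * (starRingEnd ℂ) (f (T^[j] x)) ∂κ = ∫ t, fourier ((i : ℤ) - j) t ∂σ := by
  have hc : ∀ i, Continuous fun x => f (T^[i] x) := fun i => hf.comp (hT.iterate i)
  have key : ∀ a b : ℕ, ∫ x, f (T^[a + b] x) * (starRingEnd ℂ) (f (T^[b] x)) ∂κ =
      ∫ t, fourier (a : ℤ) t ∂σ := by
    intro a b
    rw [← hσ a]
    have hb := (hκ.iterate b)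
    have h1 := hb.map_eq
    have h2 : ∫ x, f (T^[a] x) * (starRingEnd ℂ) (f x) ∂κ =
        ∫ x, f (T^[a] x) * (starRingEnd ℂ) (f x) ∂(Measure.map (T^[b]) κ) := by rw [h1]
    rw [h2, integral_map hb.measurable.aemeasurable]
    · refine integral_congr_ae (Eventually.of_forall fun x => ?_)
      simp only [Function.iterate_add_apply]
    · exact ((hc a).mul (Complex.continuous_conj.comp hf)).aestronglyMeasurable
  rcases le_total j i with h | h
  · obtain ⟨a, rfl⟩ := Nat.exists_eq_add_of_le' h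
    rw [key a j]
    congr 1
    funext t
    congr 2
    push_cast
    ring
  · obtain ⟨a, rfl⟩ := Nat.exists_eq_add_of_le' h
    have h1 := congrArg (starRingEnd ℂ) (key a i)
    rw [← integral_conj, ← integral_conj] at h1
    calc ∫ x, f (T^[i] x) * (starRingEnd ℂ) (f (T^[a + i] x)) ∂κ =
        ∫ x, (starRingEnd ℂ) (f (T^[a + i] x) * (starRingEnd ℂ) (f (T^[i] x))) ∂κ := by
          congr 1
          funext x
          rw [map_mul, Complex.conj_conj, mul_comm]
      _ = ∫ t, (starRingEnd ℂ) (fourier (a : ℤ) t) ∂σ := h1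
      _ = _ := by
          congr 1
          funext t
          rw [← fourier_neg]
          congr 2
          push_cast
          ring

theorem sing_approx (T : X → X) (hT : Continuous T) (κ : Measure X) [IsFiniteMeasure κ]
    (hκ : MeasurePreserving T κ κ) (f : X → ℂ) (hf : Continuous f) (h : Sing T κ f) (ε : ℝ) (hε : 0 < ε) :
    ∃ (K : ℕ) (c : ℕ → ℂ), ∑ h ∈ range (2 * K + 1), ‖c h‖ ^ 2 ≤ ε ∧ ∫ x, ‖Df T f K c x‖ ^ 2 ∂κ ≤ ε := by
  obtain ⟨σ, hσf, hσs, hσ⟩ := h
  obtain ⟨K, c, h1, h2⟩ := approx_one σ hσs ε hε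
  refine ⟨K, c, h1, ?_⟩
  set d : ℕ → ℂ := fun i => (if i = K then 1 else 0) - c i with hd
  have hK : K ∈ range (2 * K + 1) := mem_range.2 (by omega)
  have e1 : ∀ x, Df T f K c x = ∑ i ∈ range (2 * K + 1), d i * f (T^[i] x) := by
    intro x
    unfold Df
    simp only [hd, sub_mul, ite_mul, one_mul, zero_mul, sum_sub_distrib, sum_ite_eq', if_pos hK]
  have e2 : ∀ t, fourier (K : ℤ) t - tp c (2 * K + 1) t = tp d (2 * K + 1) t := by
    intro t
    unfold tp
    simp only [hd, sub_mul, ite_mul, one_mul, zero_mul, sum_sub_distrib, sum_ite_eq', if_pos hK]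
  simp only [e2] at h2
  simp only [e1]
  have h3 := orb_sq T hT κ f hf d (2 * K + 1)
  have h4 := tp_sq σ d (2 * K + 1)
  have h5 : ((∫ x, ‖∑ i ∈ range (2 * K + 1), d i * f (T^[i] x)‖ ^ 2 ∂κ : ℝ) : ℂ) =
      ((∫ t, ‖tp d (2 * K + 1) t‖ ^ 2 ∂σ : ℝ) : ℂ) := by
    rw [h3, h4]
    refine sum_congr rfl fun i _ => sum_congr rfl fun j _ => ?_
    rw [corr_eq T hT κ hκ f hf σ hσ i j]
  have h6 : ∫ x, ‖∑ i ∈ range (2 * K + 1), d i * f (T^[i] x)‖ ^ 2 ∂κ = ∫ t, ‖tp d (2 * K + 1) t‖ ^ 2 ∂σ := by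
    exact_mod_cast h5
  rw [h6]
  exact h2

end meas

/-! ### windows -/

section win
variable {V : Type*} [NormedAddCommGroup V] [InnerProductSpace ℂ V]

lemma shift_err (φ : ℕ → V) (b : ℝ) (hφ : ∀ m, ‖φ m‖ ≤ b) (H s : ℕ) :
    ‖∑ m ∈ range H, φ (m + s) - ∑ m ∈ range H, φ m‖ ≤ 2 * s * b := by
  induction s with
  | zero => simp
  | succ s ih =>
    have h1 : ∑ m ∈ range H, φ (m + (s + 1)) = ∑ m ∈ range H, φ (m + s) + φ (H + s) - φ s := by
      have h2 := sum_range_succ (fun m => φ (m + s)) H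
      have h3 := sum_range_succ' (fun m => φ (m + s)) H
      rw [h2] at h3
      have h4 : ∑ m ∈ range H, φ (m + (s + 1)) = ∑ m ∈ range H, φ (m + 1 + s) :=
        sum_congr rfl fun m _ => by congr 1; ring
      rw [h4, eq_sub_iff_add_eq]
      simpa using h3.symm
    rw [h1]
    have h5 : ∑ m ∈ range H, φ (m + s) + φ (H + s) - φ s - ∑ m ∈ range H, φ m =
        (∑ m ∈ range H, φ (m + s) - ∑ m ∈ range H, φ m) + (φ (H + s) - φ s) := by abel
    rw [h5]
    refine (norm_add_le _ _).trans ?_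
    have h6 : ‖φ (H + s) - φ s‖ ≤ b + b := (norm_sub_le _ _).trans (add_le_add (hφ _) (hφ _))
    push_cast
    linarith

/-- the combination of the shifts of `v` -/
noncomputable def Vc (v : ℕ → V) (K : ℕ) (c : ℕ → ℂ) (n : ℕ) : V :=
  ∑ h ∈ range (2 * K + 1), c h • v (n + (3 * K - h))

lemma window {X : Type} (T : X → X) (f : X → ℂ) (B : ℝ) (hf : ∀ x, ‖f x‖ ≤ B) (v : ℕ → V)
    (hv : ∀ n, ‖v n‖ ≤ 1) (K : ℕ) (c : ℕ → ℂ) (x : X) (n H : ℕ) :
    ‖∑ m ∈ range H, f (T^[m] x) • v (n + m)‖ ≤ ∑ m ∈ range H, ‖Df T f K c (T^[m] x)‖ +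
      B * ∑ m ∈ range H, ‖Vc v K c (n + m)‖ +
      (2 * K * B + 4 * K * B * ∑ h ∈ range (2 * K + 1), ‖c h‖) := by
  have hB : 0 ≤ B := (norm_nonneg _).trans (hf x)
  have hb : ∀ (y : X) (m : ℕ), ‖f y • v m‖ ≤ B := by
    intro y m
    rw [norm_smul]
    calc ‖f y‖ * ‖v m‖ ≤ B * 1 := mul_le_mul (hf y) (hv m) (norm_nonneg _) hB
      _ = B := mul_one B
  -- first shift
  have h1 := shift_err (fun m => f (T^[m] x) • v (n + m)) B (fun m => hb _ _) H K
  -- decomposition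
  have h2 : ∑ m ∈ range H, f (T^[m + K] x) • v (n + (m + K)) =
      ∑ m ∈ range H, Df T f K c (T^[m] x) • v (n + (m + K)) +
      ∑ h ∈ range (2 * K + 1), c h • ∑ m ∈ range H, f (T^[m + h] x) • v (n + (m + K)) := by
    simp only [smul_sum]
    rw [sum_comm (s := range (2 * K + 1)), ← sum_add_distrib]
    refine sum_congr rfl fun m _ => ?_
    have e1 : f (T^[m + K] x) = Df T f K c (T^[m] x) + ∑ h ∈ range (2 * K + 1), c h * f (T^[m + h] x) := by
      unfold Df
      simp only [← Function.iterate_add_apply]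
      rw [add_comm m K]
      have : ∀ h, T^[h + m] x = T^[m + h] x := fun h => by rw [add_comm]
      simp only [this]
      ring
    rw [e1, add_smul, sum_smul]
    congr 1
    refine sum_congr rfl fun h _ => ?_
    rw [smul_smul]
  -- the other shifts
  have h3 : ∀ h ∈ range (2 * K + 1), ‖∑ m ∈ range H, f (T^[m + h] x) • v (n + (m + K)) -
      ∑ m ∈ range H, f (T^[m + 2 * K] x) • v (n + m + (3 * K - h))‖ ≤ 4 * K * B := by
    intro h hh
    rw [mem_range] at hh
    have h4 := shift_err (fun m => f (T^[m + h] x) • v (n + (m + K))) B (fun m => hb _ _) H (2 * K - h)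
    have e1 : ∑ m ∈ range H, f (T^[m + (2 * K - h) + h] x) • v (n + (m + (2 * K - h) + K)) =
        ∑ m ∈ range H, f (T^[m + 2 * K] x) • v (n + m + (3 * K - h)) := by
      refine sum_congr rfl fun m _ => ?_
      rw [show m + (2 * K - h) + h = m + 2 * K by omega,
        show n + (m + (2 * K - h) + K) = n + m + (3 * K - h) by omega]
    rw [e1, norm_sub_rev] at h4
    refine h4.trans ?_
    have : ((2 * K - h : ℕ) : ℝ) ≤ 2 * K := by exact_mod_cast (by omega : 2 * K - h ≤ 2 * K)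
    nlinarith
  have h5 : ∑ h ∈ range (2 * K + 1), c h • ∑ m ∈ range H, f (T^[m + 2 * K] x) • v (n + m + (3 * K - h)) =
      ∑ m ∈ range H, f (T^[m + 2 * K] x) • Vc v K c (n + m) := by
    simp only [smul_sum, Vc]
    rw [sum_comm]
    refine sum_congr rfl fun m _ => sum_congr rfl fun h _ => ?_
    rw [smul_comm]
  have h6 : ‖∑ h ∈ range (2 * K + 1), c h • ∑ m ∈ range H, f (T^[m + h] x) • v (n + (m + K)) -
      ∑ m ∈ range H, f (T^[m + 2 * K] x) • Vc v K c (n + m)‖ ≤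
      4 * K * B * ∑ h ∈ range (2 * K + 1), ‖c h‖ := by
    rw [← h5, ← sum_sub_distrib]
    refine (norm_sum_le _ _).trans ?_
    rw [mul_sum]
    refine sum_le_sum fun h hh => ?_
    rw [← smul_sub, norm_smul, mul_comm]
    exact mul_le_mul_of_nonneg_right (h3 h hh) (norm_nonneg _)
  have h7 : ‖∑ m ∈ range H, Df T f K c (T^[m] x) • v (n + (m + K))‖ ≤ ∑ m ∈ range H, ‖Df T f K c (T^[m] x)‖ := by
    refine (norm_sum_le _ _).trans (sum_le_sum fun m _ => ?_)
    rw [norm_smul]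
    calc _ ≤ ‖Df T f K c (T^[m] x)‖ * 1 := mul_le_mul_of_nonneg_left (hv _) (norm_nonneg _)
      _ = _ := mul_one _
  have h8 : ‖∑ m ∈ range H, f (T^[m + 2 * K] x) • Vc v K c (n + m)‖ ≤ B * ∑ m ∈ range H, ‖Vc v K c (n + m)‖ := by
    refine (norm_sum_le _ _).trans ?_
    rw [mul_sum]
    refine sum_le_sum fun m _ => ?_
    rw [norm_smul]
    exact mul_le_mul_of_nonneg_right (hf _) (norm_nonneg _)
  have e : ∑ m ∈ range H, f (T^[m] x) • v (n + m) =
      -(∑ m ∈ range H, f (T^[m + K] x) • v (n + (m + K)) - ∑ m ∈ range H, f (T^[m] x) • v (n + m)) +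
      (∑ m ∈ range H, Df T f K c (T^[m] x) • v (n + (m + K)) +
        ((∑ h ∈ range (2 * K + 1), c h • ∑ m ∈ range H, f (T^[m + h] x) • v (n + (m + K)) -
          ∑ m ∈ range H, f (T^[m + 2 * K] x) • Vc v K c (n + m)) +
        ∑ m ∈ range H, f (T^[m + 2 * K] x) • Vc v K c (n + m))) := by
    rw [h2]
    abel
  rw [e]
  refine (norm_add_le _ _).trans ?_
  rw [norm_neg]
  have h9 := norm_add_le (∑ m ∈ range H, Df T f K c (T^[m] x) • v (n + (m + K)))
    ((∑ h ∈ range (2 * K + 1), c h • ∑ m ∈ range H, f (T^[m + h] x) • v (n + (m + K)) -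
          ∑ m ∈ range H, f (T^[m + 2 * K] x) • Vc v K c (n + m)) +
        ∑ m ∈ range H, f (T^[m + 2 * K] x) • Vc v K c (n + m))
  have h10 := norm_add_le (∑ h ∈ range (2 * K + 1), c h • ∑ m ∈ range H, f (T^[m + h] x) • v (n + (m + K)) -
          ∑ m ∈ range H, f (T^[m + 2 * K] x) • Vc v K c (n + m))
        (∑ m ∈ range H, f (T^[m + 2 * K] x) • Vc v K c (n + m))
  linarith

end win

end Pool.Agent.X23.SS
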