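import Pool.Agent.X23.SS2

/-!
Orbits of functions with singular spectral measure against sequences without autocorrelation:
the second moment and the limit (helper23).
-/

set_option autoImplicit false

open Finset Filter Topology MeasureTheory AddCircle

namespace Pool.Agent.X23.SS

open Pool.Agent.Y842.CX (Wt L cr)

section vv
variable {V : Type*} [NormedAddCommGroup V] [InnerProductSpace ℂ V] {w : ℕ → ℝ} {M : ℕ} {τ : ℝ}

/-- autocorrelations at a displaced place -/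
lemma corr_disp (hw : Wt w M 1 τ) (v : ℕ → V) (hv : ∀ n, ‖v n‖ ≤ 1) (η : ℝ) (R : ℕ)
    (hη : ∀ k ∈ Ico 1 R, ‖L w M (cr v k)‖ ≤ η) (a b S : ℕ) (hab : a < b) (hb : b - a < R) (ha : a ≤ S) :
    ‖∑ n ∈ range M, (w n : ℂ) * inner ℂ (v (n + a)) (v (n + b))‖ ≤ η + S * τ := by
  have hτ := hw.τ_nonneg
  have h1 := Pool.Agent.Y842.CX.L_shift hw (cr v (b - a)) 1 (Pool.Agent.Y842.CX.cr_le v hv _) a
  have h2 := hη (b - a) (mem_Ico.2 ⟨by omega, hb⟩)
  have e1 : L w M (fun n => cr v (b - a) (n + a)) =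
      ∑ n ∈ range M, (w n : ℂ) * inner ℂ (v (n + a)) (v (n + b)) := by
    unfold L cr
    refine sum_congr rfl fun n _ => ?_
    rw [smul_eq_mul]
    show (w n : ℂ) * inner ℂ (v (n + a)) (v (n + a + (b - a))) = _
    rw [show n + a + (b - a) = n + b by omega]
  rw [← e1]
  have h3 := norm_le_norm_add_norm_sub' (L w M (fun n => cr v (b - a) (n + a))) (L w M (cr v (b - a)))
  have h4 : (a : ℝ) * (τ * 1) ≤ S * τ := by
    rw [mul_one]
    exact mul_le_mul_of_nonneg_right (by exact_mod_cast ha) hτ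
  linarith

/-- the second moment of the combination of shifts -/
lemma Vc_sq (hw : Wt w M 1 τ) (v : ℕ → V) (hv : ∀ n, ‖v n‖ ≤ 1) (η : ℝ) (hη0 : 0 ≤ η) (K : ℕ)
    (hη : ∀ k ∈ Ico 1 (2 * K + 1), ‖L w M (cr v k)‖ ≤ η) (c : ℕ → ℂ) (q : ℕ) :
    ∑ n ∈ range M, w n * ‖Vc v K c (n + q)‖ ^ 2 ≤ ∑ h ∈ range (2 * K + 1), ‖c h‖ ^ 2 +
      (∑ h ∈ range (2 * K + 1), ‖c h‖) ^ 2 * (η + (3 * K + q : ℕ) * τ) := by
  have hτ := hw.τ_nonneg
  set R := 2 * K + 1 with hR
  set ζ : ℝ := η + (3 * K + q : ℕ) * τ with hζ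
  have hζ0 : 0 ≤ ζ := by positivity
  have h1 : ((∑ n ∈ range M, w n * ‖Vc v K c (n + q)‖ ^ 2 : ℝ) : ℂ) =
      ∑ h ∈ range R, ∑ h' ∈ range R, (starRingEnd ℂ) (c h) * c h' *
        ∑ n ∈ range M, (w n : ℂ) * inner ℂ (v (n + (q + (3 * K - h)))) (v (n + (q + (3 * K - h')))) := by
    push_cast
    have e1 : ∀ n, (w n : ℂ) * (‖Vc v K c (n + q)‖ : ℂ) ^ 2 = ∑ h ∈ range R, ∑ h' ∈ range R,
        (starRingEnd ℂ) (c h) * c h' * ((w n : ℂ) * inner ℂ (v (n + (q + (3 * K - h)))) (v (n + (q + (3 * K - h'))))) := by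
      intro n
      have e2 : (‖Vc v K c (n + q)‖ : ℂ) ^ 2 = inner ℂ (Vc v K c (n + q)) (Vc v K c (n + q)) := by
        rw [inner_self_eq_norm_sq_to_K]
        norm_cast
      rw [e2]
      unfold Vc
      rw [sum_inner, mul_sum]
      refine sum_congr rfl fun h _ => ?_
      rw [inner_sum, mul_sum]
      refine sum_congr rfl fun h' _ => ?_
      rw [inner_smul_left, inner_smul_right, add_assoc n q, add_assoc n q]
      ring
    simp only [e1]
    rw [sum_comm]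
    refine sum_congr rfl fun h _ => ?_
    rw [sum_comm]
    refine sum_congr rfl fun h' _ => ?_
    rw [mul_sum]
  have h2 : ∀ h ∈ range R, ∀ h' ∈ range R,
      ‖∑ n ∈ range M, (w n : ℂ) * inner ℂ (v (n + (q + (3 * K - h)))) (v (n + (q + (3 * K - h'))))‖ ≤
        (if h = h' then 1 else 0) + ζ := by
    intro h hh h' hh'
    rw [mem_range] at hh hh'
    rcases lt_trichotomy h h' with h3 | h3 | h3
    · rw [if_neg h3.ne, zero_add]
      have h4 := corr_disp hw v hv η R hη (q + (3 * K - h')) (q + (3 * K - h)) (3 * K + q) (by omega) (by omega)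
        (by omega)
      rw [← Complex.norm_conj, map_sum]
      refine le_trans (le_of_eq ?_) h4
      congr 1
      refine sum_congr rfl fun n _ => ?_
      rw [map_mul, Complex.conj_ofReal, inner_conj_symm]
    · rw [if_pos h3, h3]
      have h5 : ‖∑ n ∈ range M, (w n : ℂ) * inner ℂ (v (n + (q + (3 * K - h')))) (v (n + (q + (3 * K - h'))))‖ ≤
          ∑ n ∈ range M, w n := by
        refine (norm_sum_le _ _).trans (sum_le_sum fun n _ => ?_)
        rw [norm_mul, Complex.norm_real, Real.norm_of_nonneg (hw.nn n)]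
        calc w n * _ ≤ w n * 1 := by
              apply mul_le_mul_of_nonneg_left _ (hw.nn n)
              refine (norm_inner_le_norm _ _).trans ?_
              exact mul_le_one₀ (hv _) (norm_nonneg _) (hv _)
          _ = w n := mul_one _
      have := hw.tot
      linarith
    · rw [if_neg h3.ne', zero_add]
      exact corr_disp hw v hv η R hη (q + (3 * K - h)) (q + (3 * K - h')) (3 * K + q) (by omega) (by omega)
        (by omega)
  have h3 : ∑ n ∈ range M, w n * ‖Vc v K c (n + q)‖ ^ 2 ≤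
      ‖((∑ n ∈ range M, w n * ‖Vc v K c (n + q)‖ ^ 2 : ℝ) : ℂ)‖ := by
    rw [Complex.norm_real]
    exact le_abs_self _
  refine h3.trans ?_
  rw [h1]
  calc _ ≤ ∑ h ∈ range R, ∑ h' ∈ range R, ‖c h‖ * ‖c h'‖ * ((if h = h' then 1 else 0) + ζ) := by
        refine (norm_sum_le _ _).trans (sum_le_sum fun h hh => (norm_sum_le _ _).trans (sum_le_sum fun h' hh' => ?_))
        rw [norm_mul, norm_mul, Complex.norm_conj]
        exact mul_le_mul_of_nonneg_left (h2 h hh h' hh') (by positivity)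
    _ = ∑ h ∈ range R, ‖c h‖ ^ 2 + (∑ h ∈ range R, ‖c h‖) ^ 2 * ζ := by
        rw [sq (∑ h ∈ range R, ‖c h‖), sum_mul_sum, sum_mul, ← sum_add_distrib]
        refine sum_congr rfl fun h hh => ?_
        rw [sum_mul]
        simp only [mul_add, sum_add_distrib, mul_ite, mul_one, mul_zero, sum_ite_eq, if_pos hh]
        ring

/-- Cauchy-Schwarz for averages -/
lemma cs_avg {ι : Type*} (s : Finset ι) (p : ι → ℝ) (hp : ∀ i ∈ s, 0 ≤ p i) (hp1 : ∑ i ∈ s, p i ≤ 1) (g : ι → ℝ) :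
    ∑ i ∈ s, p i * g i ≤ Real.sqrt (∑ i ∈ s, p i * g i ^ 2) := by
  apply Real.le_sqrt_of_sq_le
  have e1 := sum_mul_sq_le_sq_mul_sq s (fun i => Real.sqrt (p i)) (fun i => Real.sqrt (p i) * g i)
  have e2 : ∑ i ∈ s, Real.sqrt (p i) * (Real.sqrt (p i) * g i) = ∑ i ∈ s, p i * g i :=
    sum_congr rfl fun i hi => by rw [← mul_assoc, Real.mul_self_sqrt (hp i hi)]
  have e3 : ∑ i ∈ s, Real.sqrt (p i) ^ 2 = ∑ i ∈ s, p i := sum_congr rfl fun i hi => Real.sq_sqrt (hp i hi)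
  have e4 : ∑ i ∈ s, (Real.sqrt (p i) * g i) ^ 2 = ∑ i ∈ s, p i * g i ^ 2 :=
    sum_congr rfl fun i hi => by rw [mul_pow, Real.sq_sqrt (hp i hi)]
  rw [e2, e3, e4] at e1
  refine e1.trans ?_
  have : 0 ≤ ∑ i ∈ s, p i * g i ^ 2 := sum_nonneg fun i hi => mul_nonneg (hp i hi) (sq_nonneg _)
  nlinarith

/-- the mean of `g` over the windows of length `H` of the orbits of the points `x n` -/
noncomputable def av {X : Type} (T : X → X) (w : ℕ → ℝ) (M H : ℕ) (x : ℕ → X) (g : X → ℝ) : ℝ :=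
  ∑ n ∈ range M, ∑ m ∈ range H, (w n / H) * g (T^[m] (x n))

/-- the mean size of the windows -/
noncomputable def Qw {X : Type} (T : X → X) (f : X → ℂ) (v : ℕ → V) (w : ℕ → ℝ) (M H : ℕ) (x : ℕ → X) : ℝ :=
  (∑ n ∈ range M, w n * ‖∑ m ∈ range H, f (T^[m] (x n)) • v (n + m)‖) / H

theorem main_bound {X : Type} (T : X → X) (f : X → ℂ) (B : ℝ) (hf : ∀ x, ‖f x‖ ≤ B) (v : ℕ → V)
    (hv : ∀ n, ‖v n‖ ≤ 1) (hw : Wt w M 1 τ) (K : ℕ) (c : ℕ → ℂ) (η : ℝ) (hη0 : 0 ≤ η)
    (hη : ∀ k ∈ Ico 1 (2 * K + 1), ‖L w M (cr v k)‖ ≤ η) (x : ℕ → X) (H : ℕ) (hH : 1 ≤ H) :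
    Qw T f v w M H x ≤ Real.sqrt (av T w M H x (fun y => ‖Df T f K c y‖ ^ 2)) +
      B * Real.sqrt (∑ h ∈ range (2 * K + 1), ‖c h‖ ^ 2 +
        (∑ h ∈ range (2 * K + 1), ‖c h‖) ^ 2 * (η + (3 * K + H : ℕ) * τ)) +
      (2 * K * B + 4 * K * B * ∑ h ∈ range (2 * K + 1), ‖c h‖) / H := by
  have hB : 0 ≤ B := (norm_nonneg _).trans (hf (x 0))
  have hτ := hw.τ_nonneg
  have hH0 : (0 : ℝ) < H := by exact_mod_cast hH
  set E : ℝ := 2 * K * B + 4 * K * B * ∑ h ∈ range (2 * K + 1), ‖c h‖ with hE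
  have hE0 : 0 ≤ E := by
    have : 0 ≤ ∑ h ∈ range (2 * K + 1), ‖c h‖ := sum_nonneg fun _ _ => norm_nonneg _
    positivity
  set Z : ℝ := ∑ h ∈ range (2 * K + 1), ‖c h‖ ^ 2 +
        (∑ h ∈ range (2 * K + 1), ‖c h‖) ^ 2 * (η + (3 * K + H : ℕ) * τ) with hZ
  -- the windows
  have h1 : ∑ n ∈ range M, w n * ‖∑ m ∈ range H, f (T^[m] (x n)) • v (n + m)‖ ≤
      ∑ n ∈ range M, w n * ∑ m ∈ range H, ‖Df T f K c (T^[m] (x n))‖ +
      B * (∑ m ∈ range H, ∑ n ∈ range M, w n * ‖Vc v K c (n + m)‖) + E := by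
    have h2 : ∑ n ∈ range M, w n * ‖∑ m ∈ range H, f (T^[m] (x n)) • v (n + m)‖ ≤
        ∑ n ∈ range M, w n * (∑ m ∈ range H, ‖Df T f K c (T^[m] (x n))‖ +
          B * ∑ m ∈ range H, ‖Vc v K c (n + m)‖ + E) :=
      sum_le_sum fun n _ => mul_le_mul_of_nonneg_left (window T f B hf v hv K c (x n) n H) (hw.nn n)
    refine h2.trans ?_
    have e1 : ∑ n ∈ range M, w n * (∑ m ∈ range H, ‖Df T f K c (T^[m] (x n))‖ +
          B * ∑ m ∈ range H, ‖Vc v K c (n + m)‖ + E) =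
        ∑ n ∈ range M, w n * ∑ m ∈ range H, ‖Df T f K c (T^[m] (x n))‖ +
        B * (∑ m ∈ range H, ∑ n ∈ range M, w n * ‖Vc v K c (n + m)‖) + (∑ n ∈ range M, w n) * E := by
      rw [sum_comm (s := range H), mul_sum, sum_mul, ← sum_add_distrib, ← sum_add_distrib]
      refine sum_congr rfl fun n _ => ?_
      rw [mul_sum (range H) (fun m => w n * ‖Vc v K c (n + m)‖), mul_add, mul_add, mul_sum (range H) _ B]
      congr 2
      rw [mul_sum]
      refine sum_congr rfl fun m _ => ?_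
      ring
    rw [e1]
    have := mul_le_mul_of_nonneg_right hw.tot hE0
    linarith
  -- first term
  have h3 : (∑ n ∈ range M, w n * ∑ m ∈ range H, ‖Df T f K c (T^[m] (x n))‖) / H ≤
      Real.sqrt (av T w M H x (fun y => ‖Df T f K c y‖ ^ 2)) := by
    have e1 : (∑ n ∈ range M, w n * ∑ m ∈ range H, ‖Df T f K c (T^[m] (x n))‖) / H =
        ∑ i ∈ range M ×ˢ range H, (w i.1 / H) * ‖Df T f K c (T^[i.2] (x i.1))‖ := by
      rw [sum_product, sum_div]
      refine sum_congr rfl fun n _ => ?_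
      rw [mul_sum, sum_div]
      exact sum_congr rfl fun m _ => by ring
    have e2 : av T w M H x (fun y => ‖Df T f K c y‖ ^ 2) =
        ∑ i ∈ range M ×ˢ range H, (w i.1 / H) * ‖Df T f K c (T^[i.2] (x i.1))‖ ^ 2 := by
      unfold av
      rw [sum_product]
    rw [e1, e2]
    apply cs_avg (range M ×ˢ range H) (fun i => w i.1 / H) (fun i _ => div_nonneg (hw.nn _) hH0.le)
    rw [sum_product]
    simp only [sum_const, card_range, nsmul_eq_mul]
    have e3 : ∀ n, (H : ℝ) * (w n / H) = w n := fun n => by field_simp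
    simp only [e3]
    exact hw.tot
  -- second term
  have h4 : (∑ m ∈ range H, ∑ n ∈ range M, w n * ‖Vc v K c (n + m)‖) / H ≤ Real.sqrt Z := by
    rw [div_le_iff₀ hH0]
    calc ∑ m ∈ range H, ∑ n ∈ range M, w n * ‖Vc v K c (n + m)‖ ≤ ∑ m ∈ range H, Real.sqrt Z := by
          refine sum_le_sum fun m hm => ?_
          refine (cs_avg (range M) w (fun n _ => hw.nn n) hw.tot (fun n => ‖Vc v K c (n + m)‖)).trans ?_
          apply Real.sqrt_le_sqrt
          refine (Vc_sq hw v hv η hη0 K hη c m).trans ?_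
          rw [hZ]
          have : ((3 * K + m : ℕ) : ℝ) * τ ≤ (3 * K + H : ℕ) * τ := by
            apply mul_le_mul_of_nonneg_right _ hτ
            exact_mod_cast (by rw [mem_range] at hm; omega : 3 * K + m ≤ 3 * K + H)
          have h5 : 0 ≤ (∑ h ∈ range (2 * K + 1), ‖c h‖) ^ 2 := sq_nonneg _
          nlinarith
      _ = Real.sqrt Z * H := by
          rw [sum_const, card_range, nsmul_eq_mul, mul_comm]
  unfold Qw
  have h5 := div_le_div_of_nonneg_right h1 hH0.le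
  refine h5.trans ?_
  rw [add_div, add_div, mul_div_assoc]
  have h6 := mul_le_mul_of_nonneg_left h4 hB
  linarith

end vv

end Pool.Agent.X23.SS
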