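import Pool.Agent.X23.SS3

/-!
Orbits of functions with singular spectral measure against sequences without autocorrelation:
the limit (helper23).
-/

set_option autoImplicit false

open Finset Filter Topology MeasureTheory AddCircle
open scoped BoundedContinuousFunction

namespace Pool.Agent.X23.SS

open Pool.Agent.Y842.CX (Wt L cr)

section
variable {X : Type} [MetricSpace X] [CompactSpace X] [MeasurableSpace X] [BorelSpace X]

/-- the measure of the windows -/
noncomputable def Pm (T : X → X) (w : ℕ → ℝ) (M H : ℕ) (x : ℕ → X) : Measure X :=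
  ∑ n ∈ range M, ∑ m ∈ range H, ENNReal.ofReal (w n / H) • Measure.dirac (T^[m] (x n))

lemma Pm_prob (T : X → X) {w : ℕ → ℝ} {M H : ℕ} (x : ℕ → X) {τ : ℝ} (hw : Wt w M 1 τ)
    (h1 : ∑ n ∈ range M, w n = 1) (hH : 1 ≤ H) : IsProbabilityMeasure (Pm T w M H x) := by
  have hH0 : (0 : ℝ) < H := by exact_mod_cast hH
  constructor
  unfold Pm
  simp only [Measure.finset_sum_apply, Measure.smul_apply, measure_univ, smul_eq_mul, mul_one, sum_const,
    card_range, nsmul_eq_mul]
  have e1 : ∀ n, (H : ENNReal) * ENNReal.ofReal (w n / H) = ENNReal.ofReal (w n) := by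
    intro n
    rw [← ENNReal.ofReal_natCast, ← ENNReal.ofReal_mul (Nat.cast_nonneg _)]
    congr 1
    field_simp
  simp only [e1]
  rw [← ENNReal.ofReal_sum_of_nonneg (fun n _ => hw.nn n), h1, ENNReal.ofReal_one]

lemma Pm_int (T : X → X) {w : ℕ → ℝ} {M H : ℕ} (x : ℕ → X) {τ : ℝ} (hw : Wt w M 1 τ)
    {g : X → ℝ} (hg : Continuous g) : ∫ y, g y ∂(Pm T w M H x) = av T w M H x g := by
  unfold Pm av
  have hi : ∀ (n m : ℕ), Integrable g (ENNReal.ofReal (w n / H) • Measure.dirac (T^[m] (x n))) := by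
    intro n m
    have : IsFiniteMeasure (ENNReal.ofReal (w n / H) • Measure.dirac (T^[m] (x n)) : Measure X) :=
      Measure.smul_finite _ ENNReal.ofReal_ne_top
    exact hg.integrable_of_hasCompactSupport (HasCompactSupport.of_compactSpace _)
  rw [integral_finset_sum_measure]
  · refine sum_congr rfl fun n _ => ?_
    rw [integral_finset_sum_measure (fun m _ => hi n m)]
    refine sum_congr rfl fun m _ => ?_
    rw [integral_smul_measure, integral_dirac, ENNReal.toReal_ofReal, smul_eq_mul]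
    exact div_nonneg (hw.nn n) (Nat.cast_nonneg _)
  · intro n _
    rw [integrable_finset_sum_measure]
    exact fun m _ => hi n m

lemma av_inv (T : X → X) {w : ℕ → ℝ} {M H : ℕ} (x : ℕ → X) {τ : ℝ} (hw : Wt w M 1 τ) (hH : 1 ≤ H)
    {g : X → ℝ} {b : ℝ} (hg : ∀ y, |g y| ≤ b) :
    |av T w M H x (fun y => g (T y)) - av T w M H x g| ≤ 2 * b / H := by
  have hH0 : (0 : ℝ) < H := by exact_mod_cast hH
  have hb : 0 ≤ b := (abs_nonneg _).trans (hg (x 0))
  unfold av
  rw [← sum_sub_distrib]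
  have e1 : ∀ n, ∑ m ∈ range H, (w n / H) * g (T (T^[m] (x n))) - ∑ m ∈ range H, (w n / H) * g (T^[m] (x n)) =
      (w n / H) * (g (T^[H] (x n)) - g (x n)) := by
    intro n
    rw [← mul_sum, ← mul_sum, ← mul_sub]
    congr 1
    have e2 : ∀ m, g (T (T^[m] (x n))) = g (T^[m + 1] (x n)) := fun m => by
      rw [Function.iterate_succ_apply']
    simp only [e2]
    rw [← sum_sub_distrib, sum_range_sub (fun m => g (T^[m] (x n)))]
    rfl
  simp only [e1]
  refine (abs_sum_le_sum_abs _ _).trans ?_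
  calc ∑ n ∈ range M, |(w n / H) * (g (T^[H] (x n)) - g (x n))| ≤ ∑ n ∈ range M, w n * (2 * b / H) := by
        refine sum_le_sum fun n _ => ?_
        rw [abs_mul, abs_of_nonneg (div_nonneg (hw.nn n) hH0.le)]
        have : |g (T^[H] (x n)) - g (x n)| ≤ b + b := (abs_sub _ _).trans (add_le_add (hg _) (hg _))
        calc w n / H * |g (T^[H] (x n)) - g (x n)| ≤ w n / H * (b + b) :=
              mul_le_mul_of_nonneg_left this (div_nonneg (hw.nn n) hH0.le)
          _ = w n * (2 * b / H) := by ring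
    _ = (∑ n ∈ range M, w n) * (2 * b / H) := by rw [sum_mul]
    _ ≤ 1 * (2 * b / H) := mul_le_mul_of_nonneg_right hw.tot (by positivity)
    _ = _ := one_mul _

lemma Df_cont (T : X → X) (hT : Continuous T) (f : X → ℂ) (hf : Continuous f) (K : ℕ) (c : ℕ → ℂ) :
    Continuous (Df T f K c) := by
  unfold Df
  have hc : ∀ i, Continuous fun x => f (T^[i] x) := fun i => hf.comp (hT.iterate i)
  exact (hc K).sub (continuous_finset_sum _ fun h _ => continuous_const.mul (hc h))

/-- **the limit** -/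
theorem seq_lim {V : Type*} [NormedAddCommGroup V] [InnerProductSpace ℂ V] (T : X → X) (hT : Continuous T)
    (f : X → ℂ) (hf : Continuous f) (B : ℝ) (hB : ∀ x, ‖f x‖ ≤ B)
    (hS : ∀ κ : Measure X, IsProbabilityMeasure κ → MeasurePreserving T κ κ → Sing T κ f)
    (w : ℕ → ℕ → ℝ) (M H : ℕ → ℕ) (τ : ℕ → ℝ) (v : ℕ → ℕ → V) (x : ℕ → ℕ → X)
    (hw : ∀ j, Wt (w j) (M j) 1 (τ j)) (hone : ∀ j, ∑ n ∈ range (M j), w j n = 1) (hH1 : ∀ j, 1 ≤ H j)
    (hH : Tendsto H atTop atTop) (hτ : Tendsto (fun j => (H j : ℝ) * τ j) atTop (𝓝 0))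
    (hv : ∀ j n, ‖v j n‖ ≤ 1)
    (hc : ∀ k : ℕ, 1 ≤ k → Tendsto (fun j => ‖L (w j) (M j) (cr (v j) k)‖) atTop (𝓝 0)) :
    Tendsto (fun j => Qw T f (v j) (w j) (M j) (H j) (x j)) atTop (𝓝 0) := by
  rw [tendsto_iff_ultrafilter]
  intro 𝒰 h𝒰
  have hB0 : 0 ≤ B := (norm_nonneg _).trans (hB (x 0 0))
  -- the limit measure
  set P : ℕ → ProbabilityMeasure X := fun j => ⟨Pm T (w j) (M j) (H j) (x j),
    Pm_prob T (x j) (hw j) (hone j) (hH1 j)⟩ with hP
  have : Nonempty (ProbabilityMeasure X) := ⟨P 0⟩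
  set κ : ProbabilityMeasure X := (𝒰.map P).lim with hκ
  have hlim : Tendsto P 𝒰 (𝓝 κ) := (𝒰.map P).le_nhds_lim
  rw [ProbabilityMeasure.tendsto_iff_forall_integral_tendsto] at hlim
  have hlim' : ∀ g : X → ℝ, Continuous g → Tendsto (fun j => av T (w j) (M j) (H j) (x j) g) 𝒰
      (𝓝 (∫ y, g y ∂(κ : Measure X))) := by
    intro g hg
    have h1 := hlim (BoundedContinuousFunction.mkOfCompact ⟨g, hg⟩)
    refine h1.congr fun j => ?_
    exact Pm_int T (x j) (hw j) hg
  have hHr : Tendsto (fun j => (H j : ℝ)) 𝒰 atTop :=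
    (tendsto_natCast_atTop_atTop.comp hH).mono_left h𝒰
  -- invariance
  have hinv : MeasurePreserving T (κ : Measure X) (κ : Measure X) := by
    refine ⟨hT.measurable, ?_⟩
    have : IsProbabilityMeasure (Measure.map T (κ : Measure X)) :=
      Measure.isProbabilityMeasure_map hT.measurable.aemeasurable
    apply ext_of_forall_integral_eq_of_IsFiniteMeasure
    intro g
    rw [integral_map hT.measurable.aemeasurable g.continuous.aestronglyMeasurable]
    have h1 := hlim' (fun y => g (T y)) (g.continuous.comp hT)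
    have h2 := hlim' g g.continuous
    have h3 : Tendsto (fun j => av T (w j) (M j) (H j) (x j) (fun y => g (T y)) -
        av T (w j) (M j) (H j) (x j) g) 𝒰 (𝓝 0) := by
      apply squeeze_zero_norm (a := fun j => 2 * ‖g‖ / H j)
      · intro j
        rw [Real.norm_eq_abs]
        exact av_inv T (x j) (hw j) (hH1 j) (fun y => by
          rw [← Real.norm_eq_abs]
          exact g.norm_coe_le_norm y)
      · exact tendsto_const_nhds.div_atTop hHr
    have h4 := tendsto_nhds_unique h3 (h1.sub h2)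
    linarith
  have hsing := hS (κ : Measure X) inferInstance hinv
  rw [Metric.tendsto_nhds]
  intro ε hε
  set δ : ℝ := (ε / (2 * (1 + B))) ^ 2 with hδ
  have hδ0 : 0 < δ := by positivity
  obtain ⟨K, c, h1, h2⟩ := sing_approx T hT (κ : Measure X) hinv f hf hsing δ hδ0
  set A : ℝ := ∑ h ∈ range (2 * K + 1), ‖c h‖ with hA
  set η : ℕ → ℝ := fun j => ∑ k ∈ Ico 1 (2 * K + 1), ‖L (w j) (M j) (cr (v j) k)‖ with hη
  have hη0 : ∀ j, 0 ≤ η j := fun j => sum_nonneg fun _ _ => norm_nonneg _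
  have hηl : Tendsto η 𝒰 (𝓝 0) := by
    have : Tendsto η atTop (𝓝 (∑ k ∈ Ico 1 (2 * K + 1), (0 : ℝ))) :=
      tendsto_finset_sum _ fun k hk => hc k (mem_Ico.1 hk).1
    simp only [sum_const_zero] at this
    exact this.mono_left h𝒰
  have hbound : ∀ j, Qw T f (v j) (w j) (M j) (H j) (x j) ≤
      Real.sqrt (av T (w j) (M j) (H j) (x j) (fun y => ‖Df T f K c y‖ ^ 2)) +
      B * Real.sqrt (∑ h ∈ range (2 * K + 1), ‖c h‖ ^ 2 + A ^ 2 * (η j + (3 * K + H j : ℕ) * τ j)) +
      (2 * K * B + 4 * K * B * A) / H j := fun j =>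
    main_bound T f B hB (v j) (hv j) (hw j) K c (η j) (hη0 j) (fun k hk =>
      single_le_sum (f := fun k => ‖L (w j) (M j) (cr (v j) k)‖) (fun _ _ => norm_nonneg _) hk) (x j) (H j) (hH1 j)
  have hτ0 : Tendsto τ atTop (𝓝 0) := by
    apply squeeze_zero' (Eventually.of_forall fun j => (hw j).τ_nonneg) _ hτ
    refine Eventually.of_forall fun j => ?_
    have : (1 : ℝ) ≤ H j := by exact_mod_cast hH1 j
    have h3 := (hw j).τ_nonneg
    nlinarith
  have hτ1 : Tendsto (fun j => ((3 * K + H j : ℕ) : ℝ) * τ j) 𝒰 (𝓝 0) := by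
    have h3 : Tendsto (fun j => (3 * K : ℝ) * τ j + (H j : ℝ) * τ j) atTop (𝓝 ((3 * K : ℝ) * 0 + 0)) :=
      (hτ0.const_mul _).add hτ
    rw [mul_zero, add_zero] at h3
    refine (h3.mono_left h𝒰).congr fun j => ?_
    push_cast
    ring
  have hΦ : Tendsto (fun j => Real.sqrt (av T (w j) (M j) (H j) (x j) (fun y => ‖Df T f K c y‖ ^ 2)) +
      B * Real.sqrt (∑ h ∈ range (2 * K + 1), ‖c h‖ ^ 2 + A ^ 2 * (η j + (3 * K + H j : ℕ) * τ j)) +
      (2 * K * B + 4 * K * B * A) / H j) 𝒰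
      (𝓝 (Real.sqrt (∫ y, ‖Df T f K c y‖ ^ 2 ∂(κ : Measure X)) +
        B * Real.sqrt (∑ h ∈ range (2 * K + 1), ‖c h‖ ^ 2 + A ^ 2 * (0 + 0)) + 0)) := by
    refine Tendsto.add (Tendsto.add ?_ ?_) ?_
    · exact (Real.continuous_sqrt.tendsto _).comp (hlim' _ ((Df_cont T hT f hf K c).norm.pow 2))
    · refine Tendsto.const_mul _ ((Real.continuous_sqrt.tendsto _).comp ?_)
      exact tendsto_const_nhds.add ((hηl.add hτ1).const_mul _)
    · exact tendsto_const_nhds.div_atTop hHr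
  have hval : Real.sqrt (∫ y, ‖Df T f K c y‖ ^ 2 ∂(κ : Measure X)) +
        B * Real.sqrt (∑ h ∈ range (2 * K + 1), ‖c h‖ ^ 2 + A ^ 2 * (0 + 0)) + 0 < ε := by
    have h3 : Real.sqrt δ = ε / (2 * (1 + B)) := by
      rw [hδ]
      exact Real.sqrt_sq (by positivity)
    have h4 := Real.sqrt_le_sqrt h2
    have h5 := Real.sqrt_le_sqrt h1
    rw [h3] at h4 h5
    have h6 := mul_le_mul_of_nonneg_left h5 hB0
    have h7 : ε / (2 * (1 + B)) + B * (ε / (2 * (1 + B))) = ε / 2 := by
      field_simp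
    simp only [add_zero, mul_zero]
    linarith
  have h3 := hΦ.eventually_lt_const hval
  filter_upwards [h3] with j hj
  rw [Real.dist_eq, sub_zero, abs_of_nonneg]
  · exact (hbound j).trans_lt hj
  · unfold Qw
    exact div_nonneg (sum_nonneg fun n _ => mul_nonneg ((hw j).nn n) (norm_nonneg _)) (Nat.cast_nonneg _)

end

end Pool.Agent.X23.SS
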