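import Pool.Agent.X23.SS4
import Pool.Agent.Y842.CX.Nat

/-!
Orbits of functions with singular spectral measure against sequences without autocorrelation:
uniform statements (helper23).
-/

set_option autoImplicit false

open Finset Filter Topology MeasureTheory AddCircle

namespace Pool.Agent.X23.SS

open Pool.Agent.Y842.CX (Wt L cr Fam natw natw_wt flt flt_iff fam_nat L_nat AP kills_AP)

section
variable {X : Type} [MetricSpace X] [CompactSpace X] [MeasurableSpace X] [BorelSpace X]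

/-- **the uniform statement** -/
theorem uniform {V : Type*} [NormedAddCommGroup V] [InnerProductSpace ℂ V] (T : X → X) (hT : Continuous T)
    (f : X → ℂ) (hf : Continuous f) (B : ℝ) (hB : ∀ x, ‖f x‖ ≤ B)
    (hS : ∀ κ : Measure X, IsProbabilityMeasure κ → MeasurePreserving T κ κ → Sing T κ f)
    {ι : Type} {l : Filter ι} {w : ι → ℕ → ℝ} {M : ι → ℕ} {τ : ι → ℝ} (hF : Fam l w M 1 τ)
    (hone : ∀ᶠ i in l, ∑ n ∈ range (M i), w i n = 1) {Θ : Type} (v : Θ → ℕ → V) (hv : ∀ θ n, ‖v θ n‖ ≤ 1)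
    (hc : ∀ k : ℕ, 1 ≤ k → ∀ ε : ℝ, 0 < ε → ∀ᶠ i in l, ∀ θ, ‖L (w i) (M i) (cr (v θ) k)‖ ≤ ε)
    (ε : ℝ) (hε : 0 < ε) : ∃ H₀ : ℕ, ∀ H : ℕ, H₀ ≤ H → ∀ᶠ i in l, ∀ (θ : Θ) (x : ℕ → X),
      Qw T f (v θ) (w i) (M i) H x ≤ ε := by
  by_contra hcon
  push Not at hcon
  have hstep : ∀ j : ℕ, ∃ (H : ℕ) (i : ι) (θ : Θ) (x : ℕ → X), j + 1 ≤ H ∧ ε < Qw T f (v θ) (w i) (M i) H x ∧
      Wt (w i) (M i) 1 (τ i) ∧ ∑ n ∈ range (M i), w i n = 1 ∧ (H : ℝ) * τ i ≤ 1 / ((j : ℝ) + 1) ∧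
      ∀ k ∈ Ico 1 (j + 1), ∀ θ, ‖L (w i) (M i) (cr (v θ) k)‖ ≤ 1 / ((j : ℝ) + 1) := by
    intro j
    obtain ⟨H, hH, hfr⟩ := hcon (j + 1)
    have hj : (0 : ℝ) < 1 / ((j : ℝ) + 1) := by positivity
    have hH0 : (0 : ℝ) < H := by exact_mod_cast (by omega : 0 < H)
    have h1 : ∀ᶠ i in l, τ i < 1 / ((j : ℝ) + 1) / H :=
      hF.lim.eventually_lt_const (by positivity)
    have h2 : ∀ᶠ i in l, ∀ k ∈ Ico 1 (j + 1), ∀ θ, ‖L (w i) (M i) (cr (v θ) k)‖ ≤ 1 / ((j : ℝ) + 1) := by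
      rw [Filter.eventually_all_finset]
      intro k hk
      exact hc k (mem_Ico.1 hk).1 _ hj
    obtain ⟨i, ⟨θ, x, h3⟩, h4, h5, h6, h7⟩ := (hfr.and_eventually (hF.wt.and (hone.and (h1.and h2)))).exists
    refine ⟨H, i, θ, x, hH, h3, h4, h5, ?_, h7⟩
    rw [lt_div_iff₀ hH0] at h6
    linarith
  choose H i θ x h1 h2 h3 h4 h5 h6 using hstep
  have hz : Tendsto (fun j : ℕ => 1 / ((j : ℝ) + 1)) atTop (𝓝 0) := tendsto_one_div_add_atTop_nhds_zero_nat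
  have hlim := seq_lim T hT f hf B hB hS (fun j => w (i j)) (fun j => M (i j)) H (fun j => τ (i j))
    (fun j => v (θ j)) x h3 h4 (fun j => (Nat.le_add_left 1 j).trans (h1 j))
    (tendsto_atTop_mono (fun j => (Nat.le_succ j).trans (h1 j)) tendsto_id)
    (squeeze_zero (fun j => mul_nonneg (Nat.cast_nonneg _) (h3 j).τ_nonneg) h5 hz)
    (fun j n => hv _ _) (fun k hk => by
      refine squeeze_zero' (Eventually.of_forall fun _ => norm_nonneg _) ?_ hz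
      filter_upwards [eventually_ge_atTop k] with j hj
      exact h6 j k (mem_Ico.2 ⟨hk, by omega⟩) (θ j))
  obtain ⟨j, hj⟩ := (hlim.eventually_lt_const hε).exists
  exact absurd hj (not_lt.2 (h2 j).le)

end

lemma natw_one (N : ℕ) (hN : 1 ≤ N) : ∑ n ∈ range N, natw N n = 1 := by
  have hN0 : (0 : ℝ) < N := by exact_mod_cast hN
  have e : ∑ n ∈ range N, natw N n = ∑ n ∈ range N, 1 / (N : ℝ) :=
    sum_congr rfl fun n hn => by
      unfold natw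
      rw [if_pos (mem_range.1 hn)]
  rw [e, sum_const, card_range, nsmul_eq_mul]
  field_simp

lemma Qw_nat {X : Type} {V : Type*} [NormedAddCommGroup V] [InnerProductSpace ℂ V] (T : X → X) (f : X → ℂ)
    (v : ℕ → V) (N H : ℕ) (hN : 1 ≤ N) (hH : 1 ≤ H) (x : ℕ → X) (ε : ℝ)
    (h : Qw T f v (natw N) N H x ≤ ε) :
    ∑ n ∈ range N, ‖∑ m ∈ range H, f (T^[m] (x n)) • v (n + m)‖ ≤ ε * H * N := by
  have hN0 : (0 : ℝ) < N := by exact_mod_cast hN
  have hH0 : (0 : ℝ) < H := by exact_mod_cast hH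
  unfold Qw at h
  have e : ∑ n ∈ range N, natw N n * ‖∑ m ∈ range H, f (T^[m] (x n)) • v (n + m)‖ =
      (∑ n ∈ range N, ‖∑ m ∈ range H, f (T^[m] (x n)) • v (n + m)‖) / N := by
    rw [sum_div]
    refine sum_congr rfl fun n hn => ?_
    unfold natw
    rw [if_pos (mem_range.1 hn)]
    ring
  rw [e, div_div, div_le_iff₀ (by positivity)] at h
  linarith

/-- from windows to long sums -/
lemma long {V : Type*} [NormedAddCommGroup V] [InnerProductSpace ℂ V] (φ : ℕ → V) (b : ℝ) (hφ : ∀ n, ‖φ n‖ ≤ b)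
    (N H : ℕ) (hH : 1 ≤ H) (ε : ℝ) (h : ∑ n ∈ range N, ‖∑ m ∈ range H, φ (n + m)‖ ≤ ε * H * N) :
    ‖∑ n ∈ range N, φ n‖ ≤ ε * N + 2 * H * b := by
  have hb : 0 ≤ b := (norm_nonneg _).trans (hφ 0)
  have hH0 : (0 : ℝ) < H := by exact_mod_cast hH
  have h1 : ‖∑ n ∈ range N, ∑ m ∈ range H, φ (n + m) - (H : ℂ) • ∑ n ∈ range N, φ n‖ ≤ H * (2 * H * b) := by
    rw [sum_comm]
    have e1 : (H : ℂ) • ∑ n ∈ range N, φ n = ∑ m ∈ range H, ∑ n ∈ range N, φ n := by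
      rw [sum_const, card_range, Nat.cast_smul_eq_nsmul]
    rw [e1, ← sum_sub_distrib]
    refine (norm_sum_le _ _).trans ?_
    calc ∑ m ∈ range H, ‖∑ n ∈ range N, φ (n + m) - ∑ n ∈ range N, φ n‖ ≤ ∑ m ∈ range H, 2 * (H : ℝ) * b := by
          refine sum_le_sum fun m hm => (shift_err φ b hφ N m).trans ?_
          apply mul_le_mul_of_nonneg_right _ hb
          have : (m : ℝ) ≤ H := by exact_mod_cast (mem_range.1 hm).le
          linarith
      _ = H * (2 * H * b) := by rw [sum_const, card_range, nsmul_eq_mul]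
  have h2 : ‖∑ n ∈ range N, ∑ m ∈ range H, φ (n + m)‖ ≤ ε * H * N := (norm_sum_le _ _).trans h
  have h3 : ‖(H : ℂ) • ∑ n ∈ range N, φ n‖ ≤ H * (ε * N + 2 * H * b) := by
    have := norm_le_norm_add_norm_sub (∑ n ∈ range N, ∑ m ∈ range H, φ (n + m)) ((H : ℂ) • ∑ n ∈ range N, φ n)
    nlinarith
  rw [norm_smul, Complex.norm_natCast] at h3
  exact le_of_mul_le_mul_left h3 hH0

end Pool.Agent.X23.SS
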